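import Pool.Agent.N526.CP.Stm2

/-!
# CPN: common lemmas for the explicit radii (helper374)
-/

set_option autoImplicit false

open MeasureTheory Metric Set

namespace Pool.Agent.N526.CP.GDc

open Pool.Agent.H241R3.FV

variable {d : ℕ}

lemma cont0 : Continuous fun θ : Sph (d + 1) => (θ : E (d + 1)) 0 := by
  have h : Continuous fun x : E (d + 1) => x 0 := by fun_prop
  exact h.comp continuous_subtype_val

lemma sq_le (θ : Sph (d + 1)) : (θ : E (d + 1)) 0 ^ 2 ≤ 1 := by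
  have hθ : ‖(θ : E (d + 1))‖ = 1 := by simpa using θ.2
  have h1 := EuclideanSpace.real_norm_sq_eq (θ : E (d + 1))
  rw [hθ, one_pow] at h1
  have h2 := Finset.single_le_sum (f := fun i => (θ : E (d + 1)) i ^ 2) (fun i _ => sq_nonneg _)
    (Finset.mem_univ 0)
  simp only at h2
  linarith

lemma integ (hp : IsProbabilityMeasure (sg (d + 1))) {f : Sph (d + 1) → ℝ} (hf : Continuous f) :
    Integrable f (sg (d + 1)) :=
  hf.integrable_of_hasCompactSupport (HasCompactSupport.of_compactSpace f)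

lemma mono (hp : IsProbabilityMeasure (sg (d + 1))) {f g : Sph (d + 1) → ℝ} (hf : Continuous f)
    (hg : Continuous g) (h : ∀ θ, f θ ≤ g θ) : ∫ θ, f θ ∂(sg (d + 1)) ≤ ∫ θ, g θ ∂(sg (d + 1)) :=
  integral_mono (integ hp hf) (integ hp hg) h

/-- integrals of polynomials in `x = θ_0 ^ 2` -/
lemma poly (hp : IsProbabilityMeasure (sg (d + 1))) (hM : S_MOM) (hd : 1 ≤ d) (a b c e : ℝ) :
    ∫ θ : Sph (d + 1), (a + b * (θ : E (d + 1)) 0 ^ 2 + c * ((θ : E (d + 1)) 0 ^ 2) ^ 2 +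
      e * ((θ : E (d + 1)) 0 ^ 2) ^ 3) ∂(sg (d + 1)) =
    a + b * (1 / (d + 1)) + c * (3 / ((d + 1) * (d + 3))) +
      e * (15 / ((d + 1) * (d + 3) * (d + 5))) := by
  obtain ⟨h1, h2, h3⟩ := hM d hd
  have c0 : Continuous fun θ : Sph (d + 1) => (θ : E (d + 1)) 0 := cont0
  have i0 : Integrable (fun _ : Sph (d + 1) => a) (sg (d + 1)) := integ hp continuous_const
  have i1 : Integrable (fun θ : Sph (d + 1) => b * (θ : E (d + 1)) 0 ^ 2) (sg (d + 1)) :=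
    integ hp (by fun_prop)
  have i2 : Integrable (fun θ : Sph (d + 1) => c * ((θ : E (d + 1)) 0 ^ 2) ^ 2) (sg (d + 1)) :=
    integ hp (by fun_prop)
  have i3 : Integrable (fun θ : Sph (d + 1) => e * ((θ : E (d + 1)) 0 ^ 2) ^ 3) (sg (d + 1)) :=
    integ hp (by fun_prop)
  have e2 : ∫ θ : Sph (d + 1), ((θ : E (d + 1)) 0 ^ 2) ^ 2 ∂(sg (d + 1)) =
      3 / ((d + 1 : ℝ) * (d + 3)) := by
    rw [← h2]
    refine integral_congr_ae (Filter.Eventually.of_forall fun θ => ?_)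
    simp only [← pow_mul]
  have e3 : ∫ θ : Sph (d + 1), ((θ : E (d + 1)) 0 ^ 2) ^ 3 ∂(sg (d + 1)) =
      15 / ((d + 1 : ℝ) * (d + 3) * (d + 5)) := by
    rw [← h3]
    refine integral_congr_ae (Filter.Eventually.of_forall fun θ => ?_)
    simp only [← pow_mul]
  have i01 : Integrable (fun θ : Sph (d + 1) => a + b * (θ : E (d + 1)) 0 ^ 2) (sg (d + 1)) :=
    i0.add i1
  have i012 : Integrable (fun θ : Sph (d + 1) => a + b * (θ : E (d + 1)) 0 ^ 2 +
      c * ((θ : E (d + 1)) 0 ^ 2) ^ 2) (sg (d + 1)) := i01.add i2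
  rw [integral_add i012 i3, integral_add i01 i2, integral_add i0 i1,
    integral_const_mul, integral_const_mul, integral_const_mul, h1, e2, e3, integral_const]
  simp

lemma cont_pow (s : ℝ) (n : ℕ) : Continuous fun θ : Sph (d + 1) =>
    (√(1 - (s * (θ : E (d + 1)) 0) ^ 2)) ^ n := by
  have c0 : Continuous fun θ : Sph (d + 1) => (θ : E (d + 1)) 0 := cont0
  fun_prop

lemma u_lt {s : ℝ} (h0 : 0 ≤ s) (h1 : s < 1) (θ : Sph (d + 1)) :
    (s * (θ : E (d + 1)) 0) ^ 2 < 1 := by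
  have h2 := sq_le θ
  have h3 : s ^ 2 < 1 := by nlinarith
  rw [mul_pow]
  have h4 : 0 ≤ (θ : E (d + 1)) 0 ^ 2 := sq_nonneg _
  nlinarith [sq_nonneg s]

lemma cont_inv {s : ℝ} (h0 : 0 ≤ s) (h1 : s < 1) : Continuous fun θ : Sph (d + 1) =>
    (√(1 - (s * (θ : E (d + 1)) 0) ^ 2))⁻¹ := by
  have c1 := cont_pow (d := d) s 1
  simp only [pow_one] at c1
  refine c1.inv₀ fun θ => ?_
  have := u_lt h0 h1 θ
  exact (Real.sqrt_pos.2 (by linarith)).ne'

/-- `√(1-u) ^ n ≤ 1 - n u / 2 + n² u² / 8` -/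
lemma sqrt_pow_le {u : ℝ} (h0 : 0 ≤ u) (n : ℕ) :
    (√(1 - u)) ^ n ≤ 1 - n * u / 2 + (n * u) ^ 2 / 8 := by
  have h1 : √(1 - u) ≤ Real.exp (-(u / 2)) := by
    rw [Real.sqrt_le_left (Real.exp_pos _).le, ← Real.exp_nat_mul]
    have := Real.one_sub_le_exp_neg u
    refine this.trans (le_of_eq ?_)
    congr 1
    push_cast
    ring
  have h2 : (√(1 - u)) ^ n ≤ Real.exp (-(n * u / 2)) := by
    calc (√(1 - u)) ^ n ≤ Real.exp (-(u / 2)) ^ n := by gcongr
      _ = Real.exp (-(n * u / 2)) := by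
          rw [← Real.exp_nat_mul]
          congr 1
          ring
  set z := n * u / 2 with hz
  have hz0 : 0 ≤ z := by positivity
  have h3 : Real.exp (-z) ≤ 1 - z + z ^ 2 / 2 := by
    have h4 := Real.quadratic_le_exp_of_nonneg hz0
    rw [Real.exp_neg, inv_le_comm₀ (Real.exp_pos _) (by nlinarith [sq_nonneg (z - 1)])]
    refine le_trans ?_ h4
    rw [inv_le_iff_one_le_mul₀ (by nlinarith [sq_nonneg (z - 1)])]
    nlinarith [pow_nonneg hz0 4, sq_nonneg (z ^ 2)]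
  have h5 : (n * u : ℝ) = 2 * z := by rw [hz]; ring
  calc (√(1 - u)) ^ n ≤ Real.exp (-z) := h2
    _ ≤ 1 - z + z ^ 2 / 2 := h3
    _ = _ := by
        rw [h5, hz]
        ring

/-- `√(1-u) ≤ 1 - u / 2` -/
lemma sqrt_le_lin {u : ℝ} (h1 : u ≤ 1) : √(1 - u) ≤ 1 - u / 2 := by
  rw [Real.sqrt_le_left (by linarith)]
  nlinarith [sq_nonneg u]

/-- `1 + u / 2 ≤ (√(1-u))⁻¹` -/
lemma inv_ge {u : ℝ} (h0 : 0 ≤ u) (h1 : u < 1) : 1 + u / 2 ≤ (√(1 - u))⁻¹ := by
  have h2 := sqrt_le_lin h1.le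
  have h3 : 0 < √(1 - u) := Real.sqrt_pos.2 (by linarith)
  rw [le_inv_comm₀ (by linarith) h3]
  refine h2.trans ?_
  rw [← one_div, le_div_iff₀ (by linarith)]
  nlinarith [sq_nonneg u]

end Pool.Agent.N526.CP.GDc
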