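import Pool.Agent.N526.CP.Stm

/-!
# CPN/GRAM: two integrals over the sphere (helper645)
-/

set_option autoImplicit false

open MeasureTheory Metric Set Filter Topology Matrix

namespace Pool.Agent.N526.CP.GRAM

open Pool.Agent.H241R3.FV

variable {n : ℕ}

lemma inn_sum (u v : E n) : inner ℝ u v = ∑ i, u i * v i := by
  rw [PiLp.inner_apply]
  exact Finset.sum_congr rfl fun i _ => by simp [mul_comm]

/-- the linear map of a matrix `1 + a X Xᵀ` -/
lemma cl_rank_one (X v : E n) (a : ℝ) (A : Matrix (Fin n) (Fin n) ℝ)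
    (hA : ∀ i j, A i j = (if i = j then 1 else 0) + X i * X j * a) :
    cl A v = v + (a * inner ℝ X v) • X := by
  ext i
  unfold cl
  rw [Matrix.ofLp_toEuclideanCLM]
  simp only [Matrix.mulVec, dotProduct, hA, PiLp.add_apply, PiLp.smul_apply, smul_eq_mul]
  have h1 : ∀ j, ((if i = j then 1 else 0) + X i * X j * a) * v j =
      (if i = j then v j else 0) + X i * a * (X j * v j) := by
    intro j
    split_ifs <;> ring
  rw [Finset.sum_congr rfl fun j _ => h1 j, Finset.sum_add_distrib, ← Finset.mul_sum, inn_sum]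
  simp
  ring

lemma cl_L0 (X v : E n) :
    cl (L0 X) v = v + (-(1 + √(1 - ‖X‖ ^ 2))⁻¹ * inner ℝ X v) • X :=
  cl_rank_one X v _ _ fun i j => by unfold L0; ring

lemma cl_L1 (X v : E n) :
    cl (L1 X) v = v + ((√(1 - ‖X‖ ^ 2) * (1 + √(1 - ‖X‖ ^ 2)))⁻¹ * inner ℝ X v) • X :=
  cl_rank_one X v _ _ fun i j => by unfold L1; ring

lemma cl_mul (A B : Matrix (Fin n) (Fin n) ℝ) (v : E n) : cl A (cl B v) = cl (A * B) v := by
  unfold cl
  rw [map_mul]
  rfl

lemma cl_one (v : E n) : cl (1 : Matrix (Fin n) (Fin n) ℝ) v = v := by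
  unfold cl
  rw [map_one]
  rfl

lemma det_cl (A : Matrix (Fin n) (Fin n) ℝ) : (cl A).det = A.det := by
  unfold cl ContinuousLinearMap.det
  rw [Matrix.coe_toEuclideanCLM_eq_toEuclideanLin]
  exact LinearMap.det_toLpLin _ _

/-- the square root of `1 - X Xᵀ` -/
noncomputable def Ae (h : S_LZ) (X : E n) (hX : ‖X‖ < 1) : E n ≃L[ℝ] E n :=
  ContinuousLinearEquiv.equivOfInverse (cl (L0 X)) (cl (L1 X))
    (fun v => by rw [cl_mul, (h n X hX).2.1, cl_one])
    (fun v => by rw [cl_mul, (h n X hX).1, cl_one])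

lemma Ae_apply (h : S_LZ) (X : E n) (hX : ‖X‖ < 1) (v : E n) : Ae h X hX v = cl (L0 X) v := rfl

lemma Ae_det (h : S_LZ) (X : E n) (hX : ‖X‖ < 1) :
    |(Ae h X hX : E n →L[ℝ] E n).det| = √(1 - ‖X‖ ^ 2) := by
  have h1 : (Ae h X hX : E n →L[ℝ] E n) = cl (L0 X) := rfl
  rw [h1, det_cl, (h n X hX).2.2.1, abs_of_nonneg (Real.sqrt_nonneg _)]

section
variable {X : E n} (hX : ‖X‖ < 1)
include hX

lemma c_pos : 0 < √(1 - ‖X‖ ^ 2) := by
  apply Real.sqrt_pos.2
  have := norm_nonneg X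
  nlinarith

lemma c_sq : √(1 - ‖X‖ ^ 2) ^ 2 = 1 - ‖X‖ ^ 2 := by
  apply Real.sq_sqrt
  have := norm_nonneg X
  nlinarith

lemma inn_L0_L1 (v u : E n) : inner ℝ (cl (L0 X) v) (cl (L1 X) u) = inner ℝ v u := by
  have hc := c_pos hX
  have hc2 := c_sq hX
  rw [cl_L0, cl_L1]
  simp only [inner_add_left, inner_add_right, inner_smul_left, inner_smul_right,
    real_inner_self_eq_norm_sq, RCLike.conj_to_real]
  obtain ⟨c, hcd⟩ : ∃ c : ℝ, c = √(1 - ‖X‖ ^ 2) := ⟨_, rfl⟩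
  rw [← hcd] at hc hc2 ⊢
  have h1 : ‖X‖ ^ 2 = 1 - c ^ 2 := by linarith
  rw [h1, real_inner_comm X v]
  have h2 : 1 + c ≠ 0 := by positivity
  have h3 : c ≠ 0 := hc.ne'
  field_simp
  ring

lemma inn_L1 (u v : E n) : inner ℝ (cl (L1 X) u) (cl (L1 X) v) =
    inner ℝ u v + inner ℝ X u * inner ℝ X v / (1 - ‖X‖ ^ 2) := by
  have hc := c_pos hX
  have hc2 := c_sq hX
  rw [cl_L1, cl_L1]
  simp only [inner_add_left, inner_add_right, inner_smul_left, inner_smul_right,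
    real_inner_self_eq_norm_sq, RCLike.conj_to_real]
  obtain ⟨c, hcd⟩ : ∃ c : ℝ, c = √(1 - ‖X‖ ^ 2) := ⟨_, rfl⟩
  rw [← hcd] at hc hc2 ⊢
  have h1 : ‖X‖ ^ 2 = 1 - c ^ 2 := by linarith
  rw [h1, real_inner_comm X u]
  have h2 : 1 + c ≠ 0 := by positivity
  have h3 : c ≠ 0 := hc.ne'
  have h4 : 1 - (1 - c ^ 2) = c ^ 2 := by ring
  rw [h4]
  field_simp
  ring

lemma norm_L0 {v : E n} (hv : ‖v‖ = 1) : ‖cl (L0 X) v‖ = √(1 - (inner ℝ X v) ^ 2) := by
  have hc := c_pos hX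
  have hc2 := c_sq hX
  have h0 : ‖cl (L0 X) v‖ ^ 2 = 1 - (inner ℝ X v) ^ 2 := by
    rw [← real_inner_self_eq_norm_sq, cl_L0]
    simp only [inner_add_left, inner_add_right, inner_smul_left, inner_smul_right,
      real_inner_self_eq_norm_sq, RCLike.conj_to_real]
    obtain ⟨c, hcd⟩ : ∃ c : ℝ, c = √(1 - ‖X‖ ^ 2) := ⟨_, rfl⟩
    rw [← hcd] at hc hc2 ⊢
    have h1 : ‖X‖ ^ 2 = 1 - c ^ 2 := by linarith
    rw [h1, real_inner_comm X v, hv]
    have h2 : 1 + c ≠ 0 := by positivity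
    field_simp
    ring
  rw [← h0, Real.sqrt_sq (norm_nonneg _)]

end

/-- the second moments of the sphere -/
lemma moments (h : S_SPH) {d : ℕ} (hd : 1 ≤ d) (u v : E (d + 1)) :
    ∫ θ, ip u θ * ip v θ ∂(sg (d + 1)) = inner ℝ u v / (d + 1) := by
  obtain ⟨hp, -, h1⟩ := h d hd
  have hd0 : (0 : ℝ) < d := by exact_mod_cast hd
  obtain ⟨m, hm⟩ : ∃ m : ℝ, m = ∫ θ : Sph (d + 1), (θ : E (d + 1)) 0 ^ 2 ∂(sg (d + 1)) :=
    ⟨_, rfl⟩
  have hcont : Continuous fun θ : Sph (d + 1) => (θ : E (d + 1)) 0 ^ 2 := by fun_prop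
  have hint : Integrable (fun θ : Sph (d + 1) => (θ : E (d + 1)) 0 ^ 2) (sg (d + 1)) :=
    hcont.integrable_of_hasCompactSupport (HasCompactSupport.of_compactSpace _)
  have hm1 : ∫ θ : Sph (d + 1), (1 - (θ : E (d + 1)) 0 ^ 2) ∂(sg (d + 1)) = 1 - m := by
    rw [integral_sub (integrable_const _) hint, ← hm]
    simp
  have h2 : ∀ e u v : E (d + 1), ‖e‖ = 1 → ∫ θ, ip u θ * ip v θ ∂(sg (d + 1)) =
      (1 - m) / d * (inner ℝ u v - inner ℝ e u * inner ℝ e v) +
        m * (inner ℝ e u * inner ℝ e v) := by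
    intro e u v he
    have h3 := h1 (fun _ => 1) e u v he continuousOn_const
    simp only [one_mul] at h3
    rw [h3, hm1, ← hm]
  have h01 : (1 : Fin (d + 1)) ≠ 0 := by
    intro h
    have h3 := congrArg Fin.val h
    rw [Fin.val_one'] at h3
    have h4 : 1 % (d + 1) = 1 := Nat.mod_eq_of_lt (by omega)
    rw [h4] at h3
    simp at h3
  have h3 := h2 (EuclideanSpace.single 1 1) (EuclideanSpace.single 0 1)
    (EuclideanSpace.single 0 1) (by simp)
  have h4 : ∀ θ : Sph (d + 1), ip (EuclideanSpace.single 0 1) θ = (θ : E (d + 1)) 0 := by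
    intro θ
    unfold ip
    rw [EuclideanSpace.inner_single_left]
    simp
  have h5 : ∫ θ : Sph (d + 1), ip (EuclideanSpace.single 0 1) θ *
      ip (EuclideanSpace.single 0 1) θ ∂(sg (d + 1)) = m := by
    rw [hm]
    refine integral_congr_ae (Eventually.of_forall fun θ => ?_)
    simp only [h4]
    ring
  have h6 : inner ℝ (EuclideanSpace.single (1 : Fin (d + 1)) (1 : ℝ))
      (EuclideanSpace.single (0 : Fin (d + 1)) (1 : ℝ)) = (0 : ℝ) := by
    rw [EuclideanSpace.inner_single_left]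
    simp [h01]
  have h7 : inner ℝ (EuclideanSpace.single (0 : Fin (d + 1)) (1 : ℝ))
      (EuclideanSpace.single (0 : Fin (d + 1)) (1 : ℝ)) = (1 : ℝ) := by
    rw [EuclideanSpace.inner_single_left]
    simp
  rw [h5, h6, h7] at h3
  have h8 : (1 - m) / d = m := by linarith
  have h9 : m = 1 / (d + 1) := by
    rw [div_eq_iff hd0.ne'] at h8
    rw [eq_div_iff (by positivity)]
    linarith
  rw [h2 (EuclideanSpace.single 0 1) u v (by simp), h8, h9]
  ring

theorem t : S_CHV → S_SPH → S_LZ → S_GRAM := by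
  intro hchv hsph hlz d hd X hX
  have hp := (hsph d hd).1
  have hc := c_pos hX
  have hn : ∀ θ : Sph (d + 1), ‖Ae hlz X hX (θ : E (d + 1))‖ = √(1 - ip X θ ^ 2) := by
    intro θ
    have hθ : ‖(θ : E (d + 1))‖ = 1 := by simp
    rw [Ae_apply]
    exact norm_L0 hX hθ
  have hpos : ∀ θ : Sph (d + 1), 0 < √(1 - ip X θ ^ 2) := by
    intro θ
    have hθ : ‖(θ : E (d + 1))‖ = 1 := by simp
    rw [← hn, norm_pos_iff]
    intro h0
    have h1 : (θ : E (d + 1)) = 0 := (Ae hlz X hX).map_eq_zero_iff.1 h0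
    rw [h1, norm_zero] at hθ
    norm_num at hθ
  constructor
  · have h1 := hchv (d + 1) (by omega) (Ae hlz X hX) (fun _ => 1) continuous_const
    rw [Ae_det] at h1
    simp only [hn, one_mul, integral_const, smul_eq_mul, mul_one, probReal_univ] at h1
    exact eq_inv_of_mul_eq_one_right h1
  · intro u v
    obtain ⟨u', hu'⟩ : ∃ u' : E (d + 1), u' = cl (L1 X) u := ⟨_, rfl⟩
    obtain ⟨v', hv'⟩ : ∃ v' : E (d + 1), v' = cl (L1 X) v := ⟨_, rfl⟩
    have h1 := hchv (d + 1) (by omega) (Ae hlz X hX)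
      (fun y => inner ℝ y u' * inner ℝ y v') (by fun_prop)
    rw [Ae_det] at h1
    have h2 : ∀ θ : Sph (d + 1), inner ℝ (‖Ae hlz X hX (θ : E (d + 1))‖⁻¹ •
        Ae hlz X hX (θ : E (d + 1))) u' * inner ℝ (‖Ae hlz X hX (θ : E (d + 1))‖⁻¹ •
        Ae hlz X hX (θ : E (d + 1))) v' * ‖Ae hlz X hX (θ : E (d + 1))‖⁻¹ ^ (d + 1) =
        ((√(1 - ip X θ ^ 2))⁻¹) ^ (d + 3) * (ip u θ * ip v θ) := by
      intro θ
      rw [hn, inner_smul_left, inner_smul_left, Ae_apply, hu', hv', inn_L0_L1 hX, inn_L0_L1 hX]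
      simp only [RCLike.conj_to_real]
      unfold ip
      rw [real_inner_comm u, real_inner_comm v]
      ring
    have h3 : ∫ θ : Sph (d + 1), inner ℝ (θ : E (d + 1)) u' * inner ℝ (θ : E (d + 1)) v'
        ∂(sg (d + 1)) = inner ℝ u' v' / (d + 1) := by
      rw [← moments hsph hd u' v']
      refine integral_congr_ae (Eventually.of_forall fun θ => ?_)
      simp only [ip]
      rw [real_inner_comm u', real_inner_comm v']
    rw [h3, integral_congr_ae (Eventually.of_forall h2), hu', hv', inn_L1 hX] at h1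
    have h4 : ∀ I a c : ℝ, 0 < c → c * I = a / (d + 1) → I = c⁻¹ / (d + 1) * a := by
      intro I a c hc h
      have : (d : ℝ) + 1 ≠ 0 := by positivity
      field_simp
      field_simp at h
      linarith
    exact h4 _ _ _ hc h1

end Pool.Agent.N526.CP.GRAM
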