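import Pool.Agent.N526.CP.Stm2
import Pool.Agent.H241R3.FV.TPolar

/-!
# CPN/MOM: moments of a coordinate on the sphere (helper756)
-/

set_option autoImplicit false

open MeasureTheory Metric Set Filter Topology InnerProductGeometry

namespace Pool.Agent.N526.CP.MOM

open Pool.Agent.H241R3.FV Pool.Agent.N526.CP

/-- the integral of `cos ^ (2 k) sin ^ (d - 1)` -/
noncomputable def J (d k : ℕ) : ℝ :=
  ∫ t in (0 : ℝ)..Real.pi, Real.cos t ^ (2 * k) * Real.sin t ^ (d - 1)

theorem J_rec (d k : ℕ) (hd : 1 ≤ d) :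
    (2 * k + 1 + d : ℝ) * J d (k + 1) = (2 * k + 1 : ℝ) * J d k := by
  obtain ⟨e, rfl⟩ : ∃ e, d = e + 1 := ⟨d - 1, by omega⟩
  unfold J
  simp only [Nat.add_sub_cancel]
  have h1 : ∀ t ∈ Set.uIcc 0 Real.pi,
      HasDerivAt (fun t => Real.cos t ^ (2 * k + 1) * Real.sin t ^ (e + 1))
      ((2 * k + 1 + (e + 1) : ℝ) * (Real.cos t ^ (2 * (k + 1)) * Real.sin t ^ e) -
        (2 * k + 1 : ℝ) * (Real.cos t ^ (2 * k) * Real.sin t ^ e)) t := by
    intro t _
    have h2 := ((Real.hasDerivAt_cos t).fun_pow (2 * k + 1)).fun_mul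
      ((Real.hasDerivAt_sin t).fun_pow (e + 1))
    refine h2.congr_deriv ?_
    simp only [Nat.add_sub_cancel]
    push_cast
    have h3 : Real.sin t ^ 2 = 1 - Real.cos t ^ 2 := by
      rw [← Real.sin_sq_add_cos_sq t]
      ring
    have h4 : Real.sin t ^ (e + 1) = Real.sin t * Real.sin t ^ e := pow_succ' _ _
    rw [h4]
    ring_nf
    rw [h3]
    ring
  have hc : Continuous fun t : ℝ =>
      (2 * k + 1 + (e + 1) : ℝ) * (Real.cos t ^ (2 * (k + 1)) * Real.sin t ^ e) -
        (2 * k + 1 : ℝ) * (Real.cos t ^ (2 * k) * Real.sin t ^ e) := by fun_prop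
  have h5 := intervalIntegral.integral_eq_sub_of_hasDerivAt h1 (hc.intervalIntegrable _ _)
  rw [intervalIntegral.integral_sub (Continuous.intervalIntegrable (by fun_prop) _ _)
    (Continuous.intervalIntegrable (by fun_prop) _ _), intervalIntegral.integral_const_mul,
    intervalIntegral.integral_const_mul] at h5
  simp only [Real.sin_pi, Real.sin_zero, zero_pow (Nat.succ_ne_zero e), mul_zero, sub_zero] at h5
  push_cast
  linarith

theorem J_pos (d : ℕ) : 0 < J d 0 := by
  unfold J
  simp only [mul_zero, pow_zero, one_mul]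
  exact integral_sin_pow_pos _

theorem om_pos (d : ℕ) : 0 < om d := by
  unfold om
  exact ENNReal.toReal_pos (measure_ball_pos _ _ one_pos).ne' measure_ball_lt_top.ne

theorem polar (d : ℕ) (hd : 1 ≤ d) (k : ℕ) :
    ∫ θ : Sph (d + 1), (θ : E (d + 1)) 0 ^ (2 * k) ∂(sig (d + 1)) = d * om d * J d k := by
  have h1 := Pool.Agent.H241R3.FV.TPolar.taskPolar d hd (fun t => Real.cos t ^ (2 * k)) (by fun_prop)
  unfold J
  rw [← h1]
  refine integral_congr_ae (Filter.Eventually.of_forall fun θ => ?_)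
  have h2 : ‖(θ : E (d + 1))‖ = 1 := by simpa using θ.2
  have h3 : Real.cos (angle (θ : E (d + 1)) (EuclideanSpace.single 0 1)) = (θ : E (d + 1)) 0 := by
    rw [InnerProductGeometry.cos_angle, h2, EuclideanSpace.norm_single,
      EuclideanSpace.inner_single_right]
    simp
  simp only [h3]

theorem mom (d : ℕ) (hd : 1 ≤ d) (k : ℕ) :
    ∫ θ : Sph (d + 1), (θ : E (d + 1)) 0 ^ (2 * k) ∂(sg (d + 1)) = J d k / J d 0 := by
  have h1 := polar d hd 0
  simp only [mul_zero, pow_zero, integral_const, smul_eq_mul, mul_one] at h1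
  have h0 : (0 : ℝ) < d * om d := by
    have : (0 : ℝ) < d := by exact_mod_cast hd
    exact mul_pos this (om_pos d)
  unfold sg
  rw [integral_smul_measure, polar d hd k, ENNReal.toReal_inv, smul_eq_mul]
  have h2 : (sig (d + 1) univ).toReal = d * om d * J d 0 := h1
  rw [h2]
  have h3 := (J_pos d).ne'
  have h4 := (om_pos d).ne'
  field_simp

theorem t : S_MOM := by
  intro d hd
  have hd' : (1 : ℝ) ≤ d := by exact_mod_cast hd
  have j0 := J_pos d
  have j1 := J_rec d 0 hd
  have j2 := J_rec d 1 hd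
  have j3 := J_rec d 2 hd
  have m1 := mom d hd 1
  have m2 := mom d hd 2
  have m3 := mom d hd 3
  norm_num at j1 j2 j3 m1 m2 m3
  have e1 : J d 1 = J d 0 / (1 + d) := by
    rw [eq_div_iff (by positivity)]
    linarith
  have e2 : J d 2 = 3 * J d 1 / (3 + d) := by
    rw [eq_div_iff (by positivity)]
    linarith
  have e3 : J d 3 = 5 * J d 2 / (5 + d) := by
    rw [eq_div_iff (by positivity)]
    linarith
  refine ⟨?_, ?_, ?_⟩
  · rw [m1, e1]
    field_simp
    ring
  · rw [m2, e2, e1]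
    field_simp
    ring
  · rw [m3, e3, e2, e1]
    field_simp
    ring

end Pool.Agent.N526.CP.MOM
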