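import Pool.Agent.N526.CP.Stm

/-!
Project CPN, part BAL: Stokes in the ball (helper99).
-/

set_option autoImplicit false

open MeasureTheory Metric Set Filter Topology Matrix

namespace Pool.Agent.N526.CP.BAL

open Pool.Agent.H241R3.FV

/-- crossing the sphere -/
theorem cross {n : ℕ} (C : NNReal) (g : E n → E n) (hg : LipschitzOnWith C g (closedBall 0 1))
    (h0 : ∀ x ∈ sphere (0 : E n) 1, g x = 0) (x y : E n) (hx : x ∈ closedBall (0 : E n) 1)
    (hy : y ∉ closedBall (0 : E n) 1) : ‖g x‖ ≤ C * dist x y := by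
  have hc : ContinuousOn (fun t : ℝ => ‖x + t • (y - x)‖) (Icc 0 1) := by fun_prop
  have h1 := intermediate_value_Icc (zero_le_one (α := ℝ)) hc
  have hx1 : ‖x‖ ≤ 1 := by simpa using hx
  have hy1 : 1 < ‖y‖ := by simpa using hy
  have h2 : (1 : ℝ) ∈ Icc (‖x + (0 : ℝ) • (y - x)‖) (‖x + (1 : ℝ) • (y - x)‖) := by
    constructor
    · simpa using hx1
    · simpa using hy1.le
  obtain ⟨t, ht, ht1⟩ := h1 h2
  simp only at ht1
  set s := x + t • (y - x) with hs
  have hs1 : s ∈ sphere (0 : E n) 1 := by simpa using ht1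
  have hs2 : s ∈ closedBall (0 : E n) 1 := sphere_subset_closedBall hs1
  have h3 := hg.dist_le_mul x hx s hs2
  rw [h0 s hs1, dist_zero_right] at h3
  refine h3.trans ?_
  apply mul_le_mul_of_nonneg_left _ C.2
  rw [dist_eq_norm, dist_eq_norm, hs]
  have e : x - (x + t • (y - x)) = t • (x - y) := by
    rw [← neg_sub y x, smul_neg]; abel
  rw [e, norm_smul, Real.norm_eq_abs, abs_of_nonneg ht.1]
  calc t * ‖x - y‖ ≤ 1 * ‖x - y‖ := mul_le_mul_of_nonneg_right ht.2 (norm_nonneg _)
    _ = _ := one_mul _

/-- zero extension is Lipschitz -/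
theorem lip_ext {n : ℕ} (C : NNReal) (g : E n → E n) (hg : LipschitzOnWith C g (closedBall 0 1))
    (h0 : ∀ x ∈ sphere (0 : E n) 1, g x = 0) :
    LipschitzWith C ((closedBall (0 : E n) 1).indicator g) := by
  apply LipschitzWith.of_dist_le_mul
  intro x y
  by_cases hx : x ∈ closedBall (0 : E n) 1 <;> by_cases hy : y ∈ closedBall (0 : E n) 1
  · rw [indicator_of_mem hx, indicator_of_mem hy]
    exact hg.dist_le_mul x hx y hy
  · rw [indicator_of_mem hx, indicator_of_notMem hy, dist_zero_right]
    exact cross C g hg h0 x y hx hy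
  · rw [indicator_of_notMem hx, indicator_of_mem hy, dist_zero_left, dist_comm]
    exact cross C g hg h0 y x hy hx
  · rw [indicator_of_notMem hx, indicator_of_notMem hy, dist_self]
    positivity

/-- coordinate -/
noncomputable def pr {n : ℕ} (k : Fin n) : E n →L[ℝ] ℝ := EuclideanSpace.proj k

/-- projection on the first `k` coordinates -/
noncomputable def P (n k : ℕ) : E n →L[ℝ] E n :=
  LinearMap.toContinuousLinearMap
    { toFun := fun x => WithLp.toLp 2 (fun i => if i.val < k then x i else 0)
      map_add' := by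
        intro x y
        ext i
        by_cases h : i.val < k <;> simp [h]
      map_smul' := by
        intro c x
        ext i
        by_cases h : i.val < k <;> simp [h] }

theorem P_apply {n k : ℕ} (x : E n) (i : Fin n) : P n k x i = if i.val < k then x i else 0 := rfl

/-- the first rows -/
def Nk {n : ℕ} (k : ℕ) (Z : Matrix (Fin n) (Fin n) ℝ) : Matrix (Fin n) (Fin n) ℝ :=
  fun i j => if i.val < k then Z i j else 0

theorem mat_P {n k : ℕ} (A B : E n →L[ℝ] E n) :
    mat (A + (P n k).comp B) = mat A + Nk k (mat B) := by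
  ext i j
  simp only [mat, Nk, Matrix.add_apply, _root_.add_apply, PiLp.add_apply,
    ContinuousLinearMap.comp_apply, P_apply]

theorem tel1 {n : ℕ} (M Z : Matrix (Fin n) (Fin n) ℝ) (k : Fin n) :
    (M + Nk (k.val + 1) Z).det - (M + Nk k.val Z).det = ((M + Nk k.val Z).updateRow k (Z k)).det := by
  have e1 : M + Nk (k.val + 1) Z = (M + Nk k.val Z).updateRow k ((M + Nk k.val Z) k + Z k) := by
    ext i j
    by_cases hi : i = k
    · subst hi
      simp [Nk, Matrix.updateRow_self]
    · rw [Matrix.updateRow_ne hi]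
      have hi' : i.val ≠ k.val := fun h => hi (Fin.ext h)
      simp only [Nk, Matrix.add_apply]
      by_cases h2 : i.val < k.val
      · have h3 : i.val < k.val + 1 := by omega
        simp [h2, h3]
      · have h3 : ¬ i.val < k.val + 1 := by omega
        simp [h2, h3]
  rw [e1, Matrix.det_updateRow_add, Matrix.updateRow_eq_self]
  ring

theorem tel {n : ℕ} (M Z : Matrix (Fin n) (Fin n) ℝ) :
    (M + Z).det - M.det = ∑ k : Fin n, ((M + Nk k.val Z).updateRow k (Z k)).det := by
  have e1 : M + Z = M + Nk n Z := by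
    ext i j
    simp [Nk, i.isLt]
  have e2 : M = M + Nk 0 Z := by
    ext i j
    simp [Nk]
  conv_lhs => rw [e1]
  conv_lhs => rw [e2]
  have e3 : M + Nk 0 Z + Nk n Z = M + Nk n Z := by rw [← e2]
  rw [e3]
  rw [← Finset.sum_range_sub (fun k => (M + Nk k Z).det) n, ← Fin.sum_univ_eq_sum_range
    (fun k => (M + Nk (k + 1) Z).det - (M + Nk k Z).det)]
  exact Finset.sum_congr rfl fun k _ => tel1 M Z k

theorem entry_le {n : ℕ} {K : NNReal} {f : E n → E n} (hf : LipschitzWith K f) (x : E n)
    (i j : Fin n) : |mat (fderiv ℝ f x) i j| ≤ K := by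
  unfold mat
  have h1 : ‖fderiv ℝ f x‖ ≤ K := norm_fderiv_le_of_lipschitz ℝ hf
  calc |(fderiv ℝ f x (EuclideanSpace.single j 1)) i|
      ≤ ‖fderiv ℝ f x (EuclideanSpace.single j 1)‖ := by
        rw [← Real.norm_eq_abs]; exact PiLp.norm_apply_le _ i
    _ ≤ ‖fderiv ℝ f x‖ * ‖(EuclideanSpace.single j 1 : E n)‖ := ContinuousLinearMap.le_opNorm _ _
    _ ≤ K * 1 := by
        apply mul_le_mul h1 _ (norm_nonneg _) K.2
        simp
    _ = K := mul_one _

theorem entry_le2 {n : ℕ} {K : NNReal} {f : E n → ℝ} (hf : LipschitzWith K f) (x : E n)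
    (j : Fin n) : |fderiv ℝ f x (EuclideanSpace.single j 1)| ≤ K := by
  have h1 : ‖fderiv ℝ f x‖ ≤ K := norm_fderiv_le_of_lipschitz ℝ hf
  calc |fderiv ℝ f x (EuclideanSpace.single j 1)|
      ≤ ‖fderiv ℝ f x‖ * ‖(EuclideanSpace.single j 1 : E n)‖ := by
        rw [← Real.norm_eq_abs]; exact ContinuousLinearMap.le_opNorm _ _
    _ ≤ K * 1 := by
        apply mul_le_mul h1 _ (norm_nonneg _) K.2
        simp
    _ = K := mul_one _

theorem meas_det {n : ℕ} {α : Type} [MeasurableSpace α] (A : α → Matrix (Fin n) (Fin n) ℝ)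
    (hA : ∀ i j, Measurable (fun x => A x i j)) : Measurable (fun x => (A x).det) := by
  simp only [Matrix.det_apply']
  refine Finset.measurable_fun_sum _ fun σ _ => ?_
  exact measurable_const.mul (Finset.measurable_fun_prod _ fun i _ => hA _ _)

theorem meas_entry {n : ℕ} (f : E n → E n) (i j : Fin n) :
    Measurable (fun x => mat (fderiv ℝ f x) i j) := by
  unfold mat
  have h1 : Measurable (fun x => fderiv ℝ f x (EuclideanSpace.single j 1)) :=
    measurable_fderiv_apply_const ℝ f _
  exact (pr i).continuous.measurable.comp h1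

theorem det_bd {n : ℕ} (A : Matrix (Fin n) (Fin n) ℝ) (K : ℝ) (h : ∀ i j, |A i j| ≤ K) :
    ‖A.det‖ ≤ (Nat.factorial n) • K ^ n := by
  have h1 := Matrix.det_le (A := A) (abv := AbsoluteValue.abs) (x := K) h
  simpa using h1

/-- the determinant of the derivative of a Lipschitz map is integrable on bounded sets -/
theorem int_det {n : ℕ} {K : NNReal} {f : E n → E n} (hf : LipschitzWith K f) (s : Set (E n))
    (hs : volume s ≠ ⊤) : IntegrableOn (fun x => (fderiv ℝ f x).det) s := by
  simp only [det_mat]
  refine Measure.integrableOn_of_bounded hs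
    (meas_det _ (meas_entry f)).aestronglyMeasurable (M := (Nat.factorial n) • (K : ℝ) ^ n) ?_
  exact Eventually.of_forall fun x => det_bd _ _ (entry_le hf x)

theorem t : S_NUL → S_BAL := by
  intro hNUL n hn K v w hv hw hvw
  have : Nontrivial (E n) := by
    have : Nonempty (Fin n) := ⟨⟨0, by omega⟩⟩
    infer_instance
  obtain ⟨V, hV, hVv⟩ := hv.extend_finite_dimension
  set z : E n → E n := (closedBall (0 : E n) 1).indicator (fun x => w x - v x) with hz
  have hzl : LipschitzWith (K + K) z := by
    apply lip_ext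
    · exact hw.sub hv
    · intro x hx
      rw [hvw x hx, sub_self]
  set KV : NNReal := lipschitzExtensionConstant (E n) * K with hKV
  -- the interpolating maps
  set f : ℕ → E n → E n := fun k x => V x + P n k (z x) with hf
  have hfl : ∀ k, LipschitzWith (KV + ‖P n k‖₊ * (K + K)) (f k) := fun k =>
    hV.add ((P n k).lipschitz.comp hzl)
  set φ : Fin n → E n → ℝ := fun k x => z x k with hφ
  have hφl : ∀ k, LipschitzWith (‖(pr k)‖₊ *
      (K + K)) (φ k) := fun k =>
    (pr k).lipschitz.comp hzl
  have hφc : ∀ k, HasCompactSupport (φ k) := by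
    intro k
    apply HasCompactSupport.intro (isCompact_closedBall (0 : E n) 1)
    intro x hx
    simp only [hφ, hz, indicator_of_notMem hx, PiLp.zero_apply]
  set g : Fin n → E n → ℝ := fun k x => ((mat (fderiv ℝ (f k.val) x)).updateRow k
    (fun j => fderiv ℝ (φ k) x (EuclideanSpace.single j 1))).det with hg
  have hg0 : ∀ k, ∫ x, g k x = 0 := by
    intro k
    exact hNUL n (f k.val) (φ k) (max _ _) ((hfl k.val).weaken (le_max_left _ _))
      ((hφl k).weaken (le_max_right _ _)) (hφc k) k
  have hout : ∀ x, x ∉ closedBall (0 : E n) 1 → z =ᶠ[𝓝 x] fun _ => (0 : E n) := by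
    intro x hx
    have : (closedBall (0 : E n) 1)ᶜ ∈ 𝓝 x := isClosed_closedBall.isOpen_compl.mem_nhds hx
    filter_upwards [this] with y hy
    exact indicator_of_notMem hy _
  have hgint : ∀ k, Integrable (g k) := by
    intro k
    have hsupp : Function.support (g k) ⊆ closedBall (0 : E n) 1 := by
      intro x hx
      by_contra hx2
      apply hx
      simp only [hg]
      apply Matrix.det_eq_zero_of_row_eq_zero k
      intro j
      rw [Matrix.updateRow_self]
      have h1 : φ k =ᶠ[𝓝 x] fun _ => (0 : ℝ) := by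
        filter_upwards [hout x hx2] with y hy
        simp only [hφ, hy, PiLp.zero_apply]
      rw [h1.fderiv_eq]
      simp
    rw [← integrableOn_iff_integrable_of_support_subset hsupp]
    have hmeas : Measurable (g k) := by
      apply meas_det
      intro i j
      by_cases hi : i = k
      · subst hi
        simp only [Matrix.updateRow_self]
        exact measurable_fderiv_apply_const ℝ _ _
      · simp only [Matrix.updateRow_ne hi]
        exact meas_entry _ _ _
    refine Measure.integrableOn_of_bounded measure_closedBall_lt_top.ne hmeas.aestronglyMeasurable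
      (M := (Nat.factorial n) • ((max (KV + ‖P n k‖₊ * (K + K))
        (‖(pr k)‖₊ * (K + K)) : NNReal) : ℝ) ^ n)
      ?_
    refine Eventually.of_forall fun x => det_bd _ _ ?_
    intro i j
    by_cases hi : i = k
    · subst hi
      rw [Matrix.updateRow_self]
      exact (entry_le2 (hφl i) x j).trans (NNReal.coe_le_coe.2 (le_max_right _ _))
    · rw [Matrix.updateRow_ne hi]
      exact (entry_le (hfl k.val) x i j).trans (NNReal.coe_le_coe.2 (le_max_left _ _))
  set W : E n → E n := fun x => V x + z x with hW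
  have hWl : LipschitzWith (KV + (K + K)) W := hV.add hzl
  have hsum : (fun x => (fderiv ℝ W x).det - (fderiv ℝ V x).det) =ᵐ[volume]
      fun x => ∑ k : Fin n, g k x := by
    filter_upwards [hV.ae_differentiableAt, hzl.ae_differentiableAt] with x h1 h2
    have e1 : fderiv ℝ W x = fderiv ℝ V x + fderiv ℝ z x := fderiv_fun_add h1 h2
    rw [det_mat, det_mat, e1]
    have e2 : mat (fderiv ℝ V x + fderiv ℝ z x) = mat (fderiv ℝ V x) + mat (fderiv ℝ z x) := by
      ext i j
      simp [mat]
    rw [e2, tel]
    refine Finset.sum_congr rfl fun k _ => ?_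
    simp only [hg]
    have e3 : fderiv ℝ (f k.val) x = fderiv ℝ V x + (P n k.val).comp (fderiv ℝ z x) := by
      have h3 : HasFDerivAt (fun y => P n k.val (z y)) ((P n k.val).comp (fderiv ℝ z x)) x :=
        (P n k.val).hasFDerivAt.comp x h2.hasFDerivAt
      exact (h1.hasFDerivAt.add h3).fderiv
    rw [e3, mat_P]
    have e4 : ∀ j, fderiv ℝ (φ k) x (EuclideanSpace.single j 1) = mat (fderiv ℝ z x) k j := by
      intro j
      have h3 : HasFDerivAt (φ k)
          ((pr k).comp (fderiv ℝ z x)) x :=
        (pr k).hasFDerivAt.comp x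
          h2.hasFDerivAt
      rw [h3.fderiv]
      rfl
    congr 2
    ext j
    exact (e4 j).symm
  have hzero : ∫ x, ((fderiv ℝ W x).det - (fderiv ℝ V x).det) = 0 := by
    rw [integral_congr_ae hsum, integral_finsetSum _ (fun k _ => hgint k)]
    exact Finset.sum_eq_zero fun k _ => hg0 k
  have hball : ∫ x in ball (0 : E n) 1, ((fderiv ℝ W x).det - (fderiv ℝ V x).det) = 0 := by
    rw [← hzero]
    apply setIntegral_eq_integral_of_ae_compl_eq_zero
    have hsph : ∀ᵐ x : E n, x ∉ sphere (0 : E n) 1 := by
      rw [ae_iff]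
      simp only [not_not]
      exact Measure.addHaar_sphere volume (0 : E n) 1
    filter_upwards [hsph] with x h1 h2
    have h3 : x ∉ closedBall (0 : E n) 1 := by
      intro h4
      rcases (mem_closedBall.1 h4).lt_or_eq with h5 | h5
      · exact h2 (mem_ball.2 h5)
      · exact h1 (mem_sphere.2 h5)
    have h4 : W =ᶠ[𝓝 x] V := by
      filter_upwards [hout x h3] with y hy
      simp only [hW, hy, add_zero]
    rw [h4.fderiv_eq, sub_self]
  have hvV : ∫ y in ball (0 : E n) 1, (fderiv ℝ v y).det =
      ∫ y in ball (0 : E n) 1, (fderiv ℝ V y).det := by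
    apply setIntegral_congr_fun measurableSet_ball
    intro y hy
    have h4 : v =ᶠ[𝓝 y] V := by
      filter_upwards [isOpen_ball.mem_nhds hy] with x hx
      exact hVv (ball_subset_closedBall hx)
    simp only
    rw [h4.fderiv_eq]
  have hwW : ∫ y in ball (0 : E n) 1, (fderiv ℝ w y).det =
      ∫ y in ball (0 : E n) 1, (fderiv ℝ W y).det := by
    apply setIntegral_congr_fun measurableSet_ball
    intro y hy
    have h4 : w =ᶠ[𝓝 y] W := by
      filter_upwards [isOpen_ball.mem_nhds hy] with x hx
      have hx' := ball_subset_closedBall hx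
      simp only [hW, hz, indicator_of_mem hx', ← hVv hx']
      abel
    simp only
    rw [h4.fderiv_eq]
  rw [hvV, hwW]
  rw [integral_sub (int_det hWl _ measure_ball_lt_top.ne) (int_det hV _ measure_ball_lt_top.ne)]
    at hball
  linarith

end Pool.Agent.N526.CP.BAL
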