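import Pool.Agent.N526.CP.Stm

/-!
# CAPV: the value of the calibration on the cap
-/

set_option autoImplicit false

open MeasureTheory Metric Set Filter Topology InnerProductGeometry Matrix

namespace Pool.Agent.N526.CP.CAPV

open Pool.Agent.H241R3.FV Pool.Agent.N526.CP

variable {d : ℕ}

theorem ip_abs {n : ℕ} (X : E n) (θ : Sph n) : |ip X θ| ≤ ‖X‖ := by
  unfold ip
  have := abs_real_inner_le_norm X (θ : E n)
  rwa [norm_sph, mul_one] at this

theorem q_pos {n : ℕ} {X : E n} (hX : ‖X‖ < 1) (θ : Sph n) : 0 < 1 - ip X θ ^ 2 := by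
  have h := ip_abs X θ
  have h2 : |ip X θ| < 1 := h.trans_lt hX
  have h3 := abs_lt.1 h2
  nlinarith

theorem cl_single {n : ℕ} (A : Matrix (Fin n) (Fin n) ℝ) (i j : Fin n) :
    (cl A (EuclideanSpace.single j 1)) i = A i j := by
  unfold cl
  have h : ((Matrix.toEuclideanCLM (𝕜 := ℝ) (n := Fin n) A) (EuclideanSpace.single j 1)).ofLp i =
      (A *ᵥ (EuclideanSpace.single j (1 : ℝ)).ofLp) i := rfl
  rw [h, PiLp.ofLp_single, Matrix.mulVec_single_one]
  rfl

/-- the derivative of `Psi0` -/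
theorem det_psi0 (hU : S_UDER) (hD : S_DETV) (hd : 1 ≤ d) {s : ℝ} (θ : Sph (d + 1))
    {y : E (d + 1)} (hy : ‖s • y‖ < 1) :
    (fderiv ℝ (Psi0 s θ) y).det = s ^ (d + 1) * ((√(1 - ip (s • y) θ ^ 2))⁻¹) ^ (d + 1) := by
  have hq := q_pos hy θ
  have hne : ip (s • y) θ ≠ -1 ∧ ip (s • y) θ ≠ 1 := by
    constructor <;> intro h <;> rw [h] at hq <;> norm_num at hq
  have hs : HasFDerivAt (fun y : E (d + 1) => s • y) (s • ContinuousLinearMap.id ℝ (E (d + 1))) y :=
    (s • ContinuousLinearMap.id ℝ (E (d + 1))).hasFDerivAt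
  have h1 : HasFDerivAt (fun y => Uf θ (s • y))
      ((cl (Vm (s • y) θ)).comp (s • ContinuousLinearMap.id ℝ (E (d + 1)))) y :=
    ((hU d hd (s • y) hy).1 θ).comp y hs
  have h2 : HasFDerivAt (fun y => ip (s • y) θ) (s • innerSL ℝ (θ : E (d + 1))) y := by
    have : (fun y => ip (s • y) θ) = (s • innerSL ℝ (θ : E (d + 1)) : E (d + 1) →L[ℝ] ℝ) := by
      funext y
      unfold ip
      rw [real_inner_comm, inner_smul_right]
      rfl
    rw [this]
    exact (s • innerSL ℝ (θ : E (d + 1))).hasFDerivAt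
  have h3 := (Real.hasDerivAt_arcsin hne.1 hne.2).comp_hasFDerivAt y h2
  have h4 := h3.smul_const (θ : E (d + 1))
  have h5 := h1.add h4
  have h6 : fderiv ℝ (Psi0 s θ) y = _ := h5.fderiv
  rw [h6, det_mat]
  have h7 : mat ((cl (Vm (s • y) θ)).comp (s • ContinuousLinearMap.id ℝ (E (d + 1))) +
      ((1 / √(1 - ip (s • y) θ ^ 2)) • s • innerSL ℝ (θ : E (d + 1))).smulRight (θ : E (d + 1))) =
      s • (Vm (s • y) θ * 1 + vecMulVec (fun i => (θ : E (d + 1)) i)
        (fun i => (√(1 - ip (s • y) θ ^ 2))⁻¹ * (θ : E (d + 1)) i)) := by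
    ext i j
    unfold mat
    have e1 : ((cl (Vm (s • y) θ)).comp (s • ContinuousLinearMap.id ℝ (E (d + 1)))
        (EuclideanSpace.single j 1)) i = s * Vm (s • y) θ i j := by
      have : (cl (Vm (s • y) θ)).comp (s • ContinuousLinearMap.id ℝ (E (d + 1)))
        (EuclideanSpace.single j 1) = s • cl (Vm (s • y) θ) (EuclideanSpace.single j 1) := by
        simp
      rw [this]
      show s * (cl (Vm (s • y) θ) (EuclideanSpace.single j 1)) i = _
      rw [cl_single]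
    have e2 : (inner ℝ (θ : E (d + 1)) (EuclideanSpace.single j (1 : ℝ)) : ℝ) =
        (θ : E (d + 1)) j := by
      rw [EuclideanSpace.inner_single_right]
      simp
    have e3 : ((((1 / √(1 - ip (s • y) θ ^ 2)) • s • innerSL ℝ (θ : E (d + 1))).smulRight
        (θ : E (d + 1))) (EuclideanSpace.single j 1)) i =
        (1 / √(1 - ip (s • y) θ ^ 2)) * (s * (θ : E (d + 1)) j) * (θ : E (d + 1)) i := by
      show (1 / √(1 - ip (s • y) θ ^ 2)) *
        (s * inner ℝ (θ : E (d + 1)) (EuclideanSpace.single j (1 : ℝ))) * (θ : E (d + 1)) i = _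
      rw [e2]
    rw [_root_.add_apply]
    show ((cl (Vm (s • y) θ)).comp (s • ContinuousLinearMap.id ℝ (E (d + 1)))
        (EuclideanSpace.single j 1)) i + ((((1 / √(1 - ip (s • y) θ ^ 2)) •
        s • innerSL ℝ (θ : E (d + 1))).smulRight
        (θ : E (d + 1))) (EuclideanSpace.single j 1)) i = _
    rw [e1, e3, Matrix.smul_apply, Matrix.add_apply, Matrix.mul_one, vecMulVec_apply, smul_eq_mul]
    ring
  rw [h7, Matrix.det_smul, Fintype.card_fin, hD (d + 1) (s • y) θ hy 1, Matrix.adjugate_one,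
    Matrix.one_mulVec]
  congr 1
  -- the scalar product
  have hsum : ∑ i, (θ : E (d + 1)) i ^ 2 = 1 := by
    have h := norm_sph θ
    have h2 : ‖(θ : E (d + 1))‖ ^ 2 = ∑ i, ‖(θ : E (d + 1)) i‖ ^ 2 := EuclideanSpace.norm_sq_eq _
    rw [h, one_pow] at h2
    refine Eq.trans ?_ h2.symm
    refine Finset.sum_congr rfl fun i _ => ?_
    rw [Real.norm_eq_abs, sq_abs]
  have hip : ∑ i, (θ : E (d + 1)) i * (s • y) i = ip (s • y) θ := by
    unfold ip
    rw [PiLp.inner_apply]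
    refine Finset.sum_congr rfl fun i _ => ?_
    simp
  unfold Wv
  simp only [dotProduct]
  set q : ℝ := √(1 - ip (s • y) θ ^ 2) with hqdef
  have hq2 : q ^ 2 = 1 - ip (s • y) θ ^ 2 := Real.sq_sqrt hq.le
  have hq0 : 0 < q := Real.sqrt_pos.2 hq
  calc ∑ i, q⁻¹ * (θ : E (d + 1)) i * (q⁻¹ ^ (d + 1 + 1) *
        ((θ : E (d + 1)) i - ip (s • y) θ * (s • y) i))
      = q⁻¹ * q⁻¹ ^ (d + 1 + 1) * (∑ i, (θ : E (d + 1)) i ^ 2 -
          ip (s • y) θ * ∑ i, (θ : E (d + 1)) i * (s • y) i) := by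
        rw [Finset.mul_sum, ← Finset.sum_sub_distrib, Finset.mul_sum]
        refine Finset.sum_congr rfl fun i _ => ?_
        ring
    _ = q⁻¹ * q⁻¹ ^ (d + 1 + 1) * q ^ 2 := by
        rw [hsum, hip, hq2]; ring
    _ = q⁻¹ ^ (d + 1) := by
        rw [pow_succ q⁻¹ (d + 1)]
        field_simp

theorem det_hf (hU : S_UDER) (hd : 1 ≤ d) {s : ℝ} {y : E (d + 1)} (hy : ‖s • y‖ < 1) :
    (fderiv ℝ (fun y : E (d + 1) => Hf (s • y)) y).det =
      s ^ (d + 1) * (√(1 - ‖s • y‖ ^ 2))⁻¹ := by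
  obtain ⟨T, hT, hTdet⟩ := (hU d hd (s • y) hy).2
  have hs : HasFDerivAt (fun y : E (d + 1) => s • y) (s • ContinuousLinearMap.id ℝ (E (d + 1))) y :=
    (s • ContinuousLinearMap.id ℝ (E (d + 1))).hasFDerivAt
  have h1 : HasFDerivAt (fun y => Hf (s • y)) (T.comp (s • ContinuousLinearMap.id ℝ (E (d + 1)))) y :=
    hT.comp y hs
  rw [h1.fderiv, ← hTdet]
  have h2 : T.comp (s • ContinuousLinearMap.id ℝ (E (d + 1))) = s • T := by
    ext v
    simp
  rw [h2, det_mat, det_mat]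
  have h3 : mat (s • T) = s • mat T := by
    ext i j
    rfl
  rw [h3, Matrix.det_smul, Fintype.card_fin]

theorem t : S_SPH → S_GRAM → S_UDER → S_DETV → S_CAPV := by
  intro hSPH hG hU hD d hd s hs0 hs1
  have hprob := (hSPH d hd).1
  have hnorm : ∀ y ∈ ball (0 : E (d + 1)) 1, ‖s • y‖ < s := by
    intro y hy
    rw [mem_ball_zero_iff] at hy
    rw [norm_smul, Real.norm_of_nonneg hs0.le]
    nlinarith
  have e1 : ∀ θ : Sph (d + 1), ∫ y in ball (0 : E (d + 1)) 1, (fderiv ℝ (Psi0 s θ) y).det =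
      ∫ y in ball (0 : E (d + 1)) 1,
        s ^ (d + 1) * ((√(1 - ip (s • y) θ ^ 2))⁻¹) ^ (d + 1) := by
    intro θ
    refine setIntegral_congr_fun measurableSet_ball fun y hy => ?_
    exact det_psi0 hU hD hd θ ((hnorm y hy).trans hs1)
  have e2 : ∫ y in ball (0 : E (d + 1)) 1, (fderiv ℝ (fun y : E (d + 1) => Hf (s • y)) y).det =
      ∫ y in ball (0 : E (d + 1)) 1, s ^ (d + 1) * (√(1 - ‖s • y‖ ^ 2))⁻¹ := by
    refine setIntegral_congr_fun measurableSet_ball fun y hy => ?_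
    exact det_hf hU hd ((hnorm y hy).trans hs1)
  -- Fubini
  have hint : Integrable (Function.uncurry fun (θ : Sph (d + 1)) (y : E (d + 1)) =>
      s ^ (d + 1) * ((√(1 - ip (s • y) θ ^ 2))⁻¹) ^ (d + 1))
      ((sg (d + 1)).prod (volume.restrict (ball (0 : E (d + 1)) 1))) := by
    have hfin : IsFiniteMeasure (volume.restrict (ball (0 : E (d + 1)) 1)) :=
      ⟨by rw [Measure.restrict_apply_univ]; exact measure_ball_lt_top⟩
    have hmeas : Measurable (Function.uncurry fun (θ : Sph (d + 1)) (y : E (d + 1)) =>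
      s ^ (d + 1) * ((√(1 - ip (s • y) θ ^ 2))⁻¹) ^ (d + 1)) := by
      have hc : Continuous (fun z : Sph (d + 1) × E (d + 1) => ip (s • z.2) z.1) := by
        unfold ip
        fun_prop
      have hc2 := hc.measurable
      unfold Function.uncurry
      fun_prop
    refine Integrable.of_bound hmeas.aestronglyMeasurable
      (s ^ (d + 1) * ((√(1 - s ^ 2))⁻¹) ^ (d + 1)) ?_
    have hprod : (sg (d + 1)).prod (volume.restrict (ball (0 : E (d + 1)) 1)) =
        ((sg (d + 1)).prod volume).restrict (univ ×ˢ ball (0 : E (d + 1)) 1) := by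
      rw [← Measure.prod_restrict, Measure.restrict_univ]
    rw [hprod]
    refine ae_restrict_of_forall_mem (MeasurableSet.univ.prod measurableSet_ball) ?_
    rintro ⟨θ, y⟩ ⟨_, hy⟩
    show ‖s ^ (d + 1) * ((√(1 - ip (s • y) θ ^ 2))⁻¹) ^ (d + 1)‖ ≤ _
    have h1 := ip_abs (s • y) θ
    have h2 := hnorm y hy
    have h3 : 1 - s ^ 2 ≤ 1 - ip (s • y) θ ^ 2 := by
      have : ip (s • y) θ ^ 2 ≤ s ^ 2 := by
        rw [← sq_abs]
        exact pow_le_pow_left₀ (abs_nonneg _) (h1.trans h2.le) 2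
      linarith
    have h4 : 0 < 1 - s ^ 2 := by nlinarith
    rw [Real.norm_of_nonneg (by positivity)]
    have h5 : 0 < √(1 - s ^ 2) := Real.sqrt_pos.2 h4
    gcongr
  have e3 : ∫ θ, (∫ y in ball (0 : E (d + 1)) 1,
        s ^ (d + 1) * ((√(1 - ip (s • y) θ ^ 2))⁻¹) ^ (d + 1)) ∂(sg (d + 1)) =
      ∫ y in ball (0 : E (d + 1)) 1, s ^ (d + 1) * (√(1 - ‖s • y‖ ^ 2))⁻¹ := by
    rw [integral_integral_swap hint]
    refine setIntegral_congr_fun measurableSet_ball fun y hy => ?_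
    show ∫ θ, s ^ (d + 1) * ((√(1 - ip (s • y) θ ^ 2))⁻¹) ^ (d + 1) ∂(sg (d + 1)) = _
    rw [integral_const_mul, (hG d hd (s • y) ((hnorm y hy).trans hs1)).1]
  have e4 : ∫ y in ball (0 : E (d + 1)) 1, s ^ (d + 1) * (√(1 - ‖s • y‖ ^ 2))⁻¹ = capv d s := by
    rw [integral_const_mul]
    have h := Measure.setIntegral_comp_smul_of_pos volume
      (fun y : E (d + 1) => (√(1 - ‖y‖ ^ 2))⁻¹) (ball (0 : E (d + 1)) 1) hs0
    rw [smul_unitBall_of_pos hs0, finrank_euclideanSpace_fin, smul_eq_mul] at h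
    rw [h]
    unfold capv
    rw [← mul_assoc, mul_inv_cancel₀ (pow_ne_zero _ hs0.ne'), one_mul]
  simp only [e1]
  rw [e2, e3, e4]
  ring

end Pool.Agent.N526.CP.CAPV
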