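import Pool.Agent.N137.CPN.DetB

/-! Project CPN (helper526), part CHA: change of chart. -/

set_option autoImplicit false

open MeasureTheory Metric Set Filter Topology InnerProductGeometry Matrix

namespace Pool.Agent.N526.CP.CHA

open Pool.Agent.H241R3.FV Pool.Agent.N526.CP Pool.Agent.N137.CPN

variable {n : ℕ} {M : Type} [MetricSpace M] (S : OFill n M)

/-- the points of the chart `i` which are mapped into the range of the chart `j` -/
def V (i j : S.ι) : Set (E n) :=
  {p | p ∈ (S.chart i).U ∧ (S.chart i).map p ∈ (S.chart j).map '' (S.chart j).U}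

open Classical in
/-- the transition map -/
noncomputable def tm (i j : S.ι) (p : E n) : E n :=
  Function.invFunOn (S.chart j).map (S.chart j).U ((S.chart i).map p)

theorem tm_mem {i j : S.ι} {p : E n} (hp : p ∈ V S i j) : tm S i j p ∈ (S.chart j).U :=
  Function.invFunOn_mem hp.2

theorem tm_eq {i j : S.ι} {p : E n} (hp : p ∈ V S i j) :
    (S.chart j).map (tm S i j p) = (S.chart i).map p :=
  Function.invFunOn_eq hp.2

theorem tm_unique {i j : S.ι} {p q : E n} (hp : p ∈ (S.chart i).U) (hq : q ∈ (S.chart j).U)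
    (h : (S.chart j).map q = (S.chart i).map p) : p ∈ V S i j ∧ tm S i j p = q := by
  have hV : p ∈ V S i j := ⟨hp, q, hq, h⟩
  exact ⟨hV, S.inj j (tm_mem S hV) hq ((tm_eq S hV).trans h.symm)⟩

theorem tm_deriv {i j : S.ι} {p : E n} (hp : p ∈ V S i j) :
    (∀ᶠ y in 𝓝 p, y ∈ V S i j) ∧ HasFDerivAt (tm S i j) (fderiv ℝ (tm S i j) p) p ∧
      0 < (fderiv ℝ (tm S i j) p).det := by
  obtain ⟨τ, T, hτ, hev, hT, hdet, -⟩ :=
    S.trans i j p hp.1 (tm S i j p) (tm_mem S hp) (tm_eq S hp).symm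
  have hU : ∀ᶠ y in 𝓝 p, y ∈ (S.chart i).U := (S.chart i).isOpen_U.mem_nhds hp.1
  have h1 : ∀ᶠ y in 𝓝 p, y ∈ V S i j ∧ tm S i j y = τ y := by
    filter_upwards [hev, hU] with y hy hyU
    exact tm_unique S hyU hy.1 hy.2
  have h2 : HasFDerivAt (tm S i j) T p :=
    hT.congr_of_eventuallyEq (h1.mono fun y hy => hy.2)
  refine ⟨h1.mono fun y hy => hy.1, ?_, ?_⟩
  · rw [h2.fderiv]; exact h2
  · rw [h2.fderiv]; exact hdet

theorem isOpen_V (i j : S.ι) : IsOpen (V S i j) := by
  rw [isOpen_iff_mem_nhds]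
  intro p hp
  exact (tm_deriv S hp).1

theorem tm_injOn (i j : S.ι) : InjOn (tm S i j) (V S i j) := by
  intro p hp q hq h
  apply S.inj i hp.1 hq.1
  rw [← tm_eq S hp, ← tm_eq S hq, h]

theorem tm_back {i j : S.ι} {p : E n} (hp : p ∈ V S i j) :
    tm S i j p ∈ V S j i ∧ tm S j i (tm S i j p) = p :=
  tm_unique S (tm_mem S hp) hp.1 (tm_eq S hp).symm

theorem comp_eventually {W : Type} (v : M → W) {i j : S.ι} {p : E n} (hp : p ∈ V S i j) :
    (v ∘ (S.chart i).map) =ᶠ[𝓝 p] (v ∘ (S.chart j).map) ∘ tm S i j := by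
  filter_upwards [(tm_deriv S hp).1] with y hy
  simp only [Function.comp_apply, tm_eq S hy]

theorem diff_of {W : Type} [NormedAddCommGroup W] [NormedSpace ℝ W] (v : M → W) {i j : S.ι}
    {p : E n} (hp : p ∈ V S i j)
    (h : DifferentiableAt ℝ (v ∘ (S.chart j).map) (tm S i j p)) :
    DifferentiableAt ℝ (v ∘ (S.chart i).map) p :=
  (h.comp p (tm_deriv S hp).2.1.differentiableAt).congr_of_eventuallyEq (comp_eventually S v hp)

theorem det_comp' (A B : E n →L[ℝ] E n) : (A.comp B).det = A.det * B.det := by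
  exact LinearMap.det_comp (A : E n →ₗ[ℝ] E n) (B : E n →ₗ[ℝ] E n)

theorem det_change (hn : 0 < n) (v : M → E n) {i j : S.ι} {p : E n} (hp : p ∈ V S i j) :
    (fderiv ℝ (v ∘ (S.chart i).map) p).det =
      |(fderiv ℝ (tm S i j) p).det| *
        (fderiv ℝ (v ∘ (S.chart j).map) (tm S i j p)).det := by
  obtain ⟨-, hd, hpos⟩ := tm_deriv S hp
  by_cases h : DifferentiableAt ℝ (v ∘ (S.chart j).map) (tm S i j p)
  · rw [(comp_eventually S v hp).fderiv_eq, fderiv_comp p h hd.differentiableAt, det_comp',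
      abs_of_pos hpos, mul_comm]
  · have h2 : ¬ DifferentiableAt ℝ (v ∘ (S.chart i).map) p := by
      intro h3
      apply h
      obtain ⟨hq, hback⟩ := tm_back S hp
      exact diff_of S v hq (by rw [hback]; exact h3)
    rw [fderiv_zero_of_not_differentiableAt h, fderiv_zero_of_not_differentiableAt h2,
      det_zero' hn, mul_zero]

/-- the part of the chart `j` that corresponds to `D i` -/
def Wd (i j : S.ι) : Set (E n) := tm S i j '' ((S.chart i).D ∩ V S i j)

theorem meas_DV (i j : S.ι) : MeasurableSet ((S.chart i).D ∩ V S i j) :=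
  (S.chart i).meas_D.inter (isOpen_V S i j).measurableSet

theorem deriv_within (i j : S.ι) : ∀ x ∈ (S.chart i).D ∩ V S i j,
    HasFDerivWithinAt (tm S i j) (fderiv ℝ (tm S i j) x) ((S.chart i).D ∩ V S i j) x :=
  fun _ hx => (tm_deriv S hx.2).2.1.hasFDerivWithinAt

theorem inj_DV (i j : S.ι) : InjOn (tm S i j) ((S.chart i).D ∩ V S i j) :=
  (tm_injOn S i j).mono inter_subset_right

theorem meas_Wd (i j : S.ι) : MeasurableSet (Wd S i j) :=
  measurable_image_of_fderivWithin (meas_DV S i j) (deriv_within S i j) (inj_DV S i j)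

theorem Wd_disj (j : S.ι) : Pairwise (Function.onFun Disjoint fun i => Wd S i j) := by
  intro i i' hii
  rw [Function.onFun, Set.disjoint_left]
  rintro q ⟨p, hp, rfl⟩ ⟨p', hp', h⟩
  apply hii
  apply S.disj i i' p hp.1 p' hp'.1
  rw [← tm_eq S hp.2, ← tm_eq S hp'.2, h]

theorem Wd_union (j : S.ι) : ⋃ i, Wd S i j = (S.chart j).U := by
  ext q
  constructor
  · intro h
    obtain ⟨i, p, hp, rfl⟩ := mem_iUnion.1 h
    exact tm_mem S hp.2
  · intro hq
    rcases S.cover ((S.chart j).map q) with ⟨x, hx⟩ | ⟨i, p, hp, h⟩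
    · exact absurd hx.symm (S.off_bd j q hq x)
    · obtain ⟨h1, h2⟩ := tm_unique S ((S.chart i).D_sub hp) hq h.symm
      exact mem_iUnion.2 ⟨i, p, ⟨hp, h1⟩, h2⟩

theorem t : S_CHA := by
  intro n hn M _ _ S hS K v hv
  have h1 := integrableOn_det_D hn S hS K v hv
  have hcongr : ∀ i j, EqOn (fun x => |(fderiv ℝ (tm S i j) x).det| •
      (fderiv ℝ (v ∘ (S.chart j).map) (tm S i j x)).det)
      (fun p => (fderiv ℝ (v ∘ (S.chart i).map) p).det) ((S.chart i).D ∩ V S i j) :=
    fun i j x hx => by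
      simp only [smul_eq_mul]
      exact (det_change S hn v hx.2).symm
  have h2 : ∀ i j, IntegrableOn (fun p => (fderiv ℝ (v ∘ (S.chart j).map) p).det)
      (Wd S i j) := by
    intro i j
    rw [Wd, integrableOn_image_iff_integrableOn_abs_det_fderiv_smul volume (meas_DV S i j)
      (deriv_within S i j) (inj_DV S i j)]
    exact ((h1 i).mono_set inter_subset_left).congr_fun (hcongr i j).symm (meas_DV S i j)
  refine ⟨h1, fun j => ?_, fun j => ?_⟩
  · rw [← Wd_union S j]
    exact integrableOn_finite_iUnion.2 fun i => h2 i j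
  · have hU : ∫ p in (S.chart j).U, (fderiv ℝ (v ∘ (S.chart j).map) p).det =
        ∑ i, ∫ p in Wd S i j, (fderiv ℝ (v ∘ (S.chart j).map) p).det := by
      rw [← Wd_union S j, integral_iUnion_fintype (fun i => meas_Wd S i j) (Wd_disj S j)
        fun i => h2 i j]
    rw [hU]
    refine Finset.sum_congr rfl fun i _ => ?_
    have hset : {p | p ∈ (S.chart i).D ∧ (S.chart i).map p ∈ (S.chart j).map '' (S.chart j).U} =
        (S.chart i).D ∩ V S i j := by
      ext p
      constructor
      · rintro ⟨ha, hb⟩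
        exact ⟨ha, (S.chart i).D_sub ha, hb⟩
      · rintro ⟨ha, -, hb⟩
        exact ⟨ha, hb⟩
    rw [hset, Wd, integral_image_eq_integral_abs_det_fderiv_smul volume (meas_DV S i j)
      (deriv_within S i j) (inj_DV S i j)]
    exact (setIntegral_congr_fun (meas_DV S i j) (hcongr i j)).symm

end Pool.Agent.N526.CP.CHA
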