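import Pool.Agent.N526.CP.Stm

/-!
# Project CPN, part CHV: the change of variables `θ ↦ A θ / |A θ|` on the sphere
-/

set_option autoImplicit false

open MeasureTheory Metric Set Filter Topology InnerProductGeometry Matrix

namespace Pool.Agent.N526.CP.CHV

open Pool.Agent.H241R3.FV

/-- polar coordinates -/
theorem polar {n : ℕ} (hn : 1 ≤ n) (g : E n → ℝ) :
    ∫ y, g y = ∫ p : Sph n × Ioi (0 : ℝ), g ((p.2 : ℝ) • (p.1 : E n))
      ∂((sig n).prod (Measure.volumeIoiPow (n - 1))) := by
  have hne : Nonempty (Fin n) := ⟨⟨0, by omega⟩⟩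
  have hd : Module.finrank ℝ (E n) = n := by simp
  have h := (volume : Measure (E n)).measurePreserving_homeomorphUnitSphereProd.integral_comp
    (Homeomorph.measurableEmbedding _)
    (fun p : Sph n × Ioi (0 : ℝ) => g ((p.2 : ℝ) • (p.1 : E n)))
  rw [hd] at h
  unfold sig
  rw [← h]
  have h1 : ∀ x : ({(0 : E n)}ᶜ : Set (E n)), g (((homeomorphUnitSphereProd (E n) x).2 : ℝ) •
      ((homeomorphUnitSphereProd (E n) x).1 : E n)) = g x := by
    intro x
    rw [homeomorphUnitSphereProd_apply_fst_coe, homeomorphUnitSphereProd_apply_snd_coe, smul_smul,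
      mul_inv_cancel₀ (norm_ne_zero_iff.2 x.2), one_smul]
  rw [integral_congr_ae (Filter.Eventually.of_forall h1),
    integral_subtype_comap (measurableSet_singleton _).compl g, restrict_compl_singleton]

/-- the radial integral -/
theorem radial {n : ℕ} (hn : 1 ≤ n) {b : ℝ} (hb : 0 < b) :
    ∫ r : Ioi (0 : ℝ), (if (r : ℝ) * b < 1 then (1 : ℝ) else 0) ∂(Measure.volumeIoiPow (n - 1)) =
      (b⁻¹) ^ n / n := by
  have h0 : 0 < b⁻¹ := inv_pos.2 hb
  have h1 : (fun r : Ioi (0 : ℝ) => if (r : ℝ) * b < 1 then (1 : ℝ) else 0) =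
      (Iio (⟨b⁻¹, h0⟩ : Ioi (0 : ℝ))).indicator (fun _ => 1) := by
    funext r
    rw [Set.indicator_apply]
    congr 1
    apply propext
    change (r : ℝ) * b < 1 ↔ (r : ℝ) < b⁻¹
    rw [← lt_div_iff₀ hb, one_div]
  rw [h1, integral_indicator measurableSet_Iio, setIntegral_const, Measure.real,
    Measure.volumeIoiPow_apply_Iio, smul_eq_mul, mul_one, ENNReal.toReal_ofReal (by positivity)]
  simp only
  rw [Nat.cast_sub hn, Nat.sub_add_cancel hn]
  push_cast
  rw [sub_add_cancel]

/-- the change of variables for a linear map -/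
theorem lin {n : ℕ} (A : E n ≃L[ℝ] E n) (g : E n → ℝ) :
    |(A : E n →L[ℝ] E n).det| * ∫ y, g (A y) = ∫ y, g y := by
  have hdet : (A : E n →L[ℝ] E n).det ≠ 0 := by
    have := (A.toLinearEquiv.isUnit_det').ne_zero
    exact this
  have h1 : Measure.map A (volume : Measure (E n)) =
      ENNReal.ofReal |((A : E n →L[ℝ] E n).det)⁻¹| • (volume : Measure (E n)) :=
    Measure.map_linearMap_addHaar_eq_smul_addHaar (volume : Measure (E n))
      (f := (A.toLinearEquiv : E n →ₗ[ℝ] E n)) hdet
  have h2 : ∫ y, g (A y) = ∫ y, g y ∂(Measure.map A (volume : Measure (E n))) :=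
    (A.toHomeomorph.measurableEmbedding.integral_map g).symm
  rw [h2, h1, integral_smul_measure, ENNReal.toReal_ofReal (abs_nonneg _), smul_eq_mul, abs_inv,
    ← mul_assoc, mul_inv_cancel₀ (abs_ne_zero.2 hdet), one_mul]

theorem main_sig {n : ℕ} (hn : 1 ≤ n) (A : E n ≃L[ℝ] E n) (f : E n → ℝ) (hf : Continuous f) :
    |(A : E n →L[ℝ] E n).det| * ∫ θ : Sph n, f (‖A θ‖⁻¹ • A θ) * (‖A θ‖⁻¹) ^ n ∂(sig n) =
      ∫ θ : Sph n, f θ ∂(sig n) := by
  have hn0 : (n : ℝ) ≠ 0 := by exact_mod_cast (by omega : n ≠ 0)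
  have hθ : ∀ θ : Sph n, (θ : E n) ≠ 0 := by
    intro θ h
    have := norm_sph θ
    rw [h, norm_zero] at this
    exact zero_ne_one this
  have hAθ : ∀ θ : Sph n, 0 < ‖A θ‖ := fun θ =>
    norm_pos_iff.2 ((map_ne_zero_iff A A.injective).2 (hθ θ))
  set g : E n → ℝ := fun y => f (‖y‖⁻¹ • y) * (if ‖y‖ < 1 then (1 : ℝ) else 0) with hg
  obtain ⟨M, hM⟩ := (isCompact_sphere (0 : E n) 1).exists_bound_of_continuousOn hf.continuousOn
  -- the integral of `g`
  have e1 : ∫ y, g y = (∫ θ : Sph n, f θ ∂(sig n)) * (1 / n) := by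
    rw [polar hn]
    have h1 : ∀ p : Sph n × Ioi (0 : ℝ), g ((p.2 : ℝ) • (p.1 : E n)) =
        f p.1 * (if (p.2 : ℝ) * 1 < 1 then (1 : ℝ) else 0) := by
      intro p
      have h2 : (0 : ℝ) < p.2 := p.2.2
      have h3 : ‖(p.2 : ℝ) • (p.1 : E n)‖ = p.2 := by
        rw [norm_smul, norm_sph, mul_one, Real.norm_of_nonneg h2.le]
      simp only [hg]
      rw [h3, smul_smul, inv_mul_cancel₀ h2.ne', one_smul, mul_one]
    rw [integral_congr_ae (Filter.Eventually.of_forall h1), integral_prod_mul
      (fun θ : Sph n => f θ) (fun r : Ioi (0 : ℝ) => if (r : ℝ) * 1 < 1 then (1 : ℝ) else 0),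
      radial hn one_pos]
    simp
  -- the integral of `g ∘ A`
  have e2 : ∫ y, g (A y) = (∫ θ : Sph n, f (‖A θ‖⁻¹ • A θ) * (‖A θ‖⁻¹) ^ n ∂(sig n)) * (1 / n) := by
    rw [polar hn (fun y => g (A y))]
    have h1 : ∀ p : Sph n × Ioi (0 : ℝ), g (A ((p.2 : ℝ) • (p.1 : E n))) =
        f (‖A p.1‖⁻¹ • A p.1) * (if (p.2 : ℝ) * ‖A p.1‖ < 1 then (1 : ℝ) else 0) := by
      intro p
      have h2 : (0 : ℝ) < p.2 := p.2.2
      have h3 : ‖A ((p.2 : ℝ) • (p.1 : E n))‖ = p.2 * ‖A p.1‖ := by
        rw [map_smul, norm_smul, Real.norm_of_nonneg h2.le]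
      simp only [hg]
      rw [h3, map_smul, smul_smul, mul_inv, mul_comm ((p.2 : ℝ)⁻¹), mul_assoc,
        inv_mul_cancel₀ h2.ne', mul_one]
    rw [integral_congr_ae (Filter.Eventually.of_forall h1), integral_prod]
    · rw [← integral_mul_const]
      refine integral_congr_ae (Filter.Eventually.of_forall fun θ => ?_)
      simp only
      rw [integral_const_mul, radial hn (hAθ θ)]
      ring
    · -- integrability
      set K : ℝ := ‖(A.symm : E n →L[ℝ] E n)‖ + 1 with hK
      have hK0 : 0 < K := by positivity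
      have hKA : ∀ θ : Sph n, 1 ≤ K * ‖A θ‖ := by
        intro θ
        have h2 := (A.symm : E n →L[ℝ] E n).le_opNorm (A θ)
        have h3 : (A.symm : E n →L[ℝ] E n) (A θ) = (θ : E n) := A.symm_apply_apply _
        rw [h3, norm_sph] at h2
        have h4 := (hAθ θ).le
        nlinarith
      have hint : Integrable (fun r : Ioi (0 : ℝ) => M * (if (r : ℝ) * K⁻¹ < 1 then (1 : ℝ) else 0))
          (Measure.volumeIoiPow (n - 1)) := by
        refine Integrable.const_mul ?_ _
        have h0 : 0 < K := hK0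
        have h2 : (fun r : Ioi (0 : ℝ) => if (r : ℝ) * K⁻¹ < 1 then (1 : ℝ) else 0) =
            (Iio (⟨K, h0⟩ : Ioi (0 : ℝ))).indicator (fun _ => 1) := by
          funext r
          rw [Set.indicator_apply]
          congr 1
          apply propext
          change (r : ℝ) * K⁻¹ < 1 ↔ (r : ℝ) < K
          rw [← div_eq_mul_inv, div_lt_one hK0]
        rw [h2]
        refine (integrable_indicator_iff measurableSet_Iio).2 (integrableOn_const ?_)
        rw [Measure.volumeIoiPow_apply_Iio]
        exact ENNReal.ofReal_ne_top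
      refine Integrable.mono' (hint.comp_snd (sig n)) ?_ (Filter.Eventually.of_forall fun p => ?_)
      · have hc1 : Continuous (fun p : Sph n × Ioi (0 : ℝ) => ‖A p.1‖) :=
          (A.continuous.comp (continuous_subtype_val.comp continuous_fst)).norm
        have hc2 : Continuous (fun p : Sph n × Ioi (0 : ℝ) => f (‖A p.1‖⁻¹ • A p.1)) :=
          hf.comp ((hc1.inv₀ fun p => (hAθ p.1).ne').smul
            (A.continuous.comp (continuous_subtype_val.comp continuous_fst)))
        refine hc2.aestronglyMeasurable.mul ?_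
        refine (Measurable.ite ?_ measurable_const measurable_const).aestronglyMeasurable
        exact measurableSet_lt ((continuous_subtype_val.comp continuous_snd).mul hc1).measurable
          measurable_const
      · rw [norm_mul]
        have h2 : ‖f (‖A p.1‖⁻¹ • A p.1)‖ ≤ M := by
          apply hM
          rw [mem_sphere_zero_iff_norm, norm_smul, norm_inv, norm_norm,
            inv_mul_cancel₀ (hAθ p.1).ne']
        have h3 : 0 ≤ M := (norm_nonneg _).trans h2
        by_cases h4 : (p.2 : ℝ) * ‖A p.1‖ < 1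
        · have h5 : (p.2 : ℝ) * K⁻¹ < 1 := by
            have h6 : (0 : ℝ) < p.2 := p.2.2
            rw [← div_eq_mul_inv, div_lt_one hK0]
            have h7 := hKA p.1
            have h8 := hAθ p.1
            by_contra hcon
            push Not at hcon
            nlinarith
          rw [if_pos h4, if_pos h5, norm_one]
          gcongr
        · rw [if_neg h4, norm_zero, mul_zero]
          split_ifs <;> simp [h3]
  have h := lin A g
  rw [e1, e2, ← mul_assoc] at h
  exact mul_right_cancel₀ (one_div_ne_zero hn0) h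

theorem t : S_CHV := by
  intro n hn A f hf
  unfold sg
  rw [integral_smul_measure, integral_smul_measure, smul_eq_mul, smul_eq_mul, ← main_sig hn A f hf]
  ring

end Pool.Agent.N526.CP.CHV
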