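import Pool.Agent.N526.CP.Stm

/-!
# CPN, part DER: the derivatives of `Z` and of its inverse
-/

set_option autoImplicit false

open MeasureTheory Metric Set Filter Topology Matrix

namespace Pool.Agent.N526.CP.DER

open Pool.Agent.H241R3.FV Pool.Agent.N526.CP

lemma abs_ip_le {n : ℕ} (X : E n) (θ : Sph n) : |ip X θ| ≤ ‖X‖ := by
  have h1 := abs_real_inner_le_norm X (θ : E n)
  rw [norm_sph, mul_one] at h1
  exact h1

lemma cont_ip {n : ℕ} (X : E n) : Continuous (fun θ : Sph n => ip X θ) :=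
  continuous_const.inner continuous_subtype_val

/-- the derivative of the integrand -/
noncomputable def dF {n : ℕ} (X : E n) (θ : Sph n) : E n →L[ℝ] E n :=
  (√(1 - ip X θ ^ 2))⁻¹ • (innerSL ℝ (θ : E n)).smulRight (θ : E n)

lemma dF_apply {n : ℕ} (X : E n) (θ : Sph n) (v : E n) (i : Fin n) :
    (dF X θ v) i = (√(1 - ip X θ ^ 2))⁻¹ * (ip v θ * (θ : E n) i) := by
  unfold dF ip
  simp [real_inner_comm]

lemma one_sub_pos {n : ℕ} {X : E n} {r : ℝ} (hr : r < 1) (hX : ‖X‖ ≤ r) (θ : Sph n) :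
    0 < 1 - r ^ 2 ∧ 1 - r ^ 2 ≤ 1 - ip X θ ^ 2 := by
  have h1 := abs_ip_le X θ
  have h2 := abs_nonneg (ip X θ)
  have h3 : |ip X θ| ^ 2 ≤ r ^ 2 := by
    apply pow_le_pow_left₀ h2; linarith
  rw [sq_abs] at h3
  have h4 : 0 ≤ r := le_trans (norm_nonneg _) hX
  constructor
  · nlinarith
  · linarith

lemma hasFDerivAt_F {n : ℕ} {X : E n} (hX : ‖X‖ < 1) (θ : Sph n) :
    HasFDerivAt (fun Y : E n => Real.arcsin (ip Y θ) • (θ : E n)) (dF X θ) X := by
  obtain ⟨h1, h2⟩ := one_sub_pos hX le_rfl θ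
  have h3 := abs_ip_le X θ
  have h4 : ip X θ ≠ -1 := by
    intro h; rw [h] at h3; simp at h3; linarith
  have h5 : ip X θ ≠ 1 := by
    intro h; rw [h] at h3; simp at h3; linarith
  have h6 : HasFDerivAt (fun Y : E n => ip Y θ) (innerSL ℝ (θ : E n)) X := by
    have h7 : (fun Y : E n => ip Y θ) = fun Y => innerSL ℝ (θ : E n) Y := by
      ext Y
      simp [ip, real_inner_comm]
    rw [h7]
    exact (innerSL ℝ (θ : E n)).hasFDerivAt
  have h8 := (Real.hasDerivAt_arcsin h4 h5).comp_hasFDerivAt X h6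
  have h9 := h8.smul_const (θ : E n)
  refine h9.congr_fderiv ?_
  ext v i
  unfold dF
  simp [one_div, mul_assoc]

lemma norm_dF_le {n : ℕ} {X : E n} {r : ℝ} (hr : r < 1) (hX : ‖X‖ ≤ r) (θ : Sph n) :
    ‖dF X θ‖ ≤ (√(1 - r ^ 2))⁻¹ := by
  obtain ⟨h1, h2⟩ := one_sub_pos hr hX θ
  unfold dF
  rw [norm_smul, ContinuousLinearMap.norm_smulRight_apply, innerSL_apply_norm, norm_sph, mul_one,
    mul_one, Real.norm_eq_abs, abs_of_nonneg (by positivity)]
  apply inv_anti₀ (Real.sqrt_pos.2 h1)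
  exact Real.sqrt_le_sqrt h2

lemma cont_dF {n : ℕ} {X : E n} (hX : ‖X‖ < 1) : Continuous (fun θ : Sph n => dF X θ) := by
  have hs : Continuous (fun θ : Sph n => (√(1 - ip X θ ^ 2))⁻¹) := by
    apply Continuous.inv₀
    · exact ((continuous_const.sub ((cont_ip X).pow 2))).sqrt
    · intro θ
      obtain ⟨h1, h2⟩ := one_sub_pos hX le_rfl θ
      exact (Real.sqrt_pos.2 (by linarith)).ne'
  have hg : Continuous (fun θ : Sph n => (innerSL ℝ (θ : E n)).smulRight (θ : E n)) := by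
    have h1 : Continuous (fun θ : Sph n => innerSL ℝ (θ : E n)) :=
      (innerSL ℝ).continuous.comp continuous_subtype_val
    have h2 := (ContinuousLinearMap.smulRightL ℝ (E n) (E n)).continuous₂.comp
      (h1.prodMk (continuous_subtype_val (p := fun x : E n => x ∈ sphere (0 : E n) 1)))
    exact h2
  exact hs.smul hg

lemma cont_F {n : ℕ} (X : E n) :
    Continuous (fun θ : Sph n => Real.arcsin (ip X θ) • (θ : E n)) :=
  (Real.continuous_arcsin.comp (cont_ip X)).smul continuous_subtype_val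

lemma integrable_of_cont {n : ℕ} [IsProbabilityMeasure (sg n)] {W : Type}
    [NormedAddCommGroup W] [SecondCountableTopology W] {f : Sph n → W}
    (hf : Continuous f) : Integrable f (sg n) :=
  hf.integrable_of_hasCompactSupport (HasCompactSupport.of_compactSpace _)

lemma hasFDerivAt_Zf {n : ℕ} [IsProbabilityMeasure (sg n)] {X : E n} (hX : ‖X‖ < 1) :
    HasFDerivAt Zf (∫ θ : Sph n, dF X θ ∂(sg n)) X := by
  set r := (1 + ‖X‖) / 2 with hr
  have hr1 : r < 1 := by rw [hr]; linarith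
  have hrX : ‖X‖ < r := by rw [hr]; linarith
  have h1 := hasFDerivAt_integral_of_dominated_of_fderiv_le (𝕜 := ℝ) (μ := sg n)
    (F := fun (Y : E n) (θ : Sph n) => Real.arcsin (ip Y θ) • (θ : E n))
    (F' := fun (Y : E n) (θ : Sph n) => dF Y θ) (x₀ := X)
    (bound := fun _ => (√(1 - r ^ 2))⁻¹) (s := {Y : E n | ‖Y‖ < r})
    ((isOpen_lt continuous_norm continuous_const).mem_nhds hrX)
    (Eventually.of_forall fun Y => (integrable_of_cont (cont_F Y)).aestronglyMeasurable)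
    (integrable_of_cont (cont_F X))
    (integrable_of_cont (cont_dF hX)).aestronglyMeasurable
    (Eventually.of_forall fun θ Y hY => norm_dF_le hr1 (le_of_lt hY) θ)
    (integrable_const _)
    (Eventually.of_forall fun θ Y hY => hasFDerivAt_F (lt_trans hY hr1) θ)
  exact h1

lemma integral_dF {n : ℕ} [IsProbabilityMeasure (sg n)] {X : E n} (hX : ‖X‖ < 1) :
    ∫ θ : Sph n, dF X θ ∂(sg n) = cl (DZ X) := by
  have hi := integrable_of_cont (cont_dF hX)
  ext v i
  rw [ContinuousLinearMap.integral_apply hi]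
  have hiv : Integrable (fun θ : Sph n => dF X θ v) (sg n) := hi.apply_continuousLinearMap v
  have h1 : (∫ θ : Sph n, dF X θ v ∂(sg n)) i = ∫ θ : Sph n, (dF X θ v) i ∂(sg n) :=
    ((EuclideanSpace.proj (𝕜 := ℝ) i).integral_comp_comm hiv).symm
  rw [h1]
  have h2 : (cl (DZ X) v) i = ∑ j, DZ X i j * v j := by
    unfold cl
    rw [Matrix.ofLp_toEuclideanCLM]
    rfl
  rw [h2]
  have h3 : ∀ j, DZ X i j * v j =
      ∫ θ : Sph n, (θ : E n) i * (θ : E n) j * (√(1 - ip X θ ^ 2))⁻¹ * v j ∂(sg n) := by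
    intro j
    rw [integral_mul_const]
    rfl
  simp_rw [h3]
  have hs : Continuous (fun θ : Sph n => (√(1 - ip X θ ^ 2))⁻¹) := by
    apply Continuous.inv₀
    · exact ((continuous_const.sub ((cont_ip X).pow 2))).sqrt
    · intro θ
      obtain ⟨h1, h2⟩ := one_sub_pos hX le_rfl θ
      exact (Real.sqrt_pos.2 (by linarith)).ne'
  have hc : ∀ j : Fin n, Continuous (fun θ : Sph n => (θ : E n) j) := fun j =>
    (EuclideanSpace.proj (𝕜 := ℝ) j).continuous.comp continuous_subtype_val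
  rw [← integral_finsetSum]
  · congr 1
    ext θ
    rw [dF_apply]
    have h4 : ip v θ = ∑ j, v j * (θ : E n) j := by
      unfold ip
      rw [PiLp.inner_apply]
      exact Finset.sum_congr rfl fun j _ => by simp [mul_comm]
    rw [h4, Finset.sum_mul, Finset.mul_sum]
    exact Finset.sum_congr rfl fun j _ => by ring
  · intro j _
    exact integrable_of_cont ((((hc i).mul (hc j)).mul hs).mul continuous_const)

lemma posdef {d : ℕ} (hd : 1 ≤ d) (h3 : S_MON) {X : E (d + 1)} (hX : ‖X‖ < 1)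
    (hder : HasFDerivAt Zf (cl (DZ X)) X) : (DZ X).PosDef := by
  rw [posDef_iff_dotProduct_mulVec]
  refine ⟨?_, ?_⟩
  · ext i j
    simp only [conjTranspose_apply, star_trivial, DZ]
    congr 1
    ext θ
    ring
  · intro x hx
    set v : E (d + 1) := WithLp.toLp 2 x with hv
    have hv0 : v ≠ 0 := by
      intro h
      apply hx
      have := congrArg WithLp.ofLp h
      simpa [hv] using this
    have h4 : HasDerivAt (fun t : ℝ => inner ℝ (Zf (X + t • v)) v) (inner ℝ (cl (DZ X) v) v) 0 := by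
      have h5 : HasDerivAt (fun t : ℝ => X + t • v) v 0 := by
        simpa using ((hasDerivAt_id (0 : ℝ)).smul_const v).const_add X
      have h6 : HasDerivAt (fun t : ℝ => Zf (X + t • v)) (cl (DZ X) v) 0 :=
        HasFDerivAt.comp_hasDerivAt (l := Zf) (l' := cl (DZ X)) (0 : ℝ) (by simpa using hder) h5
      have h7 := h6.inner ℝ (hasDerivAt_const (0 : ℝ) v)
      simpa using h7
    have h5 := h4.tendsto_slope_zero_right
    have h6 : ‖v‖ ^ 2 / (d + 1) ≤ inner ℝ (cl (DZ X) v) v := by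
      refine ge_of_tendsto h5 ?_
      have h7 : ∀ᶠ t : ℝ in 𝓝[>] 0, ‖X + t • v‖ < 1 := by
        apply (nhdsWithin_le_nhds : 𝓝[>] (0:ℝ) ≤ 𝓝 0)
        have h8 : Continuous (fun t : ℝ => ‖X + t • v‖) := by fun_prop
        exact (isOpen_lt h8 continuous_const).mem_nhds (by simpa using hX)
      filter_upwards [h7, self_mem_nhdsWithin] with t ht ht0
      have ht0' : 0 < t := ht0
      have h8 := h3 d hd (X + t • v) X ht.le hX.le
      rw [add_sub_cancel_left, norm_smul, inner_smul_right, Real.norm_eq_abs, mul_pow, sq_abs] at h8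
      simp only [zero_add, zero_smul, add_zero, smul_eq_mul]
      rw [← inner_sub_left, div_le_iff₀ (by positivity)]
      have h9 : t ^ 2 * ‖v‖ ^ 2 ≤ t ^ 2 * (t⁻¹ * inner ℝ (Zf (X + t • v) - Zf X) v * (d + 1)) := by
        have h10 : t ^ 2 * (t⁻¹ * inner ℝ (Zf (X + t • v) - Zf X) v * (d + 1)) =
            (d + 1) * (t * inner ℝ (Zf (X + t • v) - Zf X) v) := by
          field_simp
        rw [h10]
        exact h8
      exact le_of_mul_le_mul_left h9 (by positivity)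
    have h7 : 0 < ‖v‖ ^ 2 / (d + 1) := by
      have := norm_pos_iff.2 hv0
      positivity
    have h8 : inner ℝ (cl (DZ X) v) v = star x ⬝ᵥ DZ X *ᵥ x := by
      unfold cl
      rw [hv, Matrix.toEuclideanCLM_toLp, EuclideanSpace.inner_eq_star_dotProduct]
      simp
    rw [← h8]
    linarith

theorem t : S_SPH → S_RAD → S_MON → S_INV → S_DER := by
  intro h1 h2 h3 h4 d hd X hX
  have : IsProbabilityMeasure (sg (d + 1)) := (h1 d hd).1
  have hder : HasFDerivAt Zf (cl (DZ X)) X := by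
    rw [← integral_dF hX]
    exact hasFDerivAt_Zf hX
  have hpos := posdef hd h3 hX hder
  refine ⟨hpos, hder, ?_⟩
  obtain ⟨hz1, hz2, hz3, hz4⟩ := h2 d hd
  obtain ⟨hi1, hi2, hi3⟩ := h4 d hd
  -- choose the radius
  set s := (1 + ‖X‖) / 2 with hs
  have hs1 : s < 1 := by rw [hs]; linarith
  have hs0 : 0 < s := by rw [hs]; linarith [norm_nonneg X]
  have hsX : ‖X‖ < s := by rw [hs]; linarith
  have hZ : ‖Zf X‖ < zf d s := by
    obtain ⟨e, he, hXe⟩ : ∃ e : E (d + 1), ‖e‖ = 1 ∧ X = ‖X‖ • e := by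
      by_cases hX0 : X = 0
      · refine ⟨EuclideanSpace.single 0 1, by simp, by simp [hX0]⟩
      · refine ⟨‖X‖⁻¹ • X, ?_, ?_⟩
        · rw [norm_smul, norm_inv, norm_norm, inv_mul_cancel₀ (norm_ne_zero_iff.2 hX0)]
        · rw [smul_smul, mul_inv_cancel₀ (norm_ne_zero_iff.2 hX0), one_smul]
    have h5 : ‖Zf X‖ = |zf d ‖X‖| := by
      conv_lhs => rw [hXe]
      rw [hz1 _ _ he, norm_smul, he, mul_one, Real.norm_eq_abs]
    have hmX : ‖X‖ ∈ Icc (0 : ℝ) 1 := ⟨norm_nonneg _, hX.le⟩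
    have hms : s ∈ Icc (0 : ℝ) 1 := ⟨hs0.le, hs1.le⟩
    have h6 : 0 ≤ zf d ‖X‖ := by
      rw [← hz4]
      exact hz2.monotoneOn ⟨le_rfl, zero_le_one⟩ hmX (norm_nonneg _)
    rw [h5, abs_of_nonneg h6]
    exact hz2 hmX hms hsX
  have hev : ∀ᶠ Y : E (d + 1) in 𝓝 (Zf X), ‖Y‖ ≤ zf d s := by
    have h5 : {Y : E (d + 1) | ‖Y‖ < zf d s} ∈ 𝓝 (Zf X) :=
      (isOpen_lt continuous_norm continuous_const).mem_nhds hZ
    filter_upwards [h5] with Y hY using le_of_lt hY
  have hcont : ContinuousAt (Ri : E (d + 1) → E (d + 1)) (Zf X) := by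
    rw [Metric.continuousAt_iff]
    intro ε hε
    obtain ⟨δ, hδ, hδ2⟩ := Metric.eventually_nhds_iff.1 hev
    refine ⟨min δ (ε / (d + 1)), lt_min hδ (by positivity), fun Y hY => ?_⟩
    have h5 := hi3 s hs0 hs1 Y (Zf X) (hδ2 (lt_of_lt_of_le hY (min_le_left _ _))) hZ.le
    rw [dist_eq_norm]
    rw [dist_eq_norm] at hY
    have h6 : ‖Y - Zf X‖ < ε / (d + 1) := lt_of_lt_of_le hY (min_le_right _ _)
    have h7 : (d + 1 : ℝ) * ‖Y - Zf X‖ < ε := by
      rw [lt_div_iff₀ (by positivity)] at h6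
      linarith
    linarith
  have hinv1 : DZ X * (DZ X)⁻¹ = 1 := Matrix.mul_nonsing_inv _ ((Matrix.isUnit_iff_isUnit_det _).1 hpos.isUnit)
  have hinv2 : (DZ X)⁻¹ * DZ X = 1 := Matrix.nonsing_inv_mul _ ((Matrix.isUnit_iff_isUnit_det _).1 hpos.isUnit)
  have hc1 : cl (DZ X) * cl (DZ X)⁻¹ = 1 := by
    unfold cl; rw [← map_mul, hinv1, map_one]
  have hc2 : cl (DZ X)⁻¹ * cl (DZ X) = 1 := by
    unfold cl; rw [← map_mul, hinv2, map_one]
  let f' : E (d + 1) ≃L[ℝ] E (d + 1) := ContinuousLinearEquiv.equivOfInverse (cl (DZ X))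
    (cl (DZ X)⁻¹) (fun v => congrArg (fun L : E (d + 1) →L[ℝ] E (d + 1) => L v) hc2)
    (fun v => congrArg (fun L : E (d + 1) →L[ℝ] E (d + 1) => L v) hc1)
  have hf' : HasFDerivAt Zf (f' : E (d + 1) →L[ℝ] E (d + 1)) (Ri (Zf X)) := by
    rw [hi1 X hX]
    exact hder
  exact HasFDerivAt.of_local_left_inverse hcont hf' (hev.mono fun Y hY => (hi2 s hs0 hs1 Y hY).2)

end Pool.Agent.N526.CP.DER
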