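import Pool.Agent.N526.CP.Stm

/-!
# CPN/DETV: the determinant identity for `U_θ` (helper374)
-/

set_option autoImplicit false

open Matrix

namespace Pool.Agent.N526.CP.DETV

open Pool.Agent.H241R3.FV

lemma det_unit {n : ℕ} {M : Matrix (Fin n) (Fin n) ℝ} (hM : M.det ≠ 0) (u b : Fin n → ℝ) :
    (M + vecMulVec u b).det = M.det + b ⬝ᵥ (M.adjugate *ᵥ u) := by
  have hu : IsUnit M.det := isUnit_iff_ne_zero.2 hM
  have h1 : vecMulVec u b = replicateCol Unit u * replicateRow Unit b := by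
    rw [vecMulVec_eq Unit]
  rw [h1, det_add_replicateCol_mul_replicateRow hu]
  have h2 : M⁻¹ = (M.det)⁻¹ • M.adjugate := by
    rw [Matrix.inv_def, Ring.inverse_eq_inv']
  have h3 : (1 + replicateRow Unit b * M⁻¹ * replicateCol Unit u).det = 1 + b ⬝ᵥ (M⁻¹ *ᵥ u) := by
    rw [det_unique, Matrix.add_apply, Matrix.one_apply_eq, Matrix.mul_assoc,
      ← replicateCol_mulVec]
    rfl
  rw [h3, h2, smul_mulVec, dotProduct_smul, smul_eq_mul, mul_add, mul_one, ← mul_assoc,
    mul_inv_cancel₀ hM, one_mul]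

/-- (a) -/
lemma det_add_vec {n : ℕ} (M : Matrix (Fin n) (Fin n) ℝ) (u b : Fin n → ℝ) :
    (M + vecMulVec u b).det = M.det + b ⬝ᵥ (M.adjugate *ᵥ u) := by
  have hc : Continuous fun x : ℝ => M + Matrix.scalar (Fin n) x := by
    refine continuous_const.add ?_
    exact continuous_matrix fun i j => by
      by_cases h : i = j
      · subst h
        simpa using continuous_id'
      · simpa [h] using continuous_const
  have hd : Dense {x : ℝ | (M + Matrix.scalar (Fin n) x).det ≠ 0} := by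
    have hfin : ({x : ℝ | (M + Matrix.scalar (Fin n) x).det ≠ 0}ᶜ).Finite := by
      have h1 : {x : ℝ | (M + Matrix.scalar (Fin n) x).det ≠ 0}ᶜ ⊆
          {x | x ∈ (-M).charpoly.roots.toFinset} := by
        intro x hx
        have hx' : (M + Matrix.scalar (Fin n) x).det = 0 := by
          by_contra h
          exact hx h
        show x ∈ (-M).charpoly.roots.toFinset
        rw [Multiset.mem_toFinset, Polynomial.mem_roots (charpoly_monic _).ne_zero,
          Polynomial.IsRoot.def, eval_charpoly, sub_neg_eq_add, add_comm]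
        exact hx'
      exact (Finset.finite_toSet _).subset h1
    have := hfin.countable.dense_compl ℝ
    rwa [compl_compl] at this
  have hL : Continuous fun x : ℝ => (M + Matrix.scalar (Fin n) x + vecMulVec u b).det :=
    (hc.add continuous_const).matrix_det
  have hR : Continuous fun x : ℝ => (M + Matrix.scalar (Fin n) x).det +
      b ⬝ᵥ ((M + Matrix.scalar (Fin n) x).adjugate *ᵥ u) :=
    hc.matrix_det.add (continuous_const.dotProduct (hc.matrix_adjugate.matrix_mulVec
      continuous_const))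
  have h := Continuous.ext_on hd hL hR fun x hx => det_unit hx u b
  have h0 := congrFun h 0
  simpa using h0

theorem t : S_DETV := by
  intro n X θ hX L a
  rcases Nat.eq_zero_or_pos n with hn | hn
  · subst hn
    have h1 : ‖(θ : E 0)‖ = 1 := by simpa using θ.2
    have h2 : (θ : E 0) = 0 := Subsingleton.elim _ _
    rw [h2, norm_zero] at h1
    exact absurd h1 zero_ne_one
  obtain ⟨m, rfl⟩ : ∃ m, n = m + 1 := ⟨n - 1, by omega⟩
  obtain ⟨x, hx⟩ : ∃ x : Fin (m + 1) → ℝ, x = fun i => X i := ⟨_, rfl⟩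
  obtain ⟨v, hv⟩ : ∃ v : Fin (m + 1) → ℝ, v = fun i => (θ : E (m + 1)) i := ⟨_, rfl⟩
  obtain ⟨t, ht⟩ : ∃ t, t = ip X θ := ⟨_, rfl⟩
  have hθ : ‖(θ : E (m + 1))‖ = 1 := by simpa using θ.2
  have hvv : v ⬝ᵥ v = 1 := by
    have h1 := EuclideanSpace.real_norm_sq_eq (θ : E (m + 1))
    rw [hθ, one_pow] at h1
    rw [h1, hv]
    simp [dotProduct, sq]
  have hvx : v ⬝ᵥ x = t := by
    rw [ht, hv, hx]
    simp [ip, dotProduct, PiLp.inner_apply]
  have ht1 : t ^ 2 < 1 := by
    have h1 : |t| < 1 := by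
      rw [ht]
      calc |ip X θ| ≤ ‖X‖ * ‖(θ : E (m + 1))‖ := abs_real_inner_le_norm _ _
        _ = ‖X‖ := by rw [hθ, mul_one]
        _ < 1 := hX
    exact (sq_lt_one_iff_abs_lt_one _).2 h1
  obtain ⟨al, hal⟩ : ∃ al, al = (√(1 - t ^ 2))⁻¹ := ⟨_, rfl⟩
  have hs : 0 < √(1 - t ^ 2) := Real.sqrt_pos.2 (by linarith)
  have hal0 : 0 < al := by rw [hal]; positivity
  have hal2 : al ^ 2 * (1 - t ^ 2) = 1 := by
    rw [hal, inv_pow, Real.sq_sqrt (by linarith)]
    exact inv_mul_cancel₀ (by linarith)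
  -- the vectors
  obtain ⟨w, hw⟩ : ∃ w : Fin (m + 1) → ℝ, w = (t * al ^ 3) • (x - t • v) := ⟨_, rfl⟩
  have hvw : v ⬝ᵥ w = 0 := by
    rw [hw, dotProduct_smul, dotProduct_sub, dotProduct_smul, hvv, hvx]
    simp
  -- the matrices
  have hV : Vm X θ = al • (1 : Matrix (Fin (m + 1)) (Fin (m + 1)) ℝ) +
      vecMulVec (w - al • v) v := by
    ext i j
    simp only [Vm, ← ht, ← hal, Matrix.add_apply, Matrix.smul_apply, Matrix.one_apply,
      vecMulVec_apply, Pi.sub_apply, Pi.smul_apply, smul_eq_mul, hw, hv, hx]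
    ring
  obtain ⟨V', hV'⟩ : ∃ V', V' = al • (1 : Matrix (Fin (m + 1)) (Fin (m + 1)) ℝ) +
      vecMulVec (w + (1 - al) • v) v := ⟨_, rfl⟩
  have hVV : V' = Vm X θ + vecMulVec v v := by
    rw [hV', hV]
    ext i j
    simp only [Matrix.add_apply, vecMulVec_apply, Pi.sub_apply, Pi.add_apply, Pi.smul_apply,
      smul_eq_mul]
    ring
  have hdal : (al • (1 : Matrix (Fin (m + 1)) (Fin (m + 1)) ℝ)).det = al ^ (m + 1) := by
    rw [det_smul, det_one, mul_one, Fintype.card_fin]
  have hadj : (al • (1 : Matrix (Fin (m + 1)) (Fin (m + 1)) ℝ)).adjugate =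
      al ^ m • (1 : Matrix (Fin (m + 1)) (Fin (m + 1)) ℝ) := by
    rw [adjugate_smul, adjugate_one, Fintype.card_fin]
    rfl
  have hdV : (Vm X θ).det = 0 := by
    rw [hV, det_add_vec, hdal, hadj, smul_mulVec, one_mulVec, dotProduct_smul, dotProduct_sub,
      hvw, dotProduct_smul, hvv, smul_eq_mul, smul_eq_mul]
    ring
  have hdV' : V'.det = al ^ m := by
    rw [hV', det_add_vec, hdal, hadj, smul_mulVec, one_mulVec, dotProduct_smul, dotProduct_add,
      hvw, dotProduct_smul, hvv, smul_eq_mul, smul_eq_mul]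
    ring
  -- the vector `W`
  have hW : Wv X θ = al ^ (m + 2) • (v - t • x) := by
    funext i
    simp only [Wv, ← ht, ← hal, Pi.smul_apply, Pi.sub_apply, smul_eq_mul, hv, hx]
  have hvW : v ⬝ᵥ Wv X θ = al ^ m := by
    rw [hW, dotProduct_smul, dotProduct_sub, dotProduct_smul, hvv, hvx, smul_eq_mul, smul_eq_mul]
    calc al ^ (m + 2) * (1 - t * t) = al ^ m * (al ^ 2 * (1 - t ^ 2)) := by ring
      _ = al ^ m := by rw [hal2, mul_one]
  have hVW : V' *ᵥ Wv X θ = al ^ m • v := by
    rw [hV', add_mulVec, smul_mulVec, one_mulVec, vecMulVec_mulVec, hvW, hW, hw]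
    funext i
    simp only [Pi.add_apply, Pi.sub_apply, Pi.smul_apply, smul_eq_mul, MulOpposite.smul_eq_mul_unop,
      MulOpposite.unop_op]
    have e1 : al ^ (m + 2) = al ^ m * al ^ 2 := by ring
    have e2 : al ^ 2 * t ^ 2 = al ^ 2 - 1 := by linarith
    rw [e1]
    linear_combination (al ^ m * al * (- v i)) * e2
  have hadjV' : V'.adjugate *ᵥ v = Wv X θ := by
    have h1 : V'.adjugate *ᵥ (V' *ᵥ Wv X θ) = al ^ m • Wv X θ := by
      rw [mulVec_mulVec, adjugate_mul, hdV', smul_mulVec, one_mulVec]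
    rw [hVW, mulVec_smul] at h1
    have h2 : al ^ m ≠ 0 := by positivity
    exact smul_right_injective _ h2 h1
  have hadjV : (Vm X θ).adjugate *ᵥ v = V'.adjugate *ᵥ v := by
    have h1 : ∀ b : Fin (m + 1) → ℝ, b ⬝ᵥ (V'.adjugate *ᵥ v) = b ⬝ᵥ ((Vm X θ).adjugate *ᵥ v) := by
      intro b
      have e1 := det_add_vec V' v b
      have e2 := det_add_vec (Vm X θ) v (v + b)
      have e3 := det_add_vec (Vm X θ) v v
      have e4 : V' + vecMulVec v b = Vm X θ + vecMulVec v (v + b) := by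
        rw [hVV, vecMulVec_add, add_assoc]
      rw [← hVV] at e3
      rw [e4, e2, e3, add_dotProduct] at e1
      linarith
    funext i
    have := h1 (Pi.single i 1)
    rw [single_one_dotProduct, single_one_dotProduct] at this
    exact this.symm
  have hgoal : (fun i => (θ : E (m + 1)) i) = v := hv.symm
  rw [hgoal, det_add_vec, det_mul, hdV, zero_mul, zero_add, adjugate_mul_distrib,
    ← mulVec_mulVec, hadjV, hadjV']

end Pool.Agent.N526.CP.DETV
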