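import Pool.Agent.N526.CP.Stm

/-!
# EXT: Lipschitz extension of the boundary functions
-/

set_option autoImplicit false

open MeasureTheory Metric Set Filter Topology InnerProductGeometry

namespace Pool.Agent.N526.CP.EXT

open Pool.Agent.H241R3.FV
open Pool.Agent.N526.CP

/-- triangle inequality on the sphere one dimension higher -/
lemma arcsin_le {n : ℕ} {ρ : ℝ} (x y θ : Sph n) :
    Real.arcsin (Real.sin ρ * inner ℝ (x : E n) (θ : E n)) -
      Real.arcsin (Real.sin ρ * inner ℝ (y : E n) (θ : E n)) ≤ capDist ρ x y := by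
  let P : Sph n → WithLp 2 (E n × ℝ) := fun x => WithLp.toLp 2 (Real.sin ρ • (x : E n), Real.cos ρ)
  let Q : WithLp 2 (E n × ℝ) := WithLp.toLp 2 ((θ : E n), (0 : ℝ))
  have hin : ∀ x y : Sph n, inner ℝ (P x) (P y) =
      Real.cos ρ ^ 2 + Real.sin ρ ^ 2 * inner ℝ (x : E n) (y : E n) := by
    intro x y
    simp only [P, WithLp.prod_inner_apply, inner_smul_left, inner_smul_right]
    simp
    ring
  have hinQ : ∀ x : Sph n, inner ℝ (P x) Q = Real.sin ρ * inner ℝ (x : E n) (θ : E n) := by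
    intro x
    simp only [P, Q, WithLp.prod_inner_apply, inner_smul_left]
    simp
  have hP : ∀ x : Sph n, ‖P x‖ = 1 := by
    intro x
    have h1 : ‖P x‖ ^ 2 = 1 := by
      rw [← real_inner_self_eq_norm_sq, hin, real_inner_self_eq_norm_sq, norm_sph]
      have := Real.sin_sq_add_cos_sq ρ
      linarith
    have h2 := norm_nonneg (P x)
    nlinarith
  have hQ : ‖Q‖ = 1 := by
    have h1 : ‖Q‖ ^ 2 = 1 := by
      rw [← real_inner_self_eq_norm_sq]
      simp only [Q, WithLp.prod_inner_apply]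
      simp
    have h2 := norm_nonneg Q
    nlinarith
  have a1 : angle (P y) (P x) = capDist ρ x y := by
    unfold angle capDist
    rw [hP, hP, hin, real_inner_comm]
    simp
  have a2 : ∀ x : Sph n, angle (P x) Q =
      Real.pi / 2 - Real.arcsin (Real.sin ρ * inner ℝ (x : E n) (θ : E n)) := by
    intro x
    unfold angle
    rw [hP, hQ, hinQ, ← Real.arccos_eq_pi_div_two_sub_arcsin]
    simp
  have h := angle_le_angle_add_angle (P y) (P x) Q
  rw [a1, a2, a2] at h
  linarith

lemma arcsin_lip {s : ℝ} (h0 : 0 < s) (h1 : s < 1) {u v : ℝ} (hu : |u| ≤ s) (hv : |v| ≤ s) :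
    |Real.arcsin u - Real.arcsin v| ≤ 1 / √(1 - s ^ 2) * |u - v| := by
  have hs : 0 < 1 - s ^ 2 := by nlinarith
  have hsq : 0 < √(1 - s ^ 2) := Real.sqrt_pos.2 hs
  have key := Convex.norm_image_sub_le_of_norm_hasDerivWithin_le (f := Real.arcsin)
    (f' := fun x => 1 / √(1 - x ^ 2)) (s := Icc (-s) s) (x := v) (y := u) (C := 1 / √(1 - s ^ 2))
    (fun x hx => (Real.hasDerivAt_arcsin (by have := hx.1; intro h; rw [h] at this; linarith)
      (by have := hx.2; intro h; rw [h] at this; linarith)).hasDerivWithinAt) (by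
      intro x hx
      have h2 : x ^ 2 ≤ s ^ 2 := sq_le_sq' hx.1 hx.2
      have h3 : √(1 - s ^ 2) ≤ √(1 - x ^ 2) := Real.sqrt_le_sqrt (by linarith)
      rw [Real.norm_of_nonneg (by positivity)]
      exact one_div_le_one_div_of_le hsq h3) (convex_Icc _ _) (abs_le.1 hv) (abs_le.1 hu)
  simpa [Real.norm_eq_abs] using key

lemma iInf_le_add {n : ℕ} [Nonempty (Sph n)] {f f' : Sph n → ℝ} {K B : ℝ} (hB : ∀ x, B ≤ f x)
    (h : ∀ x, f x ≤ f' x + K) : (⨅ x, f x) ≤ (⨅ x, f' x) + K := by
  rw [← sub_le_iff_le_add]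
  refine le_ciInf fun x => ?_
  rw [sub_le_iff_le_add]
  exact (ciInf_le ⟨B, by rintro _ ⟨y, rfl⟩; exact hB y⟩ x).trans (h x)

theorem t : S_REF → S_EXT := by
  intro hREF d hd M _ _ S ρ h0 h1 hbd
  have hs0 : 0 < Real.sin ρ := Real.sin_pos_of_pos_of_lt_pi h0 (by linarith [Real.pi_pos])
  have hc0 : 0 < Real.cos ρ := Real.cos_pos_of_mem_Ioo ⟨by linarith, h1⟩
  have hs1 : Real.sin ρ < 1 := by
    have := Real.sin_sq_add_cos_sq ρ
    nlinarith
  have hne : Nonempty (Sph (d + 1)) :=
    ⟨⟨EuclideanSpace.single 0 1, by simp⟩⟩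
  set s := Real.sin ρ with hs
  let h : Sph (d + 1) → Sph (d + 1) → ℝ := fun θ x =>
    Real.arcsin (s * inner ℝ (x : E (d + 1)) (θ : E (d + 1)))
  let g : Sph (d + 1) → M → ℝ := fun θ q => ⨅ x, (h θ x + dist q (S.bd x))
  have hlow : ∀ θ q x, -(Real.pi / 2) ≤ h θ x + dist q (S.bd x) := by
    intro θ q x
    have h2 : -(Real.pi / 2) ≤ h θ x := Real.neg_pi_div_two_le_arcsin _
    have h3 : 0 ≤ dist q (S.bd x) := dist_nonneg
    linarith
  have hin : ∀ θ x : Sph (d + 1), |s * inner ℝ (x : E (d + 1)) (θ : E (d + 1))| ≤ s := by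
    intro θ x
    rw [abs_mul, abs_of_pos hs0]
    have := abs_real_inner_le_norm (x : E (d + 1)) (θ : E (d + 1))
    rw [norm_sph, norm_sph] at this
    nlinarith
  refine ⟨g, ?_, ?_, ?_, ?_⟩
  · intro θ q q'
    have key : ∀ q q', g θ q ≤ g θ q' + dist q q' := by
      intro q q'
      refine iInf_le_add (hlow θ q) fun x => ?_
      have := dist_triangle q q' (S.bd x)
      linarith
    rw [abs_le]
    constructor
    · have := key q' q
      rw [dist_comm q' q] at this
      linarith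
    · have := key q q'
      linarith
  · refine ⟨1 / √(1 - s ^ 2) * s, ?_⟩
    have key : ∀ θ θ' q, g θ q ≤ g θ' q +
        1 / √(1 - s ^ 2) * s * ‖(θ : E (d + 1)) - (θ' : E (d + 1))‖ := by
      intro θ θ' q
      refine iInf_le_add (hlow θ q) fun x => ?_
      have h2 := arcsin_lip hs0 hs1 (hin θ x) (hin θ' x)
      have h3 : |s * inner ℝ (x : E (d + 1)) (θ : E (d + 1)) -
          s * inner ℝ (x : E (d + 1)) (θ' : E (d + 1))| ≤
          s * ‖(θ : E (d + 1)) - (θ' : E (d + 1))‖ := by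
        rw [← mul_sub, ← inner_sub_right, abs_mul, abs_of_pos hs0]
        have := abs_real_inner_le_norm (x : E (d + 1)) ((θ : E (d + 1)) - (θ' : E (d + 1)))
        rw [norm_sph, one_mul] at this
        exact mul_le_mul_of_nonneg_left this hs0.le
      have h4 : h θ x - h θ' x ≤ 1 / √(1 - s ^ 2) * (s * ‖(θ : E (d + 1)) - (θ' : E (d + 1))‖) :=
        (le_abs_self _).trans (h2.trans (mul_le_mul_of_nonneg_left h3 (by positivity)))
      rw [← mul_assoc] at h4
      linarith
    intro θ θ' q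
    rw [abs_le]
    constructor
    · have := key θ' θ q
      rw [norm_sub_rev] at this
      linarith
    · have := key θ θ' q
      linarith
  · intro θ x
    apply le_antisymm
    · have h2 : g θ (S.bd x) ≤ h θ x + dist (S.bd x) (S.bd x) :=
        ciInf_le (f := fun y => h θ y + dist (S.bd x) (S.bd y))
          ⟨-(Real.pi / 2), by rintro _ ⟨y, rfl⟩; exact hlow θ (S.bd x) y⟩ x
      rw [dist_self, add_zero] at h2
      exact h2
    · refine le_ciInf fun y => ?_
      have h2 := arcsin_le (ρ := ρ) x y θ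
      have h3 := hbd x y
      change h θ x ≤ _
      change h θ x - h θ y ≤ _ at h2
      linarith
  · intro e he θ θ' hθ' hpos q
    refine sub_le_iff_le_add'.2 ?_
    refine iInf_le_add (hlow θ q) fun x => ?_
    have h2 := hREF (d + 1) s hs0 hs1 x θ e (θ' : E (d + 1)) he hpos hθ'
    change h θ x - h θ' x ≤ _ at h2
    linarith

end Pool.Agent.N526.CP.EXT
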