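import Pool.Agent.N526.CP.Stm

/-!
# FAM: the range of the linear statistic
-/

set_option autoImplicit false

open MeasureTheory Metric Set Filter Topology

namespace Pool.Agent.N526.CP.FAM

open Pool.Agent.H241R3.FV Pool.Agent.N526.CP

theorem chg {n : ℕ} {R : E n ≃ₗᵢ[ℝ] E n} (hmp : MeasurePreserving (rot R) (sg n) (sg n))
    {F : Sph n → ℝ} (hF : Continuous F) :
    ∫ θ, F (rot R θ) ∂(sg n) = ∫ θ, F θ ∂(sg n) := by
  have h1 := integral_map (μ := sg n) hmp.measurable.aemeasurable (f := F)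
    (by rw [hmp.map_eq]; exact hF.aestronglyMeasurable)
  rw [hmp.map_eq] at h1
  exact h1.symm

theorem integ {n : ℕ} [IsProbabilityMeasure (sg n)] {F : Sph n → ℝ} (hF : Continuous F) :
    Integrable F (sg n) :=
  hF.integrable_of_hasCompactSupport (HasCompactSupport.of_compactSpace _)

theorem cont_ip {n : ℕ} (e : E n) : Continuous fun θ : Sph n => ip e θ := by
  unfold ip
  fun_prop

theorem ip_rot {n : ℕ} (R : E n ≃ₗᵢ[ℝ] E n) (e : E n) (θ : Sph n) :
    ip (R e) (rot R θ) = ip e θ := by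
  show inner ℝ (R e) (R (θ : E n)) = inner ℝ e (θ : E n)
  exact R.inner_map_map _ _

theorem asin_nonneg {s : ℝ} (hs : 0 ≤ s) (x : ℝ) : 0 ≤ Real.arcsin (s * x) * x := by
  rcases le_total 0 x with h | h
  · exact mul_nonneg (Real.arcsin_nonneg.2 (mul_nonneg hs h)) h
  · exact mul_nonneg_of_nonpos_of_nonpos (Real.arcsin_nonpos.2 (mul_nonpos_of_nonneg_of_nonpos hs h)) h

/-- the function `zf` in a general direction -/
theorem zf_dir {d : ℕ} (hS : ∀ R : E (d + 1) ≃ₗᵢ[ℝ] E (d + 1),
      MeasurePreserving (rot R) (sg (d + 1)) (sg (d + 1)))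
    (s : ℝ) {e : E (d + 1)} (he : ‖e‖ = 1) :
    ∫ θ, Real.arcsin (s * ip e θ) * ip e θ ∂(sg (d + 1)) = zf d s := by
  set e0 : E (d + 1) := EuclideanSpace.single 0 1 with he0
  have hn : ‖e0‖ = ‖e‖ := by
    rw [he, he0, PiLp.norm_single]
    simp
  set R : E (d + 1) ≃ₗᵢ[ℝ] E (d + 1) := Submodule.reflection (ℝ ∙ (e0 - e))ᗮ with hR
  have hRe : R e0 = e := Submodule.reflection_sub hn
  have hc : Continuous fun θ : Sph (d + 1) => Real.arcsin (s * ip e θ) * ip e θ :=
    (Real.continuous_arcsin.comp ((cont_ip e).const_smul s)).mul (cont_ip e)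
  rw [← chg (hS R) hc]
  unfold zf
  refine integral_congr_ae (Eventually.of_forall fun θ => ?_)
  show Real.arcsin (s * ip e (rot R θ)) * ip e (rot R θ) = _
  have h1 : ip e (rot R θ) = (θ : E (d + 1)) 0 := by
    rw [← hRe, ip_rot]
    show inner ℝ e0 (θ : E (d + 1)) = _
    rw [he0, EuclideanSpace.inner_single_left]
    simp
  rw [h1]

theorem t : S_SPH → S_EXT → S_FAM := by
  intro hSP hEX d hd M _ _ S ρ hρ0 hρ hdist
  obtain ⟨hprob, hrot, -⟩ := hSP d hd
  obtain ⟨g, g1, ⟨C, g2⟩, g3, g4⟩ := hEX d hd M S ρ hρ0 hρ hdist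
  have hs0 : 0 < Real.sin ρ := Real.sin_pos_of_pos_of_lt_pi hρ0 (by linarith [Real.pi_pos])
  refine ⟨g, ⟨g1, ⟨C, g2⟩, g3, fun q => ?_⟩⟩
  have hgc : Continuous fun θ : Sph (d + 1) => g θ q := by
    have hlip : LipschitzWith (Real.toNNReal C) fun θ : Sph (d + 1) => g θ q := by
      refine LipschitzWith.of_dist_le_mul fun θ θ' => ?_
      rw [Real.dist_eq]
      refine (g2 θ θ' q).trans ?_
      rw [Subtype.dist_eq, dist_eq_norm]
      exact mul_le_mul_of_nonneg_right (Real.le_coe_toNNReal C) (norm_nonneg _)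
    exact hlip.continuous
  have hzf0 : 0 ≤ zf d (Real.sin ρ) := integral_nonneg fun θ => asin_nonneg hs0.le _
  set Y : E (d + 1) := ∫ θ : Sph (d + 1), g θ q • (θ : E (d + 1)) ∂(sg (d + 1)) with hY
  by_cases hY0 : Y = 0
  · rw [hY0, norm_zero]
    exact hzf0
  have hYn : 0 < ‖Y‖ := norm_pos_iff.2 hY0
  set e : E (d + 1) := ‖Y‖⁻¹ • Y with he
  have he1 : ‖e‖ = 1 := by
    rw [he, norm_smul, norm_inv, norm_norm, inv_mul_cancel₀ hYn.ne']
  have hint : Integrable (fun θ : Sph (d + 1) => g θ q • (θ : E (d + 1))) (sg (d + 1)) :=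
    (hgc.smul continuous_subtype_val).integrable_of_hasCompactSupport
      (HasCompactSupport.of_compactSpace _)
  have hYe : ‖Y‖ = ∫ θ : Sph (d + 1), g θ q * ip e θ ∂(sg (d + 1)) := by
    have h1 : inner ℝ e Y = ‖Y‖ := by
      rw [he, real_inner_smul_left, real_inner_self_eq_norm_sq]
      field_simp
    rw [← h1, hY, ← integral_inner hint e]
    refine integral_congr_ae (Eventually.of_forall fun θ => ?_)
    show inner ℝ e (g θ q • (θ : E (d + 1))) = g θ q * inner ℝ e (θ : E (d + 1))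
    rw [real_inner_smul_right]
  -- the reflection
  set R : E (d + 1) ≃ₗᵢ[ℝ] E (d + 1) := Submodule.reflection (ℝ ∙ e)ᗮ with hR
  have hRv : ∀ v : E (d + 1), R v = v - (2 * inner ℝ e v) • e := by
    intro v
    rw [hR, Submodule.reflection_orthogonal_apply, Submodule.reflection_singleton_apply]
    rw [he1]
    simp only [one_pow, div_one, RCLike.ofReal_real_eq_id, id]
    rw [neg_sub, two_smul, two_mul, add_smul]
  have hRe : ∀ θ : Sph (d + 1), ip e (rot R θ) = -ip e θ := by
    intro θ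
    show inner ℝ e (R (θ : E (d + 1))) = -inner ℝ e (θ : E (d + 1))
    rw [hRv, inner_sub_right, real_inner_smul_right, real_inner_self_eq_norm_sq, he1]
    ring
  have hRR : ∀ θ : Sph (d + 1), (θ : E (d + 1)) =
      (rot R θ : E (d + 1)) - (2 * inner ℝ e (rot R θ : E (d + 1))) • e := by
    intro θ
    have h1 : inner ℝ e (rot R θ : E (d + 1)) = -inner ℝ e (θ : E (d + 1)) := hRe θ
    rw [h1]
    show (θ : E (d + 1)) = R (θ : E (d + 1)) - _
    rw [hRv]
    module
  have hpt : ∀ θ : Sph (d + 1), (g θ q - g (rot R θ) q) * ip e θ ≤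
      2 * (Real.arcsin (Real.sin ρ * ip e θ) * ip e θ) := by
    intro θ
    rcases le_total 0 (ip e θ) with h | h
    · have h1 := g4 e he1 θ (rot R θ) (hRv θ) h q
      have := mul_le_mul_of_nonneg_right h1 h
      linarith
    · have h0 : 0 ≤ ip e (rot R θ) := by
        rw [hRe]
        linarith
      have h1 := g4 e he1 (rot R θ) θ (hRR θ) h0 q
      rw [hRe, mul_neg, Real.arcsin_neg] at h1
      have h2 := mul_le_mul_of_nonneg_right h1 (neg_nonneg.2 h)
      nlinarith
  have hgR : Continuous fun θ : Sph (d + 1) => g (rot R θ) q := by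
    have hrc : Continuous (rot R : Sph (d + 1) → Sph (d + 1)) := by
      unfold rot
      exact Continuous.subtype_mk (R.continuous.comp continuous_subtype_val) _
    exact hgc.comp hrc
  have h2 : ∫ θ : Sph (d + 1), g θ q * ip e θ ∂(sg (d + 1)) =
      -∫ θ : Sph (d + 1), g (rot R θ) q * ip e θ ∂(sg (d + 1)) := by
    rw [← chg (hrot R) (F := fun θ => g θ q * ip e θ) (hgc.mul (cont_ip e)), ← integral_neg]
    refine integral_congr_ae (Eventually.of_forall fun θ => ?_)
    show g (rot R θ) q * ip e (rot R θ) = -(g (rot R θ) q * ip e θ)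
    rw [hRe]
    ring
  have h3 : 2 * ‖Y‖ = ∫ θ : Sph (d + 1), (g θ q - g (rot R θ) q) * ip e θ ∂(sg (d + 1)) := by
    have h4 : (fun θ : Sph (d + 1) => (g θ q - g (rot R θ) q) * ip e θ) =
        fun θ => g θ q * ip e θ - g (rot R θ) q * ip e θ := by
      funext θ
      ring
    have i1 : Integrable (fun θ : Sph (d + 1) => g θ q * ip e θ) (sg (d + 1)) :=
      integ (hgc.mul (cont_ip e))
    have i2 : Integrable (fun θ : Sph (d + 1) => g (rot R θ) q * ip e θ) (sg (d + 1)) :=
      integ (hgR.mul (cont_ip e))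
    rw [h4, integral_sub i1 i2]
    linarith
  have h5 : ∫ θ : Sph (d + 1), (g θ q - g (rot R θ) q) * ip e θ ∂(sg (d + 1)) ≤
      ∫ θ : Sph (d + 1), 2 * (Real.arcsin (Real.sin ρ * ip e θ) * ip e θ) ∂(sg (d + 1)) := by
    refine integral_mono (integ ((hgc.sub hgR).mul (cont_ip e))) (integ ?_) hpt
    exact continuous_const.mul
      ((Real.continuous_arcsin.comp (continuous_const.mul (cont_ip e))).mul (cont_ip e))
  rw [integral_const_mul, zf_dir hrot _ he1] at h5
  linarith

end Pool.Agent.N526.CP.FAM
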