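import Pool.Agent.N526.CP.Stm
import Pool.Agent.H241R3.FV.TDiff
import Pool.Agent.H241R3.FV.TMat
import Pool.Agent.H241R3.FV.TLoc

/-!
# Part FUB of project CPN: Fubini for the Jacobian determinants (helper572)
-/

set_option autoImplicit false

open MeasureTheory Metric Set Filter Topology

namespace Pool.Agent.N526.CP.FUB

open Pool.Agent.H241R3.FV Pool.Agent.N526.CP
open Pool.Agent.H241R3.FV.TDiff (gnorm_smul gnorm_nonneg)

/-- the derivative of a Lipschitz map in a chart -/
theorem fderiv_le {n : ℕ} {M : Type} [MetricSpace M] (C : RChart n M) {K : NNReal}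
    {φ : M → E n} (hφ : LipschitzWith K φ) {p : E n} (hp : p ∈ C.U) (v : E n) :
    ‖fderiv ℝ (φ ∘ C.map) p v‖ ≤ K * gnorm (C.G p) v := by
  by_cases hd : DifferentiableAt ℝ (φ ∘ C.map) p
  swap
  · rw [fderiv_zero_of_not_differentiableAt hd]
    simp only [ContinuousLinearMap.zero_apply, norm_zero]
    exact mul_nonneg K.2 (gnorm_nonneg _ _)
  have hK0 : (0 : ℝ) ≤ K := K.2
  have main : ∀ ε : ℝ, 0 < ε →
      ‖fderiv ℝ (φ ∘ C.map) p v‖ ≤ K * (gnorm (C.G p) v + ε * ‖v‖) := by
    intro ε hε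
    obtain ⟨r, hr, hrU, h⟩ := TLoc.taskLoc n M C p hp ε hε
    have h1 : HasDerivAt (fun t : ℝ => (φ ∘ C.map) (p + t • v)) (fderiv ℝ (φ ∘ C.map) p v) 0 :=
      hd.hasFDerivAt.hasLineDerivAt v
    have hg := gnorm_nonneg (C.G p) v
    refine h1.le_of_lip' (by positivity) ?_
    have h3 : ∀ᶠ t : ℝ in 𝓝 0, p + t • v ∈ ball p r := by
      have hc : Continuous fun t : ℝ => p + t • v := by fun_prop
      apply hc.continuousAt.preimage_mem_nhds
      simpa using ball_mem_nhds p hr
    filter_upwards [h3] with t ht1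
    have h4 := h (p + t • v) ht1 p (mem_ball_self hr)
    rw [add_sub_cancel_left, gnorm_smul, norm_smul, Real.norm_eq_abs] at h4
    simp only [Function.comp_apply, zero_smul, add_zero, sub_zero]
    rw [← dist_eq_norm, Real.norm_eq_abs]
    calc dist (φ (C.map (p + t • v))) (φ (C.map p))
        ≤ K * dist (C.map (p + t • v)) (C.map p) := hφ.dist_le_mul _ _
      _ ≤ K * (|t| * gnorm (C.G p) v + ε * (|t| * ‖v‖)) := mul_le_mul_of_nonneg_left h4 hK0
      _ = K * (gnorm (C.G p) v + ε * ‖v‖) * |t| := by ring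
  refine le_of_forall_pos_le_add fun ε hε => ?_
  have h := main (ε / (K * ‖v‖ + 1)) (by positivity)
  refine h.trans ?_
  rw [mul_add]
  refine add_le_add le_rfl ?_
  have h5 : (K : ℝ) * (ε / (K * ‖v‖ + 1) * ‖v‖) = (K * ‖v‖) * ε / (K * ‖v‖ + 1) := by ring
  rw [h5, div_le_iff₀ (by positivity)]
  nlinarith [norm_nonneg v]

/-- the Jacobian determinant of a Lipschitz map in a chart -/
theorem det_le {n : ℕ} (hn : 0 < n) {M : Type} [MetricSpace M] (C : RChart n M) {K : NNReal}
    {φ : M → E n} (hφ : LipschitzWith K φ) {p : E n} (hp : p ∈ C.U) :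
    |(fderiv ℝ (φ ∘ C.map) p).det| ≤ (K : ℝ) ^ n * √(C.G p).det := by
  rw [det_mat]
  refine TMat.taskMat n hn _ _ (C.pos_G p hp) K K.2 fun A hA => ?_
  obtain ⟨L, hL⟩ : ∃ L : E n →L[ℝ] E n, L = fderiv ℝ (φ ∘ C.map) p := ⟨_, rfl⟩
  have hb : ∀ v, ‖L v‖ ≤ K * gnorm (C.G p) v := by
    rw [hL]
    exact fderiv_le C hφ hp
  rw [← hL]
  have h1 : ∀ j, (mat L * A) j j ≤ K := by
    intro j
    have he : ‖(EuclideanSpace.single j (1 : ℝ) : E n)‖ = 1 := by simp
    obtain ⟨e, hee⟩ : ∃ e : Sph n, (e : E n) = EuclideanSpace.single j 1 :=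
      ⟨⟨EuclideanSpace.single j 1, by simp⟩, rfl⟩
    have h2 := hb (act A (e : E n))
    rw [gnorm_act _ _ hA e, mul_one] at h2
    have h3 : (mat L * A) j j = (L (act A (e : E n))) j := by
      have h4 := TDiff.apply_eq_sum ((EuclideanSpace.proj (𝕜 := ℝ) j : E n →L[ℝ] ℝ) ∘L L)
        (act A (e : E n))
      simp only [ContinuousLinearMap.comp_apply, TDiff.proj_app] at h4
      rw [h4, Matrix.mul_apply]
      refine Finset.sum_congr rfl fun k _ => ?_
      unfold mat act
      rw [hee]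
      simp
      ring
    rw [h3]
    refine (le_abs_self _).trans (le_trans ?_ h2)
    exact TDiff.abs_apply_le _ _
  calc (mat L * A).trace = ∑ j, (mat L * A) j j := rfl
    _ ≤ ∑ _j : Fin n, (K : ℝ) := Finset.sum_le_sum fun j _ => h1 j
    _ = n * K := by simp

/-- the Jacobian determinant is integrable on the product -/
theorem int_prod (hRap : S_RAP) {d : ℕ} {M : Type} [MetricSpace M]
    (C : RChart (d + 1) M) (hvol : ∫⁻ p in C.D, ENNReal.ofReal √(C.G p).det < ⊤)
    (K : NNReal) (Φ : Sph (d + 1) → M → E (d + 1)) (hΦ : ∀ θ, LipschitzWith K (Φ θ))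
    (hc : Continuous (fun z : Sph (d + 1) × M => Φ z.1 z.2))
    [IsProbabilityMeasure (sg (d + 1))] :
    Integrable (fun z : E (d + 1) × Sph (d + 1) => (fderiv ℝ (Φ z.2 ∘ C.map) z.1).det)
      ((volume.restrict C.D).prod (sg (d + 1))) := by
  have hK0 : (0 : ℝ) ≤ K := K.2
  -- measurability
  obtain ⟨-, hsm⟩ := hRap (d + 1) (E (d + 1)) C.U C.isOpen_U (fun θ => Φ θ ∘ C.map) (by
    intro p hp
    obtain ⟨r, hr, hrU, h⟩ := TLoc.taskLoc (d + 1) M C p hp 1 one_pos
    refine ⟨r, hr, K * (√(∑ i, ∑ j, |C.G p i j|) + 1), fun θ y hy z hz => ?_⟩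
    have h1 := h y hy z hz
    have h2 := gnorm_le (C.G p) (y - z)
    simp only [Function.comp_apply]
    rw [← dist_eq_norm]
    calc dist (Φ θ (C.map y)) (Φ θ (C.map z)) ≤ K * dist (C.map y) (C.map z) :=
          (hΦ θ).dist_le_mul _ _
      _ ≤ K * (√(∑ i, ∑ j, |C.G p i j|) * ‖y - z‖ + 1 * ‖y - z‖) := by
          apply mul_le_mul_of_nonneg_left _ hK0
          linarith
      _ = _ := by ring) (by
    intro p _
    exact hc.comp (continuous_id.prodMk continuous_const)) inferInstance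
  have hmem : ∀ᵐ z ∂((volume.restrict C.D).prod (sg (d + 1))), z.1 ∈ C.D := by
    have h1 : ∀ᵐ p ∂(volume.restrict C.D), p ∈ C.D := ae_restrict_mem C.meas_D
    exact (Measure.quasiMeasurePreserving_fst).ae h1
  have hdet : Continuous (fun L : E (d + 1) →L[ℝ] E (d + 1) => L.det) :=
    ContinuousLinearMap.continuous_det
  have haesm : AEStronglyMeasurable
      (fun z : E (d + 1) × Sph (d + 1) => (fderiv ℝ (Φ z.2 ∘ C.map) z.1).det)
      ((volume.restrict C.D).prod (sg (d + 1))) := by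
    refine (hdet.comp_stronglyMeasurable hsm).aestronglyMeasurable.congr ?_
    filter_upwards [hmem] with z hz
    rw [if_pos (C.D_sub hz)]
  -- the majorant
  have hG : ContinuousOn (fun p => √(C.G p).det) C.U :=
    (Real.continuous_sqrt.comp (continuous_id.matrix_det)).comp_continuousOn C.cont_G
  have hGi : Integrable (fun p => (K : ℝ) ^ (d + 1) * √(C.G p).det) (volume.restrict C.D) := by
    apply Integrable.const_mul
    refine ⟨(hG.mono C.D_sub).aestronglyMeasurable C.meas_D, ?_⟩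
    rw [hasFiniteIntegral_iff_ofReal (Eventually.of_forall fun p => Real.sqrt_nonneg _)]
    exact hvol
  refine Integrable.mono' (hGi.comp_fst (sg (d + 1))) haesm ?_
  filter_upwards [hmem] with z hz
  rw [Real.norm_eq_abs]
  exact det_le (Nat.succ_pos d) C (hΦ z.2) (C.D_sub hz)

/-- **FUB** -/
theorem t : S_RAP → S_FUB := by
  intro hRap d hd M _ _ S hvol K Φ hΦ hc hprob
  have hvi : ∀ i, ∫⁻ p in (S.chart i).D, ENNReal.ofReal √((S.chart i).G p).det < ⊤ := by
    intro i
    refine lt_of_le_of_lt ?_ hvol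
    exact Finset.single_le_sum
      (f := fun i => ∫⁻ p in (S.chart i).D, ENNReal.ofReal √((S.chart i).G p).det)
      (fun _ _ => bot_le) (Finset.mem_univ i)
  have hI := fun i => int_prod hRap (S.chart i) (hvi i) K Φ hΦ hc
  refine ⟨fun i => (hI i).prod_right_ae, fun i => (hI i).integral_prod_left, ?_⟩
  unfold jint
  rw [integral_finset_sum _ (fun i _ => (hI i).integral_prod_right)]
  refine Finset.sum_congr rfl fun i _ => ?_
  exact (integral_integral_swap (hI i)).symm

end Pool.Agent.N526.CP.FUB
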