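import Pool.Agent.N526.CP.Stm
import Pool.Agent.H241R3.FV.TPolar
import Pool.Agent.H241R3.FV.TConst

/-!
# PROJECT CPN, part HEM (helper933): from the cap theorem to fillings with round collar
-/

set_option autoImplicit false

open MeasureTheory Metric Set Filter Topology InnerProductGeometry Matrix

namespace Pool.Agent.N526.CP.HEM

open Pool.Agent.H241R3.FV Pool.Agent.N526.CP

theorem sin_half (d : ℕ) :
    ∫ t in (0 : ℝ)..Real.pi, Real.sin t ^ d = 2 * ∫ t in (0 : ℝ)..(Real.pi / 2), Real.sin t ^ d := by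
  have hc : Continuous fun t : ℝ => Real.sin t ^ d := by fun_prop
  have h1 : ∫ t in (Real.pi / 2)..Real.pi, Real.sin t ^ d =
      ∫ t in (0 : ℝ)..(Real.pi / 2), Real.sin t ^ d := by
    have h2 := intervalIntegral.integral_comp_sub_left (a := 0) (b := Real.pi / 2)
      (fun t => Real.sin t ^ d) Real.pi
    rw [sub_zero, show Real.pi - Real.pi / 2 = Real.pi / 2 by ring] at h2
    rw [← h2]
    apply intervalIntegral.integral_congr
    intro t _
    simp only [Real.sin_pi_sub]
  rw [← intervalIntegral.integral_add_adjacent_intervals (hc.intervalIntegrable 0 (Real.pi / 2))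
    (hc.intervalIntegrable (Real.pi / 2) Real.pi), h1]
  ring

theorem vol_half (d : ℕ) :
    (volume : Measure (E (d + 2))).toSphere univ / 2 =
      ENNReal.ofReal ((sig (d + 1)).real univ * ∫ t in (0 : ℝ)..(Real.pi / 2), Real.sin t ^ d) := by
  have hp := TPolar.taskPolar (d + 1) (by omega) (fun _ => 1) continuous_const
  simp only [integral_const, smul_eq_mul, mul_one, one_mul, Nat.add_sub_cancel] at hp
  have hs : (sig (d + 1)).real univ = (d + 1 : ℕ) * om (d + 1) := TConst.sig_univ (d + 1) (by omega)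
  rw [← hs, sin_half] at hp
  have h1 : (volume : Measure (E (d + 2))).toSphere univ = ENNReal.ofReal ((sig (d + 2)).real univ) := by
    rw [Measure.real, ENNReal.ofReal_toReal]
    · rfl
    · exact measure_ne_top _ _
  have h2 : (sig (d + 2)).real univ =
      ((sig (d + 1)).real univ * ∫ t in (0 : ℝ)..(Real.pi / 2), Real.sin t ^ d) * 2 := by
    refine Eq.trans ?_ (hp.trans (by ring))
    rfl
  rw [h1, h2, ENNReal.ofReal_mul' (by norm_num), ENNReal.ofReal_ofNat]
  exact ENNReal.mul_div_cancel_right (by norm_num) (by norm_num)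

theorem cap_le {d : ℕ} {M : Type} [MetricSpace M] (S : OFill (d + 1) M) (ρ : ℝ) (h0 : 0 < ρ)
    (h1 : ρ < Real.pi / 2) (h : RoundCollar S ρ) (x' y' : Sph (d + 1)) :
    capDist ρ x' y' ≤ dist (S.bd x') (S.bd y') := by
  by_cases hxy : x' = y'
  · subst hxy
    unfold capDist
    rw [real_inner_self_eq_norm_sq, norm_sph, one_pow, mul_one, Real.cos_sq_add_sin_sq,
      Real.arccos_one]
    exact dist_nonneg
  have hne : (x' : E (d + 1)) - (y' : E (d + 1)) ≠ 0 := by
    intro h2
    exact hxy (Subtype.ext (sub_eq_zero.1 h2))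
  set z : ℝ := ‖(x' : E (d + 1)) - (y' : E (d + 1))‖ with hz
  have hz0 : 0 < z := norm_pos_iff.2 hne
  set c : ℝ := inner ℝ (x' : E (d + 1)) (y' : E (d + 1)) with hc
  have hz2 : z ^ 2 = 2 - 2 * c := by
    rw [hz, norm_sub_sq_real, norm_sph, norm_sph]
    ring
  have hxn : ‖z⁻¹ • ((x' : E (d + 1)) - (y' : E (d + 1)))‖ = 1 := by
    rw [norm_smul, Real.norm_of_nonneg (by positivity), ← hz]
    field_simp
  set x : Sph (d + 1) := ⟨z⁻¹ • ((x' : E (d + 1)) - (y' : E (d + 1))), by simpa using hxn⟩ with hx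
  set y : Sph (d + 1) := ⟨-(z⁻¹ • ((x' : E (d + 1)) - (y' : E (d + 1)))), by
    simpa using hxn⟩ with hy
  have e1 : inner ℝ (x : E (d + 1)) (x' : E (d + 1)) = z / 2 := by
    show inner ℝ (z⁻¹ • ((x' : E (d + 1)) - (y' : E (d + 1)))) (x' : E (d + 1)) = z / 2
    rw [real_inner_smul_left, inner_sub_left, real_inner_self_eq_norm_sq, norm_sph,
      real_inner_comm, ← hc]
    field_simp
    linarith
  have e2 : inner ℝ (y : E (d + 1)) (y' : E (d + 1)) = z / 2 := by
    show inner ℝ (-(z⁻¹ • ((x' : E (d + 1)) - (y' : E (d + 1))))) (y' : E (d + 1)) = z / 2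
    rw [inner_neg_left, real_inner_smul_left, inner_sub_left, real_inner_self_eq_norm_sq, norm_sph,
      ← hc]
    field_simp
    linarith
  have e3 : angle (x : E (d + 1)) (y : E (d + 1)) = Real.pi := by
    show angle (z⁻¹ • ((x' : E (d + 1)) - (y' : E (d + 1))))
      (-(z⁻¹ • ((x' : E (d + 1)) - (y' : E (d + 1))))) = Real.pi
    apply angle_self_neg_of_nonzero
    intro h2
    rw [h2, norm_zero] at hxn
    exact zero_ne_one hxn
  have h2 := h x x' y' y (by rw [e1]; positivity) (by rw [e2]; positivity)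
  rw [e1, e2, e3] at h2
  have hs0 : 0 ≤ Real.sin ρ := (Real.sin_pos_of_pos_of_lt_pi h0 (by linarith [Real.pi_pos])).le
  set w : ℝ := Real.sin ρ * (z / 2) with hw
  have hw0 : 0 ≤ w := by positivity
  have hc1 : -1 ≤ c := by
    have := abs_real_inner_le_norm (x' : E (d + 1)) (y' : E (d + 1))
    rw [norm_sph, norm_sph, one_mul] at this
    exact (abs_le.1 this).1
  have hz4 : z ≤ 2 := by nlinarith
  have hw1 : w ≤ 1 := by
    have := Real.sin_le_one ρ
    nlinarith
  have e4 : capDist ρ x' y' = Real.pi - 2 * Real.arccos w := by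
    unfold capDist
    rw [← hc]
    have e5 : Real.cos ρ ^ 2 + Real.sin ρ ^ 2 * c = Real.cos (Real.pi - 2 * Real.arccos w) := by
      rw [Real.cos_pi_sub, Real.cos_two_mul, Real.cos_arccos (by linarith) hw1]
      have := Real.cos_sq_add_sin_sq ρ
      have e6 : w ^ 2 = Real.sin ρ ^ 2 * ((2 - 2 * c) / 4) := by
        rw [hw, ← hz2]; ring
      rw [e6]
      linarith
    rw [e5]
    apply Real.arccos_cos
    · have := Real.arccos_le_pi_div_two.2 hw0
      linarith
    · have := Real.arccos_nonneg w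
      linarith
  rw [e4]
  linarith

theorem t : S_HEM := by
  intro d hd ρ h0 h1 hcap M _ _ S hS
  rw [vol_half]
  have hc : Continuous fun t : ℝ => Real.sin t ^ d := by fun_prop
  rw [← intervalIntegral.integral_add_adjacent_intervals (hc.intervalIntegrable 0 ρ)
    (hc.intervalIntegrable ρ (Real.pi / 2)), mul_add]
  refine ENNReal.ofReal_add_le.trans ?_
  exact add_le_add_left (hcap M S (cap_le S ρ h0 h1 hS)) _

end Pool.Agent.N526.CP.HEM
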