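import Pool.Agent.N526.CP.Stm

/-!
# Part INV of PROJECT CPN (helper526): the inverse of `Z` (helper227)
-/

set_option autoImplicit false

open Matrix MeasureTheory Metric Set

namespace Pool.Agent.N526.CP.INV

open Pool.Agent.H241R3.FV

theorem t : S_RAD → S_MON → S_INV := by
  intro hR hM d hd
  obtain ⟨hrad, -, hcont, hz0⟩ := hR d hd
  have hM' := hM d hd
  have hinj : ∀ X Y : E (d + 1), ‖X‖ ≤ 1 → ‖Y‖ ≤ 1 → Zf X = Zf Y → X = Y := by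
    intro X Y hX hY h
    have h1 := hM' X Y hX hY
    rw [h, sub_self, inner_zero_left, mul_zero] at h1
    have h2 : ‖X - Y‖ = 0 := by
      have := norm_nonneg (X - Y)
      nlinarith
    exact sub_eq_zero.1 (norm_eq_zero.1 h2)
  have h1 : ∀ X : E (d + 1), ‖X‖ < 1 → Ri (Zf X) = X := by
    intro X hX
    have hex : ∃ X' : E (d + 1), ‖X'‖ < 1 ∧ Zf X' = Zf X := ⟨X, hX, rfl⟩
    rw [Ri, dif_pos hex]
    exact hinj _ _ hex.choose_spec.1.le hX.le hex.choose_spec.2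
  have hsol : ∀ s : ℝ, 0 < s → s < 1 → ∀ Y : E (d + 1), ‖Y‖ ≤ zf d s →
      ∃ X : E (d + 1), ‖X‖ ≤ s ∧ Zf X = Y := by
    intro s hs0 hs1 Y hY
    by_cases hY0 : Y = 0
    · refine ⟨0, by simpa using hs0.le, ?_⟩
      rw [hY0]
      unfold Zf ip
      simp
    · have hn : 0 < ‖Y‖ := norm_pos_iff.2 hY0
      have hc : ContinuousOn (zf d) (Icc 0 s) := hcont.mono (Icc_subset_Icc_right hs1.le)
      have hmem : ‖Y‖ ∈ Icc (zf d 0) (zf d s) := by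
        rw [hz0]
        exact ⟨hn.le, hY⟩
      obtain ⟨t, ht, hte⟩ := intermediate_value_Icc hs0.le hc hmem
      have he : ‖(‖Y‖⁻¹ • Y : E (d + 1))‖ = 1 := by
        rw [norm_smul, norm_inv, norm_norm, inv_mul_cancel₀ hn.ne']
      refine ⟨t • (‖Y‖⁻¹ • Y), ?_, ?_⟩
      · rw [norm_smul, he, mul_one, Real.norm_of_nonneg ht.1]
        exact ht.2
      · rw [hrad t _ he, hte, smul_smul, mul_inv_cancel₀ hn.ne', one_smul]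
  have h2 : ∀ s : ℝ, 0 < s → s < 1 → ∀ Y : E (d + 1), ‖Y‖ ≤ zf d s →
      ‖Ri Y‖ ≤ s ∧ Zf (Ri Y) = Y := by
    intro s hs0 hs1 Y hY
    obtain ⟨X, hX, rfl⟩ := hsol s hs0 hs1 Y hY
    rw [h1 X (hX.trans_lt hs1)]
    exact ⟨hX, rfl⟩
  refine ⟨h1, h2, ?_⟩
  intro s hs0 hs1 Y Y' hY hY'
  obtain ⟨a1, a2⟩ := h2 s hs0 hs1 Y hY
  obtain ⟨b1, b2⟩ := h2 s hs0 hs1 Y' hY'
  have h3 := hM' (Ri Y) (Ri Y') (a1.trans hs1.le) (b1.trans hs1.le)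
  rw [a2, b2] at h3
  have h4 : inner ℝ (Y - Y') (Ri Y - Ri Y') ≤ ‖Y - Y'‖ * ‖Ri Y - Ri Y'‖ := real_inner_le_norm _ _
  have hd0 : (0 : ℝ) ≤ d + 1 := by positivity
  have h5 : ‖Ri Y - Ri Y'‖ ^ 2 ≤ (d + 1) * (‖Y - Y'‖ * ‖Ri Y - Ri Y'‖) :=
    h3.trans (mul_le_mul_of_nonneg_left h4 hd0)
  by_cases h0 : ‖Ri Y - Ri Y'‖ = 0
  · rw [h0]
    positivity
  · have hp : 0 < ‖Ri Y - Ri Y'‖ := lt_of_le_of_ne (norm_nonneg _) (Ne.symm h0)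
    have h6 : ‖Ri Y - Ri Y'‖ * ‖Ri Y - Ri Y'‖ ≤ ((d + 1) * ‖Y - Y'‖) * ‖Ri Y - Ri Y'‖ := by
      nlinarith
    exact le_of_mul_le_mul_right h6 hp

end Pool.Agent.N526.CP.INV
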