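import Pool.Agent.N526.CP.Stm

/-!
# Lipschitz properties of the maps (part LIP of project CPN, helper490)
-/

set_option autoImplicit false

open MeasureTheory Metric Set Filter Topology InnerProductGeometry Matrix

namespace Pool.Agent.N526.CP.LIP

open Pool.Agent.H241R3.FV

/-! ### square roots -/

theorem le_sq {c a : ℝ} (hc : 0 < c) (ha : c ^ 2 ≤ a) : c ≤ √a := by
  rw [← Real.sqrt_sq hc.le]
  exact Real.sqrt_le_sqrt ha

theorem isq_le {c a : ℝ} (hc : 0 < c) (ha : c ^ 2 ≤ a) : (√a)⁻¹ ≤ c⁻¹ :=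
  inv_anti₀ hc (le_sq hc ha)

theorem isq {c a b : ℝ} (hc : 0 < c) (ha : c ^ 2 ≤ a) (hb : c ^ 2 ≤ b) :
    |(√a)⁻¹ - (√b)⁻¹| ≤ (c⁻¹) ^ 3 * |a - b| := by
  have ha' := le_sq hc ha
  have hb' := le_sq hc hb
  have ha0 : 0 < √a := lt_of_lt_of_le hc ha'
  have hb0 : 0 < √b := lt_of_lt_of_le hc hb'
  have hasq : √a * √a = a := Real.mul_self_sqrt ((sq_nonneg c).trans ha)
  have hbsq : √b * √b = b := Real.mul_self_sqrt ((sq_nonneg c).trans hb)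
  have e : (√a)⁻¹ - (√b)⁻¹ = (b - a) * ((√a)⁻¹ * (√b)⁻¹ * (√a + √b)⁻¹) := by
    have h1 : √a + √b ≠ 0 := (add_pos ha0 hb0).ne'
    have h2 : b - a = (√b - √a) * (√a + √b) := by
      nth_rewrite 1 [← hasq, ← hbsq]
      ring
    rw [h2]
    field_simp
  have h3 : (√a + √b)⁻¹ ≤ c⁻¹ := inv_anti₀ hc (by linarith)
  have h4 : (√a)⁻¹ ≤ c⁻¹ := inv_anti₀ hc ha'
  have h5 : (√b)⁻¹ ≤ c⁻¹ := inv_anti₀ hc hb'
  have hc' : 0 < c⁻¹ := inv_pos.2 hc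
  rw [e, abs_mul, abs_sub_comm b a, mul_comm]
  refine mul_le_mul_of_nonneg_right ?_ (abs_nonneg _)
  rw [abs_of_pos (by positivity)]
  calc (√a)⁻¹ * (√b)⁻¹ * (√a + √b)⁻¹ ≤ c⁻¹ * c⁻¹ * c⁻¹ := by gcongr
    _ = (c⁻¹) ^ 3 := by ring

theorem asin_lip {s : ℝ} (hs0 : 0 < s) (hs : s < 1) {x y : ℝ} (hx : |x| ≤ s) (hy : |y| ≤ s) :
    |Real.arcsin x - Real.arcsin y| ≤ (√(1 - s ^ 2))⁻¹ * |x - y| := by
  have hc : 0 < 1 - s ^ 2 := by nlinarith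
  have h := Convex.norm_image_sub_le_of_norm_deriv_le (f := Real.arcsin)
    (C := (√(1 - s ^ 2))⁻¹) (s := Icc (-s) s) (x := y) (y := x) (fun z hz => by
      apply Real.differentiableAt_arcsin.2
      constructor
      · intro h1
        rw [h1] at hz
        linarith [hz.1]
      · intro h1
        rw [h1] at hz
        linarith [hz.2]) (fun z hz => by
      rw [Real.deriv_arcsin]
      have h1 : z ^ 2 ≤ s ^ 2 := by
        rw [sq_le_sq, abs_of_pos hs0]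
        exact abs_le.2 hz
      change ‖(1 / √(1 - z ^ 2) : ℝ)‖ ≤ _
      rw [Real.norm_eq_abs, abs_of_nonneg (by positivity), one_div]
      exact inv_anti₀ (Real.sqrt_pos.2 hc) (Real.sqrt_le_sqrt (by linarith)))
      (convex_Icc _ _) (abs_le.1 hy) (abs_le.1 hx)
  rwa [Real.norm_eq_abs, Real.norm_eq_abs] at h

/-! ### the map `U` -/

section

variable {n : ℕ}

theorem ip_le (X : E n) (θ : Sph n) : |ip X θ| ≤ ‖X‖ := by
  have h := abs_real_inner_le_norm X (θ : E n)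
  rw [norm_sph, mul_one] at h
  exact h

theorem ip_sub (X Y : E n) (θ : Sph n) : ip X θ - ip Y θ = ip (X - Y) θ := by
  unfold ip
  rw [inner_sub_left]

theorem ip_smul (a : ℝ) (X : E n) (θ : Sph n) : ip (a • X) θ = a * ip X θ := by
  unfold ip
  rw [real_inner_smul_left]

theorem Uf_lip {s : ℝ} (hs0 : 0 < s) (hs : s < 1) (θ : Sph n) {X Y : E n} (hX : ‖X‖ ≤ s)
    (hY : ‖Y‖ ≤ s) : ‖Uf θ X - Uf θ Y‖ ≤
      (2 * (√(1 - s ^ 2))⁻¹ + 4 * ((√(1 - s ^ 2))⁻¹) ^ 3) * ‖X - Y‖ := by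
  have hc2 : 0 < 1 - s ^ 2 := by nlinarith
  obtain ⟨c, hcdef⟩ : ∃ c, c = √(1 - s ^ 2) := ⟨_, rfl⟩
  have hc : 0 < c := by rw [hcdef]; exact Real.sqrt_pos.2 hc2
  have hcs : c ^ 2 = 1 - s ^ 2 := by rw [hcdef]; exact Real.sq_sqrt hc2.le
  rw [← hcdef]
  have hct : ∀ t : ℝ, |t| ≤ s → c ^ 2 ≤ 1 - t ^ 2 := by
    intro t ht
    rw [hcs]
    have h1 : t ^ 2 ≤ s ^ 2 := by
      rw [sq_le_sq, abs_of_pos hs0]
      exact ht
    linarith
  have ht := (ip_le X θ).trans hX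
  have hu := (ip_le Y θ).trans hY
  have htu : |ip X θ - ip Y θ| ≤ ‖X - Y‖ := by
    rw [ip_sub]
    exact ip_le _ _
  set t := ip X θ with htdef
  set u := ip Y θ with hudef
  have e : Uf θ X - Uf θ Y = (√(1 - t ^ 2))⁻¹ • ((X - Y) - (t - u) • (θ : E n)) +
      ((√(1 - t ^ 2))⁻¹ - (√(1 - u ^ 2))⁻¹) • (Y - u • (θ : E n)) := by
    unfold Uf
    rw [← htdef, ← hudef]
    module
  have n1 : ‖(X - Y) - (t - u) • (θ : E n)‖ ≤ 2 * ‖X - Y‖ := by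
    calc ‖(X - Y) - (t - u) • (θ : E n)‖ ≤ ‖X - Y‖ + ‖(t - u) • (θ : E n)‖ := norm_sub_le _ _
      _ = ‖X - Y‖ + |t - u| := by rw [norm_smul, norm_sph, mul_one, Real.norm_eq_abs]
      _ ≤ 2 * ‖X - Y‖ := by linarith
  have n2 : ‖Y - u • (θ : E n)‖ ≤ 2 := by
    calc ‖Y - u • (θ : E n)‖ ≤ ‖Y‖ + ‖u • (θ : E n)‖ := norm_sub_le _ _
      _ = ‖Y‖ + |u| := by rw [norm_smul, norm_sph, mul_one, Real.norm_eq_abs]
      _ ≤ 2 := by linarith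
  have n3 : (√(1 - t ^ 2))⁻¹ ≤ c⁻¹ := isq_le hc (hct t ht)
  have n4 : |(√(1 - t ^ 2))⁻¹ - (√(1 - u ^ 2))⁻¹| ≤ (c⁻¹) ^ 3 * (2 * ‖X - Y‖) := by
    refine (isq hc (hct t ht) (hct u hu)).trans ?_
    refine mul_le_mul_of_nonneg_left ?_ (by positivity)
    have h1 : (1 - t ^ 2) - (1 - u ^ 2) = -((t - u) * (t + u)) := by ring
    rw [h1, abs_neg, abs_mul]
    have h2 : |t + u| ≤ 2 := (abs_add_le t u).trans (by linarith)
    calc |t - u| * |t + u| ≤ ‖X - Y‖ * 2 := by gcongr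
      _ = 2 * ‖X - Y‖ := by ring
  rw [e]
  calc ‖(√(1 - t ^ 2))⁻¹ • ((X - Y) - (t - u) • (θ : E n)) +
      ((√(1 - t ^ 2))⁻¹ - (√(1 - u ^ 2))⁻¹) • (Y - u • (θ : E n))‖ ≤
      ‖(√(1 - t ^ 2))⁻¹ • ((X - Y) - (t - u) • (θ : E n))‖ +
      ‖((√(1 - t ^ 2))⁻¹ - (√(1 - u ^ 2))⁻¹) • (Y - u • (θ : E n))‖ := norm_add_le _ _
    _ = (√(1 - t ^ 2))⁻¹ * ‖(X - Y) - (t - u) • (θ : E n)‖ +
      |(√(1 - t ^ 2))⁻¹ - (√(1 - u ^ 2))⁻¹| * ‖Y - u • (θ : E n)‖ := by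
        rw [norm_smul, norm_smul, Real.norm_eq_abs, Real.norm_eq_abs,
          abs_of_nonneg (a := (√(1 - t ^ 2))⁻¹) (by positivity)]
    _ ≤ c⁻¹ * (2 * ‖X - Y‖) + (c⁻¹) ^ 3 * (2 * ‖X - Y‖) * 2 := by gcongr
    _ = (2 * c⁻¹ + 4 * (c⁻¹) ^ 3) * ‖X - Y‖ := by ring

end

/-! ### the map `H` -/

section

variable {d : ℕ}

theorem co_le (X : E (d + 1)) : |X 0| ≤ ‖X‖ := by
  have h := PiLp.norm_apply_le X 0
  rwa [Real.norm_eq_abs] at h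

theorem Hf_lip {s : ℝ} (hs0 : 0 < s) (hs : s < 1) {X Y : E (d + 1)} (hX : ‖X‖ ≤ s)
    (hY : ‖Y‖ ≤ s) : ‖Hf X - Hf Y‖ ≤
      (2 + (√(1 - s ^ 2))⁻¹ * ((√(1 - s ^ 2))⁻¹ + 4 * ((√(1 - s ^ 2))⁻¹) ^ 3)) * ‖X - Y‖ := by
  have hc2 : 0 < 1 - s ^ 2 := by nlinarith
  obtain ⟨c, hcdef⟩ : ∃ c, c = √(1 - s ^ 2) := ⟨_, rfl⟩
  have hc : 0 < c := by rw [hcdef]; exact Real.sqrt_pos.2 hc2
  have hcs : c ^ 2 = 1 - s ^ 2 := by rw [hcdef]; exact Real.sq_sqrt hc2.le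
  have hA : ∀ Z : E (d + 1), ‖Z‖ ≤ s → c ^ 2 ≤ 1 - ‖Z‖ ^ 2 + Z 0 ^ 2 := by
    intro Z hZ
    have h1 : ‖Z‖ ^ 2 ≤ s ^ 2 := by gcongr
    nlinarith [sq_nonneg (Z 0)]
  have hW : ∀ Z : E (d + 1), ‖Z‖ ≤ s → |Z 0 / √(1 - ‖Z‖ ^ 2 + Z 0 ^ 2)| ≤ s := by
    intro Z hZ
    have h0 := hA Z hZ
    have h1 : 0 < 1 - ‖Z‖ ^ 2 + Z 0 ^ 2 := lt_of_lt_of_le (by positivity) h0
    have h2 : ‖Z‖ ^ 2 ≤ s ^ 2 := by gcongr
    have h3 : Z 0 ^ 2 ≤ ‖Z‖ ^ 2 := by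
      rw [sq_le_sq, abs_norm]
      exact co_le Z
    rw [abs_div, abs_of_pos (Real.sqrt_pos.2 h1), div_le_iff₀ (Real.sqrt_pos.2 h1)]
    refine abs_le_of_sq_le_sq ?_ (by positivity)
    rw [mul_pow, Real.sq_sqrt h1.le]
    nlinarith [mul_nonneg (sub_nonneg.2 h2) (sq_nonneg s), mul_nonneg (sub_nonneg.2 h3) hc2.le]
  have hX0 := co_le (X - Y)
  have hX0' : |X 0 - Y 0| ≤ ‖X - Y‖ := hX0
  have hx := (co_le X).trans hX
  have hy := (co_le Y).trans hY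
  set A := √(1 - ‖X‖ ^ 2 + X 0 ^ 2) with hAdef
  set B := √(1 - ‖Y‖ ^ 2 + Y 0 ^ 2) with hBdef
  have m1 : |A⁻¹ - B⁻¹| ≤ (c⁻¹) ^ 3 * (4 * ‖X - Y‖) := by
    refine (isq hc (hA X hX) (hA Y hY)).trans ?_
    refine mul_le_mul_of_nonneg_left ?_ (by positivity)
    have h1 : (1 - ‖X‖ ^ 2 + X 0 ^ 2) - (1 - ‖Y‖ ^ 2 + Y 0 ^ 2) =
        -((‖X‖ - ‖Y‖) * (‖X‖ + ‖Y‖)) + (X 0 - Y 0) * (X 0 + Y 0) := by ring
    rw [h1]
    have h2 : |‖X‖ - ‖Y‖| ≤ ‖X - Y‖ := abs_norm_sub_norm_le X Y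
    have h3 : |‖X‖ + ‖Y‖| ≤ 2 := by
      rw [abs_of_nonneg (by positivity)]
      linarith
    have h4 : |X 0 + Y 0| ≤ 2 := (abs_add_le _ _).trans (by linarith)
    calc |-((‖X‖ - ‖Y‖) * (‖X‖ + ‖Y‖)) + (X 0 - Y 0) * (X 0 + Y 0)| ≤
        |-((‖X‖ - ‖Y‖) * (‖X‖ + ‖Y‖))| + |(X 0 - Y 0) * (X 0 + Y 0)| := abs_add_le _ _
      _ = |‖X‖ - ‖Y‖| * |‖X‖ + ‖Y‖| + |X 0 - Y 0| * |X 0 + Y 0| := by
          rw [abs_neg, abs_mul, abs_mul]
      _ ≤ ‖X - Y‖ * 2 + ‖X - Y‖ * 2 := by gcongr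
      _ = 4 * ‖X - Y‖ := by ring
  have m2 : A⁻¹ ≤ c⁻¹ := isq_le hc (hA X hX)
  have m3 : |X 0 / A - Y 0 / B| ≤ (c⁻¹ + 4 * (c⁻¹) ^ 3) * ‖X - Y‖ := by
    have h1 : X 0 / A - Y 0 / B = (X 0 - Y 0) * A⁻¹ + Y 0 * (A⁻¹ - B⁻¹) := by
      rw [div_eq_mul_inv, div_eq_mul_inv]
      ring
    rw [h1]
    calc |(X 0 - Y 0) * A⁻¹ + Y 0 * (A⁻¹ - B⁻¹)| ≤ |(X 0 - Y 0) * A⁻¹| + |Y 0 * (A⁻¹ - B⁻¹)| :=
          abs_add_le _ _
      _ = |X 0 - Y 0| * A⁻¹ + |Y 0| * |A⁻¹ - B⁻¹| := by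
          rw [abs_mul, abs_mul, abs_of_nonneg (a := A⁻¹) (by positivity)]
      _ ≤ ‖X - Y‖ * c⁻¹ + 1 * ((c⁻¹) ^ 3 * (4 * ‖X - Y‖)) := by
          gcongr
          linarith
      _ = (c⁻¹ + 4 * (c⁻¹) ^ 3) * ‖X - Y‖ := by ring
  have m4 : |Real.arcsin (X 0 / A) - Real.arcsin (Y 0 / B)| ≤
      c⁻¹ * ((c⁻¹ + 4 * (c⁻¹) ^ 3) * ‖X - Y‖) := by
    have h1 := asin_lip hs0 hs (hW X hX) (hW Y hY)
    rw [← hcdef] at h1
    exact h1.trans (mul_le_mul_of_nonneg_left m3 (by positivity))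
  rw [← hcdef]
  have e : Hf X - Hf Y = (X - Y) + ((Real.arcsin (X 0 / A) - Real.arcsin (Y 0 / B)) -
      (X 0 - Y 0)) • (EuclideanSpace.single 0 1 : E (d + 1)) := by
    unfold Hf
    rw [← hAdef, ← hBdef]
    module
  rw [e]
  have n0 : ‖(EuclideanSpace.single 0 1 : E (d + 1))‖ = 1 := by
    rw [EuclideanSpace.norm_single, norm_one]
  calc ‖(X - Y) + ((Real.arcsin (X 0 / A) - Real.arcsin (Y 0 / B)) -
      (X 0 - Y 0)) • (EuclideanSpace.single 0 1 : E (d + 1))‖ ≤ ‖X - Y‖ +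
      ‖((Real.arcsin (X 0 / A) - Real.arcsin (Y 0 / B)) -
      (X 0 - Y 0)) • (EuclideanSpace.single 0 1 : E (d + 1))‖ := norm_add_le _ _
    _ = ‖X - Y‖ + |(Real.arcsin (X 0 / A) - Real.arcsin (Y 0 / B)) - (X 0 - Y 0)| := by
        rw [norm_smul, n0, mul_one, Real.norm_eq_abs]
    _ ≤ ‖X - Y‖ + (|Real.arcsin (X 0 / A) - Real.arcsin (Y 0 / B)| + |X 0 - Y 0|) := by
        gcongr
        exact abs_sub _ _
    _ ≤ ‖X - Y‖ + (c⁻¹ * ((c⁻¹ + 4 * (c⁻¹) ^ 3) * ‖X - Y‖) + ‖X - Y‖) := by gcongr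
    _ = (2 + c⁻¹ * (c⁻¹ + 4 * (c⁻¹) ^ 3)) * ‖X - Y‖ := by ring

end

/-! ### the family -/

section

variable {d : ℕ} {M : Type} [MetricSpace M] {S : OFill (d + 1) M} {s : ℝ}
  {g : Sph (d + 1) → M → ℝ}

theorem cont_g (hg : Fam S s g) : Continuous (fun z : Sph (d + 1) × M => g z.1 z.2) := by
  obtain ⟨C, hC⟩ := hg.lipθ
  have h1 : LipschitzWith (Real.toNNReal C + 1) (Function.uncurry g) := by
    refine LipschitzWith.uncurry (fun q => ?_) (fun θ => ?_)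
    · refine LipschitzWith.of_dist_le' fun θ θ' => ?_
      rw [Real.dist_eq, Subtype.dist_eq, dist_eq_norm]
      exact hC θ θ' q
    · refine LipschitzWith.of_dist_le_mul fun q q' => ?_
      rw [Real.dist_eq, NNReal.coe_one, one_mul]
      exact hg.lip θ q q'
  exact h1.continuous

theorem cont_int (hg : Fam S s g) (q : M) :
    Continuous (fun θ : Sph (d + 1) => g θ q • (θ : E (d + 1))) := by
  have h1 : Continuous (fun θ : Sph (d + 1) => g θ q) :=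
    (cont_g hg).comp (Continuous.prodMk continuous_id continuous_const)
  exact h1.smul continuous_subtype_val

theorem int_lip [IsProbabilityMeasure (sg (d + 1))] (hg : Fam S s g) (q q' : M) :
    ‖∫ θ : Sph (d + 1), g θ q • (θ : E (d + 1)) ∂(sg (d + 1)) -
      ∫ θ : Sph (d + 1), g θ q' • (θ : E (d + 1)) ∂(sg (d + 1))‖ ≤ dist q q' := by
  have hint : ∀ q, Integrable (fun θ : Sph (d + 1) => g θ q • (θ : E (d + 1))) (sg (d + 1)) :=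
    fun q => (cont_int hg q).integrable_of_hasCompactSupport
      (HasCompactSupport.of_compactSpace _)
  rw [← integral_sub (hint q) (hint q')]
  have h1 := norm_integral_le_of_norm_le_const (μ := sg (d + 1)) (C := dist q q')
    (f := fun θ : Sph (d + 1) => g θ q • (θ : E (d + 1)) - g θ q' • (θ : E (d + 1)))
    (Eventually.of_forall fun θ => by
      rw [← sub_smul, norm_smul, norm_sph, mul_one, Real.norm_eq_abs]
      exact hg.lip θ q q')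
  rwa [probReal_univ, mul_one] at h1

end

theorem t : S_SPH → S_INV → S_RAD → S_UDER → S_LIP := by
  intro hS hI _ _ d hd M _ _ S s g hs0 hs1 hg
  obtain ⟨hP, -, -⟩ := hS d hd
  obtain ⟨i1, i2, i3⟩ := hI d hd
  have hXn : ∀ q, ‖Xf g q‖ ≤ s := fun q => (i2 s hs0 hs1 _ (hg.range q)).1
  have hXl : ∀ q q', ‖Xf g q - Xf g q'‖ ≤ (d + 1) * dist q q' := by
    intro q q'
    refine (i3 s hs0 hs1 _ _ (hg.range q) (hg.range q')).trans ?_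
    exact mul_le_mul_of_nonneg_left (int_lip hg q q') (by positivity)
  obtain ⟨c, hcdef⟩ : ∃ c, c = (√(1 - s ^ 2))⁻¹ := ⟨_, rfl⟩
  have hc0 : 0 ≤ c := by rw [hcdef]; positivity
  obtain ⟨K1, hK1def⟩ : ∃ K1, K1 = 2 * c + 4 * c ^ 3 := ⟨_, rfl⟩
  obtain ⟨K2, hK2def⟩ : ∃ K2, K2 = 2 + c * (c + 4 * c ^ 3) := ⟨_, rfl⟩
  have hK1 : 0 ≤ K1 := by rw [hK1def]; positivity
  have hK2 : 0 ≤ K2 := by rw [hK2def]; positivity
  have hU : ∀ (θ : Sph (d + 1)) (X Y : E (d + 1)), ‖X‖ ≤ s → ‖Y‖ ≤ s →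
      ‖Uf θ X - Uf θ Y‖ ≤ K1 * ‖X - Y‖ := by
    intro θ X Y hX hY
    have h1 := Uf_lip hs0 hs1 θ hX hY
    rw [← hcdef, ← hK1def] at h1
    exact h1
  have hH : ∀ (X Y : E (d + 1)), ‖X‖ ≤ s → ‖Y‖ ≤ s →
      ‖Hf X - Hf Y‖ ≤ K2 * ‖X - Y‖ := by
    intro X Y hX hY
    have h1 := Hf_lip hs0 hs1 hX hY
    rw [← hcdef, ← hK2def] at h1
    exact h1
  have hsY : ∀ y ∈ closedBall (0 : E (d + 1)) 1, ‖s • y‖ ≤ s := by
    intro y hy
    rw [norm_smul, Real.norm_eq_abs, abs_of_pos hs0]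
    have h1 : ‖y‖ ≤ 1 := mem_closedBall_zero_iff.1 hy
    nlinarith
  have hsd : ∀ y y' : E (d + 1), ‖s • y - s • y'‖ ≤ ‖y - y'‖ := by
    intro y y'
    rw [← smul_sub, norm_smul, Real.norm_eq_abs, abs_of_pos hs0]
    nlinarith [norm_nonneg (y - y')]
  have hbd : ∀ x : Sph (d + 1), Xf g (S.bd x) = s • (x : E (d + 1)) := by
    intro x
    have h1 : ∫ θ : Sph (d + 1), g θ (S.bd x) • (θ : E (d + 1)) ∂(sg (d + 1)) =
        Zf (s • (x : E (d + 1))) := by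
      unfold Zf
      congr 1
      funext θ
      rw [hg.bdv, ip_smul]
      rfl
    unfold Xf
    rw [h1]
    apply i1
    rw [norm_smul, norm_sph, mul_one, Real.norm_eq_abs, abs_of_pos hs0]
    exact hs1
  have hD : (0 : ℝ) ≤ d + 1 := by positivity
  obtain ⟨K, hK⟩ : ∃ K : ℝ, K = K1 * (d + 1) + K2 * (d + 1) + K1 + K2 + c + 1 := ⟨_, rfl⟩
  have hKp : 0 ≤ K := by rw [hK]; positivity
  have p1 : 0 ≤ K1 * (d + 1) := by positivity
  have p2 : 0 ≤ K2 * (d + 1) := by positivity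
  refine ⟨⟨K, hKp⟩, fun θ => ?_, ?_, fun θ => ?_, ?_, fun θ x => ?_, fun x => ?_, ?_⟩
  · refine LipschitzWith.of_dist_le_mul fun q q' => ?_
    rw [dist_eq_norm]
    change ‖Psi g θ q - Psi g θ q'‖ ≤ K * dist q q'
    have e : Psi g θ q - Psi g θ q' = (Uf θ (Xf g q) - Uf θ (Xf g q')) +
        (g θ q - g θ q') • (θ : E (d + 1)) := by
      unfold Psi
      module
    rw [e]
    calc ‖(Uf θ (Xf g q) - Uf θ (Xf g q')) + (g θ q - g θ q') • (θ : E (d + 1))‖ ≤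
        ‖Uf θ (Xf g q) - Uf θ (Xf g q')‖ + ‖(g θ q - g θ q') • (θ : E (d + 1))‖ :=
          norm_add_le _ _
      _ = ‖Uf θ (Xf g q) - Uf θ (Xf g q')‖ + |g θ q - g θ q'| := by
          rw [norm_smul, norm_sph, mul_one, Real.norm_eq_abs]
      _ ≤ K1 * ((d + 1) * dist q q') + dist q q' :=
          add_le_add ((hU θ _ _ (hXn q) (hXn q')).trans
            (mul_le_mul_of_nonneg_left (hXl q q') hK1)) (hg.lip θ q q')
      _ = (K1 * (d + 1) + 1) * dist q q' := by ring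
      _ ≤ K * dist q q' := mul_le_mul_of_nonneg_right (by rw [hK]; linarith) dist_nonneg
  · refine LipschitzWith.of_dist_le_mul fun q q' => ?_
    rw [dist_eq_norm]
    change ‖Hf (Xf g q) - Hf (Xf g q')‖ ≤ K * dist q q'
    calc ‖Hf (Xf g q) - Hf (Xf g q')‖ ≤ K2 * ((d + 1) * dist q q') :=
          (hH _ _ (hXn q) (hXn q')).trans (mul_le_mul_of_nonneg_left (hXl q q') hK2)
      _ = (K2 * (d + 1)) * dist q q' := by ring
      _ ≤ K * dist q q' := mul_le_mul_of_nonneg_right (by rw [hK]; linarith) dist_nonneg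
  · refine LipschitzOnWith.of_dist_le_mul fun y hy y' hy' => ?_
    rw [dist_eq_norm, dist_eq_norm]
    change ‖Psi0 s θ y - Psi0 s θ y'‖ ≤ K * ‖y - y'‖
    have e : Psi0 s θ y - Psi0 s θ y' = (Uf θ (s • y) - Uf θ (s • y')) +
        (Real.arcsin (ip (s • y) θ) - Real.arcsin (ip (s • y') θ)) • (θ : E (d + 1)) := by
      unfold Psi0
      module
    have h1 : |Real.arcsin (ip (s • y) θ) - Real.arcsin (ip (s • y') θ)| ≤ c * ‖y - y'‖ := by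
      have h2 := asin_lip hs0 hs1 ((ip_le (s • y) θ).trans (hsY y hy))
        ((ip_le (s • y') θ).trans (hsY y' hy'))
      rw [← hcdef, ip_sub] at h2
      exact h2.trans (mul_le_mul_of_nonneg_left ((ip_le _ _).trans (hsd y y')) hc0)
    rw [e]
    calc ‖(Uf θ (s • y) - Uf θ (s • y')) +
        (Real.arcsin (ip (s • y) θ) - Real.arcsin (ip (s • y') θ)) • (θ : E (d + 1))‖ ≤
        ‖Uf θ (s • y) - Uf θ (s • y')‖ +
        ‖(Real.arcsin (ip (s • y) θ) - Real.arcsin (ip (s • y') θ)) • (θ : E (d + 1))‖ :=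
          norm_add_le _ _
      _ = ‖Uf θ (s • y) - Uf θ (s • y')‖ +
        |Real.arcsin (ip (s • y) θ) - Real.arcsin (ip (s • y') θ)| := by
          rw [norm_smul, norm_sph, mul_one, Real.norm_eq_abs]
      _ ≤ K1 * ‖y - y'‖ + c * ‖y - y'‖ :=
          add_le_add ((hU θ _ _ (hsY y hy) (hsY y' hy')).trans
            (mul_le_mul_of_nonneg_left (hsd y y') hK1)) h1
      _ = (K1 + c) * ‖y - y'‖ := by ring
      _ ≤ K * ‖y - y'‖ := mul_le_mul_of_nonneg_right (by rw [hK]; linarith) (norm_nonneg _)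
  · refine LipschitzOnWith.of_dist_le_mul fun y hy y' hy' => ?_
    rw [dist_eq_norm, dist_eq_norm]
    change ‖Hf (s • y) - Hf (s • y')‖ ≤ K * ‖y - y'‖
    calc ‖Hf (s • y) - Hf (s • y')‖ ≤ K2 * ‖y - y'‖ :=
          (hH _ _ (hsY y hy) (hsY y' hy')).trans (mul_le_mul_of_nonneg_left (hsd y y') hK2)
      _ ≤ K * ‖y - y'‖ := mul_le_mul_of_nonneg_right (by rw [hK]; linarith) (norm_nonneg _)
  · unfold Psi Psi0
    rw [hbd, hg.bdv, ip_smul]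
    rfl
  · rw [hbd]
  · have c1 : Continuous (fun z : Sph (d + 1) × M => Xf g z.2) := by
      have h1 : LipschitzWith ⟨(d + 1 : ℝ), hD⟩ (Xf g) :=
        LipschitzWith.of_dist_le_mul fun q q' => by
          rw [dist_eq_norm]
          exact hXl q q'
      exact h1.continuous.comp continuous_snd
    have c2 : Continuous (fun z : Sph (d + 1) × M => (z.1 : E (d + 1))) :=
      continuous_subtype_val.comp continuous_fst
    have c3 : Continuous (fun z : Sph (d + 1) × M => ip (Xf g z.2) z.1) := by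
      unfold ip
      exact c1.inner c2
    have c4 : Continuous (fun z : Sph (d + 1) × M => (√(1 - ip (Xf g z.2) z.1 ^ 2))⁻¹) := by
      refine Continuous.inv₀ (Real.continuous_sqrt.comp (continuous_const.sub (c3.pow 2))) ?_
      intro z
      have h1 : |ip (Xf g z.2) z.1| ≤ s := (ip_le _ _).trans (hXn _)
      have h2 : ip (Xf g z.2) z.1 ^ 2 ≤ s ^ 2 := by
        rw [sq_le_sq, abs_of_pos hs0]
        exact h1
      exact (Real.sqrt_pos.2 (by nlinarith)).ne'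
    unfold Psi Uf
    exact (c4.smul (c1.sub (c3.smul c2))).add ((cont_g hg).smul c2)

end Pool.Agent.N526.CP.LIP
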