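import Pool.Agent.N526.CP.Stm
import Pool.Agent.H241R3.FV.TLoc

/-!
# Stokes for maps supported in one chart
-/

set_option autoImplicit false

open MeasureTheory Metric Set Filter Topology

namespace Pool.Agent.N526.CP.LOC

open Pool.Agent.H241R3.FV

theorem row_zero {n : ℕ} {F : E n → E n} {p : E n} {k : Fin n} (h : ∀ᶠ y in 𝓝 p, F y k = 0) :
    (fderiv ℝ F p).det = 0 := by
  rw [det_mat]
  refine Matrix.det_eq_zero_of_row_eq_zero k fun j => ?_
  unfold mat
  by_cases hd : DifferentiableAt ℝ F p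
  · have h2 : HasFDerivAt (fun y => F y k)
        ((EuclideanSpace.proj k : E n →L[ℝ] ℝ).comp (fderiv ℝ F p)) p :=
      (EuclideanSpace.proj k : E n →L[ℝ] ℝ).hasFDerivAt.comp p hd.hasFDerivAt
    have h3 : HasFDerivAt (fun y => F y k) (0 : E n →L[ℝ] ℝ) p :=
      (hasFDerivAt_const (0 : ℝ) p).congr_of_eventuallyEq h
    have h4 := h2.unique h3
    have h5 := congrArg (fun T : E n →L[ℝ] ℝ => T (EuclideanSpace.single j 1)) h4
    simpa using h5
  · rw [fderiv_zero_of_not_differentiableAt hd]
    simp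

theorem chart_lip {n : ℕ} {M : Type} [MetricSpace M] (C : RChart n M) {p : E n} (hp : p ∈ C.U) :
    ∃ r : ℝ, 0 < r ∧ ∃ K : NNReal, ball p r ⊆ C.U ∧ LipschitzOnWith K C.map (ball p r) := by
  obtain ⟨r, hr, hb, h⟩ := TLoc.taskLoc n M C p hp 1 one_pos
  refine ⟨r, hr, Real.toNNReal (√(∑ i, ∑ j, |C.G p i j|) + 1), hb, ?_⟩
  refine LipschitzOnWith.of_dist_le_mul fun y hy z hz => ?_
  rw [dist_eq_norm y z]
  refine (h y hy z hz).trans ?_
  have h1 := gnorm_le (C.G p) (y - z)
  rw [Real.coe_toNNReal _ (by positivity), add_mul]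
  linarith

theorem chart_cont {n : ℕ} {M : Type} [MetricSpace M] (C : RChart n M) {p : E n} (hp : p ∈ C.U) :
    ContinuousAt C.map p := by
  obtain ⟨r, hr, K, _, h⟩ := chart_lip C hp
  exact h.continuousOn.continuousAt (ball_mem_nhds p hr)

theorem compact_pre {n : ℕ} {M : Type} [MetricSpace M] (S : OFill n M) (j : S.ι) {C : Set M}
    (hC : IsCompact C) (hCO : C ⊆ (S.chart j).map '' (S.chart j).U) :
    IsCompact {p | p ∈ (S.chart j).U ∧ (S.chart j).map p ∈ C} := by
  let ψ : (S.chart j).U → M := fun p => (S.chart j).map p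
  have hcont : Continuous ψ := by
    rw [continuous_iff_continuousAt]
    intro p
    exact (chart_cont (S.chart j) p.2).comp continuous_subtype_val.continuousAt
  have hinj : Function.Injective ψ := fun p q h => Subtype.ext (S.inj j p.2 q.2 h)
  have hopen : IsOpenMap ψ := by
    intro V hV
    obtain ⟨W, hW, rfl⟩ := isOpen_induced_iff.1 hV
    have h1 : ψ '' (Subtype.val ⁻¹' W) = (S.chart j).map '' (W ∩ (S.chart j).U) := by
      ext q
      constructor
      · rintro ⟨p, hp, rfl⟩
        exact ⟨p, ⟨hp, p.2⟩, rfl⟩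
      · rintro ⟨p, ⟨hp, hpU⟩, rfl⟩
        exact ⟨⟨p, hpU⟩, hp, rfl⟩
    rw [h1]
    exact S.open_map j _ inter_subset_right (hW.inter (S.chart j).isOpen_U)
  have hemb := Topology.IsOpenEmbedding.of_continuous_injective_isOpenMap hcont hinj hopen
  have hr : C ⊆ range ψ := by
    intro q hq
    obtain ⟨p, hp, rfl⟩ := hCO hq
    exact ⟨⟨p, hp⟩, rfl⟩
  have h2 : IsCompact (ψ ⁻¹' C) := hemb.isInducing.isCompact_preimage' hC hr
  have h3 : {p | p ∈ (S.chart j).U ∧ (S.chart j).map p ∈ C} = Subtype.val '' (ψ ⁻¹' C) := by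
    ext p
    constructor
    · rintro ⟨h4, h5⟩
      exact ⟨⟨p, h4⟩, h5, rfl⟩
    · rintro ⟨q, h4, rfl⟩
      exact ⟨q.2, h4⟩
  rw [h3]
  exact h2.image continuous_subtype_val

theorem t : S_NUL → S_CHA → S_LOC := by
  intro hNUL hCHA n hn M _ _ S hvol K v hv k j C hC hCO hz
  have ha : jint S v = ∫ p in (S.chart j).U, (fderiv ℝ (v ∘ (S.chart j).map) p).det := by
    rw [← (hCHA n hn M S hvol K v hv).2.2 j]
    unfold jint
    refine Finset.sum_congr rfl fun i _ => ?_
    refine setIntegral_eq_of_subset_of_forall_sdiff_eq_zero (S.chart i).meas_D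
      (fun p hp => hp.1) ?_
    rintro p ⟨hpD, hpn⟩
    have hpO : (S.chart i).map p ∉ (S.chart j).map '' (S.chart j).U := fun h => hpn ⟨hpD, h⟩
    apply row_zero (k := k)
    have hcont := chart_cont (S.chart i) ((S.chart i).D_sub hpD)
    have hopen : Cᶜ ∈ 𝓝 ((S.chart i).map p) :=
      hC.isClosed.isOpen_compl.mem_nhds fun h => hpO (hCO h)
    filter_upwards [hcont hopen] with y hy
    exact hz _ hy
  rw [ha]
  set w : E n → E n := v ∘ (S.chart j).map with hw
  set C' : Set (E n) := {p | p ∈ (S.chart j).U ∧ (S.chart j).map p ∈ C} with hC'def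
  have hC' : IsCompact C' := compact_pre S j hC hCO
  have hCU : C' ⊆ (S.chart j).U := fun p hp => hp.1
  obtain ⟨δ, hδ, hδU⟩ := hC'.exists_cthickening_subset_open (S.chart j).isOpen_U hCU
  have hN : IsCompact (cthickening δ C') := hC'.cthickening
  have hLL : LocallyLipschitzOn (cthickening δ C') w := by
    intro p hp
    obtain ⟨r, hr, K', hb, hL⟩ := chart_lip (S.chart j) (hδU hp)
    exact ⟨K * K', ball p r, mem_nhdsWithin_of_mem_nhds (ball_mem_nhds p hr),
      hv.comp_lipschitzOnWith hL⟩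
  obtain ⟨K1, hK1⟩ := hLL.exists_lipschitzOnWith_of_compact hN
  obtain ⟨f, hf, hfw⟩ := hK1.extend_finite_dimension
  have hw0 : ∀ x ∈ (S.chart j).U, x ∉ C' → w x k = 0 := by
    intro x hx hxC
    exact hz _ fun h => hxC ⟨hx, h⟩
  classical
  set φ : E n → ℝ := fun x => if x ∈ C' then f x k else 0 with hφ
  have hφ0 : ∀ x, x ∉ C' → φ x = 0 := fun x hx => if_neg hx
  have hfφ : ∀ x ∈ cthickening δ C', φ x = f x k := by
    intro x hx
    by_cases hxC : x ∈ C'
    · exact if_pos hxC
    · rw [hφ0 x hxC, ← hfw hx, hw0 x (hδU hx) hxC]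
  obtain ⟨B, hB⟩ : ∃ B : ℝ, ∀ x ∈ C', |f x k| ≤ B := by
    have hc : ContinuousOn (fun x => f x k) C' := by
      have := hf.continuous
      fun_prop
    obtain ⟨B, hB⟩ := hC'.exists_bound_of_continuousOn hc
    exact ⟨B, fun x hx => hB x hx⟩
  set Kf : NNReal := lipschitzExtensionConstant (E n) * K1 with hKf
  have hcoord : ∀ x y, |f x k - f y k| ≤ Kf * dist x y := by
    intro x y
    have h1 := hf.dist_le_mul x y
    have h2 := PiLp.norm_apply_le (f x - f y) k
    rw [dist_eq_norm] at h1
    have h3 : ‖(f x - f y) k‖ = |f x k - f y k| := by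
      rw [Real.norm_eq_abs]
      rfl
    rw [h3] at h2
    exact h2.trans h1
  set K3 : NNReal := max Kf (Real.toNNReal (B / δ)) with hK3
  have hkey : ∀ x ∈ C', ∀ y, |φ x - φ y| ≤ K3 * dist x y := by
    intro x hx y
    have hxN : x ∈ cthickening δ C' := self_subset_cthickening C' hx
    rw [hfφ x hxN]
    by_cases hy : y ∈ cthickening δ C'
    · rw [hfφ y hy]
      refine (hcoord x y).trans ?_
      have : (Kf : ℝ) ≤ K3 := by exact_mod_cast le_max_left _ _
      exact mul_le_mul_of_nonneg_right this dist_nonneg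
    · have hyC : y ∉ C' := fun h => hy (self_subset_cthickening C' h)
      have hd : δ < dist y x := by
        by_contra hcon
        exact hy (mem_cthickening_of_dist_le y x δ C' hx (not_lt.1 hcon))
      rw [hφ0 y hyC, sub_zero]
      have h1 : (Real.toNNReal (B / δ) : ℝ) ≤ K3 := by exact_mod_cast le_max_right _ _
      have h2 : B / δ ≤ K3 := (Real.le_coe_toNNReal _).trans h1
      have hB0 : 0 ≤ B := (abs_nonneg _).trans (hB x hx)
      calc |f x k| ≤ B := hB x hx
        _ = B / δ * δ := by field_simp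
        _ ≤ B / δ * dist x y := by
            rw [dist_comm] at hd
            exact mul_le_mul_of_nonneg_left hd.le (by positivity)
        _ ≤ K3 * dist x y := mul_le_mul_of_nonneg_right h2 dist_nonneg
  have hφL : LipschitzWith K3 φ := by
    refine LipschitzWith.of_dist_le_mul fun x y => ?_
    rw [Real.dist_eq]
    by_cases hx : x ∈ C'
    · exact hkey x hx y
    · by_cases hy : y ∈ C'
      · rw [abs_sub_comm, dist_comm]
        exact hkey y hy x
      · rw [hφ0 x hx, hφ0 y hy, sub_zero, abs_zero]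
        positivity
  have hφc : HasCompactSupport φ := HasCompactSupport.intro hC' hφ0
  have hI := hNUL n f φ K3 (hf.weaken (le_max_left _ _)) hφL hφc k
  have hout : ∀ x, x ∉ C' → ((mat (fderiv ℝ f x)).updateRow k
      (fun j => fderiv ℝ φ x (EuclideanSpace.single j 1))).det = 0 := by
    intro x hx
    have h1 : φ =ᶠ[𝓝 x] fun _ => (0 : ℝ) := by
      filter_upwards [hC'.isClosed.isOpen_compl.mem_nhds hx] with y hy
      exact hφ0 y hy
    refine Matrix.det_eq_zero_of_row_eq_zero k fun i => ?_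
    rw [Matrix.updateRow_self, h1.fderiv_eq]
    simp
  have h1 : ∫ p in (S.chart j).U, (fderiv ℝ w p).det =
      ∫ x in (S.chart j).U, ((mat (fderiv ℝ f x)).updateRow k
        (fun j => fderiv ℝ φ x (EuclideanSpace.single j 1))).det := by
    refine setIntegral_congr_ae (S.chart j).isOpen_U.measurableSet ?_
    filter_upwards [hf.ae_differentiableAt] with x hx hxU
    by_cases hxC : x ∈ C'
    · have hev : ∀ᶠ y in 𝓝 x, y ∈ cthickening δ C' := by
        filter_upwards [isOpen_thickening.mem_nhds (self_subset_thickening hδ C' hxC)] with y hy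
        exact thickening_subset_cthickening δ C' hy
      have e1 : w =ᶠ[𝓝 x] f := by
        filter_upwards [hev] with y hy
        exact hfw hy
      have e2 : φ =ᶠ[𝓝 x] fun y => f y k := by
        filter_upwards [hev] with y hy
        exact hfφ y hy
      have e3 : HasFDerivAt (fun y => f y k)
          ((EuclideanSpace.proj k : E n →L[ℝ] ℝ).comp (fderiv ℝ f x)) x :=
        (EuclideanSpace.proj k : E n →L[ℝ] ℝ).hasFDerivAt.comp x hx.hasFDerivAt
      have e4 : (fun i => fderiv ℝ φ x (EuclideanSpace.single i 1)) = mat (fderiv ℝ f x) k := by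
        funext i
        rw [e2.fderiv_eq, e3.fderiv]
        rfl
      rw [e4, Matrix.updateRow_eq_self, e1.fderiv_eq, det_mat]
    · rw [hout x hxC]
      apply row_zero (k := k)
      filter_upwards [(S.chart j).isOpen_U.mem_nhds hxU,
        hC'.isClosed.isOpen_compl.mem_nhds hxC] with y hyU hyC
      exact hw0 y hyU hyC
  rw [h1, setIntegral_eq_integral_of_forall_compl_eq_zero fun x hx => hout x fun h => hx (hCU h)]
  exact hI

end Pool.Agent.N526.CP.LOC
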