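import Pool.Agent.N526.CP.Stm

/-!
# Part LZ of PROJECT CPN (helper526): the square root of `1 - X Xᵀ` (helper227)
-/

set_option autoImplicit false

open Matrix

namespace Pool.Agent.N526.CP.LZ

open Pool.Agent.H241R3.FV

theorem t : S_LZ := by
  intro n X hX
  set c : ℝ := √(1 - ‖X‖ ^ 2) with hc
  have hr0 : 0 < 1 - ‖X‖ ^ 2 := by
    have := norm_nonneg X
    nlinarith
  have hc0 : 0 < c := Real.sqrt_pos.2 hr0
  have hc2 : c ^ 2 = 1 - ‖X‖ ^ 2 := Real.sq_sqrt hr0.le
  set x : Fin n → ℝ := fun i => X i with hx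
  have hr : ∑ k, x k * x k = 1 - c ^ 2 := by
    rw [hc2, EuclideanSpace.norm_sq_eq]
    have : ∀ k, ‖X k‖ ^ 2 = x k * x k := fun k => by rw [Real.norm_eq_abs, sq_abs, pow_two]
    simp_rw [this]
    ring
  set V : Matrix (Fin n) (Fin n) ℝ := vecMulVec x x with hV
  have hVV : V * V = (1 - c ^ 2) • V := by
    ext i j
    rw [Matrix.mul_apply, Matrix.smul_apply, ← hr, smul_eq_mul, Finset.sum_mul]
    refine Finset.sum_congr rfl fun k _ => ?_
    rw [hV, vecMulVec_apply, vecMulVec_apply, vecMulVec_apply]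
    ring
  have e0 : L0 X = 1 + (-(1 + c)⁻¹) • V := by
    ext i j
    rw [Matrix.add_apply, Matrix.smul_apply, hV, vecMulVec_apply, Matrix.one_apply, L0, ← hc,
      smul_eq_mul]
    ring
  have e1 : L1 X = 1 + ((c * (1 + c))⁻¹) • V := by
    ext i j
    rw [Matrix.add_apply, Matrix.smul_apply, hV, vecMulVec_apply, Matrix.one_apply, L1, ← hc,
      smul_eq_mul]
    ring
  have hmul : ∀ a b : ℝ, ((1 : Matrix (Fin n) (Fin n) ℝ) + a • V) * (1 + b • V) =
      1 + (a + b + a * b * (1 - c ^ 2)) • V := by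
    intro a b
    rw [add_mul, one_mul, mul_add, mul_one, smul_mul_smul_comm, hVV, smul_smul, add_smul, add_smul]
    abel
  have h1c : (1 + c) ≠ 0 := by positivity
  have hT : V.transpose = V := by
    ext i j
    rw [Matrix.transpose_apply, hV, vecMulVec_apply, vecMulVec_apply, mul_comm]
  refine ⟨?_, ?_, ?_, ?_, ?_, ?_⟩
  · rw [e0, e1, hmul]
    have : -(1 + c)⁻¹ + (c * (1 + c))⁻¹ + -(1 + c)⁻¹ * (c * (1 + c))⁻¹ * (1 - c ^ 2) = 0 := by
      field_simp
      ring
    rw [this, zero_smul, add_zero]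
  · rw [e0, e1, hmul]
    have : (c * (1 + c))⁻¹ + -(1 + c)⁻¹ + (c * (1 + c))⁻¹ * -(1 + c)⁻¹ * (1 - c ^ 2) = 0 := by
      field_simp
      ring
    rw [this, zero_smul, add_zero]
  · rw [e0]
    have e2 : (-(1 + c)⁻¹) • V = vecMulVec ((-(1 + c)⁻¹) • x) x := by
      ext i j
      rw [Matrix.smul_apply, hV, vecMulVec_apply, vecMulVec_apply, Pi.smul_apply, smul_eq_mul,
        smul_eq_mul]
      ring
    rw [e2, vecMulVec_eq Unit, det_one_add_replicateCol_mul_replicateRow]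
    have e3 : x ⬝ᵥ (-(1 + c)⁻¹) • x = -(1 + c)⁻¹ * (1 - c ^ 2) := by
      rw [dotProduct_smul, smul_eq_mul, ← hr]
      rfl
    rw [e3]
    field_simp
    ring
  · intro i j
    rw [e0, hmul]
    have : -(1 + c)⁻¹ + -(1 + c)⁻¹ + -(1 + c)⁻¹ * -(1 + c)⁻¹ * (1 - c ^ 2) = -1 := by
      field_simp
      ring
    rw [this, Matrix.add_apply, Matrix.smul_apply, hV, vecMulVec_apply, Matrix.one_apply,
      smul_eq_mul]
    ring
  · rw [e0, Matrix.transpose_add, Matrix.transpose_smul, hT, Matrix.transpose_one]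
  · rw [e1, Matrix.transpose_add, Matrix.transpose_smul, hT, Matrix.transpose_one]

end Pool.Agent.N526.CP.LZ
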