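import Pool.Agent.N526.CP.Stm
import Pool.Agent.H248.ID.J01

/-!
# Project CPN, part NUL: null Lagrangians for Lipschitz maps

The smooth case is `H248.ID.J01.null_lagrangian`; Lipschitz maps are mollified.
-/

set_option autoImplicit false

open MeasureTheory Metric Set Filter Topology
open scoped ENNReal NNReal ContDiff

namespace Pool.Agent.N526.CP.NUL

section core

open H248.ID (pd jac)

variable {n : ℕ}

/-- convolution with `ρ` -/
noncomputable def mol (ρ g : (Fin n → ℝ) → ℝ) (z : Fin n → ℝ) : ℝ := ∫ y, g y * ρ (z - y)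

theorem mol_eq (ρ g : (Fin n → ℝ) → ℝ) :
    mol ρ g = convolution g ρ (ContinuousLinearMap.lsmul ℝ ℝ) volume := by
  ext z
  rw [convolution_lsmul]
  rfl

theorem mol_smooth {g ρ : (Fin n → ℝ) → ℝ} (hg : LocallyIntegrable g)
    (hρ : ContDiff ℝ ∞ ρ) (hρc : HasCompactSupport ρ) : ContDiff ℝ ∞ (mol ρ g) := by
  rw [mol_eq]
  exact hρc.contDiff_convolution_right _ hg hρ

theorem mol_supp {g ρ : (Fin n → ℝ) → ℝ} (hg : HasCompactSupport g) (hρc : HasCompactSupport ρ) :
    HasCompactSupport (mol ρ g) := by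
  rw [mol_eq]
  exact HasCompactSupport.convolution (L := ContinuousLinearMap.lsmul ℝ ℝ) hg hρc

theorem moll_deriv {g ρ : (Fin n → ℝ) → ℝ} (hg : LocallyIntegrable g)
    (hρ : ContDiff ℝ ∞ ρ) (hρc : HasCompactSupport ρ) (j : Fin n) (x : Fin n → ℝ) :
    pd (mol ρ g) j x = ∫ y, g y * pd ρ j (x - y) := by
  rw [mol_eq]
  unfold pd
  have h1 : ContDiff ℝ 1 ρ := hρ.of_le (by exact_mod_cast le_top)
  rw [(hρc.hasFDerivAt_convolution_right (ContinuousLinearMap.lsmul ℝ ℝ) hg h1 x).fderiv,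
    convolution_precompR_apply _ hg (hρc.fderiv ℝ) (h1.continuous_fderiv (by simp))]
  rfl

theorem pd_mol {g ρ : (Fin n → ℝ) → ℝ} {K : ℝ≥0} (hg : LipschitzWith K g)
    (hρ : ContDiff ℝ ∞ ρ) (hρc : HasCompactSupport ρ) (j : Fin n) (x : Fin n → ℝ) :
    pd (mol ρ g) j x = mol ρ (fun y => lineDeriv ℝ g y (Pi.single j 1)) x := by
  rw [moll_deriv hg.continuous.locallyIntegrable hρ hρc]
  set ψ : (Fin n → ℝ) → ℝ := fun y => ρ (x - y) with hψ
  have hψs : ContDiff ℝ ∞ ψ := hρ.comp (contDiff_const.sub contDiff_id)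
  have hψc : HasCompactSupport ψ := hρc.comp_homeomorph (Homeomorph.subLeft x)
  obtain ⟨D, hD⟩ := ContDiff.lipschitzWith_of_hasCompactSupport hψc hψs (by simp)
  have h1 := LipschitzWith.integral_lineDeriv_mul_eq (μ := volume) hg hD hψc
    (Pi.single j (1 : ℝ) : Fin n → ℝ)
  have h2 : ∀ y, lineDeriv ℝ ψ y (-(Pi.single j (1 : ℝ) : Fin n → ℝ)) = pd ρ j (x - y) := by
    intro y
    have h3 : HasFDerivAt ρ (fderiv ℝ ρ (x - y)) (x - y) :=
      ((hρ.differentiable (by simp)) (x - y)).hasFDerivAt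
    have h4 : HasFDerivAt (fun y : Fin n → ℝ => x - y) (-(ContinuousLinearMap.id ℝ (Fin n → ℝ))) y :=
      (hasFDerivAt_id y).const_sub x
    have h5 : HasFDerivAt ψ ((fderiv ℝ ρ (x - y)).comp (-(ContinuousLinearMap.id ℝ (Fin n → ℝ)))) y :=
      h3.comp y h4
    rw [h5.differentiableAt.lineDeriv_eq_fderiv, h5.fderiv]
    unfold pd
    simp
  unfold mol
  rw [h1]
  refine integral_congr_ae (Eventually.of_forall fun y => ?_)
  show g y * pd ρ j (x - y) = lineDeriv ℝ ψ y (-(Pi.single j (1 : ℝ) : Fin n → ℝ)) * g y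
  rw [h2 y, mul_comm]

theorem abs_mol_le {g ρ : (Fin n → ℝ) → ℝ} {C : ℝ} (hρ0 : ∀ y, 0 ≤ ρ y) (hρi : Integrable ρ)
    (hρ1 : ∫ y, ρ y = 1) (hg : ∀ y, |g y| ≤ C) (x : Fin n → ℝ) : |mol ρ g x| ≤ C := by
  have h1 : ∫ y, C * ρ (x - y) = C := by
    rw [integral_const_mul, integral_sub_left_eq_self ρ volume x, hρ1, mul_one]
  have h2 : ‖mol ρ g x‖ ≤ ∫ y, C * ρ (x - y) := by
    refine norm_integral_le_of_norm_le ((hρi.comp_sub_left x).const_mul C)
      (Eventually.of_forall fun y => ?_)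
    rw [norm_mul, Real.norm_eq_abs, Real.norm_of_nonneg (hρ0 _)]
    exact mul_le_mul_of_nonneg_right (hg y) (hρ0 _)
  rwa [h1, Real.norm_eq_abs] at h2

theorem lip_apply {f : (Fin n → ℝ) → Fin n → ℝ} {K : ℝ≥0} (hf : LipschitzWith K f) (i : Fin n) :
    LipschitzWith K fun y => f y i := by
  refine LipschitzWith.of_dist_le_mul fun x y => ?_
  exact (dist_le_pi_dist (f x) (f y) i).trans (hf.dist_le_mul x y)

/-- null Lagrangians for Lipschitz maps of `Fin n → ℝ` -/
theorem null_lip {f : (Fin n → ℝ) → Fin n → ℝ} {K : ℝ≥0} (hf : LipschitzWith K f)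
    {h : (Fin n → ℝ) → ℝ} (hh : LipschitzWith K h) (hc : HasCompactSupport h) (i : Fin n) :
    ∫ x, ((Matrix.of fun a j => lineDeriv ℝ (fun y => f y a) x (Pi.single j (1 : ℝ) : Fin n → ℝ)).updateRow i
      (fun j => lineDeriv ℝ h x (Pi.single j (1 : ℝ) : Fin n → ℝ))).det = 0 := by
  classical
  -- bumps
  let φ : ℕ → ContDiffBump (0 : Fin n → ℝ) := fun k =>
    { rIn := 1 / (2 * (k + 2)), rOut := 1 / (k + 2)
      rIn_pos := by positivity
      rIn_lt_rOut := by
        apply div_lt_div_of_pos_left one_pos (by positivity)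
        have : (0 : ℝ) ≤ k := Nat.cast_nonneg k
        linarith }
  have hφout : ∀ k, (φ k).rOut = 1 / (k + 2) := fun k => rfl
  have hφin : ∀ k, (φ k).rIn = 1 / (2 * (k + 2)) := fun k => rfl
  have hφt : Tendsto (fun k => (φ k).rOut) atTop (𝓝 0) := by
    have h1 : Tendsto (fun k : ℕ => (k : ℝ) + 2) atTop atTop :=
      tendsto_atTop_add_const_right _ _ tendsto_natCast_atTop_atTop
    exact h1.const_div_atTop 1
  have hKφ : ∀ᶠ k in atTop, (φ k).rOut ≤ 2 * (φ k).rIn := by
    filter_upwards with k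
    rw [hφout, hφin]
    apply le_of_eq
    field_simp
  set ρ : ℕ → (Fin n → ℝ) → ℝ := fun k => (φ k).normed volume with hρ
  have hρs : ∀ k, ContDiff ℝ ∞ (ρ k) := fun k => (φ k).contDiff_normed
  have hρc : ∀ k, HasCompactSupport (ρ k) := fun k => (φ k).hasCompactSupport_normed
  have hρ0 : ∀ k y, 0 ≤ ρ k y := fun k y => (φ k).nonneg_normed y
  have hρi : ∀ k, Integrable (ρ k) := fun k => (φ k).integrable_normed
  have hρ1 : ∀ k, ∫ y, ρ k y = 1 := fun k => (φ k).integral_normed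
  have hρsupp : ∀ k y, y ∉ closedBall (0 : Fin n → ℝ) 1 → ρ k y = 0 := by
    intro k y hy
    by_contra hne
    have h1 : y ∈ Function.support (ρ k) := hne
    rw [hρ, (φ k).support_normed_eq] at h1
    refine hy (closedBall_subset_closedBall ?_ (ball_subset_closedBall h1))
    rw [hφout, div_le_one (by positivity)]
    have : (0 : ℝ) ≤ k := Nat.cast_nonneg k
    linarith
  have hconv : ∀ g : (Fin n → ℝ) → ℝ, LocallyIntegrable g →
      ∀ᵐ x, Tendsto (fun k => mol (ρ k) g x) atTop (𝓝 (g x)) := by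
    intro g hg
    filter_upwards [ContDiffBump.ae_convolution_tendsto_right_of_locallyIntegrable
      (φ := φ) hφt hKφ hg] with x hx
    refine hx.congr (fun k => ?_)
    rw [convolution_lsmul_swap]
    apply integral_congr_ae
    filter_upwards with y
    rw [smul_eq_mul, mul_comm]
  -- the derivatives
  have hlb : ∀ (g : (Fin n → ℝ) → ℝ), LipschitzWith K g → ∀ (j : Fin n) (y : Fin n → ℝ),
      |lineDeriv ℝ g y (Pi.single j (1 : ℝ) : Fin n → ℝ)| ≤ K := by
    intro g hg j y
    have h1 := norm_lineDeriv_le_of_lipschitz ℝ (x₀ := y) (v := (Pi.single j (1 : ℝ) : Fin n → ℝ)) hg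
    rw [Real.norm_eq_abs, Pi.norm_single, norm_one, mul_one] at h1
    exact h1
  have hli : ∀ (g : (Fin n → ℝ) → ℝ), LipschitzWith K g → ∀ j : Fin n,
      LocallyIntegrable fun y => lineDeriv ℝ g y (Pi.single j (1 : ℝ) : Fin n → ℝ) := by
    intro g hg j
    exact (hg.memLp_lineDeriv _).locallyIntegrable le_top
  -- the mollified maps
  set F : ℕ → (Fin n → ℝ) → Fin n → ℝ := fun k z a => mol (ρ k) (fun y => f y a) z with hF
  set H : ℕ → (Fin n → ℝ) → ℝ := fun k => mol (ρ k) h with hH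
  have hFs : ∀ k, ContDiff ℝ ∞ (F k) := by
    intro k
    rw [contDiff_pi]
    intro a
    exact mol_smooth (lip_apply hf a).continuous.locallyIntegrable (hρs k) (hρc k)
  have hHs : ∀ k, ContDiff ℝ ∞ (H k) := fun k =>
    mol_smooth hh.continuous.locallyIntegrable (hρs k) (hρc k)
  have hHc : ∀ k, HasCompactSupport (H k) := fun k => mol_supp hc (hρc k)
  have hnull : ∀ k, ∫ x, ((jac (F k) x).updateRow i (fun j => pd (H k) j x)).det = 0 := fun k =>
    H248.ID.J01.null_lagrangian (hFs k) (hHs k) (hHc k) i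
  have hjac : ∀ k x a j, jac (F k) x a j =
      mol (ρ k) (fun y => lineDeriv ℝ (fun y => f y a) y (Pi.single j 1)) x := by
    intro k x a j
    exact pd_mol (lip_apply hf a) (hρs k) (hρc k) j x
  have hpdH : ∀ k x j, pd (H k) j x = mol (ρ k) (fun y => lineDeriv ℝ h y (Pi.single j 1)) x :=
    fun k x j => pd_mol hh (hρs k) (hρc k) j x
  -- the supports
  obtain ⟨R, hR⟩ := hc.isCompact.isBounded.subset_closedBall (0 : Fin n → ℝ)
  have hzero : ∀ y, y ∉ tsupport h → ∀ j : Fin n,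
      lineDeriv ℝ h y (Pi.single j (1 : ℝ) : Fin n → ℝ) = 0 := by
    intro y hy j
    have h1 : h =ᶠ[𝓝 y] fun _ => 0 := notMem_tsupport_iff_eventuallyEq.1 hy
    have h2 : HasFDerivAt h (0 : (Fin n → ℝ) →L[ℝ] ℝ) y :=
      (hasFDerivAt_const (0 : ℝ) y).congr_of_eventuallyEq h1
    rw [h2.differentiableAt.lineDeriv_eq_fderiv, h2.fderiv]
    rfl
  have hrow : ∀ k x, x ∉ closedBall (0 : Fin n → ℝ) (R + 1) → ∀ j, pd (H k) j x = 0 := by
    intro k x hx j
    rw [hpdH]
    unfold mol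
    refine integral_eq_zero_of_ae (Eventually.of_forall fun y => ?_)
    show lineDeriv ℝ h y (Pi.single j (1 : ℝ) : Fin n → ℝ) * ρ k (x - y) = 0
    by_cases hy : y ∈ tsupport h
    · have h1 : x - y ∉ closedBall (0 : Fin n → ℝ) 1 := by
        intro h2
        apply hx
        have h3 := hR hy
        rw [mem_closedBall, dist_zero_right] at h2 h3 ⊢
        calc ‖x‖ = ‖y + (x - y)‖ := by congr 1; abel
          _ ≤ ‖y‖ + ‖x - y‖ := norm_add_le _ _
          _ ≤ R + 1 := add_le_add h3 h2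
      rw [hρsupp k _ h1, mul_zero]
    · rw [hzero y hy j, zero_mul]
  -- dominated convergence
  have hentry : ∀ k x a j, |((jac (F k) x).updateRow i (fun j => pd (H k) j x)) a j| ≤ K := by
    intro k x a j
    by_cases ha : a = i
    · rw [ha, Matrix.updateRow_self, hpdH]
      exact abs_mol_le (hρ0 k) (hρi k) (hρ1 k) (hlb h hh j) x
    · rw [Matrix.updateRow_ne ha, hjac]
      exact abs_mol_le (hρ0 k) (hρi k) (hρ1 k) (hlb _ (lip_apply hf a) j) x
  have hlim := tendsto_integral_of_dominated_convergence (μ := (volume : Measure (Fin n → ℝ)))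
    (F := fun k x => ((jac (F k) x).updateRow i (fun j => pd (H k) j x)).det)
    (f := fun x => ((Matrix.of fun a j => lineDeriv ℝ (fun y => f y a) x
      (Pi.single j (1 : ℝ) : Fin n → ℝ)).updateRow i
      (fun j => lineDeriv ℝ h x (Pi.single j (1 : ℝ) : Fin n → ℝ))).det)
    ((closedBall (0 : Fin n → ℝ) (R + 1)).indicator fun _ => (n.factorial : ℝ) * (K : ℝ) ^ n)
    (fun k => ?_) ?_ (fun k => ?_) ?_
  · have h0 : (fun k => ∫ x, ((jac (F k) x).updateRow i (fun j => pd (H k) j x)).det) =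
        fun _ => (0 : ℝ) := funext hnull
    rw [h0] at hlim
    exact tendsto_nhds_unique hlim tendsto_const_nhds
  · refine Continuous.aestronglyMeasurable ?_
    refine Continuous.matrix_det ?_
    refine Continuous.matrix_updateRow i ?_ ?_
    · refine continuous_pi fun a => continuous_pi fun j => ?_
      exact (H248.ID.J01.pd_contDiff ((contDiff_pi.1 (hFs k)) a) j).continuous
    · exact continuous_pi fun j => (H248.ID.J01.pd_contDiff (hHs k) j).continuous
  · refine (integrable_indicator_iff measurableSet_closedBall).2 ?_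
    rw [integrableOn_const_iff]
    right
    exact measure_closedBall_lt_top
  · refine Eventually.of_forall fun x => ?_
    by_cases hx : x ∈ closedBall (0 : Fin n → ℝ) (R + 1)
    · rw [indicator_of_mem hx]
      have h1 := Matrix.det_le (abv := AbsoluteValue.abs)
        (A := (jac (F k) x).updateRow i (fun j => pd (H k) j x)) (x := (K : ℝ)) (hentry k x)
      rw [Fintype.card_fin, nsmul_eq_mul] at h1
      exact h1
    · rw [indicator_of_notMem hx, Matrix.det_eq_zero_of_row_eq_zero i, norm_zero]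
      intro j
      rw [Matrix.updateRow_self]
      exact hrow k x hx j
  · have h1 : ∀ᵐ x, ∀ a j, Tendsto (fun k => mol (ρ k) (fun y => lineDeriv ℝ (fun y => f y a) y
        (Pi.single j (1 : ℝ) : Fin n → ℝ)) x) atTop
        (𝓝 (lineDeriv ℝ (fun y => f y a) x (Pi.single j (1 : ℝ) : Fin n → ℝ))) :=
      ae_all_iff.mpr fun a => ae_all_iff.mpr fun j => hconv _ (hli _ (lip_apply hf a) j)
    have h2 : ∀ᵐ x, ∀ j, Tendsto (fun k => mol (ρ k) (fun y => lineDeriv ℝ h y
        (Pi.single j (1 : ℝ) : Fin n → ℝ)) x) atTop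
        (𝓝 (lineDeriv ℝ h x (Pi.single j (1 : ℝ) : Fin n → ℝ))) :=
      ae_all_iff.mpr fun j => hconv _ (hli _ hh j)
    filter_upwards [h1, h2] with x hx1 hx2
    have hcd : Continuous fun M : Matrix (Fin n) (Fin n) ℝ => M.det := continuous_id.matrix_det
    refine (hcd.tendsto _).comp ?_
    refine tendsto_pi_nhds.mpr fun a => tendsto_pi_nhds.mpr fun j => ?_
    by_cases ha : a = i
    · subst ha
      simp only [Matrix.updateRow_self]
      simp_rw [hpdH]
      exact hx2 j
    · simp only [Matrix.updateRow_ne ha]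
      simp_rw [hjac]
      exact hx1 a j

end core

open Pool.Agent.H241R3.FV

theorem t : S_NUL := by
  intro n f φ K hf hφ hc k
  set L : E n ≃L[ℝ] (Fin n → ℝ) := EuclideanSpace.equiv (Fin n) ℝ with hL
  set F : (Fin n → ℝ) → Fin n → ℝ := fun z => L (f (L.symm z)) with hF
  set H : (Fin n → ℝ) → ℝ := fun z => φ (L.symm z) with hH
  have hsL : LipschitzWith ‖(L.symm : (Fin n → ℝ) →L[ℝ] E n)‖₊ L.symm := L.symm.lipschitz
  have hLL : LipschitzWith ‖(L : E n →L[ℝ] (Fin n → ℝ))‖₊ L := L.lipschitz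
  have hF1 : LipschitzWith _ F := hLL.comp (hf.comp hsL)
  have hH1 : LipschitzWith _ H := hφ.comp hsL
  set K' : ℝ≥0 := max (‖(L : E n →L[ℝ] (Fin n → ℝ))‖₊ *
    (K * ‖(L.symm : (Fin n → ℝ) →L[ℝ] E n)‖₊)) (K * ‖(L.symm : (Fin n → ℝ) →L[ℝ] E n)‖₊) with hK'
  have hF2 : LipschitzWith K' F := hF1.weaken (le_max_left _ _)
  have hH2 : LipschitzWith K' H := hH1.weaken (le_max_right _ _)
  have hHc : HasCompactSupport H := hc.comp_homeomorph L.symm.toHomeomorph
  have hmain := null_lip hF2 hH2 hHc k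
  have htr := (PiLp.volume_preserving_toLp (Fin n)).integral_comp
    (MeasurableEquiv.toLp 2 (Fin n → ℝ)).measurableEmbedding
    (fun x : E n => ((mat (fderiv ℝ f x)).updateRow k
      (fun j => fderiv ℝ φ x (EuclideanSpace.single j 1))).det)
  rw [← htr, ← hmain]
  refine integral_congr_ae ?_
  filter_upwards [hF2.ae_differentiableAt, hH2.ae_differentiableAt] with z hz1 hz2
  have hFd := hz1.hasFDerivAt
  have hHd := hz2.hasFDerivAt
  set F' := fderiv ℝ F z with hF'
  set H' := fderiv ℝ H z with hH'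
  have hx : (WithLp.toLp 2 z : E n) = L.symm z := rfl
  have hfd : HasFDerivAt f ((L.symm : (Fin n → ℝ) →L[ℝ] E n).comp
      (F'.comp (L : E n →L[ℝ] (Fin n → ℝ)))) (L.symm z) := by
    have e1 : f = fun x => L.symm (F (L x)) := by
      funext x
      simp [hF]
    have h1 : HasFDerivAt (fun x : E n => L x) (L : E n →L[ℝ] (Fin n → ℝ)) (L.symm z) :=
      L.hasFDerivAt
    have h2 : HasFDerivAt F F' (L (L.symm z)) := by
      rw [L.apply_symm_apply]
      exact hFd
    have h3 := (L.symm.hasFDerivAt (x := F (L (L.symm z)))).comp (L.symm z) (h2.comp (L.symm z) h1)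
    rw [e1]
    exact h3
  have hφd : HasFDerivAt φ (H'.comp (L : E n →L[ℝ] (Fin n → ℝ))) (L.symm z) := by
    have e1 : φ = fun x => H (L x) := by
      funext x
      simp [hH]
    have h1 : HasFDerivAt (fun x : E n => L x) (L : E n →L[ℝ] (Fin n → ℝ)) (L.symm z) :=
      L.hasFDerivAt
    have h2 : HasFDerivAt H H' (L (L.symm z)) := by
      rw [L.apply_symm_apply]
      exact hHd
    rw [e1]
    exact h2.comp (L.symm z) h1
  have hLs : ∀ j : Fin n, L (EuclideanSpace.single j (1 : ℝ)) = Pi.single j 1 := fun j => rfl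
  show ((mat (fderiv ℝ f (L.symm z))).updateRow k
      (fun j => fderiv ℝ φ (L.symm z) (EuclideanSpace.single j 1))).det = _
  congr 1
  ext a j
  by_cases ha : a = k
  · subst ha
    rw [Matrix.updateRow_self, Matrix.updateRow_self, hz2.lineDeriv_eq_fderiv, hφd.fderiv,
      ContinuousLinearMap.comp_apply]
    show H' (L (EuclideanSpace.single j (1 : ℝ))) = _
    rw [hLs]
  · rw [Matrix.updateRow_ne ha, Matrix.updateRow_ne ha, Matrix.of_apply]
    have h4 : HasFDerivAt (fun y => F y a)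
        ((ContinuousLinearMap.proj a : (Fin n → ℝ) →L[ℝ] ℝ).comp F') z :=
      (hasFDerivAt_pi'.1 hFd) a
    rw [h4.differentiableAt.lineDeriv_eq_fderiv, h4.fderiv]
    show (fderiv ℝ f (L.symm z) (EuclideanSpace.single j (1 : ℝ))) a = _
    rw [hfd.fderiv]
    show L.symm (F' (L (EuclideanSpace.single j (1 : ℝ)))) a = _
    rw [hLs]
    rfl

end Pool.Agent.N526.CP.NUL

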