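import Pool.Agent.N526.CP.Stm

/-!
# RAD: `Z` is radial
-/

set_option autoImplicit false

open MeasureTheory Metric Set Filter Topology InnerProductGeometry Matrix

namespace Pool.Agent.N526.CP.RAD

open Pool.Agent.H241R3.FV Pool.Agent.N526.CP

theorem cont_coe (n : ℕ) : Continuous fun θ : Sph n => (θ : E n) := continuous_subtype_val

theorem cont_ip {n : ℕ} (X : E n) : Continuous fun θ : Sph n => ip X θ :=
  continuous_const.inner (cont_coe n)

theorem cont_zero (d : ℕ) : Continuous fun θ : Sph (d + 1) => (θ : E (d + 1)) 0 :=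
  (EuclideanSpace.proj (𝕜 := ℝ) (0 : Fin (d + 1))).continuous.comp (cont_coe (d + 1))

theorem abs_zero_le (d : ℕ) (θ : Sph (d + 1)) : |(θ : E (d + 1)) 0| ≤ 1 := by
  have h := EuclideanSpace.norm_eq (θ : E (d + 1))
  have h1 := norm_sph θ
  have h2 := PiLp.norm_apply_le (θ : E (d + 1)) 0
  rw [h1, Real.norm_eq_abs] at h2
  exact h2

/-- `arcsin (t x) / x`, continuous at `0` -/
noncomputable def ds (t : ℝ) : ℝ → ℝ := dslope (fun x => Real.arcsin (t * x)) 0

theorem ds_mul (t x : ℝ) : ds t x * x = Real.arcsin (t * x) := by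
  have h := sub_smul_dslope (fun x => Real.arcsin (t * x)) (0 : ℝ) x
  simp only [sub_zero, mul_zero, Real.arcsin_zero, smul_eq_mul] at h
  rw [mul_comm]
  exact h

theorem ds_cont (t : ℝ) : ContinuousOn (ds t) (Icc (-1) 1) := by
  unfold ds
  rw [continuousOn_dslope (Icc_mem_nhds (by norm_num) (by norm_num))]
  refine ⟨(Real.continuous_arcsin.comp (continuous_const.mul continuous_id)).continuousOn, ?_⟩
  have h1 : DifferentiableAt ℝ Real.arcsin (t * 0) := by
    rw [mul_zero]
    exact Real.differentiableAt_arcsin.2 ⟨by norm_num, by norm_num⟩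
  have h2 : DifferentiableAt ℝ (fun x : ℝ => t * x) 0 := differentiableAt_id.const_mul t
  exact DifferentiableAt.comp (g := Real.arcsin) (f := fun x : ℝ => t * x) (0 : ℝ) h1 h2

/-- (1) -/
theorem radial (hS : S_SPH) (d : ℕ) (hd : 1 ≤ d) (t : ℝ) (e : E (d + 1)) (he : ‖e‖ = 1) :
    Zf (t • e) = zf d t • e := by
  obtain ⟨hp, _, hI⟩ := hS d hd
  have := hp
  have hcont : Continuous fun θ : Sph (d + 1) =>
      Real.arcsin (ip (t • e) θ) • (θ : E (d + 1)) :=
    (Real.continuous_arcsin.comp (cont_ip _)).smul (cont_coe _)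
  have hint : Integrable (fun θ : Sph (d + 1) =>
      Real.arcsin (ip (t • e) θ) • (θ : E (d + 1))) (sg (d + 1)) :=
    hcont.integrable_of_hasCompactSupport (HasCompactSupport.of_compactSpace _)
  refine ext_inner_left ℝ fun v => ?_
  unfold Zf
  rw [← integral_inner hint v, inner_smul_right]
  have h1 := hI (ds t) e e v he (ds_cont t)
  have hee : inner ℝ e e = (1 : ℝ) := by rw [real_inner_self_eq_norm_sq, he]; norm_num
  rw [hee, one_mul, sub_self, mul_zero, zero_add] at h1
  have h2 : ∀ θ : Sph (d + 1), inner ℝ v (Real.arcsin (ip (t • e) θ) • (θ : E (d + 1))) =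
      ds t (ip e θ) * (ip e θ * ip v θ) := by
    intro θ
    rw [inner_smul_right, ← mul_assoc, ds_mul]
    unfold ip
    rw [real_inner_smul_left]
  rw [integral_congr_ae (Filter.Eventually.of_forall h2), h1, real_inner_comm e v]
  congr 1
  unfold zf
  refine integral_congr_ae (Filter.Eventually.of_forall fun θ => ?_)
  change ds t ((θ : E (d + 1)) 0) * (θ : E (d + 1)) 0 ^ 2 = _
  rw [pow_two, ← mul_assoc, ds_mul]

/-- RAD -/
theorem t : S_SPH → S_MON → S_RAD := by
  intro hS hM d hd
  obtain ⟨hp, _, _⟩ := hS d hd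
  have := hp
  refine ⟨fun t e he => radial hS d hd t e he, ?_, ?_, ?_⟩
  · intro y hy x hx hyx
    obtain ⟨e, he⟩ : ∃ e : E (d + 1), ‖e‖ = 1 := ⟨EuclideanSpace.single 0 1, by simp⟩
    have hn : ∀ r ∈ Icc (0 : ℝ) 1, ‖r • e‖ ≤ 1 := by
      intro r hr
      rw [norm_smul, he, mul_one, Real.norm_eq_abs, abs_of_nonneg hr.1]
      exact hr.2
    have h1 := hM d hd (x • e) (y • e) (hn x hx) (hn y hy)
    rw [radial hS d hd x e he, radial hS d hd y e he, ← sub_smul, ← sub_smul, norm_smul, he,
      mul_one, real_inner_smul_left, real_inner_smul_right, real_inner_self_eq_norm_sq, he,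
      Real.norm_eq_abs, sq_abs] at h1
    by_contra hcon
    push Not at hcon
    have h2 : (0 : ℝ) < (x - y) ^ 2 := by
      have : 0 < x - y := sub_pos.2 hyx
      positivity
    have h3 : (zf d x - zf d y) * ((x - y) * 1 ^ 2) ≤ 0 := by
      have : 0 < x - y := sub_pos.2 hyx
      have h4 : zf d x - zf d y ≤ 0 := sub_nonpos.2 hcon
      nlinarith
    have h5 : ((d : ℝ) + 1) * ((zf d x - zf d y) * ((x - y) * 1 ^ 2)) ≤ 0 :=
      mul_nonpos_of_nonneg_of_nonpos (by positivity) h3
    linarith
  · apply Continuous.continuousOn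
    unfold zf
    refine continuous_of_dominated (bound := fun _ => Real.pi / 2) (fun s => ?_) (fun s => ?_)
      (integrable_const _) ?_
    · exact ((Real.continuous_arcsin.comp (continuous_const.mul (cont_zero d))).mul
        (cont_zero d)).aestronglyMeasurable
    · refine Filter.Eventually.of_forall fun θ => ?_
      rw [Real.norm_eq_abs, abs_mul]
      have h1 : |Real.arcsin (s * (θ : E (d + 1)) 0)| ≤ Real.pi / 2 :=
        abs_le.2 ⟨Real.neg_pi_div_two_le_arcsin _, Real.arcsin_le_pi_div_two _⟩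
      have h2 := abs_zero_le d θ
      calc |Real.arcsin (s * (θ : E (d + 1)) 0)| * |(θ : E (d + 1)) 0|
          ≤ Real.pi / 2 * 1 := mul_le_mul h1 h2 (abs_nonneg _) (by positivity)
        _ = Real.pi / 2 := mul_one _
    · refine Filter.Eventually.of_forall fun θ => ?_
      exact (Real.continuous_arcsin.comp (continuous_id.mul continuous_const)).mul
        continuous_const
  · unfold zf
    simp

end Pool.Agent.N526.CP.RAD
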