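import Pool.Agent.N526.CP.Stm

/-!
# Part RAP: Rademacher's theorem with a parameter
-/

set_option autoImplicit false

open MeasureTheory Metric Set Filter Topology

namespace Pool.Agent.N526.CP.RAP

open Pool.Agent.H241R3.FV
open Pool.Agent.N526.CP

/-- A function which is Lipschitz in `y`, uniformly in `θ`, and continuous in `θ` is jointly
continuous. -/
theorem joint {n : ℕ} {W : Type} [NormedAddCommGroup W] {F : Sph n → E n → W} {p : E n} {r K : ℝ}
    (h : ∀ θ, ∀ y ∈ ball p r, ∀ z ∈ ball p r, ‖F θ y - F θ z‖ ≤ K * ‖y - z‖)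
    (hc : ∀ y ∈ ball p r, Continuous fun θ => F θ y) (θ : Sph n) (y : E n) (hy : y ∈ ball p r) :
    ContinuousAt (Function.uncurry F) (θ, y) := by
  unfold ContinuousAt
  rw [tendsto_iff_norm_sub_tendsto_zero]
  have h1 : Tendsto (fun q : Sph n × E n => K * ‖q.2 - y‖ + ‖F q.1 y - F θ y‖) (𝓝 (θ, y)) (𝓝 0) := by
    have h2 : Continuous fun q : Sph n × E n => K * ‖q.2 - y‖ + ‖F q.1 y - F θ y‖ := by
      have h3 : Continuous fun q : Sph n × E n => F q.1 y := (hc y hy).comp continuous_fst
      exact (continuous_const.mul (continuous_snd.sub continuous_const).norm).add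
        (h3.sub continuous_const).norm
    have h4 := h2.tendsto (θ, y)
    simpa using h4
  refine squeeze_zero' (Eventually.of_forall fun q => norm_nonneg _) ?_ h1
  have h5 : ∀ᶠ q : Sph n × E n in 𝓝 (θ, y), q.2 ∈ ball p r :=
    (continuous_snd.tendsto (θ, y)).eventually (isOpen_ball.mem_nhds hy)
  filter_upwards [h5] with q hq
  have h6 : Function.uncurry F q - Function.uncurry F (θ, y) =
      (F q.1 q.2 - F q.1 y) + (F q.1 y - F θ y) := by
    simp [Function.uncurry]
  rw [h6]
  refine (norm_add_le _ _).trans ?_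
  gcongr
  exact h q.1 q.2 hq y hy

/-- Local form of the theorem. -/
theorem loc {n : ℕ} {W : Type} [NormedAddCommGroup W] [NormedSpace ℝ W] [FiniteDimensional ℝ W]
    {F : Sph n → E n → W} {p : E n} {r K : ℝ} (hr : 0 < r)
    (h : ∀ θ, ∀ y ∈ ball p r, ∀ z ∈ ball p r, ‖F θ y - F θ z‖ ≤ K * ‖y - z‖)
    (hc : ∀ y ∈ ball p r, Continuous fun θ => F θ y) [SFinite (sg n)] :
    (∀ᵐ y ∂(volume : Measure (E n)), y ∈ ball p (r / 3) →
      ∀ᵐ θ ∂(sg n), DifferentiableAt ℝ (F θ) y) ∧
    ∃ H : E n × Sph n → (E n →L[ℝ] W), Measurable H ∧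
      ∀ z : E n × Sph n, z.1 ∈ ball p (r / 3) → fderiv ℝ (F z.2) z.1 = H z := by
  let χ : ContDiffBump p := ⟨r / 3, r / 2, by linarith, by linarith⟩
  let G : Sph n → E n → W := fun θ y => χ y • F θ y
  have hin : ball p (r / 3) ⊆ ball p r := ball_subset_ball (by linarith)
  have hGF : ∀ θ, ∀ y ∈ ball p (r / 3), G θ =ᶠ[𝓝 y] F θ := by
    intro θ y hy
    filter_upwards [isOpen_ball.mem_nhds hy] with z hz
    have h1 : χ z = 1 := χ.one_of_mem_closedBall (ball_subset_closedBall hz)
    simp [G, h1]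
  have hG : Continuous (Function.uncurry G) := by
    rw [continuous_iff_continuousAt]
    rintro ⟨θ, y⟩
    by_cases hy : y ∈ ball p r
    · have h1 := joint h hc θ y hy
      have h2 : ContinuousAt (fun q : Sph n × E n => χ q.2) (θ, y) :=
        (χ.continuous.comp continuous_snd).continuousAt
      exact h2.smul h1
    · have h1 : ∀ᶠ q : Sph n × E n in 𝓝 (θ, y), q.2 ∈ (closedBall p (r / 2))ᶜ := by
        refine (continuous_snd.tendsto (θ, y)).eventually (isClosed_closedBall.isOpen_compl.mem_nhds ?_)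
        intro h2
        apply hy
        have h3 : dist y p ≤ r / 2 := h2
        exact mem_ball.2 (by linarith)
      have h2 : Function.uncurry G =ᶠ[𝓝 (θ, y)] fun _ => 0 := by
        filter_upwards [h1] with q hq
        have h3 : χ q.2 = 0 := by
          apply χ.zero_of_le_dist
          have h4 : ¬ dist q.2 p ≤ r / 2 := hq
          exact (not_le.1 h4).le
        simp [G, Function.uncurry, h3]
      exact ContinuousAt.congr continuousAt_const h2.symm
  constructor
  · have hD := measurableSet_of_differentiableAt_with_param ℝ hG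
    have h1 : MeasurableSet {q : Sph n × E n |
        q.2 ∈ ball p (r / 3) → DifferentiableAt ℝ (G q.1) q.2} := by
      have h2 : {q : Sph n × E n | q.2 ∈ ball p (r / 3) → DifferentiableAt ℝ (G q.1) q.2} =
          (Prod.snd ⁻¹' ball p (r / 3))ᶜ ∪ {q : Sph n × E n | DifferentiableAt ℝ (G q.1) q.2} := by
        ext q
        simp only [mem_ofPred_eq, mem_union, mem_compl_iff, mem_preimage]
        tauto
      rw [h2]
      exact (measurable_snd measurableSet_ball).compl.union hD
    have h3 : ∀ᵐ θ ∂(sg n), ∀ᵐ y ∂(volume : Measure (E n)),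
        y ∈ ball p (r / 3) → DifferentiableAt ℝ (G θ) y := by
      refine Eventually.of_forall fun θ => ?_
      have h4 : LipschitzOnWith K.toNNReal (F θ) (ball p r) := by
        refine LipschitzOnWith.of_dist_le_mul fun y hy z hz => ?_
        rw [dist_eq_norm, dist_eq_norm]
        refine (h θ y hy z hz).trans ?_
        gcongr
        exact Real.le_coe_toNNReal K
      have h5 := h4.ae_differentiableWithinAt_of_mem (μ := (volume : Measure (E n)))
      filter_upwards [h5] with y hy hy'
      have h6 : DifferentiableAt ℝ (F θ) y :=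
        (hy (hin hy')).differentiableAt (isOpen_ball.mem_nhds (hin hy'))
      exact (hGF θ y hy').differentiableAt_iff.2 h6
    have h7 := (Measure.ae_ae_comm (p := fun (θ : Sph n) (y : E n) =>
      y ∈ ball p (r / 3) → DifferentiableAt ℝ (G θ) y) h1).1 h3
    filter_upwards [h7] with y hy hy'
    filter_upwards [hy] with θ hθ
    exact (hGF θ y hy').differentiableAt_iff.1 (hθ hy')
  · refine ⟨fun z => fderiv ℝ (G z.2) z.1, ?_, ?_⟩
    · exact (measurable_fderiv_with_param ℝ hG).comp measurable_swap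
    · intro z hz
      exact ((hGF z.2 z.1 hz).fderiv_eq).symm

/-- RAP -/
theorem t : S_RAP := by
  intro n W _ _ _ U hU F hF hc hs
  have := hs
  choose! r hr K hK using hF
  -- smaller radius inside `U`
  have hU' : ∀ p ∈ U, ∃ ε : ℝ, 0 < ε ∧ ball p ε ⊆ U := fun p hp => Metric.isOpen_iff.1 hU p hp
  choose! ε hε hεU using hU'
  let ρ : E n → ℝ := fun p => min (r p) (ε p)
  have hρ : ∀ p ∈ U, 0 < ρ p := fun p hp => lt_min (hr p hp) (hε p hp)
  have hL : ∀ p ∈ U, ∀ θ, ∀ y ∈ ball p (ρ p), ∀ z ∈ ball p (ρ p),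
      ‖F θ y - F θ z‖ ≤ K p * ‖y - z‖ := by
    intro p hp θ y hy z hz
    exact hK p hp θ y (ball_subset_ball (min_le_left _ _) hy) z
      (ball_subset_ball (min_le_left _ _) hz)
  have hC : ∀ p ∈ U, ∀ y ∈ ball p (ρ p), Continuous fun θ => F θ y := by
    intro p hp y hy
    exact hc y (hεU p hp (ball_subset_ball (min_le_right _ _) hy))
  have hin : ∀ p ∈ U, ball p (ρ p / 3) ⊆ U := by
    intro p hp
    refine (ball_subset_ball ?_).trans (hεU p hp)
    have h1 := hρ p hp
    have h2 : ρ p ≤ ε p := min_le_right _ _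
    linarith
  have hloc : ∀ p ∈ U, (∀ᵐ y ∂(volume : Measure (E n)), y ∈ ball p (ρ p / 3) →
      ∀ᵐ θ ∂(sg n), DifferentiableAt ℝ (F θ) y) ∧
    ∃ H : E n × Sph n → (E n →L[ℝ] W), Measurable H ∧
      ∀ z : E n × Sph n, z.1 ∈ ball p (ρ p / 3) → fderiv ℝ (F z.2) z.1 = H z :=
    fun p hp => loc (hρ p hp) (hL p hp) (hC p hp)
  have hcov : ∃ T ⊆ U, T.Countable ∧ U ⊆ ⋃ p ∈ T, ball p (ρ p / 3) := by
    refine TopologicalSpace.countable_cover_nhdsWithin fun p hp => ?_
    exact mem_nhdsWithin_of_mem_nhds (ball_mem_nhds p (by have := hρ p hp; linarith))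
  obtain ⟨T, hTU, hTc, hTcov⟩ := hcov
  constructor
  · have h1 : ∀ᵐ y ∂(volume : Measure (E n)), ∀ p ∈ T, y ∈ ball p (ρ p / 3) →
        ∀ᵐ θ ∂(sg n), DifferentiableAt ℝ (F θ) y :=
      (ae_ball_iff hTc).2 fun p hp => (hloc p (hTU hp)).1
    filter_upwards [h1] with y hy hyU
    obtain ⟨p, hp, hyp⟩ := mem_iUnion₂.1 (hTcov hyU)
    exact hy p hp hyp
  · have h2 : ∀ p ∈ U, ∃ H : E n × Sph n → (E n →L[ℝ] W), Measurable H ∧
        ∀ z : E n × Sph n, z.1 ∈ ball p (ρ p / 3) → fderiv ℝ (F z.2) z.1 = H z :=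
      fun p hp => (hloc p hp).2
    choose! H hHm hH using h2
    have : FiniteDimensional ℝ (E n →L[ℝ] W) := inferInstance
    have : ProperSpace (E n →L[ℝ] W) := FiniteDimensional.proper ℝ _
    refine Measurable.stronglyMeasurable ?_
    intro s hs
    have h3 : ((fun z : E n × Sph n =>
        open Classical in if z.1 ∈ U then fderiv ℝ (F z.2) z.1 else 0) ⁻¹' s) =
        (⋃ p ∈ T, (Prod.fst ⁻¹' ball p (ρ p / 3)) ∩ (H p) ⁻¹' s) ∪
          ((Prod.fst ⁻¹' Uᶜ) ∩ {_z : E n × Sph n | (0 : E n →L[ℝ] W) ∈ s}) := by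
      ext z
      constructor
      · intro hz
        by_cases hzU : z.1 ∈ U
        · left
          have h4 : fderiv ℝ (F z.2) z.1 ∈ s := by
            have h5 : (open Classical in if z.1 ∈ U then fderiv ℝ (F z.2) z.1 else 0) ∈ s := hz
            rwa [if_pos hzU] at h5
          obtain ⟨p, hp, hyp⟩ := mem_iUnion₂.1 (hTcov hzU)
          refine mem_iUnion₂.2 ⟨p, hp, hyp, ?_⟩
          have h6 := hH p (hTU hp) z hyp
          rw [mem_preimage, ← h6]
          exact h4
        · right
          have h4 : (0 : E n →L[ℝ] W) ∈ s := by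
            have h5 : (open Classical in if z.1 ∈ U then fderiv ℝ (F z.2) z.1 else 0) ∈ s := hz
            rwa [if_neg hzU] at h5
          exact ⟨hzU, h4⟩
      · rintro (hz | ⟨hz1, hz2⟩)
        · obtain ⟨p, hp, hyp, hz3⟩ := mem_iUnion₂.1 hz
          have hzU : z.1 ∈ U := hin p (hTU hp) hyp
          have h6 := hH p (hTU hp) z hyp
          change (open Classical in if z.1 ∈ U then fderiv ℝ (F z.2) z.1 else 0) ∈ s
          rw [if_pos hzU, h6]
          exact hz3
        · change (open Classical in if z.1 ∈ U then fderiv ℝ (F z.2) z.1 else 0) ∈ s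
          rw [if_neg hz1]
          exact hz2
    rw [h3]
    refine MeasurableSet.union ?_ ?_
    · refine MeasurableSet.biUnion hTc fun p hp => ?_
      exact (measurable_fst measurableSet_ball).inter (hHm p (hTU hp) hs)
    · exact (measurable_fst hU.measurableSet.compl).inter (MeasurableSet.const _)

end Pool.Agent.N526.CP.RAP
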