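import Pool.Agent.N526.CP.Stm

/-!
Project CPN, part REF: an inequality for arcsin (helper747).
-/

set_option autoImplicit false

namespace Pool.Agent.N526.CP.REF

open Pool.Agent.N526.CP Pool.Agent.H241R3.FV

/-- the inequality between the squares of the sines -/
lemma sq_ineq {s k u w ε C : ℝ} (hs0 : 0 < s) (hs1 : s < 1) (hk0 : 0 < k) (hk1 : k < 1)
    (_hu : 0 ≤ u) (hw : 0 ≤ w) (huw : u + w ≤ 1) (h1 : u * (1 - w) = s ^ 2 * k ^ 2 * ε ^ 2)
    (h2 : w * (1 - u) = s ^ 2 * C ^ 2) (h3 : C ^ 2 ≤ (1 - k ^ 2) * (1 - ε ^ 2)) :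
    u ≤ s ^ 2 * k ^ 2 := by
  have hk2 : k ^ 2 < 1 := by nlinarith
  have hs2 : s ^ 2 < 1 := by nlinarith
  have hk2' : 0 < k ^ 2 := by positivity
  have h4 : w * (1 - u) * k ^ 2 ≤ s ^ 2 * ((1 - k ^ 2) * (1 - ε ^ 2)) * k ^ 2 := by
    rw [h2]
    have := mul_le_mul_of_nonneg_left h3 (sq_nonneg s)
    exact mul_le_mul_of_nonneg_right this hk2'.le
  have h5 : u * (1 - w) * (1 - k ^ 2) + w * (1 - u) * k ^ 2 ≤ s ^ 2 * k ^ 2 * (1 - k ^ 2) := by
    rw [h1]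
    nlinarith
  rcases le_or_gt u (k ^ 2) with h6 | h6
  · have h7 : w * u * (1 - k ^ 2) ≤ w * (1 - u) * k ^ 2 := by
      have h8 : u * (1 - k ^ 2) ≤ (1 - u) * k ^ 2 := by nlinarith
      have h9 := mul_le_mul_of_nonneg_left h8 hw
      linarith
    have h10 : u * (1 - k ^ 2) ≤ s ^ 2 * k ^ 2 * (1 - k ^ 2) := by nlinarith
    exact le_of_mul_le_mul_right h10 (by linarith)
  · exfalso
    have h7 : w * (u - k ^ 2) ≤ (1 - u) * (u - k ^ 2) :=
      mul_le_mul_of_nonneg_right (by linarith) (by linarith)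
    have h8 : k ^ 2 * (1 - k ^ 2) ≤ s ^ 2 * (k ^ 2 * (1 - k ^ 2)) := by
      nlinarith [sq_nonneg (u - k ^ 2)]
    have h9 : 0 < k ^ 2 * (1 - k ^ 2) := mul_pos hk2' (by linarith)
    nlinarith

lemma core {s k ε α a b : ℝ} (hs0 : 0 < s) (hs1 : s < 1) (hk0 : 0 < k) (hk1 : k < 1)
    (ha : Real.sin a = s * α) (hb : Real.sin b = s * (α - 2 * k * ε))
    (hC : (α - k * ε) ^ 2 ≤ (1 - k ^ 2) * (1 - ε ^ 2))
    (ha1 : -(Real.pi / 2) ≤ a) (ha2 : a ≤ Real.pi / 2) (hb1 : -(Real.pi / 2) ≤ b)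
    (hb2 : b ≤ Real.pi / 2) : a - b ≤ 2 * Real.arcsin (s * k) := by
  obtain ⟨δ, hδ⟩ : ∃ δ, δ = (a - b) / 2 := ⟨_, rfl⟩
  obtain ⟨m, hm⟩ : ∃ m, m = (a + b) / 2 := ⟨_, rfl⟩
  have ea : a = m + δ := by rw [hm, hδ]; ring
  have eb : b = m - δ := by rw [hm, hδ]; ring
  have hca : 0 ≤ Real.cos a := Real.cos_nonneg_of_neg_pi_div_two_le_of_le ha1 ha2
  have hcb : 0 ≤ Real.cos b := Real.cos_nonneg_of_neg_pi_div_two_le_of_le hb1 hb2
  have hcc : 0 ≤ Real.cos a * Real.cos b := mul_nonneg hca hcb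
  rw [ea, Real.sin_add] at ha
  rw [eb, Real.sin_sub] at hb
  rw [ea, eb, Real.cos_add, Real.cos_sub] at hcc
  have p1 := Real.sin_sq_add_cos_sq m
  have p2 := Real.sin_sq_add_cos_sq δ
  have q1 : Real.sin δ * Real.cos m = s * k * ε := by linarith
  have q2 : Real.sin m * Real.cos δ = s * (α - k * ε) := by linarith
  have h1 : Real.sin δ ^ 2 ≤ s ^ 2 * k ^ 2 := by
    refine sq_ineq (w := Real.sin m ^ 2) (C := α - k * ε) (ε := ε) hs0 hs1 hk0 hk1 (sq_nonneg _)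
      (sq_nonneg _) ?_ ?_ ?_ hC
    · have e1 : Real.cos m ^ 2 = 1 - Real.sin m ^ 2 := by linarith
      have e2 : Real.cos δ ^ 2 = 1 - Real.sin δ ^ 2 := by linarith
      have e3 : (Real.cos m * Real.cos δ - Real.sin m * Real.sin δ) *
          (Real.cos m * Real.cos δ + Real.sin m * Real.sin δ) =
          Real.cos m ^ 2 * Real.cos δ ^ 2 - Real.sin m ^ 2 * Real.sin δ ^ 2 := by ring
      rw [e3, e1, e2] at hcc
      nlinarith
    · have e1 : 1 - Real.sin m ^ 2 = Real.cos m ^ 2 := by linarith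
      rw [e1, ← mul_pow, q1]
      ring
    · have e1 : 1 - Real.sin δ ^ 2 = Real.cos δ ^ 2 := by linarith
      rw [e1, ← mul_pow, q2]
      ring
  have h2 : Real.sin δ ≤ s * k := by
    have h3 : Real.sin δ ^ 2 ≤ (s * k) ^ 2 := by rw [mul_pow]; exact h1
    exact (le_abs_self _).trans (abs_le_of_sq_le_sq h3 (by positivity))
  have h4 : δ ≤ Real.arcsin (s * k) := by
    have h5 : Real.arcsin (Real.sin δ) = δ :=
      Real.arcsin_sin (by rw [hδ]; linarith) (by rw [hδ]; linarith)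
    rw [← h5]
    exact Real.arcsin_le_arcsin h2
  rw [hδ] at h4
  linarith

section

variable {V : Type} [NormedAddCommGroup V] [InnerProductSpace ℝ V]

lemma cs {x θ e : V} (hx : ‖x‖ = 1) (hθ : ‖θ‖ = 1) (he : ‖e‖ = 1) :
    (inner ℝ x θ - inner ℝ e θ * inner ℝ x e) ^ 2 ≤
      (1 - (inner ℝ e θ : ℝ) ^ 2) * (1 - (inner ℝ x e : ℝ) ^ 2) := by
  obtain ⟨k, hk⟩ : ∃ k : ℝ, k = inner ℝ e θ := ⟨_, rfl⟩
  obtain ⟨ε, hε⟩ : ∃ ε : ℝ, ε = inner ℝ x e := ⟨_, rfl⟩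
  obtain ⟨α, hα⟩ : ∃ α : ℝ, α = inner ℝ x θ := ⟨_, rfl⟩
  have exx : (inner ℝ x x : ℝ) = 1 := by rw [real_inner_self_eq_norm_sq, hx]; norm_num
  have ett : (inner ℝ θ θ : ℝ) = 1 := by rw [real_inner_self_eq_norm_sq, hθ]; norm_num
  have eee : (inner ℝ e e : ℝ) = 1 := by rw [real_inner_self_eq_norm_sq, he]; norm_num
  have e1 : (inner ℝ (x - ε • e) (θ - k • e) : ℝ) = α - k * ε := by
    simp only [inner_sub_left, inner_sub_right, inner_smul_left, inner_smul_right, eee, ← hα, ← hε,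
      ← hk]
    simp
    ring
  have e2 : (inner ℝ (x - ε • e) (x - ε • e) : ℝ) = 1 - ε ^ 2 := by
    have h : (inner ℝ e x : ℝ) = ε := by rw [real_inner_comm, hε]
    simp only [inner_sub_left, inner_sub_right, inner_smul_left, inner_smul_right, eee, exx, ← hε,
      h]
    simp
    ring
  have e3 : (inner ℝ (θ - k • e) (θ - k • e) : ℝ) = 1 - k ^ 2 := by
    have h : (inner ℝ θ e : ℝ) = k := by rw [real_inner_comm, hk]
    simp only [inner_sub_left, inner_sub_right, inner_smul_left, inner_smul_right, eee, ett, ← hk,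
      h]
    simp
    ring
  have h := real_inner_mul_inner_self_le (x - ε • e) (θ - k • e)
  rw [e1, e2, e3] at h
  rw [← hk, ← hε, ← hα]
  nlinarith

lemma main (s : ℝ) (hs0 : 0 < s) (hs1 : s < 1) {x θ e θ' : V} (hx : ‖x‖ = 1) (hθ : ‖θ‖ = 1)
    (he : ‖e‖ = 1) (hk : 0 ≤ (inner ℝ e θ : ℝ)) (h' : θ' = θ - (2 * (inner ℝ e θ : ℝ)) • e) :
    Real.arcsin (s * inner ℝ x θ) - Real.arcsin (s * inner ℝ x θ') ≤
      2 * Real.arcsin (s * inner ℝ e θ) := by
  have hcs := cs hx hθ he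
  obtain ⟨k, hkk⟩ : ∃ k : ℝ, k = inner ℝ e θ := ⟨_, rfl⟩
  obtain ⟨ε, hε⟩ : ∃ ε : ℝ, ε = inner ℝ x e := ⟨_, rfl⟩
  obtain ⟨α, hα⟩ : ∃ α : ℝ, α = inner ℝ x θ := ⟨_, rfl⟩
  have e1 : (inner ℝ x θ' : ℝ) = α - 2 * k * ε := by
    rw [h', inner_sub_right, inner_smul_right, ← hα, ← hε, ← hkk]
  have hα1 : |α| ≤ 1 := by
    have := abs_real_inner_le_norm x θ
    rw [hx, hθ, mul_one, ← hα] at this
    exact this
  have hk1 : |k| ≤ 1 := by
    have := abs_real_inner_le_norm e θ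
    rw [he, hθ, mul_one, ← hkk] at this
    exact this
  have hθ' : ‖θ'‖ = 1 := by
    have eee : (inner ℝ e e : ℝ) = 1 := by rw [real_inner_self_eq_norm_sq, he]; norm_num
    have ett : (inner ℝ θ θ : ℝ) = 1 := by rw [real_inner_self_eq_norm_sq, hθ]; norm_num
    have h : (inner ℝ θ e : ℝ) = k := by rw [real_inner_comm, hkk]
    have h1 : (inner ℝ θ' θ' : ℝ) = 1 := by
      rw [h']
      simp only [inner_sub_left, inner_sub_right, inner_smul_left, inner_smul_right, eee, ett,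
        ← hkk, h]
      simp
      ring
    rw [real_inner_self_eq_norm_sq] at h1
    nlinarith [norm_nonneg θ']
  have hβ1 : |α - 2 * k * ε| ≤ 1 := by
    have := abs_real_inner_le_norm x θ'
    rw [hx, hθ', mul_one, e1] at this
    exact this
  rw [e1, ← hα, ← hkk]
  rw [← hα, ← hkk, ← hε] at hcs
  rw [← hkk] at hk
  rw [abs_le] at hα1 hβ1
  rcases hk.eq_or_lt with h0 | h0
  · rw [← h0]
    simp
  · rcases (abs_le.1 hk1).2.eq_or_lt with h2 | h2
    · rw [h2] at hcs ⊢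
      have h3 : α = ε := by nlinarith [sq_nonneg (α - 1 * ε)]
      have h4 : s * (α - 2 * 1 * ε) = -(s * α) := by rw [← h3]; ring
      rw [h4, Real.arcsin_neg, mul_one]
      have h5 : Real.arcsin (s * α) ≤ Real.arcsin s :=
        Real.arcsin_le_arcsin (by nlinarith [hα1.2])
      linarith
    · refine core (ε := ε) (α := α) hs0 hs1 h0 h2 ?_ ?_ hcs (Real.neg_pi_div_two_le_arcsin _)
        (Real.arcsin_le_pi_div_two _) (Real.neg_pi_div_two_le_arcsin _)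
        (Real.arcsin_le_pi_div_two _)
      · exact Real.sin_arcsin (by nlinarith [hα1.1]) (by nlinarith [hα1.2])
      · exact Real.sin_arcsin (by nlinarith [hβ1.1]) (by nlinarith [hβ1.2])

end

theorem t : S_REF := by
  intro n s hs0 hs1 x θ e θ' he hk h'
  unfold ip at *
  have hx : ‖(x : E n)‖ = 1 := by
    have := x.2
    rwa [mem_sphere_zero_iff_norm] at this
  have hθ : ‖(θ : E n)‖ = 1 := by
    have := θ.2
    rwa [mem_sphere_zero_iff_norm] at this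
  exact main s hs0 hs1 hx hθ he hk h'

end Pool.Agent.N526.CP.REF
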