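import Pool.Agent.N526.CP.Stm
import Pool.Agent.H241R3.FV.TInv

/-!
Project CPN, part SPH: the measure of the sphere.
-/

set_option autoImplicit false

open MeasureTheory Metric Set Filter Topology InnerProductGeometry Matrix

namespace Pool.Agent.N526.CP.SPH

open Pool.Agent.H241R3.FV

theorem sig_ne_zero (d : ℕ) : sig (d + 1) univ ≠ 0 := by
  have h : (volume : Measure (E (d + 1))).toSphere ≠ 0 := Measure.toSphere_ne_zero _
  unfold sig
  intro h0
  exact h (Measure.measure_univ_eq_zero.1 h0)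

theorem prob (d : ℕ) : IsProbabilityMeasure (sg (d + 1)) := by
  refine ⟨?_⟩
  unfold sg
  rw [Measure.smul_apply, smul_eq_mul]
  exact ENNReal.inv_mul_cancel (sig_ne_zero d) (measure_ne_top _ _)

theorem mp (d : ℕ) (R : E (d + 1) ≃ₗᵢ[ℝ] E (d + 1)) :
    MeasurePreserving (rot R) (sg (d + 1)) (sg (d + 1)) := by
  unfold sg
  exact (TInv.taskInv (d + 1) (Nat.succ_pos d) R).smul_measure _

theorem ip_rot {n : ℕ} (R : E n ≃ₗᵢ[ℝ] E n) (u : E n) (θ : Sph n) : ip (R u) (rot R θ) = ip u θ := by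
  unfold ip rot
  exact R.inner_map_map _ _

theorem cont_ip {n : ℕ} (u : E n) : Continuous (fun θ : Sph n => ip u θ) := by
  unfold ip
  exact continuous_const.inner continuous_subtype_val

theorem ip_mem {n : ℕ} (e : E n) (he : ‖e‖ = 1) (θ : Sph n) : ip e θ ∈ Icc (-1 : ℝ) 1 := by
  have h := abs_real_inner_le_norm e (θ : E n)
  rw [he, norm_sph, mul_one] at h
  exact abs_le.1 h

theorem cont_f {n : ℕ} (f : ℝ → ℝ) (hf : ContinuousOn f (Icc (-1) 1)) (e : E n) (he : ‖e‖ = 1) :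
    Continuous (fun θ : Sph n => f (ip e θ)) :=
  hf.comp_continuous (cont_ip e) (fun θ => ip_mem e he θ)

/-- the integral -/
noncomputable def Q {n : ℕ} (f : ℝ → ℝ) (e u v : E n) : ℝ :=
  ∫ θ, f (ip e θ) * (ip u θ * ip v θ) ∂(sg n)

theorem Q_rot {d : ℕ} (f : ℝ → ℝ) (e u v : E (d + 1)) (R : E (d + 1) ≃ₗᵢ[ℝ] E (d + 1)) :
    Q f (R e) (R u) (R v) = Q f e u v := by
  unfold Q
  have hme : MeasurableEmbedding (rot R) := by
    refine Continuous.measurableEmbedding (TInv.continuous_rot R) ?_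
    intro x y h
    apply Subtype.ext
    exact R.injective (congrArg Subtype.val h)
  rw [← (mp d R).integral_comp hme]
  simp only [ip_rot]

theorem Q_neg_left {n : ℕ} (f : ℝ → ℝ) (e u v : E n) : Q f e (-u) v = -Q f e u v := by
  unfold Q
  rw [← integral_neg]
  congr 1
  ext θ
  unfold ip
  rw [inner_neg_left]
  ring

theorem Q_comm {n : ℕ} (f : ℝ → ℝ) (e u v : E n) : Q f e u v = Q f e v u := by
  unfold Q
  congr 1
  ext θ
  ring

theorem refl_fix {n : ℕ} (w x : E n) (h : inner ℝ w x = 0) :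
    (ℝ ∙ w)ᗮ.reflection x = x := by
  refine Submodule.reflection_mem_subspace_eq_self ?_
  exact Submodule.mem_orthogonal_singleton_iff_inner_right.2 h

theorem Q_orth {d : ℕ} (f : ℝ → ℝ) (e w v : E (d + 1)) (he : inner ℝ w e = 0)
    (hv : inner ℝ w v = 0) : Q f e w v = 0 := by
  have h := Q_rot f e w v ((ℝ ∙ w)ᗮ.reflection)
  rw [refl_fix w e he, refl_fix w v hv,
    Submodule.reflection_orthogonalComplement_singleton_eq_neg, Q_neg_left] at h
  linarith

theorem Q_swap {d : ℕ} (f : ℝ → ℝ) (e w w' : E (d + 1)) (he : inner ℝ w e = 0)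
    (he' : inner ℝ w' e = 0) (hn : ‖w‖ = ‖w'‖) : Q f e w w = Q f e w' w' := by
  have h := Q_rot f e w w ((ℝ ∙ (w - w'))ᗮ.reflection)
  rw [refl_fix (w - w') e (by rw [inner_sub_left, he, he', sub_zero]),
    Submodule.reflection_sub hn] at h
  exact h.symm

theorem ip_single {n : ℕ} (i : Fin n) (θ : Sph n) :
    ip (EuclideanSpace.single i (1 : ℝ)) θ = (θ : E n) i := by
  unfold ip
  rw [EuclideanSpace.inner_single_left]
  simp

theorem ip_sum {n : ℕ} (u : E n) (θ : Sph n) : ip u θ = ∑ i, u i * (θ : E n) i := by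
  unfold ip
  rw [PiLp.inner_apply]
  refine Finset.sum_congr rfl fun i _ => ?_
  simp [mul_comm]

theorem integrable_cont {n : ℕ} (g : Sph (n + 1) → ℝ) (hg : Continuous g) :
    Integrable g (sg (n + 1)) := by
  have := prob n
  exact hg.integrable_of_hasCompactSupport (HasCompactSupport.of_compactSpace _)

theorem Q_expand {d : ℕ} (f : ℝ → ℝ) (hf : ContinuousOn f (Icc (-1) 1)) (e u v : E (d + 1))
    (he : ‖e‖ = 1) : Q f e u v = ∑ i, ∑ j, u i * v j *
      Q f e (EuclideanSpace.single i (1 : ℝ)) (EuclideanSpace.single j (1 : ℝ)) := by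
  have hc := cont_f f hf e he
  have hc1 : ∀ i, Continuous (fun θ : Sph (d + 1) => (θ : E (d + 1)) i) := by
    intro i
    have := cont_ip (EuclideanSpace.single i (1 : ℝ))
    simpa only [ip_single] using this
  unfold Q
  have h1 : ∀ θ : Sph (d + 1), f (ip e θ) * (ip u θ * ip v θ) =
      ∑ i, ∑ j, u i * v j * (f (ip e θ) * ((θ : E (d + 1)) i * (θ : E (d + 1)) j)) := by
    intro θ
    rw [ip_sum u, ip_sum v, Finset.sum_mul_sum, Finset.mul_sum]
    refine Finset.sum_congr rfl fun i _ => ?_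
    rw [Finset.mul_sum]
    refine Finset.sum_congr rfl fun j _ => ?_
    ring
  simp_rw [h1]
  have h2 : ∀ i j : Fin (d + 1), Integrable (fun θ : Sph (d + 1) =>
      u i * v j * (f (ip e θ) * ((θ : E (d + 1)) i * (θ : E (d + 1)) j))) (sg (d + 1)) := by
    intro i j
    refine integrable_cont _ ?_
    exact continuous_const.mul (hc.mul ((hc1 i).mul (hc1 j)))
  rw [integral_finsetSum _ (fun i _ => integrable_finsetSum _ (fun j _ => h2 i j))]
  refine Finset.sum_congr rfl fun i _ => ?_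
  rw [integral_finsetSum _ (fun j _ => h2 i j)]
  refine Finset.sum_congr rfl fun j _ => ?_
  rw [integral_const_mul]
  simp only [ip_single]

/-- the formula for the first basis vector -/
theorem Q_e0 {d : ℕ} (hd : 1 ≤ d) (f : ℝ → ℝ) (hf : ContinuousOn f (Icc (-1) 1))
    (u v : E (d + 1)) : Q f (EuclideanSpace.single 0 (1 : ℝ)) u v =
      (∫ θ : Sph (d + 1), f ((θ : E (d + 1)) 0) * (1 - (θ : E (d + 1)) 0 ^ 2) ∂(sg (d + 1))) / d *
        (inner ℝ u v - u 0 * v 0) +
      (∫ θ : Sph (d + 1), f ((θ : E (d + 1)) 0) * (θ : E (d + 1)) 0 ^ 2 ∂(sg (d + 1))) *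
        (u 0 * v 0) := by
  set e0 : E (d + 1) := EuclideanSpace.single 0 (1 : ℝ) with he0
  set b : Fin (d + 1) → E (d + 1) := fun i => EuclideanSpace.single i (1 : ℝ) with hb
  have hbn : ∀ i, ‖b i‖ = 1 := by
    intro i
    rw [hb]
    simp
  have hbo : ∀ i j, i ≠ j → inner ℝ (b i) (b j) = 0 := by
    intro i j hij
    rw [hb]
    simp only [EuclideanSpace.inner_single_left]
    simp [hij]
  have he0n : ‖e0‖ = 1 := hbn 0
  have hQ1 : ∀ i j, i ≠ j → Q f e0 (b i) (b j) = 0 := by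
    intro i j hij
    by_cases hi : i = 0
    · rw [Q_comm]
      refine Q_orth f e0 (b j) (b i) ?_ (hbo j i (Ne.symm hij))
      refine hbo j 0 ?_
      rintro rfl
      exact hij hi
    · exact Q_orth f e0 (b i) (b j) (hbo i 0 hi) (hbo i j hij)
  have hex : ∃ i1 : Fin (d + 1), i1 ≠ 0 :=
    ⟨⟨1, by omega⟩, fun h => absurd (congrArg Fin.val h) (by simp)⟩
  obtain ⟨i1, hone⟩ := hex
  set c := Q f e0 (b i1) (b i1) with hc
  have hQ2 : ∀ i, i ≠ 0 → Q f e0 (b i) (b i) = c := by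
    intro i hi
    exact Q_swap f e0 (b i) (b i1) (hbo i 0 hi) (hbo i1 0 hone) ((hbn i).trans (hbn i1).symm)
  set A := ∫ θ : Sph (d + 1), f ((θ : E (d + 1)) 0) * (θ : E (d + 1)) 0 ^ 2 ∂(sg (d + 1)) with hA
  set B := ∫ θ : Sph (d + 1), f ((θ : E (d + 1)) 0) * (1 - (θ : E (d + 1)) 0 ^ 2) ∂(sg (d + 1))
    with hB
  have hQ0 : Q f e0 (b 0) (b 0) = A := by
    unfold Q
    rw [hA]
    congr 1
    ext θ
    rw [he0, hb]
    simp only [ip_single]
    ring
  have hcf := cont_f f hf e0 he0n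
  have hsum : ∑ i ∈ Finset.univ.erase (0 : Fin (d + 1)), Q f e0 (b i) (b i) = B := by
    unfold Q
    rw [← integral_finsetSum]
    · rw [hB]
      congr 1
      ext θ
      have h1 : ∑ i, ((θ : E (d + 1)) i) ^ 2 = 1 := by
        have h4 := norm_sph θ
        have h5 : ‖(θ : E (d + 1))‖ ^ 2 = ∑ i, ‖(θ : E (d + 1)) i‖ ^ 2 :=
          EuclideanSpace.norm_sq_eq _
        rw [h4, one_pow] at h5
        refine Eq.trans ?_ h5.symm
        refine Finset.sum_congr rfl fun i _ => ?_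
        rw [Real.norm_eq_abs, sq_abs]
      rw [← Finset.add_sum_erase _ _ (Finset.mem_univ (0 : Fin (d + 1)))] at h1
      have h2 : 1 - (θ : E (d + 1)) 0 ^ 2 =
          ∑ i ∈ Finset.univ.erase (0 : Fin (d + 1)), ((θ : E (d + 1)) i) ^ 2 := by linarith
      rw [h2, Finset.mul_sum]
      refine Finset.sum_congr rfl fun i _ => ?_
      rw [he0, hb]
      simp only [ip_single]
      ring
    · intro i _
      refine integrable_cont _ ?_
      exact hcf.mul ((cont_ip _).mul (cont_ip _))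
  have hBc : B = d * c := by
    rw [← hsum]
    rw [Finset.sum_congr rfl (fun i hi => hQ2 i (Finset.ne_of_mem_erase hi))]
    rw [Finset.sum_const, Finset.card_erase_of_mem (Finset.mem_univ _), Finset.card_univ,
      Fintype.card_fin, Nat.add_sub_cancel, nsmul_eq_mul]
  have hd0 : (d : ℝ) ≠ 0 := by
    have : (1 : ℝ) ≤ d := by exact_mod_cast hd
    linarith
  have hBd : B / d = c := by
    rw [hBc]
    field_simp
  rw [hBd, Q_expand f hf e0 u v he0n]
  have h3 : ∀ i, ∑ j, u i * v j * Q f e0 (b i) (b j) = u i * v i * Q f e0 (b i) (b i) := by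
    intro i
    rw [Finset.sum_eq_single i]
    · intro j _ hj
      rw [hQ1 i j (Ne.symm hj), mul_zero]
    · intro h
      exact absurd (Finset.mem_univ _) h
  rw [Finset.sum_congr rfl (fun i _ => h3 i)]
  rw [← Finset.add_sum_erase _ _ (Finset.mem_univ (0 : Fin (d + 1))), hQ0]
  have h4 : ∑ i ∈ Finset.univ.erase (0 : Fin (d + 1)), u i * v i * Q f e0 (b i) (b i) =
      (∑ i ∈ Finset.univ.erase (0 : Fin (d + 1)), u i * v i) * c := by
    rw [Finset.sum_mul]
    refine Finset.sum_congr rfl fun i hi => ?_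
    rw [hQ2 i (Finset.ne_of_mem_erase hi)]
  have h5 : (inner ℝ u v : ℝ) = u 0 * v 0 +
      ∑ i ∈ Finset.univ.erase (0 : Fin (d + 1)), u i * v i := by
    rw [Finset.add_sum_erase _ (fun i => u i * v i) (Finset.mem_univ (0 : Fin (d + 1)))]
    rw [PiLp.inner_apply]
    refine Finset.sum_congr rfl fun i _ => ?_
    simp [mul_comm]
  rw [h4, h5]
  ring

theorem t : S_SPH := by
  intro d hd
  refine ⟨prob d, mp d, fun f e u v he hf => ?_⟩
  set e0 : E (d + 1) := EuclideanSpace.single 0 (1 : ℝ) with he0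
  have he0n : ‖e0‖ = 1 := by
    rw [he0]
    simp
  have hex : ∃ R : E (d + 1) ≃ₗᵢ[ℝ] E (d + 1), R e0 = e :=
    ⟨(ℝ ∙ (e0 - e))ᗮ.reflection, Submodule.reflection_sub (he0n.trans he.symm)⟩
  obtain ⟨R, hR⟩ := hex
  have h1 := Q_rot f e0 (R.symm u) (R.symm v) R
  rw [hR, R.apply_symm_apply, R.apply_symm_apply, he0, Q_e0 hd f hf] at h1
  have h2 : ∀ w : E (d + 1), (R.symm w) 0 = inner ℝ e w := by
    intro w
    have h3 : (R.symm w) 0 = inner ℝ e0 (R.symm w) := by
      rw [he0, EuclideanSpace.inner_single_left]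
      simp
    rw [h3, ← R.inner_map_map, hR, R.apply_symm_apply]
  rw [h2, h2, R.symm.inner_map_map] at h1
  exact h1

end Pool.Agent.N526.CP.SPH
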