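import Pool.Agent.N526.CP.Stm
import Pool.Agent.H241R3.FV.TLoc

/-!
# CPN/STO (helper661)
-/

set_option autoImplicit false

open MeasureTheory Metric Set Filter Topology InnerProductGeometry Matrix

namespace Pool.Agent.N526.CP.STO

open Pool.Agent.H241R3.FV Pool.Agent.N526.CP

noncomputable section

/-- the cutoff -/
def eta (r' t : ℝ) : ℝ := max 0 ((t - r') / (1 - r'))

theorem eta_nonneg (r' t : ℝ) : 0 ≤ eta r' t := le_max_left _ _

theorem eta_le_one {r' t : ℝ} (hr : r' < 1) (ht : t ≤ 1) : eta r' t ≤ 1 := by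
  unfold eta
  refine max_le zero_le_one ?_
  rw [div_le_one (by linarith)]
  linarith

theorem eta_one {r' : ℝ} (hr : r' < 1) : eta r' 1 = 1 := by
  unfold eta
  rw [div_self (by linarith), max_eq_right zero_le_one]

theorem eta_zero {r' t : ℝ} (hr : r' < 1) (ht : t ≤ r') : eta r' t = 0 := by
  unfold eta
  exact max_eq_left (div_nonpos_of_nonpos_of_nonneg (by linarith) (by linarith))

theorem eta_lip {r' : ℝ} (hr : r' < 1) (s t : ℝ) : |eta r' s - eta r' t| ≤ |s - t| / (1 - r') := by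
  unfold eta
  rw [max_comm 0, max_comm 0]
  refine (abs_max_sub_max_le_abs _ _ (0 : ℝ)).trans ?_
  have : (s - r') / (1 - r') - (t - r') / (1 - r') = (s - t) / (1 - r') := by ring
  rw [this, abs_div, abs_of_pos (by linarith : 0 < 1 - r')]

variable {n : ℕ}

/-- the cut off map on the ball -/
def w1 (r' : ℝ) (w : E n → E n) (y : E n) : E n := eta r' ‖y‖ • w y

theorem w1_bdd {r' : ℝ} (hr : r' < 1) {K : NNReal} {w : E n → E n}
    (hw : LipschitzOnWith K w (closedBall 0 1)) {y : E n} (hy : ‖y‖ ≤ 1) :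
    ‖w y‖ ≤ ‖w 0‖ + K ∧ ‖w1 r' w y‖ ≤ ‖w 0‖ + K := by
  have h1 : ‖w y‖ ≤ ‖w 0‖ + K := by
    have h := hw.dist_le_mul y (by simpa using hy) 0 (by simp)
    rw [dist_eq_norm, dist_zero_right] at h
    have h2 : ‖w y‖ ≤ ‖w 0‖ + ‖w y - w 0‖ := by
      calc ‖w y‖ = ‖w 0 + (w y - w 0)‖ := by congr 1; abel
        _ ≤ _ := norm_add_le _ _
    have h3 : (K : ℝ) * ‖y‖ ≤ K := by
      calc (K : ℝ) * ‖y‖ ≤ K * 1 := mul_le_mul_of_nonneg_left hy K.2
        _ = K := mul_one _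
    linarith
  refine ⟨h1, ?_⟩
  unfold w1
  rw [norm_smul, Real.norm_eq_abs, abs_of_nonneg (eta_nonneg _ _)]
  calc eta r' ‖y‖ * ‖w y‖ ≤ 1 * ‖w y‖ :=
        mul_le_mul_of_nonneg_right (eta_le_one hr hy) (norm_nonneg _)
    _ ≤ _ := by rw [one_mul]; exact h1

theorem w1_lip {r' : ℝ} (hr : r' < 1) {K : NNReal} {w : E n → E n}
    (hw : LipschitzOnWith K w (closedBall 0 1)) {x y : E n} (hx : ‖x‖ ≤ 1) (hy : ‖y‖ ≤ 1) :
    ‖w1 r' w x - w1 r' w y‖ ≤ (K + (‖w 0‖ + K) / (1 - r')) * ‖x - y‖ := by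
  have e : w1 r' w x - w1 r' w y = eta r' ‖x‖ • (w x - w y) + (eta r' ‖x‖ - eta r' ‖y‖) • w y := by
    unfold w1
    rw [smul_sub, sub_smul]
    abel
  rw [e]
  refine (norm_add_le _ _).trans ?_
  rw [norm_smul, norm_smul, Real.norm_eq_abs, Real.norm_eq_abs, abs_of_nonneg (eta_nonneg _ _)]
  have h1 := hw.dist_le_mul x (by simpa using hx) y (by simpa using hy)
  rw [dist_eq_norm, dist_eq_norm] at h1
  have h2 : eta r' ‖x‖ * ‖w x - w y‖ ≤ K * ‖x - y‖ := by
    calc eta r' ‖x‖ * ‖w x - w y‖ ≤ 1 * ‖w x - w y‖ :=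
          mul_le_mul_of_nonneg_right (eta_le_one hr hx) (norm_nonneg _)
      _ ≤ _ := by rw [one_mul]; exact h1
  have h3 : |eta r' ‖x‖ - eta r' ‖y‖| ≤ ‖x - y‖ / (1 - r') :=
    (eta_lip hr _ _).trans (div_le_div_of_nonneg_right (abs_norm_sub_norm_le _ _) (by linarith))
  have h4 : |eta r' ‖x‖ - eta r' ‖y‖| * ‖w y‖ ≤ ‖x - y‖ / (1 - r') * (‖w 0‖ + K) :=
    mul_le_mul h3 (w1_bdd hr hw hy).1 (norm_nonneg _)
      (div_nonneg (norm_nonneg _) (by linarith))
  calc _ ≤ K * ‖x - y‖ + ‖x - y‖ / (1 - r') * (‖w 0‖ + K) := add_le_add h2 h4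
    _ = _ := by ring

variable {M : Type} [MetricSpace M]

open Classical in
/-- the transplanted map -/
def v1 (S : OFill n M) (g : E n → E n) (q : M) : E n :=
  if h : ∃ x : E n, (S.r < ‖x‖ ∧ ‖x‖ ≤ 1) ∧ S.col x = q then g h.choose else 0

theorem col_inj (S : OFill n M) {x y : E n} (hx : S.r < ‖x‖ ∧ ‖x‖ ≤ 1)
    (hy : S.r < ‖y‖ ∧ ‖y‖ ≤ 1) (h : S.col x = S.col y) : x = y := by
  obtain ⟨K, hK⟩ := S.col_lip
  have h1 := (hK x y hx.1 hx.2 hy.1 hy.2).2
  rw [h, dist_self, mul_zero] at h1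
  exact sub_eq_zero.1 (norm_le_zero_iff.1 h1)

theorem v1_col (S : OFill n M) (g : E n → E n) {x : E n} (hx : S.r < ‖x‖ ∧ ‖x‖ ≤ 1) :
    v1 S g (S.col x) = g x := by
  have h : ∃ y : E n, (S.r < ‖y‖ ∧ ‖y‖ ≤ 1) ∧ S.col y = S.col x := ⟨x, hx, rfl⟩
  unfold v1
  rw [dif_pos h]
  congr 1
  exact col_inj S h.choose_spec.1 hx h.choose_spec.2

theorem v1_off (S : OFill n M) (g : E n → E n) {q : M}
    (hq : ¬ ∃ x : E n, (S.r < ‖x‖ ∧ ‖x‖ ≤ 1) ∧ S.col x = q) : v1 S g q = 0 := by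
  unfold v1
  rw [dif_neg hq]

/-- the compact set which carries the transplanted map -/
def A' (S : OFill n M) (r' : ℝ) : Set M := S.col '' {x | r' ≤ ‖x‖ ∧ ‖x‖ ≤ 1}

theorem col_cont (S : OFill n M) : ContinuousOn S.col {x | S.r < ‖x‖ ∧ ‖x‖ ≤ 1} := by
  obtain ⟨K, hK⟩ := S.col_lip
  have h : LipschitzOnWith (Real.toNNReal (max K 0)) S.col {x | S.r < ‖x‖ ∧ ‖x‖ ≤ 1} := by
    refine LipschitzOnWith.of_dist_le_mul fun x hx y hy => ?_
    rw [Real.coe_toNNReal _ (le_max_right _ _), dist_eq_norm x y]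
    exact ((hK x y hx.1 hx.2 hy.1 hy.2).1).trans
      (mul_le_mul_of_nonneg_right (le_max_left _ _) (norm_nonneg _))
  exact h.continuousOn

theorem A'_compact (S : OFill n M) {r' : ℝ} (hr : S.r < r') : IsCompact (A' S r') := by
  have h : IsCompact {x : E n | r' ≤ ‖x‖ ∧ ‖x‖ ≤ 1} := by
    have e : {x : E n | r' ≤ ‖x‖ ∧ ‖x‖ ≤ 1} = closedBall 0 1 ∩ {x | r' ≤ ‖x‖} := by
      ext x
      simp [and_comm]
    rw [e]
    exact (isCompact_closedBall 0 1).inter_right (isClosed_le continuous_const continuous_norm)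
  exact h.image_of_continuousOn ((col_cont S).mono fun x hx => ⟨hr.trans_le hx.1, hx.2⟩)

theorem v1_zero (S : OFill n M) {r' : ℝ} (hr1 : r' < 1) (w : E n → E n) {q : M}
    (hq : q ∉ A' S r') : v1 S (w1 r' w) q = 0 := by
  by_cases h : ∃ x : E n, (S.r < ‖x‖ ∧ ‖x‖ ≤ 1) ∧ S.col x = q
  · obtain ⟨x, hx, rfl⟩ := h
    rw [v1_col S _ hx]
    have : ‖x‖ < r' := by
      by_contra hc
      exact hq ⟨x, ⟨not_lt.1 hc, hx.2⟩, rfl⟩
    unfold w1
    rw [eta_zero hr1 this.le, zero_smul]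
  · exact v1_off S _ h

theorem v1_lip (S : OFill n M) {r' : ℝ} (hr : S.r < r') (hr1 : r' < 1) {K : NNReal}
    {w : E n → E n} (hw : LipschitzOnWith K w (closedBall 0 1)) :
    ∃ K2 : NNReal, LipschitzWith K2 (v1 S (w1 r' w)) := by
  obtain ⟨Kc, hK⟩ := S.col_lip
  obtain ⟨δ, hδ, hδ2⟩ := (A'_compact S hr).exists_thickening_subset_open S.col_open
    (image_mono fun x hx => ⟨hr.trans_le hx.1, hx.2⟩)
  set K1 : ℝ := K + (‖w 0‖ + K) / (1 - r') with hK1
  set B : ℝ := ‖w 0‖ + K with hB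
  have hB0 : 0 ≤ B := add_nonneg (norm_nonneg _) K.2
  have hK10 : 0 ≤ K1 := add_nonneg K.2 (div_nonneg hB0 (by linarith))
  set C : ℝ := K1 * max Kc 0 + B / δ with hC
  have hC0 : 0 ≤ C := add_nonneg (mul_nonneg hK10 (le_max_right _ _)) (div_nonneg hB0 hδ.le)
  have key : ∀ q q' : M, (∃ x : E n, (S.r < ‖x‖ ∧ ‖x‖ ≤ 1) ∧ S.col x = q) →
      ‖v1 S (w1 r' w) q - v1 S (w1 r' w) q'‖ ≤ C * dist q q' := by
    rintro q q' ⟨x, hx, rfl⟩
    by_cases h' : ∃ y : E n, (S.r < ‖y‖ ∧ ‖y‖ ≤ 1) ∧ S.col y = q'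
    · obtain ⟨y, hy, rfl⟩ := h'
      rw [v1_col S _ hx, v1_col S _ hy]
      have h1 := (hK x y hx.1 hx.2 hy.1 hy.2).2
      calc ‖w1 r' w x - w1 r' w y‖ ≤ K1 * ‖x - y‖ := w1_lip hr1 hw hx.2 hy.2
        _ ≤ K1 * (max Kc 0 * dist (S.col x) (S.col y)) := by
            refine mul_le_mul_of_nonneg_left (h1.trans ?_) hK10
            exact mul_le_mul_of_nonneg_right (le_max_left _ _) dist_nonneg
        _ ≤ C * dist (S.col x) (S.col y) := by
            rw [← mul_assoc]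
            refine mul_le_mul_of_nonneg_right ?_ (dist_nonneg (x := S.col x) (y := S.col y))
            rw [hC]
            exact le_add_of_nonneg_right (div_nonneg hB0 hδ.le)
    · rw [v1_off S _ h', sub_zero]
      by_cases hA : S.col x ∈ A' S r'
      · have h1 : δ ≤ dist (S.col x) q' := by
          by_contra hc
          have h2 : q' ∈ thickening δ (A' S r') := by
            rw [mem_thickening_iff]
            exact ⟨S.col x, hA, by rw [dist_comm]; exact not_le.1 hc⟩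
          obtain ⟨y, hy, hyq⟩ := hδ2 h2
          exact h' ⟨y, hy, hyq⟩
        rw [v1_col S _ hx]
        calc ‖w1 r' w x‖ ≤ B := (w1_bdd hr1 hw hx.2).2
          _ = B / δ * δ := by field_simp
          _ ≤ B / δ * dist (S.col x) q' := mul_le_mul_of_nonneg_left h1 (div_nonneg hB0 hδ.le)
          _ ≤ C * dist (S.col x) q' := by
            rw [hC, add_mul]
            exact le_add_of_nonneg_left (mul_nonneg (mul_nonneg hK10 (le_max_right _ _))
              dist_nonneg)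
      · rw [v1_zero S hr1 w hA, norm_zero]
        exact mul_nonneg hC0 dist_nonneg
  refine ⟨⟨C, hC0⟩, LipschitzWith.of_dist_le_mul fun q q' => ?_⟩
  rw [dist_eq_norm]
  show _ ≤ C * dist q q'
  by_cases h : ∃ x : E n, (S.r < ‖x‖ ∧ ‖x‖ ≤ 1) ∧ S.col x = q
  · exact key q q' h
  · by_cases h' : ∃ x : E n, (S.r < ‖x‖ ∧ ‖x‖ ≤ 1) ∧ S.col x = q'
    · rw [norm_sub_rev, dist_comm]
      exact key q' q h'
    · rw [v1_off S _ h, v1_off S _ h', sub_zero, norm_zero]
      exact mul_nonneg hC0 dist_nonneg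

theorem chart_cont (C : RChart n M) {p : E n} (hp : p ∈ C.U) : ContinuousAt C.map p := by
  obtain ⟨r, hr, hr1, hr2⟩ := TLoc.taskLoc n M C p hp 1 one_pos
  have hc : Continuous fun y : E n => gnorm (C.G p) (y - p) + 1 * ‖y - p‖ := by
    unfold gnorm
    fun_prop
  rw [Metric.continuousAt_iff]
  intro ε hε
  have h0 : (fun y : E n => gnorm (C.G p) (y - p) + 1 * ‖y - p‖) p = 0 := by
    simp [gnorm]
  have h1 : ∀ᶠ y in 𝓝 p, gnorm (C.G p) (y - p) + 1 * ‖y - p‖ < ε := by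
    have h3 : gnorm (C.G p) (p - p) + 1 * ‖p - p‖ < ε := by
      have h4 : gnorm (C.G p) (p - p) + 1 * ‖p - p‖ = 0 := h0
      rw [h4]
      exact hε
    exact hc.continuousAt.eventually (gt_mem_nhds h3)
  obtain ⟨δ, hδ, h2⟩ := Metric.eventually_nhds_iff.1 h1
  refine ⟨min δ r, lt_min hδ hr, fun {y} hy => ?_⟩
  have hy1 : y ∈ ball p r := mem_ball.2 (hy.trans_le (min_le_right _ _))
  exact (hr2 y hy1 p (mem_ball_self hr)).trans_lt (h2 (hy.trans_le (min_le_left _ _)))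

theorem det_zero (hn : 1 ≤ n) : (0 : E n →L[ℝ] E n).det = 0 := by
  rw [det_mat]
  have h0 : mat (0 : E n →L[ℝ] E n) = 0 := by
    ext i j
    simp [mat]
  rw [h0]
  have : Nonempty (Fin n) := ⟨⟨0, hn⟩⟩
  exact Matrix.det_zero

theorem t : S_CHA → S_TEL → S_BAL → S_STO := by
  intro hCHA hTEL hBAL n hn M _ _ S hvol K v w hv hw hb
  have hr1 : S.r < 1 := S.r_lt
  set r' : ℝ := (1 + S.r) / 2 with hr'
  have h1 : S.r < r' := by rw [hr']; linarith
  have h2 : r' < 1 := by rw [hr']; linarith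
  obtain ⟨K2, hK2⟩ := v1_lip S h1 h2 hw
  have hbd : ∀ x, v (S.bd x) = v1 S (w1 r' w) (S.bd x) := by
    intro x
    have hx : ‖(x : E n)‖ = 1 := norm_sph x
    rw [← S.col_bd x, v1_col S _ ⟨by rw [hx]; exact hr1, hx.le⟩, S.col_bd x, hb x]
    unfold w1
    rw [hx, eta_one h2, one_smul]
  have e1 : jint S v = jint S (v1 S (w1 r' w)) :=
    hTEL n hn M S hvol (max K K2) v _ (hv.weaken (le_max_left _ _)) (hK2.weaken (le_max_right _ _))
      hbd
  obtain ⟨j, hjU, hjm⟩ := S.col_chart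
  have hA := A'_compact S h1
  have e2 : jint S (v1 S (w1 r' w)) =
      ∫ p in (S.chart j).U, (fderiv ℝ (v1 S (w1 r' w) ∘ (S.chart j).map) p).det := by
    rw [← (hCHA n hn M S hvol K2 _ hK2).2.2 j]
    unfold jint
    refine Finset.sum_congr rfl fun i _ => ?_
    refine setIntegral_eq_of_subset_of_forall_sdiff_eq_zero (S.chart i).meas_D
      (fun p hp => hp.1) fun p hp => ?_
    have hpD : p ∈ (S.chart i).D := hp.1
    have hpU : p ∈ (S.chart i).U := (S.chart i).D_sub hpD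
    have hnot : (S.chart i).map p ∉ A' S r' := by
      rintro ⟨x, hx, hxp⟩
      rcases lt_or_eq_of_le hx.2 with hx1 | hx1
      · refine hp.2 ⟨hpD, x, ?_, ?_⟩
        · rw [hjU]
          exact ⟨h1.trans_le hx.1, hx1⟩
        · rw [hjm x (by rw [hjU]; exact ⟨h1.trans_le hx.1, hx1⟩)]
          exact hxp
      · refine S.off_bd i p hpU ⟨x, by simpa using hx1⟩ ?_
        rw [← hxp, ← S.col_bd]
    have hev : (v1 S (w1 r' w) ∘ (S.chart i).map) =ᶠ[𝓝 p] fun _ => 0 := by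
      have := (chart_cont (S.chart i) hpU).eventually (hA.isClosed.isOpen_compl.mem_nhds hnot)
      filter_upwards [this] with y hy
      exact v1_zero S h2 w hy
    rw [hev.fderiv_eq, fderiv_const_apply, det_zero hn]
  have e3 : ∫ p in (S.chart j).U, (fderiv ℝ (v1 S (w1 r' w) ∘ (S.chart j).map) p).det =
      ∫ p in (S.chart j).U, (fderiv ℝ (w1 r' w) p).det := by
    refine setIntegral_congr_fun (S.chart j).isOpen_U.measurableSet fun p hp => ?_
    have hev : (v1 S (w1 r' w) ∘ (S.chart j).map) =ᶠ[𝓝 p] w1 r' w := by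
      filter_upwards [(S.chart j).isOpen_U.mem_nhds hp] with y hy
      have hy' := hy
      rw [hjU] at hy'
      show v1 S (w1 r' w) ((S.chart j).map y) = _
      rw [hjm y hy, v1_col S _ ⟨hy'.1, hy'.2.le⟩]
    show (fderiv ℝ (v1 S (w1 r' w) ∘ (S.chart j).map) p).det = _
    rw [hev.fderiv_eq]
  have e4 : ∫ y in ball (0 : E n) 1, (fderiv ℝ (w1 r' w) y).det =
      ∫ p in (S.chart j).U, (fderiv ℝ (w1 r' w) p).det := by
    refine setIntegral_eq_of_subset_of_forall_sdiff_eq_zero measurableSet_ball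
      (fun p hp => ?_) fun p hp => ?_
    · rw [hjU] at hp
      simpa using hp.2
    · have hp1 : ‖p‖ < 1 := by simpa using hp.1
      have hp2 : ‖p‖ ≤ S.r := by
        by_contra hc
        refine hp.2 ?_
        rw [hjU]
        exact ⟨not_le.1 hc, hp1⟩
      have hev : w1 r' w =ᶠ[𝓝 p] fun _ => 0 := by
        have : ∀ᶠ y : E n in 𝓝 p, ‖y‖ < r' :=
          continuous_norm.continuousAt.eventually (gt_mem_nhds (hp2.trans_lt h1))
        filter_upwards [this] with y hy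
        unfold w1
        rw [eta_zero h2 hy.le, zero_smul]
      rw [hev.fderiv_eq, fderiv_const_apply, det_zero hn]
  have hK1 : 0 ≤ (K : ℝ) + (‖w 0‖ + K) / (1 - r') :=
    add_nonneg K.2 (div_nonneg (add_nonneg (norm_nonneg _) K.2) (by linarith))
  have hw1 : LipschitzOnWith ⟨(K : ℝ) + (‖w 0‖ + K) / (1 - r'), hK1⟩ (w1 r' w)
      (closedBall 0 1) := by
    refine LipschitzOnWith.of_dist_le_mul fun x hx y hy => ?_
    rw [dist_eq_norm, dist_eq_norm]
    exact w1_lip h2 hw (by simpa using hx) (by simpa using hy)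
  have e5 := hBAL n hn (max ⟨(K : ℝ) + (‖w 0‖ + K) / (1 - r'), hK1⟩ K) (w1 r' w) w
    (hw1.weaken (le_max_left _ _)) (hw.weaken (le_max_right _ _)) fun x hx => by
      have hx1 : ‖x‖ = 1 := by simpa using hx
      unfold w1
      rw [hx1, eta_one h2, one_smul]
  rw [e1, e2, e3, ← e4, e5]

end

end Pool.Agent.N526.CP.STO
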