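import Pool.Agent.N526.CP.Stm
import Pool.Agent.H241R3.FV.TLoc

/-!
# CPN/TEL: the integral of the Jacobian determinant depends only on the boundary values
(helper862, for helper526)
-/

set_option autoImplicit false

open MeasureTheory Metric Set Filter Topology Matrix

namespace Pool.Agent.N526.CP.TEL

open Pool.Agent.H241R3.FV

/-- Lipschitz maps are differentiable almost everywhere in the charts -/
theorem ae_diff {n : ℕ} {M : Type} [MetricSpace M] (C : RChart n M) {F : Type*}
    [NormedAddCommGroup F] [NormedSpace ℝ F] [FiniteDimensional ℝ F] {K : NNReal} {v : M → F}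
    (hv : LipschitzWith K v) :
    ∀ᵐ p ∂(volume : Measure (E n)), p ∈ C.U → DifferentiableAt ℝ (v ∘ C.map) p := by
  rw [ae_iff]
  refine measure_null_of_locally_null _ fun p hp => ?_
  simp only [Classical.not_imp, mem_ofPred_eq] at hp
  obtain ⟨r, hr, hrU, hloc⟩ := TLoc.taskLoc n M C p hp.1 1 one_pos
  refine ⟨_ ∩ ball p r, inter_mem_nhdsWithin _ (ball_mem_nhds _ hr), ?_⟩
  set c : ℝ := √(∑ i, ∑ j, |C.G p i j|) + 1 with hc
  have hc0 : 0 ≤ c := by positivity
  have hL : LipschitzOnWith (K * Real.toNNReal c) (v ∘ C.map) (ball p r) := by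
    refine LipschitzOnWith.of_dist_le_mul fun y hy z hz => ?_
    have h1 := hloc y hy z hz
    have h2 := gnorm_le (C.G p) (y - z)
    calc dist ((v ∘ C.map) y) ((v ∘ C.map) z) ≤ K * dist (C.map y) (C.map z) := hv.dist_le_mul _ _
      _ ≤ K * (c * ‖y - z‖) := by
          refine mul_le_mul_of_nonneg_left ?_ K.2
          rw [hc, add_mul, one_mul]
          linarith
      _ = ↑(K * Real.toNNReal c) * dist y z := by
          rw [NNReal.coe_mul, Real.coe_toNNReal c hc0, dist_eq_norm, mul_assoc]
  have h3 := hL.ae_differentiableWithinAt_of_mem (μ := (volume : Measure (E n)))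
  rw [ae_iff] at h3
  refine measure_mono_null ?_ h3
  rintro q ⟨hq, hqb⟩
  simp only [Classical.not_imp, mem_ofPred_eq] at hq ⊢
  exact ⟨hqb, fun h => hq.2 (h.differentiableAt (isOpen_ball.mem_nhds hqb))⟩

/-- the projection on a coordinate axis -/
noncomputable def P {n : ℕ} (k : Fin n) : E n →L[ℝ] E n :=
  (EuclideanSpace.proj k : E n →L[ℝ] ℝ).smulRight (EuclideanSpace.single k 1)

theorem P_same {n : ℕ} (k : Fin n) (x : E n) : P k x k = x k := by
  simp [P]

theorem P_ne {n : ℕ} {k i : Fin n} (h : i ≠ k) (x : E n) : P k x i = 0 := by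
  simp [P, h]

/-- one component -/
theorem step (hCHA : S_CHA) (hVAN : S_VAN) {n : ℕ} (hn : 1 ≤ n) {M : Type} [MetricSpace M]
    [CompactSpace M] (S : OFill n M) (hvol : S.vol < ⊤) {K K' : NNReal} {a b : M → E n}
    (ha : LipschitzWith K a) (hb : LipschitzWith K' b) (k : Fin n)
    (hab : ∀ q, ∀ i, i ≠ k → b q i = a q i) (hbd : ∀ x, b (S.bd x) k = a (S.bd x) k) :
    jint S b = jint S a := by
  set z : M → E n := fun q => a q + P k (b q) - (P k (a q) + P k (a q)) with hz
  have hzL : LipschitzWith (K + ‖P k‖₊ * K' + (‖P k‖₊ * K + ‖P k‖₊ * K)) z := by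
    have h1 := (P k).lipschitz.comp hb
    have h2 := (P k).lipschitz.comp ha
    exact (ha.add h1).sub (h2.add h2)
  have hz0 : jint S z = 0 := by
    refine hVAN n hn M S hvol _ z hzL k fun x => ?_
    simp only [hz, PiLp.sub_apply, PiLp.add_apply, P_same, hbd]
    ring
  have hIa := (hCHA n hn M S hvol _ a ha).1
  have hIz := (hCHA n hn M S hvol _ z hzL).1
  have key : ∀ i, ∫ p in (S.chart i).D, (fderiv ℝ (b ∘ (S.chart i).map) p).det =
      (∫ p in (S.chart i).D, (fderiv ℝ (a ∘ (S.chart i).map) p).det) +
      ∫ p in (S.chart i).D, (fderiv ℝ (z ∘ (S.chart i).map) p).det := by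
    intro i
    rw [← integral_add (hIa i) (hIz i)]
    refine setIntegral_congr_ae (S.chart i).meas_D ?_
    filter_upwards [ae_diff (S.chart i) ha, ae_diff (S.chart i) hb] with p h1 h2 hp
    have hpU := (S.chart i).D_sub hp
    have dA := (h1 hpU).hasFDerivAt
    have dB := (h2 hpU).hasFDerivAt
    set A := fderiv ℝ (a ∘ (S.chart i).map) p with hA
    set B := fderiv ℝ (b ∘ (S.chart i).map) p with hB
    have dPA : HasFDerivAt (fun y => P k ((a ∘ (S.chart i).map) y)) ((P k).comp A) p :=
      (P k).hasFDerivAt.comp p dA
    have dPB : HasFDerivAt (fun y => P k ((b ∘ (S.chart i).map) y)) ((P k).comp B) p :=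
      (P k).hasFDerivAt.comp p dB
    have dZ : HasFDerivAt (z ∘ (S.chart i).map)
        (A + (P k).comp B - ((P k).comp A + (P k).comp A)) p :=
      (dA.add dPB).sub (dPA.add dPA)
    have hBB : B = A + (P k).comp B - (P k).comp A := by
      have h3 : HasFDerivAt (b ∘ (S.chart i).map) (A + (P k).comp B - (P k).comp A) p := by
        have h4 := (dA.add dPB).sub dPA
        refine h4.congr_of_eventuallyEq (Eventually.of_forall fun y => ?_)
        show b ((S.chart i).map y) = a ((S.chart i).map y) + P k (b ((S.chart i).map y)) -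
          P k (a ((S.chart i).map y))
        ext j
        simp only [PiLp.sub_apply, PiLp.add_apply]
        by_cases hj : j = k
        · subst hj
          rw [P_same, P_same]
          ring
        · rw [P_ne hj, P_ne hj, hab _ j hj]
          ring
      exact dB.unique h3
    rw [dZ.fderiv]
    simp only [det_mat]
    have e1 : mat B = (mat A).updateRow k (mat A k + (mat B k - mat A k)) := by
      ext j l
      by_cases hj : j = k
      · subst hj
        rw [updateRow_self]
        simp
      · rw [updateRow_ne hj]
        show (B (EuclideanSpace.single l 1)) j = (A (EuclideanSpace.single l 1)) j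
        rw [hBB]
        simp [P_ne hj]
    have e2 : mat (A + (P k).comp B - ((P k).comp A + (P k).comp A)) =
        (mat A).updateRow k (mat B k - mat A k) := by
      ext j l
      by_cases hj : j = k
      · subst hj
        rw [updateRow_self]
        simp only [mat, Pi.sub_apply, _root_.sub_apply, _root_.add_apply,
          ContinuousLinearMap.comp_apply, PiLp.sub_apply, PiLp.add_apply, P_same]
        ring
      · rw [updateRow_ne hj]
        simp only [mat, _root_.sub_apply, _root_.add_apply,
          ContinuousLinearMap.comp_apply, PiLp.sub_apply, PiLp.add_apply, P_ne hj]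
        ring
    rw [e1, e2, det_updateRow_add, updateRow_eq_self]
  unfold jint at hz0 ⊢
  rw [Finset.sum_congr rfl (fun i _ => key i), Finset.sum_add_distrib, hz0, add_zero]

theorem t : S_CHA → S_VAN → S_TEL := by
  intro hCHA hVAN n hn M _ _ S hvol K v w hv hw hvw
  have key : ∀ A : Finset (Fin n), ∃ (K' : NNReal) (u : M → E n), LipschitzWith K' u ∧
      (∀ q j, u q j = if j ∈ A then w q j else v q j) ∧ jint S u = jint S v := by
    intro A
    induction A using Finset.induction_on with
    | empty => exact ⟨K, v, hv, fun q j => by simp, rfl⟩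
    | insert k A hk ih =>
      obtain ⟨K', u, hu, huv, hj⟩ := ih
      have hL : LipschitzWith (K' + ‖P k‖₊ * K + ‖P k‖₊ * K')
          (fun q => u q + P k (w q) - P k (u q)) := by
        have h1 := (P k).lipschitz.comp hw
        have h2 := (P k).lipschitz.comp hu
        exact (hu.add h1).sub h2
      refine ⟨_, _, hL, ?_, ?_⟩
      · intro q j
        simp only [PiLp.sub_apply, PiLp.add_apply]
        by_cases hjk : j = k
        · subst hjk
          rw [P_same, P_same, if_pos (Finset.mem_insert_self _ _)]
          ring
        · rw [P_ne hjk, P_ne hjk, huv]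
          by_cases hjA : j ∈ A
          · rw [if_pos hjA, if_pos (Finset.mem_insert_of_mem hjA)]
            ring
          · rw [if_neg hjA, if_neg (by
              rw [Finset.mem_insert]
              rintro (h | h)
              · exact hjk h
              · exact hjA h)]
            ring
      · rw [← hj]
        refine step hCHA hVAN hn S hvol hu hL k ?_ ?_
        · intro q i hi
          simp only [PiLp.sub_apply, PiLp.add_apply, P_ne hi]
          ring
        · intro x
          simp only [PiLp.sub_apply, PiLp.add_apply, P_same, huv, if_neg hk, hvw]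
          ring
  obtain ⟨K', u, _, huv, hj⟩ := key Finset.univ
  have : u = w := by
    funext q
    ext j
    rw [huv, if_pos (Finset.mem_univ _)]
  rw [← this, hj]

end Pool.Agent.N526.CP.TEL
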