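import Pool.Agent.N526.CP.Stm

/-!
# UDER: the derivatives of `U_θ` and of `H` (helper51)
-/

set_option autoImplicit false

open MeasureTheory Metric Set Filter Topology InnerProductGeometry Matrix

namespace Pool.Agent.N526.CP.UDER

open Pool.Agent.H241R3.FV

variable {n d : ℕ}

theorem cl_apply (A : Matrix (Fin n) (Fin n) ℝ) (v : E n) (i : Fin n) :
    (cl A v) i = ∑ j, A i j * v j := by
  unfold cl
  rw [Matrix.ofLp_toEuclideanCLM]
  rfl

theorem inner_sum (u v : E n) : inner ℝ u v = ∑ j, u j * v j := by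
  rw [PiLp.inner_apply]
  refine Finset.sum_congr rfl fun j _ => ?_
  rw [real_inner_eq_re_inner ℝ, RCLike.inner_apply]
  simp [mul_comm]

theorem norm_sph (θ : Sph n) : ‖(θ : E n)‖ = 1 := by simp

theorem ip_lt (X : E n) (hX : ‖X‖ < 1) (θ : Sph n) : 0 < 1 - ip X θ ^ 2 := by
  have h1 : |ip X θ| ≤ ‖X‖ * ‖(θ : E n)‖ := abs_real_inner_le_norm _ _
  rw [norm_sph, mul_one] at h1
  have h2 : |ip X θ| < 1 := h1.trans_lt hX
  have h3 : ip X θ ^ 2 < 1 := by
    rw [← sq_abs]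
    have := abs_nonneg (ip X θ)
    nlinarith
  linarith

theorem has_ip (X : E n) (θ : Sph n) :
    HasFDerivAt (fun Y : E n => ip Y θ) (innerSL ℝ (θ : E n)) X := by
  have h := (innerSL ℝ (θ : E n)).hasFDerivAt (x := X)
  refine h.congr_of_eventuallyEq (Filter.Eventually.of_forall fun Y => ?_)
  show inner ℝ Y (θ : E n) = inner ℝ (θ : E n) Y
  exact real_inner_comm _ _

/-- the derivative of `(√s)⁻¹` -/
theorem has_isqrt {s : ℝ} (hs : 0 < s) :
    HasDerivAt (fun s : ℝ => (√s)⁻¹) (-(1 / 2) * ((√s)⁻¹) ^ 3) s := by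
  have h0 : √s ≠ 0 := (Real.sqrt_pos.2 hs).ne'
  have h := (Real.hasDerivAt_sqrt hs.ne').inv h0
  refine h.congr_deriv ?_
  field_simp

theorem uder (X : E n) (hX : ‖X‖ < 1) (θ : Sph n) : HasFDerivAt (Uf θ) (cl (Vm X θ)) X := by
  have h0 := ip_lt X hX θ
  have h1 := has_ip X θ
  have h2 : HasFDerivAt (fun Y : E n => 1 - ip Y θ ^ 2)
      (-((2 * ip X θ) • innerSL ℝ (θ : E n))) X := by
    have h := (h1.pow 2).const_sub 1
    refine h.congr_fderiv ?_
    norm_num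
  have h3 := (has_isqrt h0).comp_hasFDerivAt X h2
  have h4 : HasFDerivAt (fun Y : E n => Y - ip Y θ • (θ : E n))
      (ContinuousLinearMap.id ℝ (E n) - (innerSL ℝ (θ : E n)).smulRight (θ : E n)) X :=
    (hasFDerivAt_id X).sub (h1.smul_const (θ : E n))
  have h5 := h3.smul h4
  refine h5.congr_fderiv ?_
  refine ContinuousLinearMap.ext fun v => ?_
  ext i
  rw [cl_apply]
  have e1 : inner ℝ (θ : E n) v = ∑ j, (θ : E n) j * v j := inner_sum _ _
  have e2 : ∑ j, Vm X θ i j * v j = (√(1 - ip X θ ^ 2))⁻¹ * (v i - (θ : E n) i * inner ℝ (θ : E n) v) +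
      (X i - ip X θ * (θ : E n) i) * ip X θ * ((√(1 - ip X θ ^ 2))⁻¹) ^ 3 *
        inner ℝ (θ : E n) v := by
    rw [e1]
    have e3 : ∀ j, Vm X θ i j * v j = (√(1 - ip X θ ^ 2))⁻¹ * ((if i = j then 1 else 0) * v j) -
        (√(1 - ip X θ ^ 2))⁻¹ * (θ : E n) i * ((θ : E n) j * v j) +
        (X i - ip X θ * (θ : E n) i) * ip X θ * ((√(1 - ip X θ ^ 2))⁻¹) ^ 3 *
          ((θ : E n) j * v j) := by
      intro j
      unfold Vm
      ring
    rw [Finset.sum_congr rfl fun j _ => e3 j, Finset.sum_add_distrib, Finset.sum_sub_distrib,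
      ← Finset.mul_sum, ← Finset.mul_sum, ← Finset.mul_sum]
    have e4 : ∑ j, (if i = j then (1 : ℝ) else 0) * v j = v i := by
      rw [Finset.sum_eq_single i]
      · rw [if_pos rfl, one_mul]
      · intro j _ hj
        rw [if_neg (Ne.symm hj), zero_mul]
      · intro h
        exact absurd (Finset.mem_univ i) h
    rw [e4]
    ring
  rw [e2]
  simp only [_root_.add_apply, _root_.smul_apply,
    _root_.sub_apply, _root_.neg_apply, ContinuousLinearMap.id_apply,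
    ContinuousLinearMap.smulRight_apply, innerSL_apply_apply, PiLp.add_apply, PiLp.smul_apply,
    PiLp.sub_apply, smul_eq_mul, Function.comp_apply]
  ring

/-! ### The function `H` -/

/-- the square of the radius of the section -/
noncomputable def A2 (X : E (d + 1)) : ℝ := 1 - ‖X‖ ^ 2 + X 0 ^ 2

theorem A2_pos (X : E (d + 1)) (hX : ‖X‖ < 1) : X 0 ^ 2 < A2 X := by
  unfold A2
  have h1 : ‖X‖ ^ 2 < 1 := by
    have := norm_nonneg X
    nlinarith
  linarith

theorem proj0 (v : E (d + 1)) :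
    (EuclideanSpace.proj (𝕜 := ℝ) (0 : Fin (d + 1)) : E (d + 1) →L[ℝ] ℝ) v = v 0 := rfl

theorem has_x0 (X : E (d + 1)) : HasFDerivAt (fun Y : E (d + 1) => Y 0)
    (EuclideanSpace.proj (𝕜 := ℝ) (0 : Fin (d + 1)) : E (d + 1) →L[ℝ] ℝ) X :=
  (EuclideanSpace.proj (𝕜 := ℝ) (0 : Fin (d + 1)) : E (d + 1) →L[ℝ] ℝ).hasFDerivAt

/-- the derivative of `A2` vanishes in the direction of the first coordinate -/
theorem has_A2 (X : E (d + 1)) : ∃ L : E (d + 1) →L[ℝ] ℝ, HasFDerivAt A2 L X ∧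
    L (EuclideanSpace.single 0 1) = 0 := by
  have h1 : HasFDerivAt (fun Y : E (d + 1) => ‖Y‖ ^ 2) (2 • innerSL ℝ X) X :=
    (hasStrictFDerivAt_norm_sq X).hasFDerivAt
  have h2 := (has_x0 X).pow 2
  have h3 := (h1.const_sub 1).add h2
  refine ⟨_, h3, ?_⟩
  simp only [_root_.add_apply, _root_.smul_apply,
    _root_.neg_apply, innerSL_apply_apply, smul_eq_mul, proj0]
  rw [EuclideanSpace.inner_single_right]
  simp

theorem has_f (X : E (d + 1)) (hX : ‖X‖ < 1) : ∃ L : E (d + 1) →L[ℝ] ℝ,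
    HasFDerivAt (fun Y : E (d + 1) => Real.arcsin (Y 0 / √(1 - ‖Y‖ ^ 2 + Y 0 ^ 2))) L X ∧
    L (EuclideanSpace.single 0 1) = (√(1 - ‖X‖ ^ 2))⁻¹ := by
  have hA := A2_pos X hX
  have hA0 : 0 < A2 X := (sq_nonneg _).trans_lt hA
  have hs : 0 < √(A2 X) := Real.sqrt_pos.2 hA0
  obtain ⟨L, hL, hL0⟩ := has_A2 X
  have h1 := (has_isqrt hA0).comp_hasFDerivAt X hL
  have h2 := (has_x0 X).mul h1
  have hlt : |X 0 * (√(A2 X))⁻¹| < 1 := by
    rw [abs_mul, abs_of_pos (inv_pos.2 hs), ← div_eq_mul_inv, div_lt_one hs]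
    exact Real.lt_sqrt_of_sq_lt (by rwa [sq_abs])
  obtain ⟨g1, g2⟩ := abs_lt.1 hlt
  have h3 := (Real.hasDerivAt_arcsin (x := X 0 * (√(A2 X))⁻¹) g1.ne' g2.ne).comp_hasFDerivAt X h2
  refine ⟨_, h3.congr_of_eventuallyEq (Filter.Eventually.of_forall fun Y => ?_), ?_⟩
  · show Real.arcsin (Y 0 / √(A2 Y)) = Real.arcsin (Y 0 * (√(A2 Y))⁻¹)
    rw [div_eq_mul_inv]
  · simp only [_root_.add_apply, _root_.smul_apply, hL0, smul_eq_mul,
      mul_zero, zero_add, proj0]
    rw [PiLp.single_apply, if_pos rfl, mul_one, one_div]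
    show (√(1 - (X 0 * (√(A2 X))⁻¹) ^ 2))⁻¹ * (√(A2 X))⁻¹ = _
    rw [← mul_inv]
    congr 1
    show √(1 - (X 0 * (√(A2 X))⁻¹) ^ 2) * √(A2 X) = _
    rw [← Real.sqrt_mul]
    · congr 1
      rw [mul_pow, inv_pow, Real.sq_sqrt hA0.le]
      field_simp
      unfold A2
      ring
    · have := hlt
      rw [← sq_abs]
      have h4 := abs_nonneg (X 0 * (√(A2 X))⁻¹)
      nlinarith

theorem det_row (w : Fin (d + 1) → ℝ) (M : Matrix (Fin (d + 1)) (Fin (d + 1)) ℝ)
    (hM : ∀ i j, M i j = (if i = j then 1 else 0) + (if i = 0 then w j else 0)) :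
    M.det = 1 + w 0 := by
  rw [Matrix.det_of_isUpperTriangular]
  · rw [Fin.prod_univ_succ]
    rw [hM, if_pos rfl, if_pos rfl]
    rw [Finset.prod_eq_one, mul_one]
    intro i _
    rw [hM, if_pos rfl, if_neg (Fin.succ_ne_zero i), add_zero]
  · intro i j hij
    have hij' : j < i := hij
    rw [hM, if_neg hij'.ne', if_neg (Fin.ne_zero_of_lt hij'), add_zero]

theorem hder (X : E (d + 1)) (hX : ‖X‖ < 1) :
    ∃ T : E (d + 1) →L[ℝ] E (d + 1), HasFDerivAt Hf T X ∧ T.det = (√(1 - ‖X‖ ^ 2))⁻¹ := by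
  obtain ⟨L, hL, hL0⟩ := has_f X hX
  have h1 := (hasFDerivAt_id X).add ((hL.sub (has_x0 X)).smul_const
    (EuclideanSpace.single (0 : Fin (d + 1)) (1 : ℝ)))
  refine ⟨_, h1, ?_⟩
  rw [det_mat, det_row (fun j => L (EuclideanSpace.single j 1) - (if (0 : Fin (d + 1)) = j then 1 else 0))]
  · rw [if_pos rfl, hL0]
    ring
  · intro i j
    unfold mat
    simp only [_root_.add_apply, ContinuousLinearMap.id_apply,
      ContinuousLinearMap.smulRight_apply, _root_.sub_apply,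
      proj0, PiLp.add_apply, PiLp.smul_apply, smul_eq_mul,
      PiLp.single_apply]
    by_cases h : i = 0
    · rw [if_pos h, if_pos h, mul_one]
    · rw [if_neg h, if_neg h, mul_zero]

theorem t : S_UDER := fun _ _ X hX => ⟨fun θ => uder X hX θ, hder X hX⟩

end Pool.Agent.N526.CP.UDER
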