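import Pool.Agent.N526.CP.Stm
import Pool.Agent.H241R3.FV.TLoc

/-!
# Maps with one component vanishing at the boundary have integral zero (PROJECT CPN, part VAN)
-/

set_option autoImplicit false

open MeasureTheory Metric Set Filter Topology InnerProductGeometry Matrix

namespace Pool.Agent.N526.CP.VAN

open Pool.Agent.H241R3.FV Pool.Agent.N526.CP

/-! ### Charts -/

lemma loc_lip {n : ℕ} {M : Type} [MetricSpace M] (C : RChart n M) {F : Type}
    [NormedAddCommGroup F] {K : NNReal} {w : M → F} (hw : LipschitzWith K w) :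
    ∀ p ∈ C.U, ∃ r : ℝ, 0 < r ∧ ball p r ⊆ C.U ∧ ∃ L : NNReal,
      LipschitzOnWith L (w ∘ C.map) (ball p r) := by
  intro p hp
  obtain ⟨r, hr, hb, h⟩ := TLoc.taskLoc n M C p hp 1 one_pos
  set A : ℝ := √(∑ i, ∑ j, |C.G p i j|) with hA
  have hA0 : 0 ≤ A := Real.sqrt_nonneg _
  refine ⟨r, hr, hb, K * (A + 1).toNNReal, ?_⟩
  refine LipschitzOnWith.of_dist_le_mul fun y hy z hz => ?_
  have h1 := h y hy z hz
  have h2 : gnorm (C.G p) (y - z) ≤ A * ‖y - z‖ := Pool.Agent.H241R3.FV.gnorm_le _ _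
  calc dist ((w ∘ C.map) y) ((w ∘ C.map) z) ≤ K * dist (C.map y) (C.map z) := hw.dist_le_mul _ _
    _ ≤ K * ((A + 1) * ‖y - z‖) := by
        gcongr
        linarith
    _ = ((K * (A + 1).toNNReal : NNReal) : ℝ) * dist y z := by
        rw [dist_eq_norm, NNReal.coe_mul, Real.coe_toNNReal (A + 1) (by positivity), mul_assoc]

lemma ae_diff {n : ℕ} {M : Type} [MetricSpace M] (C : RChart n M) {F : Type}
    [NormedAddCommGroup F] [NormedSpace ℝ F] [FiniteDimensional ℝ F] {K : NNReal} {w : M → F}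
    (hw : LipschitzWith K w) : ∀ᵐ p ∂(volume : Measure (E n)), p ∈ C.U →
      DifferentiableAt ℝ (w ∘ C.map) p := by
  have h := loc_lip C hw
  choose! r hr hb L hL using h
  obtain ⟨t, htU, htc, ht⟩ := TopologicalSpace.countable_cover_nhdsWithin
    (f := fun p => ball p (r p)) (s := C.U)
    (fun p hp => mem_nhdsWithin_of_mem_nhds (ball_mem_nhds p (hr p hp)))
  have h1 : ∀ q ∈ t, ∀ᵐ p ∂(volume : Measure (E n)), p ∈ ball q (r q) →
      DifferentiableAt ℝ (w ∘ C.map) p := by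
    intro q hq
    filter_upwards [(hL q (htU hq)).ae_differentiableWithinAt_of_mem
      (μ := (volume : Measure (E n)))] with p hp hpm
    exact (hp hpm).differentiableAt (isOpen_ball.mem_nhds hpm)
  have h2 := (ae_ball_iff htc).2 h1
  filter_upwards [h2] with p hp hpU
  obtain ⟨q, hq, hpq⟩ := mem_iUnion₂.1 (ht hpU)
  exact hp q hq hpq

lemma cont_comp {n : ℕ} {M : Type} [MetricSpace M] (C : RChart n M) {F : Type}
    [NormedAddCommGroup F] {K : NNReal} {w : M → F} (hw : LipschitzWith K w) :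
    ContinuousOn (w ∘ C.map) C.U := by
  intro p hp
  obtain ⟨r, hr, -, L, hL⟩ := loc_lip C hw p hp
  exact (hL.continuousOn.continuousAt (ball_mem_nhds p hr)).continuousWithinAt

/-- the derivative of a function vanishes almost everywhere on a level set -/
lemma ae_level {n : ℕ} (U : Set (E n)) (hU : IsOpen U) (k : Fin n) {ψ : E n → ℝ}
    (hc : ContinuousOn ψ U)
    (hdiff : ∀ᵐ p ∂(volume : Measure (E n)), p ∈ U → DifferentiableAt ℝ ψ p) :
    ∀ᵐ p ∂(volume : Measure (E n)), p ∈ U → ψ p = 0 → fderiv ℝ ψ p = 0 := by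
  have h1 : MeasurableSet {p | p ∈ U ∧ ψ p = 0} := by
    have h2 : {p | p ∈ U ∧ ψ p = 0} = U \ (U ∩ ψ ⁻¹' {0}ᶜ) := by
      ext p
      constructor
      · rintro ⟨hp, h0⟩
        exact ⟨hp, fun h => h.2 h0⟩
      · rintro ⟨hp, h⟩
        refine ⟨hp, ?_⟩
        by_contra h0
        exact h ⟨hp, h0⟩
    rw [h2]
    exact hU.measurableSet.diff
      (hc.isOpen_inter_preimage hU isOpen_compl_singleton).measurableSet
  have hs : MeasurableSet ({p | p ∈ U ∧ ψ p = 0} ∩ {p | DifferentiableAt ℝ ψ p}) :=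
    h1.inter (measurableSet_of_differentiableAt ℝ ψ)
  set s : Set (E n) := {p | p ∈ U ∧ ψ p = 0} ∩ {p | DifferentiableAt ℝ ψ p} with hsdef
  have happ : ApproximatesLinearOn (fun y => ψ y • (EuclideanSpace.single k 1 : E n))
      (0 : E n →L[ℝ] E n) s 0 := by
    intro x hx y hy
    have hx0 : ψ x = 0 := hx.1.2
    have hy0 : ψ y = 0 := hy.1.2
    simp [hx0, hy0]
  have h3 := happ.norm_fderiv_sub_le (μ := (volume : Measure (E n))) hs
    (fun x => (fderiv ℝ ψ x).smulRight (EuclideanSpace.single k 1 : E n)) (by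
      intro x hx
      have hd : DifferentiableAt ℝ ψ x := hx.2
      exact (hd.hasFDerivAt.smul_const _).hasFDerivWithinAt)
  rw [ae_restrict_iff' hs] at h3
  filter_upwards [h3, hdiff] with p hp hpd hpU hp0
  have h4 := hp ⟨⟨hpU, hp0⟩, hpd hpU⟩
  rw [sub_zero, nonpos_iff_eq_zero, nnnorm_eq_zero] at h4
  ext v
  have h5 := congrArg (fun T : E n →L[ℝ] E n => T v k) h4
  simpa using h5

/-! ### Replacing a component -/

/-- replace the component `k` by `φ` -/
noncomputable def up {n : ℕ} {M : Type} (v : M → E n) (k : Fin n) (φ : M → ℝ) (q : M) : E n :=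
  v q + (φ q - v q k) • EuclideanSpace.single k 1

lemma up_apply_self {n : ℕ} {M : Type} (v : M → E n) (k : Fin n) (φ : M → ℝ) (q : M) :
    up v k φ q k = φ q := by
  simp [up]

lemma up_self {n : ℕ} {M : Type} (v : M → E n) (k : Fin n) : up v k (fun q => v q k) = v := by
  funext q
  simp [up]

lemma lip_coord {n : ℕ} {M : Type} [MetricSpace M] {v : M → E n} {K : NNReal}
    (hv : LipschitzWith K v) (k : Fin n) : LipschitzWith K fun q => v q k := by
  refine LipschitzWith.of_dist_le_mul fun q q' => ?_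
  refine le_trans ?_ (hv.dist_le_mul q q')
  rw [dist_eq_norm, dist_eq_norm]
  have := PiLp.norm_apply_le (v q - v q') k
  simpa using this

/-- Lipschitz functions -/
def Lip {M : Type} [MetricSpace M] (φ : M → ℝ) : Prop := ∃ L : NNReal, LipschitzWith L φ

lemma up_lip {n : ℕ} {M : Type} [MetricSpace M] {v : M → E n} {K : NNReal}
    (hv : LipschitzWith K v) (k : Fin n) {φ : M → ℝ} (hφ : Lip φ) :
    ∃ L : NNReal, LipschitzWith L (up v k φ) := by
  obtain ⟨L, hL⟩ := hφ
  refine ⟨K + (L + K), ?_⟩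
  refine hv.add ?_
  refine LipschitzWith.of_dist_le_mul fun q q' => ?_
  have h1 := (hL.sub (lip_coord hv k)).dist_le_mul q q'
  rw [dist_eq_norm, ← sub_smul, norm_smul, PiLp.norm_single, norm_one, mul_one]
  rw [dist_eq_norm] at h1
  exact h1

lemma det_up {n : ℕ} {M : Type} (c : E n → M) (v : M → E n) (k : Fin n) (φ : M → ℝ) (p : E n)
    (hv : DifferentiableAt ℝ (v ∘ c) p) (hφ : DifferentiableAt ℝ (φ ∘ c) p) :
    (fderiv ℝ (up v k φ ∘ c) p).det = ((mat (fderiv ℝ (v ∘ c) p)).updateRow k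
      (fun j => fderiv ℝ (φ ∘ c) p (EuclideanSpace.single j 1))).det := by
  have h1 : HasFDerivAt (up v k φ ∘ c) (fderiv ℝ (v ∘ c) p +
      (fderiv ℝ (φ ∘ c) p - (EuclideanSpace.proj k : E n →L[ℝ] ℝ).comp
        (fderiv ℝ (v ∘ c) p)).smulRight (EuclideanSpace.single k 1 : E n)) p := by
    have h2 : HasFDerivAt (fun q => v (c q) k) ((EuclideanSpace.proj k : E n →L[ℝ] ℝ).comp
        (fderiv ℝ (v ∘ c) p)) p :=
      (EuclideanSpace.proj k : E n →L[ℝ] ℝ).hasFDerivAt.comp p hv.hasFDerivAt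
    exact hv.hasFDerivAt.add ((hφ.hasFDerivAt.sub h2).smul_const _)
  rw [h1.fderiv, det_mat]
  congr 1
  ext i j
  rw [updateRow_apply]
  unfold mat
  by_cases hi : i = k
  · subst hi
    simp
  · simp [hi]

/-! ### Truncation -/

/-- truncation -/
noncomputable def tr (δ t : ℝ) : ℝ := t - max (-δ) (min δ t)

lemma tr_lip (δ : ℝ) (hδ : 0 ≤ δ) (s t : ℝ) : |tr δ s - tr δ t| ≤ |s - t| := by
  unfold tr
  rcases le_total t s with h | h
  · rw [abs_of_nonneg (sub_nonneg.2 h)]
    rcases max_cases (-δ) (min δ s) with ⟨h1, h1'⟩ | ⟨h1, h1'⟩ <;>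
    rcases max_cases (-δ) (min δ t) with ⟨h2, h2'⟩ | ⟨h2, h2'⟩ <;>
    rcases min_cases δ s with ⟨h3, h3'⟩ | ⟨h3, h3'⟩ <;>
    rcases min_cases δ t with ⟨h4, h4'⟩ | ⟨h4, h4'⟩ <;>
    rw [abs_le] <;> constructor <;> linarith
  · rw [abs_of_nonpos (sub_nonpos.2 h)]
    rcases max_cases (-δ) (min δ s) with ⟨h1, h1'⟩ | ⟨h1, h1'⟩ <;>
    rcases max_cases (-δ) (min δ t) with ⟨h2, h2'⟩ | ⟨h2, h2'⟩ <;>
    rcases min_cases δ s with ⟨h3, h3'⟩ | ⟨h3, h3'⟩ <;>
    rcases min_cases δ t with ⟨h4, h4'⟩ | ⟨h4, h4'⟩ <;>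
    rw [abs_le] <;> constructor <;> linarith

lemma tr_zero {δ t : ℝ} (h : |t| ≤ δ) : tr δ t = 0 := by
  rw [abs_le] at h
  unfold tr
  rw [min_eq_right h.2, max_eq_right h.1, sub_self]

lemma tr_pos {δ t : ℝ} (hδ : 0 ≤ δ) (h : δ ≤ t) : tr δ t = t - δ := by
  unfold tr
  rw [min_eq_left h, max_eq_right (by linarith)]

lemma tr_neg {δ t : ℝ} (hδ : 0 ≤ δ) (h : t ≤ -δ) : tr δ t = t + δ := by
  unfold tr
  rw [min_eq_right (by linarith), max_eq_left h, sub_neg_eq_add]

lemma fd_lt {n : ℕ} {ψ : E n → ℝ} {p : E n} {δ : ℝ} (hψ : ContinuousAt ψ p) (h : |ψ p| < δ) :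
    fderiv ℝ (fun y => tr δ (ψ y)) p = 0 := by
  have h1 : (fun y => tr δ (ψ y)) =ᶠ[𝓝 p] fun _ => 0 := by
    filter_upwards [hψ.abs.eventually_lt continuousAt_const h] with y hy
    exact tr_zero hy.le
  rw [h1.fderiv_eq]
  exact fderiv_const_apply _

lemma fd_gt {n : ℕ} {ψ : E n → ℝ} {p : E n} {δ : ℝ} (hδ : 0 ≤ δ) (hψ : ContinuousAt ψ p)
    (h : δ < |ψ p|) : fderiv ℝ (fun y => tr δ (ψ y)) p = fderiv ℝ ψ p := by
  rcases lt_abs.1 h with h0 | h0
  · have h1 : (fun y => tr δ (ψ y)) =ᶠ[𝓝 p] fun y => ψ y - δ := by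
      filter_upwards [continuousAt_const.eventually_lt hψ h0] with y hy
      exact tr_pos hδ hy.le
    rw [h1.fderiv_eq, fderiv_sub_const]
  · have h1 : (fun y => tr δ (ψ y)) =ᶠ[𝓝 p] fun y => ψ y + δ := by
      filter_upwards [continuousAt_const.eventually_lt hψ.neg h0] with y hy
      have hy' : δ < -ψ y := hy
      exact tr_neg hδ (by linarith)
    rw [h1.fderiv_eq, fderiv_add_const]

lemma fd_eq {n : ℕ} {ψ : E n → ℝ} {p : E n} {δ : ℝ} (hδ : 0 < δ) (hψ : ContinuousAt ψ p)
    (h : |ψ p| = δ) : fderiv ℝ (fun y => tr δ (ψ y)) p = 0 := by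
  have hp0 : tr δ (ψ p) = 0 := tr_zero h.le
  rcases (abs_eq hδ.le).1 h with h0 | h0
  · have hmin : IsLocalMin (fun y => tr δ (ψ y)) p := by
      have h1 : -δ < ψ p := by rw [h0]; linarith
      filter_upwards [continuousAt_const.eventually_lt hψ h1] with y hy
      rw [hp0]
      unfold tr
      rcases max_cases (-δ) (min δ (ψ y)) with ⟨h2, h2'⟩ | ⟨h2, h2'⟩
      · rw [h2]; linarith
      · rw [h2]
        linarith [min_le_right δ (ψ y)]
    exact hmin.fderiv_eq_zero
  · have hmax : IsLocalMax (fun y => tr δ (ψ y)) p := by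
      have h1 : ψ p < δ := by rw [h0]; linarith
      filter_upwards [hψ.eventually_lt continuousAt_const h1] with y hy
      rw [hp0]
      unfold tr
      rw [min_eq_right hy.le]
      linarith [le_max_right (-δ) (ψ y)]
    exact hmax.fderiv_eq_zero

/-! ### Lipschitz functions on a compact space -/

section lip

variable {M : Type} [MetricSpace M]

lemma Lip.add {f g : M → ℝ} (hf : Lip f) (hg : Lip g) : Lip fun q => f q + g q := by
  obtain ⟨K, hK⟩ := hf
  obtain ⟨L, hL⟩ := hg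
  exact ⟨K + L, hK.add hL⟩

lemma Lip.zero : Lip fun _ : M => (0 : ℝ) := ⟨0, LipschitzWith.const 0⟩

lemma Lip.sum {ι : Type} (t : Finset ι) (f : ι → M → ℝ) (hf : ∀ i ∈ t, Lip (f i)) :
    Lip fun q => ∑ i ∈ t, f i q := by
  classical
  induction t using Finset.induction_on with
  | empty => simpa using Lip.zero
  | insert a t ha ih =>
    simp only [Finset.sum_insert ha]
    exact (hf a (Finset.mem_insert_self _ _)).add
      (ih fun i hi => hf i (Finset.mem_insert_of_mem hi))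

lemma Lip.of_le {f : M → ℝ} {A : ℝ} (h : ∀ q q', |f q - f q'| ≤ A * dist q q') : Lip f := by
  refine ⟨A.toNNReal, LipschitzWith.of_dist_le_mul fun q q' => ?_⟩
  rw [Real.dist_eq]
  refine (h q q').trans ?_
  gcongr
  exact Real.le_coe_toNNReal A

lemma Lip.le {f : M → ℝ} (hf : Lip f) : ∃ A : ℝ, 0 ≤ A ∧ ∀ q q', |f q - f q'| ≤ A * dist q q' := by
  obtain ⟨K, hK⟩ := hf
  refine ⟨K, K.2, fun q q' => ?_⟩
  have := hK.dist_le_mul q q'
  rwa [Real.dist_eq] at this

lemma Lip.cont {f : M → ℝ} (hf : Lip f) : Continuous f := by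
  obtain ⟨K, hK⟩ := hf
  exact hK.continuous

lemma Lip.bdd [CompactSpace M] {f : M → ℝ} (hf : Lip f) : ∃ A : ℝ, 0 ≤ A ∧ ∀ q, |f q| ≤ A := by
  obtain ⟨A, hA⟩ := isCompact_univ.exists_bound_of_continuousOn hf.cont.continuousOn
  refine ⟨max A 0, le_max_right _ _, fun q => ?_⟩
  exact (hA q (mem_univ q)).trans (le_max_left _ _)

lemma Lip.mul [CompactSpace M] {f g : M → ℝ} (hf : Lip f) (hg : Lip g) :
    Lip fun q => f q * g q := by
  obtain ⟨A, hA0, hA⟩ := hf.bdd
  obtain ⟨A', hA0', hA'⟩ := hg.bdd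
  obtain ⟨K, hK0, hK⟩ := hf.le
  obtain ⟨L, hL0, hL⟩ := hg.le
  refine Lip.of_le (A := A * L + A' * K) fun q q' => ?_
  have e : f q * g q - f q' * g q' = f q * (g q - g q') + g q' * (f q - f q') := by ring
  rw [e]
  calc |f q * (g q - g q') + g q' * (f q - f q')|
      ≤ |f q| * |g q - g q'| + |g q'| * |f q - f q'| := by
        rw [← abs_mul, ← abs_mul]
        exact abs_add_le _ _
    _ ≤ A * (L * dist q q') + A' * (K * dist q q') :=
        add_le_add (mul_le_mul (hA q) (hL q q') (abs_nonneg _) hA0)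
          (mul_le_mul (hA' q') (hK q q') (abs_nonneg _) hA0')
    _ = (A * L + A' * K) * dist q q' := by ring

lemma Lip.inv {f : M → ℝ} (hf : Lip f) {η : ℝ} (hη : 0 < η) (h : ∀ q, η ≤ f q) :
    Lip fun q => (f q)⁻¹ := by
  obtain ⟨K, hK0, hK⟩ := hf.le
  refine Lip.of_le (A := K / η ^ 2) fun q q' => ?_
  have h1 : 0 < f q := lt_of_lt_of_le hη (h q)
  have h2 : 0 < f q' := lt_of_lt_of_le hη (h q')
  have e : (f q)⁻¹ - (f q')⁻¹ = (f q' - f q) / (f q * f q') := by
    field_simp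
  rw [e, abs_div, abs_of_pos (mul_pos h1 h2), abs_sub_comm]
  have h3 : η ^ 2 ≤ f q * f q' := by
    rw [sq]
    exact mul_le_mul (h q) (h q') hη.le h1.le
  calc |f q - f q'| / (f q * f q') ≤ (K * dist q q') / η ^ 2 :=
        div_le_div₀ (by positivity) (hK q q') (by positivity) h3
    _ = K / η ^ 2 * dist q q' := by ring

lemma Lip.max {f : M → ℝ} (hf : Lip f) (a : ℝ) : Lip fun q => max (f q) a := by
  obtain ⟨K, hK0, hK⟩ := hf.le
  refine Lip.of_le (A := K) fun q q' => ?_
  refine le_trans ?_ (hK q q')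
  have := abs_max_sub_max_le_abs (f q) (f q') a
  exact this

lemma exists_min (t : Finset M) (r : M → ℝ) (h : ∀ x ∈ t, 0 < r x) :
    ∃ η : ℝ, 0 < η ∧ ∀ x ∈ t, η ≤ r x := by
  classical
  induction t using Finset.induction_on with
  | empty => exact ⟨1, one_pos, by simp⟩
  | insert a t ha ih =>
    obtain ⟨η, hη, h1⟩ := ih fun x hx => h x (Finset.mem_insert_of_mem hx)
    refine ⟨min η (r a), lt_min hη (h a (Finset.mem_insert_self _ _)), fun x hx => ?_⟩
    rcases Finset.mem_insert.1 hx with rfl | hx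
    · exact min_le_right _ _
    · exact (min_le_left _ _).trans (h1 x hx)

end lip

/-! ### The functional -/

section main

variable {n : ℕ} {M : Type} [MetricSpace M] [CompactSpace M]

lemma J_add (hC : S_CHA) (hn : 1 ≤ n) (S : OFill n M) (hS : S.vol < ⊤) {K : NNReal} {v : M → E n}
    (hv : LipschitzWith K v) (k : Fin n) {φ ψ : M → ℝ} (hφ : Lip φ) (hψ : Lip ψ) :
    jint S (up v k fun q => φ q + ψ q) = jint S (up v k φ) + jint S (up v k ψ) := by
  obtain ⟨L1, hL1⟩ := up_lip hv k hφ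
  obtain ⟨L2, hL2⟩ := up_lip hv k hψ
  have h1 := (hC n hn M S hS L1 _ hL1).1
  have h2 := (hC n hn M S hS L2 _ hL2).1
  unfold jint
  rw [← Finset.sum_add_distrib]
  refine Finset.sum_congr rfl fun i _ => ?_
  rw [← integral_add (h1 i) (h2 i)]
  refine integral_congr_ae ?_
  rw [Filter.EventuallyEq, ae_restrict_iff' (S.chart i).meas_D]
  obtain ⟨L3, hL3⟩ := hφ
  obtain ⟨L4, hL4⟩ := hψ
  filter_upwards [ae_diff (S.chart i) hv, ae_diff (S.chart i) hL3, ae_diff (S.chart i) hL4]
    with p hp1 hp2 hp3 hpD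
  have hpU := (S.chart i).D_sub hpD
  have e1 := det_up (S.chart i).map v k φ p (hp1 hpU) (hp2 hpU)
  have e2 := det_up (S.chart i).map v k ψ p (hp1 hpU) (hp3 hpU)
  have e3 := det_up (S.chart i).map v k (fun q => φ q + ψ q) p (hp1 hpU)
    ((hp2 hpU).add (hp3 hpU))
  have e4 : fderiv ℝ ((fun q => φ q + ψ q) ∘ (S.chart i).map) p =
      fderiv ℝ (φ ∘ (S.chart i).map) p + fderiv ℝ (ψ ∘ (S.chart i).map) p :=
    fderiv_add (hp2 hpU) (hp3 hpU)
  rw [e1, e2, e3, e4, ← det_updateRow_add]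
  rfl

lemma J_sum (hC : S_CHA) (hn : 1 ≤ n) (S : OFill n M) (hS : S.vol < ⊤) {K : NNReal} {v : M → E n}
    (hv : LipschitzWith K v) (k : Fin n) {ι : Type} (t : Finset ι) (f : ι → M → ℝ)
    (hf : ∀ i ∈ t, Lip (f i)) (h0 : ∀ i ∈ t, jint S (up v k (f i)) = 0) :
    jint S (up v k fun q => ∑ i ∈ t, f i q) = 0 := by
  classical
  induction t using Finset.induction_on with
  | empty =>
    simp only [Finset.sum_empty]
    have h := J_add hC hn S hS hv k (φ := fun _ => 0) (ψ := fun _ => 0) Lip.zero Lip.zero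
    simp only [add_zero] at h
    linarith
  | insert a t ha ih =>
    simp only [Finset.sum_insert ha]
    rw [J_add hC hn S hS hv k (hf a (Finset.mem_insert_self _ _))
      (Lip.sum t f fun i hi => hf i (Finset.mem_insert_of_mem hi)),
      h0 a (Finset.mem_insert_self _ _),
      ih (fun i hi => hf i (Finset.mem_insert_of_mem hi))
        (fun i hi => h0 i (Finset.mem_insert_of_mem hi)), add_zero]

/-- functions which vanish near the boundary -/
lemma J_trunc (hC : S_CHA) (hL : S_LOC) (hn : 1 ≤ n) (S : OFill n M) (hS : S.vol < ⊤)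
    {K : NNReal} {v : M → E n} (hv : LipschitzWith K v) (k : Fin n)
    (hbd : ∀ x, v (S.bd x) k = 0) (δ : ℝ) (hδ : 0 < δ) :
    jint S (up v k fun q => tr δ (v q k)) = 0 := by
  have hφc : Continuous fun q => v q k := (lip_coord hv k).continuous
  have hτ : Lip fun q => tr δ (v q k) := by
    refine Lip.of_le (A := K) fun q q' => ?_
    refine (tr_lip δ hδ.le _ _).trans ?_
    have := (lip_coord hv k).dist_le_mul q q'
    rwa [Real.dist_eq] at this
  have hCc : IsCompact {q : M | δ ≤ |v q k|} :=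
    (isClosed_le continuous_const hφc.abs).isCompact
  have hcov : ∀ q ∈ {q : M | δ ≤ |v q k|}, ∃ r : ℝ, 0 < r ∧ ∃ i,
      closedBall q (2 * r) ⊆ (S.chart i).map '' (S.chart i).U := by
    intro q hq
    rcases S.cover q with ⟨x, rfl⟩ | ⟨i, p, hp, rfl⟩
    · exfalso
      rw [Set.mem_ofPred_eq, hbd, abs_zero] at hq
      linarith
    · have ho : IsOpen ((S.chart i).map '' (S.chart i).U) :=
        S.open_map i _ subset_rfl (S.chart i).isOpen_U
      obtain ⟨ε, hε, hb⟩ := Metric.isOpen_iff.1 ho _ ⟨p, (S.chart i).D_sub hp, rfl⟩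
      refine ⟨ε / 3, by positivity, i, (closedBall_subset_ball ?_).trans hb⟩
      linarith
  choose! r hr0 hri using hcov
  obtain ⟨t, htC, htcov⟩ := hCc.elim_nhds_subcover (fun q => ball q (r q))
    (fun q hq => ball_mem_nhds q (hr0 q hq))
  obtain ⟨η, hη, hηr⟩ := exists_min t r fun x hx => hr0 x (htC x hx)
  set b : M → M → ℝ := fun x q => max (2 * r x - dist q x) 0 with hb
  have hbL : ∀ x, Lip (b x) := by
    intro x
    refine Lip.max ?_ 0
    refine Lip.of_le (A := 1) fun q q' => ?_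
    rw [one_mul, show 2 * r x - dist q x - (2 * r x - dist q' x) = dist q' x - dist q x by ring,
      abs_sub_comm]
    exact abs_dist_sub_le q q' x
  have hb0 : ∀ x q, 0 ≤ b x q := fun x q => le_max_right _ _
  set B : M → ℝ := fun q => max (∑ x ∈ t, b x q) η with hB
  have hBL : Lip B := (Lip.sum t b fun x _ => hbL x).max η
  have hBη : ∀ q, η ≤ B q := fun q => le_max_right _ _
  have hBi : Lip fun q => (B q)⁻¹ := hBL.inv hη hBη
  have hsum : (fun q => tr δ (v q k)) =
      fun q => ∑ x ∈ t, b x q * (B q)⁻¹ * tr δ (v q k) := by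
    funext q
    rw [← Finset.sum_mul, ← Finset.sum_mul]
    by_cases hq : δ ≤ |v q k|
    · obtain ⟨x, hx, hqx⟩ := mem_iUnion₂.1 (htcov hq)
      have h1 : η ≤ ∑ x ∈ t, b x q := by
        refine le_trans ?_ (Finset.single_le_sum (fun y _ => hb0 y q) hx)
        rw [mem_ball] at hqx
        refine le_trans ?_ (le_max_left _ _)
        have := hηr x hx
        linarith
      have h2 : B q = ∑ x ∈ t, b x q := max_eq_left h1
      rw [← h2, mul_inv_cancel₀ (lt_of_lt_of_le hη (hBη q)).ne', one_mul]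
    · rw [tr_zero (not_le.1 hq).le, mul_zero]
  rw [hsum]
  refine J_sum hC hn S hS hv k t (fun x q => b x q * (B q)⁻¹ * tr δ (v q k))
    (fun x _ => ((hbL x).mul hBi).mul hτ) fun x hx => ?_
  obtain ⟨i, hi⟩ := hri x (htC x hx)
  obtain ⟨L, hLip⟩ := up_lip hv k (((hbL x).mul hBi).mul hτ)
  refine hL n hn M S hS L _ hLip k i (closedBall x (2 * r x)) isClosed_closedBall.isCompact hi ?_
  intro q hq
  rw [up_apply_self]
  have : b x q = 0 := by
    rw [mem_closedBall, not_le] at hq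
    exact max_eq_right (by linarith)
  rw [this, zero_mul, zero_mul]

theorem t : S_CHA → S_LOC → S_VAN := by
  intro hC hL n hn M _ _ S hS K v hv k hbd
  have hδ : ∀ m : ℕ, (0 : ℝ) < 1 / ((m : ℝ) + 1) := fun m => by positivity
  have hφL := lip_coord hv k
  have hτ : ∀ m : ℕ, LipschitzWith K fun q => tr (1 / ((m : ℝ) + 1)) (v q k) := by
    intro m
    refine LipschitzWith.of_dist_le_mul fun q q' => ?_
    rw [Real.dist_eq]
    refine (tr_lip _ (hδ m).le _ _).trans ?_
    have := hφL.dist_le_mul q q'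
    rwa [Real.dist_eq] at this
  have hlim : Tendsto (fun m : ℕ => jint S (up v k fun q => tr (1 / ((m : ℝ) + 1)) (v q k))) atTop
      (𝓝 (jint S v)) := by
    unfold jint
    refine tendsto_finsetSum _ fun i _ => ?_
    have hint := (hC n hn M S hS K v hv).1 i
    have hUo := (S.chart i).isOpen_U
    have hlev := ae_level (S.chart i).U hUo k (cont_comp (S.chart i) hφL)
      (ae_diff (S.chart i) hφL)
    have hall : ∀ᵐ p ∂(volume : Measure (E n)), ∀ m : ℕ, p ∈ (S.chart i).U →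
        DifferentiableAt ℝ ((fun q => tr (1 / ((m : ℝ) + 1)) (v q k)) ∘ (S.chart i).map) p :=
      ae_all_iff.2 fun m => ae_diff (S.chart i) (hτ m)
    -- the determinants
    have hrow : ∀ p, DifferentiableAt ℝ (v ∘ (S.chart i).map) p →
        (mat (fderiv ℝ (v ∘ (S.chart i).map) p)).updateRow k
          (fun j => fderiv ℝ ((fun q => v q k) ∘ (S.chart i).map) p
            (EuclideanSpace.single j 1)) = mat (fderiv ℝ (v ∘ (S.chart i).map) p) := by
      intro p hp
      have h2 : HasFDerivAt ((fun q => v q k) ∘ (S.chart i).map)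
          ((EuclideanSpace.proj k : E n →L[ℝ] ℝ).comp (fderiv ℝ (v ∘ (S.chart i).map) p)) p :=
        (EuclideanSpace.proj k : E n →L[ℝ] ℝ).hasFDerivAt.comp p hp.hasFDerivAt
      rw [h2.fderiv]
      ext a b
      rw [updateRow_apply]
      by_cases ha : a = k
      · subst ha
        simp [mat]
      · simp [ha]
    have hzero : ∀ (A : Matrix (Fin n) (Fin n) ℝ), (A.updateRow k fun j =>
        (0 : E n →L[ℝ] ℝ) (EuclideanSpace.single j 1)).det = 0 := by
      intro A
      refine det_eq_zero_of_row_eq_zero k fun j => ?_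
      rw [updateRow_self]
      rfl
    have hkey : ∀ p ∈ (S.chart i).U, DifferentiableAt ℝ (v ∘ (S.chart i).map) p →
        (∀ m : ℕ, DifferentiableAt ℝ
          ((fun q => tr (1 / ((m : ℝ) + 1)) (v q k)) ∘ (S.chart i).map) p) → ∀ m : ℕ,
        (1 / ((m : ℝ) + 1) < |v ((S.chart i).map p) k| ∧
          (fderiv ℝ (up v k (fun q => tr (1 / ((m : ℝ) + 1)) (v q k)) ∘ (S.chart i).map) p).det =
            (fderiv ℝ (v ∘ (S.chart i).map) p).det) ∨
        (|v ((S.chart i).map p) k| ≤ 1 / ((m : ℝ) + 1) ∧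
          (fderiv ℝ (up v k (fun q => tr (1 / ((m : ℝ) + 1)) (v q k)) ∘ (S.chart i).map) p).det =
            0) := by
      intro p hpU hp1 hp2 m
      have hcp : ContinuousAt ((fun q => v q k) ∘ (S.chart i).map) p :=
        (cont_comp (S.chart i) hφL).continuousAt (hUo.mem_nhds hpU)
      have e1 := det_up (S.chart i).map v k (fun q => tr (1 / ((m : ℝ) + 1)) (v q k)) p hp1
        (hp2 m)
      have e2 : ((fun q => tr (1 / ((m : ℝ) + 1)) (v q k)) ∘ (S.chart i).map) =
          fun y => tr (1 / ((m : ℝ) + 1)) (((fun q => v q k) ∘ (S.chart i).map) y) := rfl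
      rcases lt_or_ge (1 / ((m : ℝ) + 1)) |v ((S.chart i).map p) k| with h | h
      · left
        refine ⟨h, ?_⟩
        rw [e1, e2, fd_gt (hδ m).le hcp h, hrow p hp1, det_mat]
      · right
        refine ⟨h, ?_⟩
        rcases h.lt_or_eq with h' | h'
        · rw [e1, e2, fd_lt hcp h', hzero]
        · rw [e1, e2, fd_eq (hδ m) hcp h', hzero]
    refine tendsto_integral_of_dominated_convergence
      (fun p => ‖(fderiv ℝ (v ∘ (S.chart i).map) p).det‖) ?_ hint.norm ?_ ?_
    · intro m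
      obtain ⟨L, hLip⟩ := up_lip hv k ⟨K, hτ m⟩
      exact ((hC n hn M S hS L _ hLip).1 i).aestronglyMeasurable
    · intro m
      rw [ae_restrict_iff' (S.chart i).meas_D]
      filter_upwards [ae_diff (S.chart i) hv, hall] with p hp1 hp2 hpD
      have hpU := (S.chart i).D_sub hpD
      rcases hkey p hpU (hp1 hpU) (fun m => hp2 m hpU) m with ⟨-, h⟩ | ⟨-, h⟩
      · rw [h]
      · rw [h, norm_zero]
        exact norm_nonneg _
    · rw [ae_restrict_iff' (S.chart i).meas_D]
      filter_upwards [ae_diff (S.chart i) hv, hall, hlev] with p hp1 hp2 hp3 hpD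
      have hpU := (S.chart i).D_sub hpD
      by_cases h0 : v ((S.chart i).map p) k = 0
      · have h1 : (fderiv ℝ (v ∘ (S.chart i).map) p).det = 0 := by
          rw [det_mat, ← hrow p (hp1 hpU), hp3 hpU h0, hzero]
        rw [h1]
        refine tendsto_const_nhds.congr fun m => ?_
        rcases hkey p hpU (hp1 hpU) (fun m => hp2 m hpU) m with ⟨-, h⟩ | ⟨-, h⟩
        · rw [h, h1]
        · rw [h]
      · have h1 : 0 < |v ((S.chart i).map p) k| := abs_pos.2 h0
        have h2 : ∀ᶠ m : ℕ in atTop, 1 / ((m : ℝ) + 1) < |v ((S.chart i).map p) k| :=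
          (tendsto_one_div_add_atTop_nhds_zero_nat (𝕜 := ℝ)).eventually_lt_const h1
        refine tendsto_const_nhds.congr' ?_
        filter_upwards [h2] with m hm
        rcases hkey p hpU (hp1 hpU) (fun m => hp2 m hpU) m with ⟨-, h⟩ | ⟨h', -⟩
        · rw [h]
        · exact absurd hm (not_lt.2 h')
  have h0 : ∀ m : ℕ, jint S (up v k fun q => tr (1 / ((m : ℝ) + 1)) (v q k)) = 0 := fun m =>
    J_trunc hC hL hn S hS hv k hbd _ (hδ m)
  simp only [h0] at hlim
  exact (tendsto_nhds_unique hlim tendsto_const_nhds)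

end main

end Pool.Agent.N526.CP.VAN
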