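import Pool.Agent.N526.CP.Stm

/-!
# CPN/ABS: the abstract comass inequality (helper551)
-/

set_option autoImplicit false

open MeasureTheory

namespace Pool.Agent.N526.CP.ABS

open Pool.Agent.N526.CP Pool.Agent.H241R3.FV

/-- measurable and almost everywhere bounded -/
structure Bd {Ω : Type} [MeasurableSpace Ω] (μ : Measure Ω) (f : Ω → ℝ) : Prop where
  meas : Measurable f
  bd : ∃ C : ℝ, ∀ᵐ ω ∂μ, |f ω| ≤ C

section

variable {Ω : Type} [MeasurableSpace Ω] {μ : Measure Ω}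

lemma Bd.mul {f g : Ω → ℝ} (hf : Bd μ f) (hg : Bd μ g) : Bd μ (fun ω => f ω * g ω) := by
  obtain ⟨C, hC⟩ := hf.bd
  obtain ⟨C', hC'⟩ := hg.bd
  refine ⟨hf.meas.mul hg.meas, C * C', ?_⟩
  filter_upwards [hC, hC'] with ω h h'
  rw [abs_mul]
  exact mul_le_mul h h' (abs_nonneg _) ((abs_nonneg _).trans h)

lemma Bd.integrable [IsProbabilityMeasure μ] {f : Ω → ℝ} (hf : Bd μ f) : Integrable f μ := by
  obtain ⟨C, hC⟩ := hf.bd
  exact Integrable.of_bound hf.meas.aestronglyMeasurable C (by simpa [Real.norm_eq_abs] using hC)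

lemma iadd {f g : Ω → ℝ} (hf : Integrable f μ) (hg : Integrable g μ) :
    Integrable (fun ω => f ω + g ω) μ := hf.add hg

lemma sq4 [IsProbabilityMeasure μ] {f1 f2 f3 f4 : Ω → ℝ} (h1 : Bd μ f1) (h2 : Bd μ f2)
    (h3 : Bd μ f3) (h4 : Bd μ f4) (c2 c3 c4 : ℝ) :
    ∫ ω, (f1 ω + c2 * f2 ω + c3 * f3 ω + c4 * f4 ω) ^ 2 ∂μ =
      ∫ ω, f1 ω * f1 ω ∂μ + c2 ^ 2 * ∫ ω, f2 ω * f2 ω ∂μ + c3 ^ 2 * ∫ ω, f3 ω * f3 ω ∂μ +
      c4 ^ 2 * ∫ ω, f4 ω * f4 ω ∂μ + 2 * c2 * ∫ ω, f1 ω * f2 ω ∂μ +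
      2 * c3 * ∫ ω, f1 ω * f3 ω ∂μ + 2 * c4 * ∫ ω, f1 ω * f4 ω ∂μ +
      2 * c2 * c3 * ∫ ω, f2 ω * f3 ω ∂μ + 2 * c2 * c4 * ∫ ω, f2 ω * f4 ω ∂μ +
      2 * c3 * c4 * ∫ ω, f3 ω * f4 ω ∂μ := by
  have e : (fun ω => (f1 ω + c2 * f2 ω + c3 * f3 ω + c4 * f4 ω) ^ 2) =
      fun ω => f1 ω * f1 ω + c2 ^ 2 * (f2 ω * f2 ω) + c3 ^ 2 * (f3 ω * f3 ω) +
      c4 ^ 2 * (f4 ω * f4 ω) + 2 * c2 * (f1 ω * f2 ω) +
      2 * c3 * (f1 ω * f3 ω) + 2 * c4 * (f1 ω * f4 ω) +
      2 * c2 * c3 * (f2 ω * f3 ω) + 2 * c2 * c4 * (f2 ω * f4 ω) +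
      2 * c3 * c4 * (f3 ω * f4 ω) := by
    funext ω; ring
  have i11 := (h1.mul h1).integrable
  have i22 := ((h2.mul h2).integrable).const_mul (c2 ^ 2)
  have i33 := ((h3.mul h3).integrable).const_mul (c3 ^ 2)
  have i44 := ((h4.mul h4).integrable).const_mul (c4 ^ 2)
  have i12 := ((h1.mul h2).integrable).const_mul (2 * c2)
  have i13 := ((h1.mul h3).integrable).const_mul (2 * c3)
  have i14 := ((h1.mul h4).integrable).const_mul (2 * c4)
  have i23 := ((h2.mul h3).integrable).const_mul (2 * c2 * c3)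
  have i24 := ((h2.mul h4).integrable).const_mul (2 * c2 * c4)
  have i34 := ((h3.mul h4).integrable).const_mul (2 * c3 * c4)
  have j2 := iadd i11 i22
  have j3 := iadd j2 i33
  have j4 := iadd j3 i44
  have j5 := iadd j4 i12
  have j6 := iadd j5 i13
  have j7 := iadd j6 i14
  have j8 := iadd j7 i23
  have j9 := iadd j8 i24
  rw [e, integral_add j9 i34, integral_add j8 i24, integral_add j7 i23, integral_add j6 i14,
    integral_add j5 i13, integral_add j4 i12, integral_add j3 i44, integral_add j2 i33,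
    integral_add i11 i22]
  simp only [integral_const_mul]

end

/-- column `j` of a matrix as a vector -/
noncomputable def col {n : ℕ} (A : Matrix (Fin n) (Fin n) ℝ) (j : Fin n) : E n :=
  WithLp.toLp 2 (fun i => A i j)

lemma inner_col {n : ℕ} (A : Matrix (Fin n) (Fin n) ℝ) (j : Fin n) (v : E n) :
    inner ℝ v (col A j) = ∑ i, v i * A i j := by
  simp [col, PiLp.inner_apply, mul_comm]

lemma inner_col_col {n : ℕ} (A A' : Matrix (Fin n) (Fin n) ℝ) (j : Fin n) :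
    inner ℝ (col A j) (col A' j) = ∑ i, A i j * A' i j := by
  rw [inner_col]; rfl

theorem t : S_KEY → S_ABS := by
  intro hKEY d hd Ω _ μ _ ν p a mν mp ma ⟨C, hC⟩ ha hνν hpν hpp
  have hd0 : (0 : ℝ) < d := by exact_mod_cast hd
  set B : Matrix (Fin (d + 1)) (Fin (d + 1)) ℝ := (d + 1 : ℝ) • Mx μ ν a with hB
  set K : Matrix (Fin (d + 1)) (Fin (d + 1)) ℝ := Mx μ p a with hK
  set D : Matrix (Fin (d + 1)) (Fin (d + 1)) ℝ := K - B with hD
  have hBD : B + D = K := by rw [hD]; abel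
  -- bounded functions
  have bdν : ∀ v : E (d + 1), Bd μ (fun ω => inner ℝ (ν ω) v) := fun v =>
    ⟨mν.inner_const, C * ‖v‖, Filter.Eventually.of_forall fun ω =>
      (abs_real_inner_le_norm _ _).trans (mul_le_mul_of_nonneg_right (hC ω).1 (norm_nonneg _))⟩
  have bdp : ∀ v : E (d + 1), Bd μ (fun ω => inner ℝ (p ω) v) := fun v =>
    ⟨mp.inner_const, C * ‖v‖, Filter.Eventually.of_forall fun ω =>
      (abs_real_inner_le_norm _ _).trans (mul_le_mul_of_nonneg_right (hC ω).2 (norm_nonneg _))⟩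
  have bda : ∀ j : Fin (d + 1), Bd μ (fun ω => a ω j) := fun j => by
    refine ⟨by fun_prop, 1, ?_⟩
    filter_upwards [ha] with ω h
    exact (PiLp.norm_apply_le (a ω) j).trans h
  -- the integrals with `a`
  have lin : ∀ (q : Ω → E (d + 1)), Measurable q → (∀ v, Bd μ (fun ω => inner ℝ (q ω) v)) →
      ∀ (A : Matrix (Fin (d + 1)) (Fin (d + 1)) ℝ) (j : Fin (d + 1)),
      ∫ ω, a ω j * inner ℝ (q ω) (col A j) ∂μ = ∑ i, Mx μ q a i j * A i j := by
    intro q mq bq A j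
    have bqi : ∀ i, Bd μ (fun ω => q ω i) := by
      intro i
      have := bq (EuclideanSpace.single i 1)
      simpa [EuclideanSpace.inner_single_right] using this
    have e : (fun ω => a ω j * inner ℝ (q ω) (col A j)) =
        fun ω => ∑ i, A i j * (q ω i * a ω j) := by
      funext ω
      rw [inner_col, Finset.mul_sum]
      refine Finset.sum_congr rfl fun i _ => ?_
      ring
    rw [e, integral_finsetSum]
    · refine Finset.sum_congr rfl fun i _ => ?_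
      rw [integral_const_mul]
      simp only [Mx]
      ring
    · intro i _
      exact (((bqi i).mul (bda j)).integrable).const_mul _
  -- the squares
  have key : ∀ j, ∑ i, B i j ^ 2 + d * ∑ i, D i j ^ 2 ≤ (d + 1) * ∫ ω, a ω j * a ω j ∂μ := by
    intro j
    have h0 : 0 ≤ ∫ ω, (a ω j + (-1) * inner ℝ (ν ω) (col B j) +
        (-(d / (d + 1))) * inner ℝ (p ω) (col D j) + (d : ℝ) * inner ℝ (ν ω) (col D j)) ^ 2 ∂μ :=
      integral_nonneg fun ω => sq_nonneg _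
    rw [sq4 (bda j) (bdν _) (bdp _) (bdν _)] at h0
    have e1 : ∫ ω, a ω j * inner ℝ (ν ω) (col B j) ∂μ = (∑ i, B i j ^ 2) / (d + 1) := by
      rw [lin ν mν bdν B j, Finset.sum_div]
      refine Finset.sum_congr rfl fun i _ => ?_
      simp only [hB, Matrix.smul_apply, smul_eq_mul]
      field_simp
    have e2 : ∫ ω, a ω j * inner ℝ (p ω) (col D j) ∂μ = ∑ i, K i j * D i j := lin p mp bdp D j
    have e3 : ∫ ω, a ω j * inner ℝ (ν ω) (col D j) ∂μ = (∑ i, B i j * D i j) / (d + 1) := by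
      rw [lin ν mν bdν D j, Finset.sum_div]
      refine Finset.sum_congr rfl fun i _ => ?_
      simp only [hB, Matrix.smul_apply, smul_eq_mul]
      field_simp
    have e4 : ∫ ω, inner ℝ (ν ω) (col B j) * inner ℝ (ν ω) (col B j) ∂μ =
        (∑ i, B i j ^ 2) / (d + 1) := by
      rw [hνν, inner_col_col]
      simp only [sq]
    have e5 : ∫ ω, inner ℝ (ν ω) (col D j) * inner ℝ (ν ω) (col D j) ∂μ =
        (∑ i, D i j ^ 2) / (d + 1) := by
      rw [hνν, inner_col_col]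
      simp only [sq]
    have e6 : ∫ ω, inner ℝ (p ω) (col D j) * inner ℝ (p ω) (col D j) ∂μ ≤
        (d + 1) ^ 2 / d * ∑ i, D i j ^ 2 := by
      have h := hpp (col D j)
      have h' : ‖col D j‖ ^ 2 = ∑ i, D i j ^ 2 := by
        rw [← real_inner_self_eq_norm_sq, inner_col_col]
        simp only [sq]
      rw [h'] at h
      simpa only [sq] using h
    have e7 : ∫ ω, inner ℝ (ν ω) (col B j) * inner ℝ (p ω) (col D j) ∂μ = ∑ i, D i j * B i j := by
      rw [← inner_col_col, ← hpν]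
      congr 1
      funext ω
      ring
    have e8 : ∫ ω, inner ℝ (ν ω) (col B j) * inner ℝ (ν ω) (col D j) ∂μ =
        (∑ i, B i j * D i j) / (d + 1) := by
      rw [hνν, inner_col_col]
    have e9 : ∫ ω, inner ℝ (p ω) (col D j) * inner ℝ (ν ω) (col D j) ∂μ = ∑ i, D i j ^ 2 := by
      rw [hpν, inner_col_col]
      simp only [sq]
    rw [e1, e2, e3, e4, e5, e7, e8, e9] at h0
    have e10 : ∑ i, K i j * D i j = ∑ i, B i j * D i j + ∑ i, D i j ^ 2 := by
      rw [← Finset.sum_add_distrib]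
      refine Finset.sum_congr rfl fun i _ => ?_
      rw [← hBD, Matrix.add_apply]
      ring
    have e11 : ∑ i, D i j * B i j = ∑ i, B i j * D i j :=
      Finset.sum_congr rfl fun i _ => mul_comm _ _
    rw [e10, e11] at h0
    set b2 := ∑ i, B i j ^ 2
    set d2 := ∑ i, D i j ^ 2
    set bd := ∑ i, B i j * D i j
    set A2 := ∫ ω, a ω j * a ω j ∂μ
    set P2 := ∫ ω, inner ℝ (p ω) (col D j) * inner ℝ (p ω) (col D j) ∂μ
    have hk : (-(d / (d + 1 : ℝ))) ^ 2 * P2 ≤ (-(d / (d + 1 : ℝ))) ^ 2 * ((d + 1) ^ 2 / d * d2) :=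
      mul_le_mul_of_nonneg_left e6 (sq_nonneg _)
    have h1 : 0 ≤ A2 - b2 / (d + 1) - d * d2 / (d + 1) := by
      have : (-(d / (d + 1 : ℝ))) ^ 2 * ((d + 1) ^ 2 / d * d2) = d * d2 := by
        field_simp
      rw [this] at hk
      have e : A2 - b2 / (d + 1) - d * d2 / (d + 1) = A2 + (-1) ^ 2 * (b2 / (d + 1)) + d * d2 +
          (d : ℝ) ^ 2 * (d2 / (d + 1)) + 2 * (-1) * (b2 / (d + 1)) +
          2 * (-(d / (d + 1))) * (bd + d2) + 2 * (d : ℝ) * (bd / (d + 1)) +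
          2 * (-1) * (-(d / (d + 1))) * bd + 2 * (-1) * (d : ℝ) * (bd / (d + 1)) +
          2 * (-(d / (d + 1))) * (d : ℝ) * d2 := by
        field_simp
        ring
      rw [e]
      linarith
    have h2 : 0 ≤ (d + 1 : ℝ) * (A2 - b2 / (d + 1) - d * d2 / (d + 1)) :=
      mul_nonneg (by positivity) h1
    have h3 : (d + 1 : ℝ) * (A2 - b2 / (d + 1) - d * d2 / (d + 1)) = (d + 1) * A2 - b2 - d * d2 := by
      field_simp
    linarith
  have hA : ∑ j, ∫ ω, a ω j * a ω j ∂μ ≤ 1 := by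
    rw [← integral_finsetSum _ (fun j _ => ((bda j).mul (bda j)).integrable)]
    have : ∫ ω, ∑ j, a ω j * a ω j ∂μ ≤ ∫ _ω, (1 : ℝ) ∂μ := by
      refine integral_mono_ae (integrable_finsetSum _ fun j _ =>
        ((bda j).mul (bda j)).integrable) (integrable_const _) ?_
      filter_upwards [ha] with ω h
      have e : ∑ j, a ω j * a ω j = ‖a ω‖ ^ 2 := by
        rw [EuclideanSpace.norm_sq_eq]
        refine Finset.sum_congr rfl fun j _ => ?_
        rw [Real.norm_eq_abs, sq_abs, sq]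
      rw [e]
      exact pow_le_one₀ (norm_nonneg _) h
    simpa using this
  have hsum : ∑ i, ∑ j, B i j ^ 2 + d * ∑ i, ∑ j, D i j ^ 2 ≤ (d : ℝ) + 1 := by
    have h := Finset.sum_le_sum fun j (_ : j ∈ Finset.univ) => key j
    rw [Finset.sum_add_distrib, ← Finset.mul_sum, ← Finset.mul_sum] at h
    rw [Finset.sum_comm (f := fun i j => B i j ^ 2), Finset.sum_comm (f := fun i j => D i j ^ 2)]
    have : (d + 1 : ℝ) * ∑ j, ∫ ω, a ω j * a ω j ∂μ ≤ (d + 1) * 1 :=
      mul_le_mul_of_nonneg_left hA (by positivity)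
    linarith
  have := hKEY d hd B D hsum
  rwa [hBD] at this

end Pool.Agent.N526.CP.ABS
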