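import Pool.Agent.N526.CP.Stm

/-!
# Round caps are minimal fillings (PROJECT CPN): explicit radii
-/

set_option autoImplicit false

open MeasureTheory Metric Set Filter Topology InnerProductGeometry Matrix

namespace Pool.Agent.N526.CP

open Pool.Agent.H241R3.FV

/-- MOM -/
def S_MOM : Prop := ∀ (d : ℕ), 1 ≤ d →
  (∫ θ : Sph (d + 1), (θ : E (d + 1)) 0 ^ 2 ∂(sg (d + 1)) = 1 / ((d + 1 : ℝ))) ∧
  (∫ θ : Sph (d + 1), (θ : E (d + 1)) 0 ^ 4 ∂(sg (d + 1)) = 3 / ((d + 1 : ℝ) * (d + 3))) ∧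
  (∫ θ : Sph (d + 1), (θ : E (d + 1)) 0 ^ 6 ∂(sg (d + 1)) =
    15 / ((d + 1 : ℝ) * (d + 3) * (d + 5)))

/-- GDN: an explicit radius in all dimensions -/
def S_GDN : Prop := ∀ (d : ℕ), 1 ≤ d → ∀ s : ℝ, 0 < s → 5 * (d + 1) * s ^ 4 ≤ 3 → Good d s

end Pool.Agent.N526.CP
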