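import Pool.Agent.N526.CP.GDc

/-!
# CPN/GD2: an explicit radius in dimension three (helper374)
-/

set_option autoImplicit false

open MeasureTheory Metric Set

namespace Pool.Agent.N526.CP.GD2

open Pool.Agent.H241R3.FV Pool.Agent.N526.CP.GDc

lemma poly1 {y : ℝ} (h0 : 0 ≤ y) (h1 : y ≤ 16 / 25) :
    4 / 3 * (1 - 3 * y / 5) ^ 3 * (1 / 3 - 2 * y / 5 + y ^ 2 / 7) ≤ (1 - y) ^ 3 := by
  have hz : 0 ≤ 16 / 25 - y := by linarith
  have key : (1 - y) ^ 3 - 4 / 3 * (1 - 3 * y / 5) ^ 3 * (1 / 3 - 2 * y / 5 + y ^ 2 / 7) =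
    (48828125/9437184) * y ^ 0 * (16 / 25 - y) ^ 5 +
    (150390625/9437184) * y ^ 1 * (16 / 25 - y) ^ 4 +
    (569044375/33030144) * y ^ 2 * (16 / 25 - y) ^ 3 +
    (37016065/4718592) * y ^ 3 * (16 / 25 - y) ^ 2 +
    (325043497/235929600) * y ^ 4 * (16 / 25 - y) ^ 1 +
    (47436217/1179648000) * y ^ 5 * (16 / 25 - y) ^ 0 := by ring
  have : 0 ≤ (1 - y) ^ 3 - 4 / 3 * (1 - 3 * y / 5) ^ 3 * (1 / 3 - 2 * y / 5 + y ^ 2 / 7) := by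
    rw [key]
    positivity
  linarith

lemma poly2 {y : ℝ} (h0 : 0 ≤ y) (h1 : y ≤ 16 / 25) :
    4 / 9 * (1 - y / 5) ^ 3 * (1 - 2 * y / 5 + 3 * y ^ 2 / 35) ≤ 1 - y := by
  have hz : 0 ≤ 16 / 25 - y := by linarith
  have key : (1 - y) - 4 / 9 * (1 - y / 5) ^ 3 * (1 - 2 * y / 5 + 3 * y ^ 2 / 35) =
    (48828125/9437184) * y ^ 0 * (16 / 25 - y) ^ 5 +
    (212890625/9437184) * y ^ 1 * (16 / 25 - y) ^ 4 +
    (415508125/11010048) * y ^ 2 * (16 / 25 - y) ^ 3 +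
    (981704615/33030144) * y ^ 3 * (16 / 25 - y) ^ 2 +
    (17475166879/1651507200) * y ^ 4 * (16 / 25 - y) ^ 1 +
    (16714339129/13762560000) * y ^ 5 * (16 / 25 - y) ^ 0 := by ring
  have : 0 ≤ (1 - y) - 4 / 9 * (1 - y / 5) ^ 3 * (1 - 2 * y / 5 + 3 * y ^ 2 / 35) := by
    rw [key]
    positivity
  linarith

lemma up3 {u lam : ℝ} (hu : 0 ≤ u) (hl : 0 < lam) : (√u) ^ 3 ≤ u * (lam + u / lam) / 2 := by
  have h1 : (√u) ^ 3 = u * √u := by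
    rw [pow_succ, Real.sq_sqrt hu]
  have h2 : √u ≤ (lam + u / lam) / 2 := by
    have h3 : lam * (2 * √u) ≤ lam * (lam + u / lam) := by
      have e : lam * (lam + u / lam) = lam ^ 2 + u := by field_simp
      rw [e]
      nlinarith [sq_nonneg (√u - lam), Real.sq_sqrt hu]
    have := le_of_mul_le_mul_left h3 hl
    linarith
  rw [h1]
  have := mul_le_mul_of_nonneg_left h2 hu
  linarith

lemma lowi {u m : ℝ} (hu : 0 < u) (hm : 0 < m) :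
    (√m)⁻¹ * (3 / 2 - u / (2 * m)) ≤ (√u)⁻¹ := by
  have ha : 0 < √u := Real.sqrt_pos.2 hu
  have hb : 0 < √m := Real.sqrt_pos.2 hm
  obtain ⟨a, hae⟩ : ∃ a, a = √u := ⟨_, rfl⟩
  obtain ⟨b, hb'⟩ : ∃ b, b = √m := ⟨_, rfl⟩
  have e1 : u = a ^ 2 := by rw [hae, Real.sq_sqrt hu.le]
  have e2 : m = b ^ 2 := by rw [hb', Real.sq_sqrt hm.le]
  rw [← hae] at ha ⊢
  rw [← hb'] at hb ⊢
  rw [e1, e2]
  have key : a⁻¹ - b⁻¹ * (3 / 2 - a ^ 2 / (2 * b ^ 2)) =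
      (a - b) ^ 2 * (a + 2 * b) / (2 * a * b ^ 3) := by
    field_simp
    ring
  have : 0 ≤ (a - b) ^ 2 * (a + 2 * b) / (2 * a * b ^ 3) := by positivity
  linarith

theorem t (hM : S_MOM) (hS : S_SPH) : S_GD2 := by
  intro s hs hs45
  obtain ⟨hp, -, -⟩ := hS 2 (by norm_num)
  have hs1 : s < 1 := by linarith
  refine ⟨hs, hs1, fun s' hs' => ?_⟩
  obtain ⟨h0, h1⟩ := hs'
  have hs'1 : s' < 1 := lt_of_le_of_lt h1 hs1
  obtain ⟨y, hy⟩ : ∃ y, y = s' ^ 2 := ⟨_, rfl⟩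
  have hy0 : 0 ≤ y := by rw [hy]; positivity
  have hy1 : y ≤ 16 / 25 := by rw [hy]; nlinarith
  have c0 : Continuous fun θ : Sph (2 + 1) => (θ : E (2 + 1)) 0 := cont0
  have cp := cont_pow (d := 2) s' (2 + 1)
  have ci := cont_inv (d := 2) h0 hs'1
  have hxy : ∀ θ : Sph (2 + 1), (s' * (θ : E (2 + 1)) 0) ^ 2 = y * (θ : E (2 + 1)) 0 ^ 2 := by
    intro θ
    rw [hy]
    ring
  have hu : ∀ θ : Sph (2 + 1), 0 < 1 - y * (θ : E (2 + 1)) 0 ^ 2 := by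
    intro θ
    have := u_lt h0 hs'1 θ
    rw [hxy] at this
    linarith
  have hub : ∀ lam : ℝ, 0 < lam → ∀ θ : Sph (2 + 1),
      (√(1 - (s' * (θ : E (2 + 1)) 0) ^ 2)) ^ (2 + 1) ≤
      (1 - y * (θ : E (2 + 1)) 0 ^ 2) * (lam + (1 - y * (θ : E (2 + 1)) 0 ^ 2) / lam) / 2 := by
    intro lam hl θ
    rw [hxy]
    exact up3 (hu θ).le hl
  have hlb : ∀ m : ℝ, 0 < m → ∀ θ : Sph (2 + 1),
      (√m)⁻¹ * (3 / 2 - (1 - y * (θ : E (2 + 1)) 0 ^ 2) / (2 * m)) ≤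
      (√(1 - (s' * (θ : E (2 + 1)) 0) ^ 2))⁻¹ := by
    intro m hm θ
    rw [hxy]
    exact lowi (hu θ) hm
  -- the integrals
  have hAr : ∀ lam : ℝ, 0 < lam → Ar 2 s' ≤
      (lam * (1 / 3 - y / 5) + (1 / 3 - 2 * y / 5 + y ^ 2 / 7) / lam) / 2 := by
    intro lam hl
    have h3 := poly hp hM (by norm_num) 0 ((lam + 1 / lam) / 2) (-(y * (lam + 2 / lam)) / 2)
      (y ^ 2 / (2 * lam))
    have h4 : Ar 2 s' ≤ ∫ θ : Sph (2 + 1), (0 + ((lam + 1 / lam) / 2) * (θ : E (2 + 1)) 0 ^ 2 +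
        (-(y * (lam + 2 / lam)) / 2) * ((θ : E (2 + 1)) 0 ^ 2) ^ 2 +
        (y ^ 2 / (2 * lam)) * ((θ : E (2 + 1)) 0 ^ 2) ^ 3) ∂(sg (2 + 1)) := by
      refine mono hp ((c0.pow 2).mul cp) (by fun_prop) fun θ => ?_
      have := mul_le_mul_of_nonneg_left (hub lam hl θ) (sq_nonneg ((θ : E (2 + 1)) 0))
      refine this.trans (le_of_eq ?_)
      field_simp
      ring
    refine h4.trans (le_of_eq ?_)
    rw [h3]
    push_cast
    field_simp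
    ring
  have hAt : ∀ lam : ℝ, 0 < lam → 2 * At 2 s' ≤
      (lam * (2 / 3 * (1 - y / 5)) + (2 / 3 * (1 - 2 * y / 5 + 3 * y ^ 2 / 35)) / lam) / 2 := by
    intro lam hl
    have h3 := poly hp hM (by norm_num) ((lam + 1 / lam) / 2)
      (-((lam + 1 / lam) / 2) - (y * (lam + 2 / lam)) / 2)
      ((y * (lam + 2 / lam)) / 2 + y ^ 2 / (2 * lam)) (-(y ^ 2 / (2 * lam)))
    have h4 : ∫ θ : Sph (2 + 1), (1 - (θ : E (2 + 1)) 0 ^ 2) *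
        (√(1 - (s' * (θ : E (2 + 1)) 0) ^ 2)) ^ (2 + 1) ∂(sg (2 + 1)) ≤
        ∫ θ : Sph (2 + 1), (((lam + 1 / lam) / 2) +
        (-((lam + 1 / lam) / 2) - (y * (lam + 2 / lam)) / 2) * (θ : E (2 + 1)) 0 ^ 2 +
        ((y * (lam + 2 / lam)) / 2 + y ^ 2 / (2 * lam)) * ((θ : E (2 + 1)) 0 ^ 2) ^ 2 +
        (-(y ^ 2 / (2 * lam))) * ((θ : E (2 + 1)) 0 ^ 2) ^ 3) ∂(sg (2 + 1)) := by
      refine mono hp ((continuous_const.sub (c0.pow 2)).mul cp) (by fun_prop) fun θ => ?_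
      have := mul_le_mul_of_nonneg_left (hub lam hl θ)
        (show 0 ≤ 1 - (θ : E (2 + 1)) 0 ^ 2 by linarith [sq_le θ])
      refine this.trans (le_of_eq ?_)
      field_simp
      ring
    have h5 : 2 * At 2 s' = ∫ θ : Sph (2 + 1), (1 - (θ : E (2 + 1)) 0 ^ 2) *
        (√(1 - (s' * (θ : E (2 + 1)) 0) ^ 2)) ^ (2 + 1) ∂(sg (2 + 1)) := by
      unfold At
      push_cast
      ring
    rw [h5]
    refine h4.trans (le_of_eq ?_)
    rw [h3]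
    push_cast
    field_simp
    ring
  have hm : 0 < 1 - 3 * y / 5 := by linarith
  have hm' : 0 < 1 - y / 5 := by linarith
  have hkr : (√(1 - 3 * y / 5))⁻¹ / 3 ≤ kr 2 s' := by
    have h3 := poly hp hM (by norm_num) 0
      ((√(1 - 3 * y / 5))⁻¹ * (3 / 2 - 1 / (2 * (1 - 3 * y / 5))))
      ((√(1 - 3 * y / 5))⁻¹ * (y / (2 * (1 - 3 * y / 5)))) 0
    have h4 : ∫ θ : Sph (2 + 1), (0 + ((√(1 - 3 * y / 5))⁻¹ * (3 / 2 - 1 / (2 * (1 - 3 * y / 5)))) *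
        (θ : E (2 + 1)) 0 ^ 2 + ((√(1 - 3 * y / 5))⁻¹ * (y / (2 * (1 - 3 * y / 5)))) *
        ((θ : E (2 + 1)) 0 ^ 2) ^ 2 +
        0 * ((θ : E (2 + 1)) 0 ^ 2) ^ 3) ∂(sg (2 + 1)) ≤ kr 2 s' := by
      refine mono hp (by fun_prop) ((c0.pow 2).mul ci) fun θ => ?_
      have := mul_le_mul_of_nonneg_left (hlb _ hm θ) (sq_nonneg ((θ : E (2 + 1)) 0))
      refine le_trans (le_of_eq ?_) this
      ring
    refine le_trans (le_of_eq ?_) h4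
    rw [h3]
    push_cast
    have hs0 : √(1 - 3 * y / 5) ≠ 0 := (Real.sqrt_pos.2 hm).ne'
    have hm0 : 5 - 3 * y ≠ 0 := by linarith
    have hm1 := hm.ne'
    field_simp
    ring
  have hkt : (√(1 - y / 5))⁻¹ / 3 ≤ kt 2 s' := by
    have h3 := poly hp hM (by norm_num)
      ((√(1 - y / 5))⁻¹ * (3 / 2 - 1 / (2 * (1 - y / 5))))
      ((√(1 - y / 5))⁻¹ * (-(3 / 2 - 1 / (2 * (1 - y / 5))) + y / (2 * (1 - y / 5))))
      (-((√(1 - y / 5))⁻¹ * (y / (2 * (1 - y / 5))))) 0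
    have h4 : ∫ θ : Sph (2 + 1), (((√(1 - y / 5))⁻¹ * (3 / 2 - 1 / (2 * (1 - y / 5)))) +
        ((√(1 - y / 5))⁻¹ * (-(3 / 2 - 1 / (2 * (1 - y / 5))) + y / (2 * (1 - y / 5)))) *
        (θ : E (2 + 1)) 0 ^ 2 + (-((√(1 - y / 5))⁻¹ * (y / (2 * (1 - y / 5))))) *
        ((θ : E (2 + 1)) 0 ^ 2) ^ 2 +
        0 * ((θ : E (2 + 1)) 0 ^ 2) ^ 3) ∂(sg (2 + 1)) ≤
        ∫ θ : Sph (2 + 1), (1 - (θ : E (2 + 1)) 0 ^ 2) *
          (√(1 - (s' * (θ : E (2 + 1)) 0) ^ 2))⁻¹ ∂(sg (2 + 1)) := by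
      refine mono hp (by fun_prop) ((continuous_const.sub (c0.pow 2)).mul ci) fun θ => ?_
      have := mul_le_mul_of_nonneg_left (hlb _ hm' θ)
        (show 0 ≤ 1 - (θ : E (2 + 1)) 0 ^ 2 by linarith [sq_le θ])
      refine le_trans (le_of_eq ?_) this
      ring
    unfold kt
    rw [le_div_iff₀ (by norm_num)]
    refine le_trans (le_of_eq ?_) h4
    rw [h3]
    push_cast
    have hs0 : √(1 - y / 5) ≠ 0 := (Real.sqrt_pos.2 hm').ne'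
    have hm0 : 5 - y ≠ 0 := by linarith
    have hm1 := hm'.ne'
    field_simp
    ring
  -- conclusion
  obtain ⟨c, hc⟩ : ∃ c, c = √(1 - s' ^ 2) := ⟨_, rfl⟩
  rw [← hc]
  have hc0 : 0 < c := by rw [hc, ← hy]; exact Real.sqrt_pos.2 (by linarith)
  have hc2 : c ^ 2 = 1 - y := by rw [hc, ← hy, Real.sq_sqrt (by linarith)]
  constructor
  · have hkr2 : 1 / (9 * (1 - 3 * y / 5)) ≤ kr 2 s' ^ 2 := by
      have e1 : 1 / (9 * (1 - 3 * y / 5)) = ((√(1 - 3 * y / 5))⁻¹ / 3) ^ 2 := by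
        rw [div_pow, inv_pow, Real.sq_sqrt hm.le]
        field_simp
        norm_num
      rw [e1]
      gcongr
    obtain ⟨m, hm_eq⟩ : ∃ m, m = 1 - 3 * y / 5 := ⟨_, rfl⟩
    rw [← hm_eq] at hkr2 hm
    have ha1 : 1 / 3 - y / 5 = m / 3 := by rw [hm_eq]; ring
    have hA := hAr (3 * c ^ 3 / (2 * m ^ 2)) (by positivity)
    rw [ha1] at hA
    have hp1 := poly1 hy0 hy1
    rw [← hm_eq] at hp1
    obtain ⟨a2, ha2⟩ : ∃ a2, a2 = 1 / 3 - 2 * y / 5 + y ^ 2 / 7 := ⟨_, rfl⟩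
    rw [← ha2] at hA hp1
    have e2 : (1 - y) ^ 3 = c ^ 6 := by rw [← hc2]; ring
    rw [e2] at hp1
    have h5 : a2 / (3 * c ^ 3 / (2 * m ^ 2)) ≤ c ^ 3 / (2 * m) := by
      rw [div_le_iff₀ (by positivity)]
      have e3 : c ^ 3 / (2 * m) * (3 * c ^ 3 / (2 * m ^ 2)) = 3 / 4 * c ^ 6 / m ^ 3 := by
        field_simp
        norm_num
      rw [e3, le_div_iff₀ (by positivity)]
      linarith
    have h6 : 3 * c ^ 3 / (2 * m ^ 2) * (m / 3) = c ^ 3 / (2 * m) := by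
      field_simp
    rw [h6] at hA
    have h7 : Ar 2 s' ≤ c ^ 3 / (2 * m) := by linarith
    push_cast
    calc 2 * Ar 2 s' ≤ 2 * (c ^ 3 / (2 * m)) := by linarith
      _ = (2 + 1) ^ 2 * c ^ 3 * (1 / (9 * m)) := by
          field_simp
          norm_num
      _ ≤ (2 + 1) ^ 2 * c ^ 3 * kr 2 s' ^ 2 := by gcongr
  · have hkt2 : 1 / (9 * (1 - y / 5)) ≤ kt 2 s' ^ 2 := by
      have e1 : 1 / (9 * (1 - y / 5)) = ((√(1 - y / 5))⁻¹ / 3) ^ 2 := by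
        rw [div_pow, inv_pow, Real.sq_sqrt hm'.le]
        field_simp
        norm_num
      rw [e1]
      gcongr
    obtain ⟨m, hm_eq⟩ : ∃ m, m = 1 - y / 5 := ⟨_, rfl⟩
    rw [← hm_eq] at hkt2 hm'
    have hA := hAt (3 * c / (2 * m ^ 2)) (by positivity)
    have hp1 := poly2 hy0 hy1
    rw [← hm_eq] at hp1 hA
    obtain ⟨a2, ha2⟩ : ∃ a2, a2 = 1 - 2 * y / 5 + 3 * y ^ 2 / 35 := ⟨_, rfl⟩
    rw [← ha2] at hA hp1
    rw [← hc2] at hp1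
    have h5 : 2 / 3 * a2 / (3 * c / (2 * m ^ 2)) ≤ c / m := by
      rw [div_le_iff₀ (by positivity)]
      have e3 : c / m * (3 * c / (2 * m ^ 2)) = 3 / 2 * c ^ 2 / m ^ 3 := by
        field_simp
      rw [e3, le_div_iff₀ (by positivity)]
      linarith
    have h6 : 3 * c / (2 * m ^ 2) * (2 / 3 * m) = c / m := by
      field_simp
    rw [h6] at hA
    have h7 : 2 * At 2 s' ≤ c / m := by linarith
    push_cast
    calc 2 * At 2 s' ≤ c / m := h7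
      _ = (2 + 1) ^ 2 * c * (1 / (9 * m)) := by
          field_simp
          norm_num
      _ ≤ (2 + 1) ^ 2 * c * kt 2 s' ^ 2 := by gcongr

end Pool.Agent.N526.CP.GD2
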