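import Pool.Agent.N526.CP.Stm

/-!
# Part EIG of PROJECT CPN (helper526): the eigenvalues of the derivative of `Z` (helper507)
-/

set_option autoImplicit false

open MeasureTheory Metric Set Filter Topology InnerProductGeometry Matrix

namespace Pool.Agent.N526.CP.EIG

open Pool.Agent.H241R3.FV

section mat

variable {n : ℕ} (e : E n)

/-- the projection to the line of `e` -/
noncomputable def Pm : Matrix (Fin n) (Fin n) ℝ := vecMulVec (fun i => e i) (fun i => e i)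

/-- the matrix with the eigenvalue `a` on the complement of `e` and `b` on the line of `e` -/
noncomputable def Qm (a b : ℝ) : Matrix (Fin n) (Fin n) ℝ := a • (1 - Pm e) + b • Pm e

variable {e}

theorem dot_self (he : ‖e‖ = 1) : ∑ i, e i * e i = 1 := by
  have h := EuclideanSpace.norm_sq_eq e
  rw [he, one_pow] at h
  rw [h]
  refine Finset.sum_congr rfl fun i _ => ?_
  rw [Real.norm_eq_abs, sq_abs, pow_two]

theorem inner_eq (u v : E n) : inner ℝ u v = ∑ i, u i * v i := by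
  rw [PiLp.inner_apply]
  refine Finset.sum_congr rfl fun i _ => ?_
  simp [mul_comm]

theorem Pm_sq (he : ‖e‖ = 1) : Pm e * Pm e = Pm e := by
  ext i j
  rw [Matrix.mul_apply, Pm, vecMulVec_apply]
  have : ∀ k, vecMulVec (fun i => e i) (fun i => e i) i k *
      vecMulVec (fun i => e i) (fun i => e i) k j = (e i * e j) * (e k * e k) := by
    intro k
    rw [vecMulVec_apply, vecMulVec_apply]
    ring
  rw [Finset.sum_congr rfl fun k _ => this k, ← Finset.mul_sum, dot_self he, mul_one]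

theorem Qm_mul (he : ‖e‖ = 1) (a b a' b' : ℝ) : Qm e a b * Qm e a' b' = Qm e (a * a') (b * b') := by
  unfold Qm
  have h1 := Pm_sq he
  rw [add_mul, mul_add, mul_add, smul_mul_smul_comm, smul_mul_smul_comm, smul_mul_smul_comm,
    smul_mul_smul_comm, sub_mul, mul_sub, mul_sub, sub_mul, one_mul, one_mul, mul_one, h1,
    sub_self, sub_zero, smul_zero, smul_zero, add_zero, zero_add]

theorem Qm_one : Qm e 1 1 = 1 := by
  unfold Qm
  rw [one_smul, one_smul, sub_add_cancel]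

theorem Qm_apply (a b : ℝ) (i j : Fin n) :
    Qm e a b i j = a * ((if i = j then 1 else 0) - e i * e j) + b * (e i * e j) := by
  rw [Qm, Matrix.add_apply, Matrix.smul_apply, Matrix.smul_apply, Matrix.sub_apply, Pm,
    vecMulVec_apply, Matrix.one_apply, smul_eq_mul, smul_eq_mul]

theorem Qm_mulVec (a b : ℝ) (v : Fin n → ℝ) :
    Qm e a b *ᵥ v = a • (v - (∑ i, e i * v i) • (fun i => e i)) +
      (b * ∑ i, e i * v i) • (fun i => e i) := by
  funext i
  simp only [Matrix.mulVec, dotProduct, Pi.add_apply, Pi.smul_apply, Pi.sub_apply, smul_eq_mul]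
  have h1 : ∀ j, Qm e a b i j * v j =
      a * ((if i = j then v j else 0) - e i * (e j * v j)) + b * (e i * (e j * v j)) := by
    intro j
    rw [Qm_apply]
    split_ifs with h <;> ring
  rw [Finset.sum_congr rfl fun j _ => h1 j, Finset.sum_add_distrib, ← Finset.mul_sum,
    ← Finset.mul_sum, Finset.sum_sub_distrib, ← Finset.mul_sum]
  simp only [Finset.sum_ite_eq, Finset.mem_univ, if_true]
  ring

theorem cl_Qm (a b : ℝ) (v : E n) :
    cl (Qm e a b) v = a • (v - inner ℝ e v • e) + (b * inner ℝ e v) • e := by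
  apply (WithLp.equiv 2 _).injective
  show (cl (Qm e a b) v).ofLp = (a • (v - inner ℝ e v • e) + (b * inner ℝ e v) • e).ofLp
  rw [cl, Matrix.ofLp_toEuclideanCLM, Qm_mulVec, inner_eq]
  rfl

theorem Qm_posDef (he : ‖e‖ = 1) {a b : ℝ} (ha : 0 < a) (hb : 0 < b) : (Qm e a b).PosDef := by
  apply Matrix.PosDef.of_dotProduct_mulVec_pos
  · ext i j
    rw [Matrix.conjTranspose_apply, Qm_apply, Qm_apply, star_trivial]
    simp only [eq_comm (a := j) (b := i), mul_comm (e j) (e i)]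
  · intro x hx
    have hx2 : 0 < ∑ i, x i * x i := by
      obtain ⟨i, hi⟩ : ∃ i, x i ≠ 0 := by
        by_contra hcon
        push Not at hcon
        exact hx (funext hcon)
      exact Finset.sum_pos' (fun j _ => mul_self_nonneg _)
        ⟨i, Finset.mem_univ i, mul_self_pos.mpr hi⟩
    have hcs : (∑ i, e i * x i) ^ 2 ≤ ∑ i, x i * x i := by
      have h1 := Finset.sum_mul_sq_le_sq_mul_sq Finset.univ (fun i => e i) x
      have h2 : ∑ i, (e i) ^ 2 = 1 := by
        rw [← dot_self he]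
        exact Finset.sum_congr rfl fun i _ => pow_two _
      have h3 : ∑ i, (x i) ^ 2 = ∑ i, x i * x i :=
        Finset.sum_congr rfl fun i _ => pow_two _
      rw [h2, h3, one_mul] at h1
      exact h1
    obtain ⟨T, hT⟩ : ∃ T, T = ∑ i, e i * x i := ⟨_, rfl⟩
    rw [← hT] at hcs
    have hval : star x ⬝ᵥ (Qm e a b *ᵥ x) = a * (∑ i, x i * x i - T ^ 2) + b * T ^ 2 := by
      rw [Qm_mulVec, ← hT]
      simp only [dotProduct, Pi.star_apply, star_trivial, Pi.add_apply, Pi.smul_apply,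
        Pi.sub_apply, smul_eq_mul]
      have h1 : ∀ i, x i * (a * (x i - T * e i) + b * T * e i) =
          a * (x i * x i) + (b * T - a * T) * (e i * x i) := by
        intro i
        ring
      rw [Finset.sum_congr rfl fun i _ => h1 i, Finset.sum_add_distrib, ← Finset.mul_sum,
        ← Finset.mul_sum, ← hT]
      ring
    rw [hval]
    rcases eq_or_lt_of_le hcs with h | h
    · rw [h, sub_self, mul_zero, zero_add]
      exact mul_pos hb hx2
    · have h4 := mul_pos ha (sub_pos.mpr h)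
      have h5 := mul_nonneg hb.le (sq_nonneg T)
      linarith

end mat

theorem ip_single {n : ℕ} (i : Fin n) (θ : Sph n) :
    ip (EuclideanSpace.single i (1 : ℝ)) θ = (θ : E n) i := by
  unfold ip
  rw [EuclideanSpace.inner_single_left]
  simp

theorem ex_unit {d : ℕ} (X : E (d + 1)) : ∃ e : E (d + 1), ‖e‖ = 1 ∧ X = ‖X‖ • e := by
  by_cases hX : X = 0
  · refine ⟨EuclideanSpace.single 0 1, by simp, ?_⟩
    rw [hX, norm_zero, zero_smul]
  · have h0 : ‖X‖ ≠ 0 := norm_ne_zero_iff.mpr hX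
    refine ⟨‖X‖⁻¹ • X, ?_, ?_⟩
    · rw [norm_smul, norm_inv, norm_norm, inv_mul_cancel₀ h0]
    · rw [smul_smul, mul_inv_cancel₀ h0, one_smul]

theorem abs_coord_le {n : ℕ} (θ : Sph n) (i : Fin n) : |(θ : E n) i| ≤ 1 := by
  have h := PiLp.norm_apply_le (θ : E n) i
  rw [norm_sph] at h
  exact h

theorem sq_lt {s' x : ℝ} (h0 : 0 ≤ s') (h1 : s' < 1) (hx : |x| ≤ 1) : (s' * x) ^ 2 < 1 := by
  have h2 : |s' * x| < 1 := by
    rw [abs_mul, abs_of_nonneg h0]
    nlinarith [abs_nonneg x]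
  rw [← sq_abs]
  nlinarith [abs_nonneg (s' * x)]

theorem sqrt_pos' {s' x : ℝ} (h0 : 0 ≤ s') (h1 : s' < 1) (hx : |x| ≤ 1) :
    0 < √(1 - (s' * x) ^ 2) :=
  Real.sqrt_pos.mpr (sub_pos.mpr (sq_lt h0 h1 hx))

theorem one_le_inv {s' x : ℝ} (h0 : 0 ≤ s') (h1 : s' < 1) (hx : |x| ≤ 1) :
    1 ≤ (√(1 - (s' * x) ^ 2))⁻¹ := by
  rw [one_le_inv₀ (sqrt_pos' h0 h1 hx)]
  rw [show (1 : ℝ) = √1 from Real.sqrt_one.symm]
  apply Real.sqrt_le_sqrt
  have := sq_nonneg (s' * x)
  rw [Real.sqrt_one]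
  linarith

theorem integrable_cont {n : ℕ} [IsProbabilityMeasure (sg n)] {f : Sph n → ℝ}
    (hf : Continuous f) : Integrable f (sg n) :=
  hf.integrable_of_hasCompactSupport (HasCompactSupport.of_compactSpace _)

theorem cont_coord {n : ℕ} (i : Fin n) : Continuous fun θ : Sph n => (θ : E n) i := by
  fun_prop

theorem cont_inv {n : ℕ} (i : Fin n) {s' : ℝ} (h0 : 0 ≤ s') (h1 : s' < 1) :
    Continuous fun θ : Sph n => (√(1 - (s' * (θ : E n) i) ^ 2))⁻¹ := by
  refine Continuous.inv₀ ?_ (fun θ => (sqrt_pos' h0 h1 (abs_coord_le θ i)).ne')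
  have := cont_coord i
  fun_prop

theorem t : S_SPH → S_LZ → S_EIG := by
  intro hSPH _ d hd s hGood X hX
  obtain ⟨hP, -, hint⟩ := hSPH d hd
  haveI := hP
  obtain ⟨hs0, hs1, hG⟩ := hGood
  obtain ⟨s', hs'⟩ : ∃ s', s' = ‖X‖ := ⟨_, rfl⟩
  have h0 : 0 ≤ s' := hs' ▸ norm_nonneg X
  have hle : s' ≤ s := hs' ▸ hX
  have h1 : s' < 1 := lt_of_le_of_lt hle hs1
  obtain ⟨hGr, hGt⟩ := hG s' ⟨h0, hle⟩
  obtain ⟨e, he, hXe⟩ := ex_unit X
  rw [← hs'] at hXe
  have hipX : ∀ θ, ip X θ = s' * ip e θ := by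
    intro θ
    rw [ip, hXe, real_inner_smul_left, ip]
  have hee : inner ℝ e e = (1 : ℝ) := by
    rw [real_inner_self_eq_norm_sq, he, one_pow]
  have hdR : (0 : ℝ) < d := by exact_mod_cast hd
  -- the second moment
  obtain ⟨b, hb⟩ : ∃ b, b = ∫ θ : Sph (d + 1), (θ : E (d + 1)) 0 ^ 2 ∂(sg (d + 1)) := ⟨_, rfl⟩
  have hcoordI : Integrable (fun θ : Sph (d + 1) => (θ : E (d + 1)) 0 ^ 2) (sg (d + 1)) :=
    integrable_cont ((cont_coord 0).pow 2)
  have hb1 : ∫ θ : Sph (d + 1), (1 - (θ : E (d + 1)) 0 ^ 2) ∂(sg (d + 1)) = 1 - b := by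
    rw [integral_sub (integrable_const _) hcoordI, ← hb]
    simp
  have hbpos : 0 < b ∧ 0 < 1 - b := by
    obtain ⟨e1, he1, he10⟩ : ∃ e1 : E (d + 1), ‖e1‖ = 1 ∧
        inner ℝ e1 (EuclideanSpace.single 0 (1 : ℝ) : E (d + 1)) = (0 : ℝ) := by
      refine ⟨EuclideanSpace.single (Fin.last d) 1, by simp, ?_⟩
      rw [EuclideanSpace.inner_single_left]
      have : (0 : Fin (d + 1)) ≠ Fin.last d := by
        intro h
        have := congrArg Fin.val h
        simp at this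
        omega
      simp [this.symm]
    have hone := hint (fun _ => 1) e1 (EuclideanSpace.single 0 1) (EuclideanSpace.single 0 1) he1
      continuousOn_const
    rw [he10] at hone
    simp only [one_mul, ip_single, mul_zero, sub_zero, add_zero] at hone
    have h2 : ∫ θ : Sph (d + 1), (θ : E (d + 1)) 0 * (θ : E (d + 1)) 0 ∂(sg (d + 1)) = b := by
      rw [hb]
      refine integral_congr_ae (Eventually.of_forall fun θ => ?_)
      beta_reduce
      ring
    rw [h2, hb1, real_inner_self_eq_norm_sq] at hone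
    have h3 : ‖(EuclideanSpace.single 0 1 : E (d + 1))‖ = 1 := by simp
    rw [h3, one_pow, mul_one, eq_div_iff hdR.ne'] at hone
    have h4 : b * (d + 1) = 1 := by linarith
    have h5 : 0 < b := by
      by_contra hcon
      push Not at hcon
      nlinarith
    refine ⟨h5, ?_⟩
    rw [← hone]
    exact mul_pos h5 hdR
  obtain ⟨hb0, hb1'⟩ := hbpos
  have hci := cont_inv (n := d + 1) 0 h0 h1
  have hkr : 0 < kr d s' := by
    refine lt_of_lt_of_le hb0 ?_
    rw [hb, kr]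
    have hcc : Continuous (fun θ : Sph (d + 1) => (θ : E (d + 1)) 0 ^ 2) := by
      fun_prop
    refine integral_mono hcoordI (integrable_cont (hcc.mul hci)) fun θ => ?_
    beta_reduce
    have h2 := one_le_inv h0 h1 (abs_coord_le θ 0)
    have h3 := sq_nonneg ((θ : E (d + 1)) 0)
    nlinarith
  have hkt : 0 < kt d s' := by
    rw [kt]
    refine div_pos (lt_of_lt_of_le hb1' ?_) hdR
    rw [← hb1]
    have hcc : Continuous (fun θ : Sph (d + 1) => (1 : ℝ) - (θ : E (d + 1)) 0 ^ 2) := by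
      fun_prop
    refine integral_mono (integrable_cont hcc) (integrable_cont (hcc.mul hci)) fun θ => ?_
    beta_reduce
    have h2 := one_le_inv h0 h1 (abs_coord_le θ 0)
    have h3 : 0 ≤ 1 - ((θ : E (d + 1)) 0) ^ 2 := by
      have h4 := abs_coord_le θ 0
      rw [← sq_abs]
      nlinarith [abs_nonneg ((θ : E (d + 1)) 0)]
    nlinarith
  -- the bilinear form
  have hcf : ContinuousOn (fun x : ℝ => (√(1 - (s' * x) ^ 2))⁻¹) (Icc (-1) 1) := by
    refine ContinuousOn.inv₀ (by fun_prop) fun x hx => ?_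
    exact (sqrt_pos' h0 h1 (abs_le.mpr hx)).ne'
  have hB : ∀ u v : E (d + 1), ∫ θ, (√(1 - ip X θ ^ 2))⁻¹ * (ip u θ * ip v θ) ∂(sg (d + 1)) =
      kt d s' * (inner ℝ u v - inner ℝ e u * inner ℝ e v) +
        kr d s' * (inner ℝ e u * inner ℝ e v) := by
    intro u v
    have h2 := hint _ e u v he hcf
    have h3 : ∫ θ, (√(1 - ip X θ ^ 2))⁻¹ * (ip u θ * ip v θ) ∂(sg (d + 1)) =
        ∫ θ, (√(1 - (s' * ip e θ) ^ 2))⁻¹ * (ip u θ * ip v θ) ∂(sg (d + 1)) := by
      refine integral_congr_ae (Eventually.of_forall fun θ => ?_)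
      beta_reduce
      rw [hipX]
    rw [h3, h2, kt, kr]
    have h4 : ∀ g : ℝ → ℝ, ∫ θ : Sph (d + 1), g ((θ : E (d + 1)) 0) *
        (1 - (θ : E (d + 1)) 0 ^ 2) ∂(sg (d + 1)) = ∫ θ : Sph (d + 1),
        (1 - (θ : E (d + 1)) 0 ^ 2) * g ((θ : E (d + 1)) 0) ∂(sg (d + 1)) := by
      intro g
      refine integral_congr_ae (Eventually.of_forall fun θ => ?_)
      beta_reduce
      rw [mul_comm]
    have h5 : ∀ g : ℝ → ℝ, ∫ θ : Sph (d + 1), g ((θ : E (d + 1)) 0) *
        (θ : E (d + 1)) 0 ^ 2 ∂(sg (d + 1)) = ∫ θ : Sph (d + 1),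
        (θ : E (d + 1)) 0 ^ 2 * g ((θ : E (d + 1)) 0) ∂(sg (d + 1)) := by
      intro g
      refine integral_congr_ae (Eventually.of_forall fun θ => ?_)
      beta_reduce
      rw [mul_comm]
    rw [h4 (fun x => (√(1 - (s' * x) ^ 2))⁻¹), h5 (fun x => (√(1 - (s' * x) ^ 2))⁻¹)]
  have hDZ : DZ X = Qm e (kt d s') (kr d s') := by
    ext i j
    have h2 := hB (EuclideanSpace.single i 1) (EuclideanSpace.single j 1)
    have hei : ∀ k : Fin (d + 1), inner ℝ e (EuclideanSpace.single k (1 : ℝ)) = e k := by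
      intro k
      rw [EuclideanSpace.inner_single_right]
      simp
    have hij : inner ℝ (EuclideanSpace.single i (1 : ℝ) : E (d + 1))
        (EuclideanSpace.single j (1 : ℝ)) = if i = j then (1 : ℝ) else 0 := by
      rw [EuclideanSpace.inner_single_left]
      simp
    rw [hei, hei, hij] at h2
    rw [Qm_apply]
    have h3 : DZ X i j = ∫ θ, (√(1 - ip X θ ^ 2))⁻¹ * (ip (EuclideanSpace.single i 1) θ *
        ip (EuclideanSpace.single j 1) θ) ∂(sg (d + 1)) := by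
      rw [DZ]
      refine integral_congr_ae (Eventually.of_forall fun θ => ?_)
      beta_reduce
      rw [ip_single, ip_single]
      ring
    rw [h3, h2]
  have hpd : (DZ X).PosDef := by
    rw [hDZ]
    exact Qm_posDef he hkt hkr
  refine ⟨hpd, ?_⟩
  -- the constant `c`
  obtain ⟨c, hc⟩ : ∃ c, c = √(1 - ‖X‖ ^ 2) := ⟨_, rfl⟩
  rw [← hc]
  have hr : 0 < 1 - s' ^ 2 := by nlinarith
  have hcpos : 0 < c := by
    rw [hc, ← hs']
    exact Real.sqrt_pos.mpr hr
  have hc2 : c ^ 2 = 1 - s' ^ 2 := by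
    rw [hc, ← hs']
    exact Real.sq_sqrt hr.le
  rw [hs', ← hc] at hGr hGt
  rw [← hs'] at hGr hGt
  have hL1 : L1 X = Qm e 1 c⁻¹ := by
    ext i j
    have hXi : ∀ i, X i = s' * e i := by
      intro i
      conv_lhs => rw [hXe]
      rw [PiLp.smul_apply, smul_eq_mul]
    rw [Qm_apply, L1, ← hc, hXi, hXi]
    have h3 : s' * e i * (s' * e j) / (c * (1 + c)) = (c⁻¹ - 1) * (e i * e j) := by
      have h4 : s' * e i * (s' * e j) = (1 - c ^ 2) * (e i * e j) := by
        rw [hc2]; ring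
      rw [h4]
      have h5 : (1 + c) ≠ 0 := by positivity
      field_simp
      ring
    rw [h3]
    ring
  have hinv : (DZ X)⁻¹ = Qm e (kt d s')⁻¹ (kr d s')⁻¹ := by
    apply Matrix.inv_eq_right_inv
    rw [hDZ, Qm_mul he, mul_inv_cancel₀ hkt.ne', mul_inv_cancel₀ hkr.ne', Qm_one]
  intro v
  rw [hinv, hL1, Qm_mul he, mul_one, cl_Qm]
  obtain ⟨ve, hve⟩ : ∃ ve, ve = inner ℝ e v := ⟨_, rfl⟩
  rw [← hve]
  obtain ⟨y, hy⟩ : ∃ y, y = (kt d s')⁻¹ • (v - ve • e) + ((kr d s')⁻¹ * c⁻¹ * ve) • e := ⟨_, rfl⟩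
  rw [← hy]
  have hey : inner ℝ e y = (kr d s')⁻¹ * c⁻¹ * ve := by
    rw [hy, inner_add_right, real_inner_smul_right, real_inner_smul_right, inner_sub_right,
      real_inner_smul_right, hee, ← hve]
    ring
  have hyy : inner ℝ y y = ((kt d s')⁻¹) ^ 2 * (‖v‖ ^ 2 - ve ^ 2) +
      ((kr d s')⁻¹ * c⁻¹ * ve) ^ 2 := by
    have hev : inner ℝ v e = ve := by rw [hve, real_inner_comm]
    have hvv : inner ℝ v v = ‖v‖ ^ 2 := real_inner_self_eq_norm_sq v
    conv_lhs => rw [hy]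
    simp only [inner_add_left, inner_add_right, real_inner_smul_left, real_inner_smul_right,
      inner_sub_left, inner_sub_right, hee, ← hve, hev, hvv]
    ring
  have hcf1 : ContinuousOn (fun x : ℝ => (√(1 - (s' * x) ^ 2)) ^ (d + 1)) (Icc (-1) 1) := by
    fun_prop
  have hI : ∫ θ, ip y θ ^ 2 * √(1 - ip X θ ^ 2) ^ (d + 1) ∂(sg (d + 1)) =
      At d s' * (inner ℝ y y - inner ℝ e y * inner ℝ e y) +
        Ar d s' * (inner ℝ e y * inner ℝ e y) := by
    have h2 := hint _ e y y he hcf1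
    have h3 : ∫ θ, ip y θ ^ 2 * √(1 - ip X θ ^ 2) ^ (d + 1) ∂(sg (d + 1)) =
        ∫ θ, (√(1 - (s' * ip e θ) ^ 2)) ^ (d + 1) * (ip y θ * ip y θ) ∂(sg (d + 1)) := by
      refine integral_congr_ae (Eventually.of_forall fun θ => ?_)
      beta_reduce
      rw [hipX]
      ring
    rw [h3, h2, At, Ar]
    have h4 : ∀ g : ℝ → ℝ, ∫ θ : Sph (d + 1), g ((θ : E (d + 1)) 0) *
        (1 - (θ : E (d + 1)) 0 ^ 2) ∂(sg (d + 1)) = ∫ θ : Sph (d + 1),
        (1 - (θ : E (d + 1)) 0 ^ 2) * g ((θ : E (d + 1)) 0) ∂(sg (d + 1)) := by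
      intro g
      refine integral_congr_ae (Eventually.of_forall fun θ => ?_)
      beta_reduce
      rw [mul_comm]
    have h5 : ∀ g : ℝ → ℝ, ∫ θ : Sph (d + 1), g ((θ : E (d + 1)) 0) *
        (θ : E (d + 1)) 0 ^ 2 ∂(sg (d + 1)) = ∫ θ : Sph (d + 1),
        (θ : E (d + 1)) 0 ^ 2 * g ((θ : E (d + 1)) 0) ∂(sg (d + 1)) := by
      intro g
      refine integral_congr_ae (Eventually.of_forall fun θ => ?_)
      beta_reduce
      rw [mul_comm]
    rw [h4 (fun x => (√(1 - (s' * x) ^ 2)) ^ (d + 1)), h5 (fun x => (√(1 - (s' * x) ^ 2)) ^ (d + 1))]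
  rw [hI, hyy, hey]
  have hcs : 0 ≤ ‖v‖ ^ 2 - ve ^ 2 := by
    have h2 := abs_real_inner_le_norm e v
    rw [he, one_mul, ← hve] at h2
    rw [← sq_abs ve]
    nlinarith [abs_nonneg ve]
  have ht : At d s' * ((kt d s')⁻¹) ^ 2 ≤ (d + 1) ^ 2 / d * c := by
    rw [div_mul_eq_mul_div, le_div_iff₀ hdR, inv_pow, ← div_eq_mul_inv, div_mul_eq_mul_div,
      div_le_iff₀ (by positivity)]
    linarith
  have hr' : Ar d s' * ((kr d s')⁻¹ * c⁻¹) ^ 2 ≤ (d + 1) ^ 2 / d * c := by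
    rw [← mul_inv, div_mul_eq_mul_div, le_div_iff₀ hdR, inv_pow, ← div_eq_mul_inv,
      div_mul_eq_mul_div, div_le_iff₀ (by positivity)]
    calc Ar d s' * d = d * Ar d s' := mul_comm _ _
      _ ≤ _ := hGr
      _ = _ := by ring
  have hfin1 := mul_le_mul_of_nonneg_right ht hcs
  have hfin2 := mul_le_mul_of_nonneg_right hr' (sq_nonneg ve)
  calc At d s' * ((kt d s')⁻¹ ^ 2 * (‖v‖ ^ 2 - ve ^ 2) + ((kr d s')⁻¹ * c⁻¹ * ve) ^ 2 -
        (kr d s')⁻¹ * c⁻¹ * ve * ((kr d s')⁻¹ * c⁻¹ * ve)) +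
        Ar d s' * ((kr d s')⁻¹ * c⁻¹ * ve * ((kr d s')⁻¹ * c⁻¹ * ve))
      = At d s' * (kt d s')⁻¹ ^ 2 * (‖v‖ ^ 2 - ve ^ 2) +
        Ar d s' * ((kr d s')⁻¹ * c⁻¹) ^ 2 * ve ^ 2 := by ring
    _ ≤ (d + 1) ^ 2 / d * c * (‖v‖ ^ 2 - ve ^ 2) + (d + 1) ^ 2 / d * c * ve ^ 2 :=
        add_le_add hfin1 hfin2
    _ = (d + 1) ^ 2 / d * c * ‖v‖ ^ 2 := by ring

end Pool.Agent.N526.CP.EIG
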