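import Pool.Agent.N526.CP.Stm

set_option autoImplicit false

open MeasureTheory Metric Set Filter Topology

namespace Pool.Agent.N526.CP.CAPS

open Pool.Agent.H241R3.FV Pool.Agent.N526.CP

theorem t : S_CAPS := by
  intro d hd ρ hρ hρ'
  set s := Real.sin ρ with hs
  have hs0 : 0 < s := Real.sin_pos_of_pos_of_lt_pi hρ (by linarith [Real.pi_pos])
  have hs1 : s < 1 := by
    have h := Real.sin_lt_sin_of_lt_of_le_pi_div_two (x := ρ) (y := Real.pi / 2) (by linarith)
      le_rfl hρ'
    simpa using h
  set h : ℝ → ℝ := fun r => (√(1 - r ^ 2))⁻¹ with hh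
  -- the integral as an integral of a function of the norm
  have e1 : capv d s = ∫ y : E (d + 1), (Iio s).indicator h ‖y‖ := by
    unfold capv
    rw [← integral_indicator measurableSet_ball]
    congr 1
    ext y
    by_cases hy : ‖y‖ < s
    · rw [indicator_of_mem (by simpa using hy), indicator_of_mem (by simpa using hy)]
    · rw [indicator_of_notMem (by simpa using hy), indicator_of_notMem (by simpa using hy)]
  rw [e1, integral_fun_norm_addHaar]
  have hdim : Module.finrank ℝ (E (d + 1)) = d + 1 := by simp
  have e2 : (sig (d + 1)).real univ = (d + 1 : ℕ) * (volume : Measure (E (d + 1))).real (ball 0 1) := by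
    unfold sig
    rw [Measure.toSphere_real_apply_univ, hdim]
  rw [e2, hdim, nsmul_eq_mul, smul_eq_mul, ← mul_assoc]
  congr 1
  -- the radial integral
  have e3 : ∫ y in Ioi (0 : ℝ), y ^ (d + 1 - 1) • (Iio s).indicator h y =
      ∫ y in (0 : ℝ)..s, y ^ d * h y := by
    rw [intervalIntegral.integral_of_le hs0.le, integral_Ioc_eq_integral_Ioo]
    have : (fun y : ℝ => y ^ (d + 1 - 1) • (Iio s).indicator h y) =
        (Iio s).indicator (fun y => y ^ d * h y) := by
      ext y
      by_cases hy : y < s
      · rw [indicator_of_mem (by simpa using hy), indicator_of_mem (by simpa using hy)]; simp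
      · rw [indicator_of_notMem (by simpa using hy), indicator_of_notMem (by simpa using hy)]
        simp
    rw [this, setIntegral_indicator measurableSet_Iio]
    congr 1
  rw [e3]
  have hcos : ∀ t ∈ uIcc (0 : ℝ) ρ, 0 < Real.cos t := by
    intro t ht
    rw [uIcc_of_le hρ.le] at ht
    exact Real.cos_pos_of_mem_Ioo ⟨by linarith [ht.1, Real.pi_pos], by linarith [ht.2]⟩
  have hsub := intervalIntegral.integral_comp_mul_deriv' (a := 0) (b := ρ) (f := Real.sin)
    (f' := Real.cos) (g := fun y => y ^ d * h y) (fun x _ => Real.hasDerivAt_sin x)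
    Real.continuous_cos.continuousOn (by
      apply ContinuousOn.mul (continuous_pow d).continuousOn
      apply ContinuousOn.inv₀
      · exact (Real.continuous_sqrt.comp (continuous_const.sub (continuous_pow 2))).continuousOn
      · rintro _ ⟨t, ht, rfl⟩
        rw [← Real.cos_sq', Real.sqrt_sq (hcos t ht).le]
        exact (hcos t ht).ne')
  rw [Real.sin_zero] at hsub
  rw [← hs] at hsub
  rw [← hsub]
  apply intervalIntegral.integral_congr
  intro t ht
  simp only [Function.comp, hh]
  rw [← Real.cos_sq', Real.sqrt_sq (hcos t ht).le, mul_assoc, inv_mul_cancel₀ (hcos t ht).ne',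
    mul_one]

end Pool.Agent.N526.CP.CAPS
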