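import Pool.Agent.N526.CP.Stm2

/-!
# CPN/GD1: the good radii in dimension two (helper645)
-/

set_option autoImplicit false

open MeasureTheory Metric Set Filter Topology

namespace Pool.Agent.N526.CP.GD1

open Pool.Agent.H241R3.FV

/-- tangent line of `u ^ (-1/2)` -/
lemma tang {u m : ℝ} (hu : 0 < u) (hm : 0 < m) :
    (√m)⁻¹ * (3 / 2 - u / (2 * m)) ≤ (√u)⁻¹ := by
  obtain ⟨a, ha⟩ : ∃ a : ℝ, a = √u := ⟨_, rfl⟩
  obtain ⟨b, hb⟩ : ∃ b : ℝ, b = √m := ⟨_, rfl⟩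
  have ha0 : 0 < a := by rw [ha]; exact Real.sqrt_pos.2 hu
  have hb0 : 0 < b := by rw [hb]; exact Real.sqrt_pos.2 hm
  have ha2 : u = a ^ 2 := by rw [ha, Real.sq_sqrt hu.le]
  have hb2 : m = b ^ 2 := by rw [hb, Real.sq_sqrt hm.le]
  rw [← ha, ← hb, ha2, hb2]
  have h1 : b⁻¹ * (3 / 2 - a ^ 2 / (2 * b ^ 2)) = (3 * b ^ 2 - a ^ 2) / (2 * b ^ 3) := by
    field_simp
  rw [h1, inv_eq_one_div, div_le_div_iff₀ (by positivity) ha0]
  nlinarith [mul_nonneg (sq_nonneg (a - b)) (show 0 ≤ a + 2 * b by positivity)]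

lemma x_le (θ : Sph 2) : ((θ : E 2) 0) ^ 2 ≤ 1 := by
  have h1 : ‖(θ : E 2)‖ = 1 := norm_sph θ
  have h2 : |(θ : E 2) 0| ≤ 1 := by
    rw [← Real.norm_eq_abs]
    exact (PiLp.norm_apply_le _ _).trans_eq h1
  rw [← sq_abs]
  nlinarith [abs_nonneg ((θ : E 2) 0)]

section
variable (hp : IsProbabilityMeasure (sg 2))
include hp

lemma cint {f : Sph 2 → ℝ} (hf : Continuous f) : Integrable f (sg 2) :=
  hf.integrable_of_hasCompactSupport (HasCompactSupport.of_compactSpace _)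

lemma quad (h2 : ∫ θ : Sph 2, (θ : E 2) 0 ^ 2 ∂(sg 2) = 1 / 2)
    (h4 : ∫ θ : Sph 2, (θ : E 2) 0 ^ 4 ∂(sg 2) = 3 / 8) (a b c : ℝ) :
    ∫ θ : Sph 2, (a + b * (θ : E 2) 0 ^ 2 + c * (θ : E 2) 0 ^ 4) ∂(sg 2) =
      a + b / 2 + 3 * c / 8 := by
  have i2 : Integrable (fun θ : Sph 2 => b * (θ : E 2) 0 ^ 2) (sg 2) := cint hp (by fun_prop)
  have i4 : Integrable (fun θ : Sph 2 => c * (θ : E 2) 0 ^ 4) (sg 2) := cint hp (by fun_prop)
  have e1 : ∫ θ : Sph 2, (a + b * (θ : E 2) 0 ^ 2 + c * (θ : E 2) 0 ^ 4) ∂(sg 2) =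
      ∫ θ : Sph 2, (a + b * (θ : E 2) 0 ^ 2) ∂(sg 2) +
        ∫ θ : Sph 2, c * (θ : E 2) 0 ^ 4 ∂(sg 2) := integral_add (cint hp (by fun_prop)) i4
  have e2 : ∫ θ : Sph 2, (a + b * (θ : E 2) 0 ^ 2) ∂(sg 2) =
      ∫ _ : Sph 2, a ∂(sg 2) + ∫ θ : Sph 2, b * (θ : E 2) 0 ^ 2 ∂(sg 2) :=
    integral_add (integrable_const a) i2
  rw [e1, e2, integral_const_mul, integral_const_mul, h2, h4]
  simp
  ring

end

theorem t : S_SPH → S_MOM → S_GD1 := by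
  intro hsph hmom s hs hs9
  have hp : IsProbabilityMeasure (sg 2) := (hsph 1 le_rfl).1
  obtain ⟨m2, m4, -⟩ := hmom 1 le_rfl
  have h2 : ∫ θ : Sph 2, (θ : E 2) 0 ^ 2 ∂(sg 2) = 1 / 2 := by
    refine m2.trans ?_
    norm_num
  have h4 : ∫ θ : Sph 2, (θ : E 2) 0 ^ 4 ∂(sg 2) = 3 / 8 := by
    refine m4.trans ?_
    norm_num
  refine ⟨hs, by linarith, ?_⟩
  intro r hr
  have hr0 : 0 ≤ r := hr.1
  have hr9 : r ≤ 9 / 10 := hr.2.trans hs9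
  obtain ⟨y, hy⟩ : ∃ y : ℝ, y = r ^ 2 := ⟨_, rfl⟩
  have hy0 : 0 ≤ y := by rw [hy]; positivity
  have hy1 : y ≤ 81 / 100 := by rw [hy]; nlinarith
  have hu : ∀ θ : Sph 2, 0 < 1 - (r * (θ : E 2) 0) ^ 2 := by
    intro θ
    have h1 := x_le θ
    have h3 : (r * (θ : E 2) 0) ^ 2 = y * ((θ : E 2) 0) ^ 2 := by rw [hy]; ring
    rw [h3]
    nlinarith [sq_nonneg ((θ : E 2) 0)]
  have hcs : Continuous fun θ : Sph 2 => (√(1 - (r * (θ : E 2) 0) ^ 2))⁻¹ := by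
    refine Continuous.inv₀ (by fun_prop) fun θ => ?_
    exact (Real.sqrt_pos.2 (hu θ)).ne'
  -- the two squares
  have hAr : Ar 1 r = (1 - 3 * y / 4) / 2 := by
    unfold Ar
    have e1 : ∀ θ : Sph 2, (θ : E 2) 0 ^ 2 * (√(1 - (r * (θ : E 2) 0) ^ 2)) ^ (1 + 1) =
        0 + 1 * (θ : E 2) 0 ^ 2 + (-y) * (θ : E 2) 0 ^ 4 := by
      intro θ
      rw [Real.sq_sqrt (hu θ).le, hy]
      ring
    refine (integral_congr_ae (Eventually.of_forall e1)).trans ?_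
    refine (quad hp h2 h4 0 1 (-y)).trans ?_
    ring
  have hAt : At 1 r = (1 - y / 4) / 2 := by
    unfold At
    have e1 : ∀ θ : Sph 2, (1 - (θ : E 2) 0 ^ 2) * (√(1 - (r * (θ : E 2) 0) ^ 2)) ^ (1 + 1) =
        1 + (-1 - y) * (θ : E 2) 0 ^ 2 + y * (θ : E 2) 0 ^ 4 := by
      intro θ
      rw [Real.sq_sqrt (hu θ).le, hy]
      ring
    rw [show ((1 : ℕ) : ℝ) = 1 by norm_num, div_one]
    refine (integral_congr_ae (Eventually.of_forall e1)).trans ?_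
    refine (quad hp h2 h4 1 (-1 - y) y).trans ?_
    ring
  -- the weights
  obtain ⟨m, hm⟩ : ∃ m : ℝ, m = 1 - 3 * y / 4 := ⟨_, rfl⟩
  have hm0 : 0 < m := by rw [hm]; linarith
  obtain ⟨m', hm'⟩ : ∃ m' : ℝ, m' = 1 - y / 4 := ⟨_, rfl⟩
  have hm0' : 0 < m' := by rw [hm']; linarith
  have hkr : (√m)⁻¹ / 2 ≤ kr 1 r := by
    unfold kr
    have e1 : ∀ θ : Sph 2, 0 + ((√m)⁻¹ * (3 / 2 - 1 / (2 * m))) * (θ : E 2) 0 ^ 2 +
        ((√m)⁻¹ * (y / (2 * m))) * (θ : E 2) 0 ^ 4 ≤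
        (θ : E 2) 0 ^ 2 * (√(1 - (r * (θ : E 2) 0) ^ 2))⁻¹ := by
      intro θ
      have e2 := mul_le_mul_of_nonneg_left (tang (hu θ) hm0) (sq_nonneg ((θ : E 2) 0))
      refine le_trans (le_of_eq ?_) e2
      rw [hy]
      field_simp
      ring
    refine le_trans (le_of_eq ?_) (integral_mono (cint hp (by fun_prop))
      (cint hp ((by fun_prop : Continuous fun θ : Sph 2 => (θ : E 2) 0 ^ 2).mul hcs)) e1)
    refine Eq.trans ?_ (quad hp h2 h4 _ _ _).symm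
    have : 2 * m = 2 - 3 * y / 2 := by rw [hm]; ring
    field_simp
    rw [hm]
    ring
  have hkt : (√m')⁻¹ / 2 ≤ kt 1 r := by
    unfold kt
    rw [show ((1 : ℕ) : ℝ) = 1 by norm_num, div_one]
    have e1 : ∀ θ : Sph 2, (√m')⁻¹ * (3 / 2 - 1 / (2 * m')) +
        ((√m')⁻¹ * (y / (2 * m') - (3 / 2 - 1 / (2 * m')))) * (θ : E 2) 0 ^ 2 +
        (-((√m')⁻¹ * (y / (2 * m')))) * (θ : E 2) 0 ^ 4 ≤
        (1 - (θ : E 2) 0 ^ 2) * (√(1 - (r * (θ : E 2) 0) ^ 2))⁻¹ := by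
      intro θ
      have h5 : 0 ≤ 1 - (θ : E 2) 0 ^ 2 := by linarith [x_le θ]
      have e2 := mul_le_mul_of_nonneg_left (tang (hu θ) hm0') h5
      refine le_trans (le_of_eq ?_) e2
      rw [hy]
      field_simp
      ring
    refine le_trans (le_of_eq ?_) (integral_mono (cint hp (by fun_prop))
      (cint hp ((by fun_prop : Continuous fun θ : Sph 2 => 1 - (θ : E 2) 0 ^ 2).mul hcs)) e1)
    refine Eq.trans ?_ (quad hp h2 h4 _ _ _).symm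
    field_simp
    rw [hm']
    ring
  -- the conditions
  obtain ⟨c, hc⟩ : ∃ c : ℝ, c = √(1 - r ^ 2) := ⟨_, rfl⟩
  have hc0 : 0 ≤ c := by rw [hc]; exact Real.sqrt_nonneg _
  have hc2 : c ^ 2 = 1 - y := by
    rw [hc, hy, Real.sq_sqrt]
    nlinarith
  have hsq : (√m)⁻¹ ^ 2 = m⁻¹ := by rw [inv_pow, Real.sq_sqrt hm0.le]
  have hsq' : (√m')⁻¹ ^ 2 = m'⁻¹ := by rw [inv_pow, Real.sq_sqrt hm0'.le]
  rw [← hc, hAr, hAt, ← hm, ← hm']
  have hkr2 : m⁻¹ / 4 ≤ kr 1 r ^ 2 := by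
    calc m⁻¹ / 4 = ((√m)⁻¹ / 2) ^ 2 := by rw [div_pow, hsq]; norm_num
      _ ≤ _ := pow_le_pow_left₀ (by positivity) hkr 2
  have hkt2 : m'⁻¹ / 4 ≤ kt 1 r ^ 2 := by
    calc m'⁻¹ / 4 = ((√m')⁻¹ / 2) ^ 2 := by rw [div_pow, hsq']; norm_num
      _ ≤ _ := pow_le_pow_left₀ (by positivity) hkt 2
  constructor
  · have k1 : m ^ 2 ≤ 2 * c ^ 3 := by
      rw [← sq_le_sq₀ (by positivity) (by positivity)]
      have k2 : (2 * c ^ 3) ^ 2 = 4 * (1 - y) ^ 3 := by rw [← hc2]; ring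
      rw [k2, hm]
      obtain ⟨w, hw⟩ : ∃ w : ℝ, w = 1 - y := ⟨_, rfl⟩
      have hw0 : 19 / 100 ≤ w := by rw [hw]; linarith
      have hw1 : w ≤ 1 := by rw [hw]; linarith
      have hyw : y = 1 - w := by rw [hw]; ring
      rw [hyw]
      have a3 : 1 ≤ 100 / 19 * w := by linarith
      have a2 : 1 * w ≤ 100 / 19 * w * w := mul_le_mul_of_nonneg_right a3 (by linarith)
      have a1 : 1 * w * w ≤ 100 / 19 * w * w * w := mul_le_mul_of_nonneg_right a2 (by linarith)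
      have a0 : w * w * w * w ≤ w * w * w * 1 :=
        mul_le_mul_of_nonneg_left hw1 (by positivity)
      have b1 : ((1 - 3 * (1 - w) / 4) ^ 2) ^ 2 =
        (81 * (w * w * w * w) + 108 * (w * w * w) + 54 * (w * w) + 12 * w + 1) / 256 := by ring
      have b2 : 4 * (1 - (1 - w)) ^ 3 = 4 * (w * w * w) := by ring
      rw [b1, b2]
      linarith
    have k3 : m / 2 ≤ c ^ 3 * m⁻¹ := by
      rw [← div_eq_mul_inv, le_div_iff₀ hm0]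
      have k4 : m / 2 * m = m ^ 2 / 2 := by ring
      linarith
    calc ((1 : ℕ) : ℝ) * (m / 2) = m / 2 := by norm_num
      _ ≤ c ^ 3 * m⁻¹ := k3
      _ = ((1 : ℕ) + 1 : ℝ) ^ 2 * c ^ 3 * (m⁻¹ / 4) := by norm_num; ring
      _ ≤ _ := mul_le_mul_of_nonneg_left hkr2 (by positivity)
  · have k1 : m' ^ 2 ≤ 2 * c := by
      rw [← sq_le_sq₀ (by positivity) (by positivity)]
      have k2 : (2 * c) ^ 2 = 4 * (1 - y) := by rw [← hc2]; ring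
      rw [k2, hm']
      have k4 : 0 ≤ 1 - y / 4 := by linarith
      have k5 : (1 - y / 4) ^ 2 ≤ 1 := by nlinarith
      have k6 : (1 - y / 4) ^ 2 ≤ 4 * (1 - y) := by nlinarith
      calc ((1 - y / 4) ^ 2) ^ 2 = (1 - y / 4) ^ 2 * (1 - y / 4) ^ 2 := by ring
        _ ≤ 1 * (1 - y / 4) ^ 2 := mul_le_mul_of_nonneg_right k5 (sq_nonneg _)
        _ ≤ 4 * (1 - y) := by linarith
    have k3 : m' / 2 ≤ c * m'⁻¹ := by
      rw [← div_eq_mul_inv, le_div_iff₀ hm0']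
      have k4 : m' / 2 * m' = m' ^ 2 / 2 := by ring
      linarith
    calc ((1 : ℕ) : ℝ) * (m' / 2) = m' / 2 := by norm_num
      _ ≤ c * m'⁻¹ := k3
      _ = ((1 : ℕ) + 1 : ℝ) ^ 2 * c * (m'⁻¹ / 4) := by norm_num; ring
      _ ≤ _ := mul_le_mul_of_nonneg_left hkt2 (by positivity)

end Pool.Agent.N526.CP.GD1
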