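import Pool.Agent.N526.CP.Stm

/-!
# Part MON of PROJECT CPN (helper526): strong monotonicity of `Z` (helper227)
-/

set_option autoImplicit false

open Matrix MeasureTheory Metric Set

namespace Pool.Agent.N526.CP.MON

open Pool.Agent.H241R3.FV

theorem arcsin_mono {a b : ℝ} (ha : |a| ≤ 1) (hb : |b| ≤ 1) :
    (a - b) ^ 2 ≤ (Real.arcsin a - Real.arcsin b) * (a - b) := by
  rw [abs_le] at ha hb
  have h1 : |a - b| ≤ |Real.arcsin a - Real.arcsin b| := by
    have := Real.abs_sin_sub_sin_le (Real.arcsin a) (Real.arcsin b)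
    rwa [Real.sin_arcsin ha.1 ha.2, Real.sin_arcsin hb.1 hb.2] at this
  rcases le_total b a with h | h
  · have h2 := Real.monotone_arcsin h
    rw [abs_of_nonneg (by linarith), abs_of_nonneg (by linarith)] at h1
    nlinarith
  · have h2 := Real.monotone_arcsin h
    rw [abs_of_nonpos (by linarith), abs_of_nonpos (by linarith)] at h1
    nlinarith

theorem abs_ip {n : ℕ} (X : E n) (θ : Sph n) : |ip X θ| ≤ ‖X‖ := by
  have hθ : ‖(θ : E n)‖ = 1 := by simp
  have := abs_real_inner_le_norm X (θ : E n)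
  rw [hθ, mul_one] at this
  exact this

theorem cont_ip {n : ℕ} (X : E n) : Continuous fun θ : Sph n => ip X θ := by
  unfold ip
  fun_prop

theorem t : S_SPH → S_MON := by
  intro hS d hd X Y hX hY
  obtain ⟨hprob, -, hS3⟩ := hS d hd
  have integ : ∀ {f : Sph (d + 1) → ℝ}, Continuous f → Integrable f (sg (d + 1)) := fun hf =>
    hf.integrable_of_hasCompactSupport (HasCompactSupport.of_compactSpace _)
  have integV : ∀ {f : Sph (d + 1) → E (d + 1)}, Continuous f → Integrable f (sg (d + 1)) :=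
    fun hf => hf.integrable_of_hasCompactSupport (HasCompactSupport.of_compactSpace _)
  -- second moments
  set R : ℝ := ∫ θ : Sph (d + 1), (θ : E (d + 1)) 0 ^ 2 ∂(sg (d + 1)) with hR
  have c0 : Continuous fun θ : Sph (d + 1) => (θ : E (d + 1)) 0 ^ 2 := by fun_prop
  have hT : ∫ θ : Sph (d + 1), (1 - (θ : E (d + 1)) 0 ^ 2) ∂(sg (d + 1)) = 1 - R := by
    rw [integral_sub (integrable_const _) (integ c0)]
    simp [hR]
  have h3 : ∀ e w : E (d + 1), ‖e‖ = 1 → ∫ θ, ip w θ ^ 2 ∂(sg (d + 1)) =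
      (1 - R) / d * (‖w‖ ^ 2 - inner ℝ e w ^ 2) + R * inner ℝ e w ^ 2 := by
    intro e w he
    have := hS3 (fun _ => 1) e w w he continuousOn_const
    simp only [one_mul] at this
    rw [hT, ← hR, real_inner_self_eq_norm_sq] at this
    calc ∫ θ, ip w θ ^ 2 ∂(sg (d + 1)) = ∫ θ, (ip w θ * ip w θ) ∂(sg (d + 1)) := by
          congr 1
          funext θ
          ring
      _ = _ := by rw [this]; ring
  have hd0 : (d : ℝ) ≠ 0 := by
    have : d ≠ 0 := by omega
    exact_mod_cast this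
  set e0 : E (d + 1) := EuclideanSpace.single 0 1 with he0
  set i1 : Fin (d + 1) := Fin.last d with hi1
  have hi : i1 ≠ 0 := by
    intro h
    have := congrArg Fin.val h
    rw [hi1, Fin.val_last] at this
    simp at this
    omega
  set e1 : E (d + 1) := EuclideanSpace.single i1 1 with he1
  have n0 : ‖e0‖ = 1 := by rw [he0]; simp
  have n1 : ‖e1‖ = 1 := by rw [he1]; simp
  have h01 : inner ℝ e1 e0 = (0 : ℝ) := by
    rw [he0, he1]
    simp [EuclideanSpace.inner_single_left, hi]
  have hRe : R * (d + 1) = 1 := by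
    have h4 := h3 e1 e0 n1
    have h5 : ∫ θ, ip e0 θ ^ 2 ∂(sg (d + 1)) = R := by
      rw [hR]
      congr 1
      funext θ
      rw [ip, he0, EuclideanSpace.inner_single_left]
      simp
    rw [h5, n0, h01] at h4
    field_simp at h4
    linarith
  have hRv : R = 1 / (d + 1) := by
    rw [eq_div_iff (by positivity)]
    exact hRe
  have hdR : (1 - R) / d = R := by
    rw [div_eq_iff hd0]
    linarith
  have hsq : ∫ θ, ip (X - Y) θ ^ 2 ∂(sg (d + 1)) = ‖X - Y‖ ^ 2 / (d + 1) := by
    rw [h3 e0 (X - Y) n0, hdR, hRv]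
    ring
  -- the inner product
  have hZ : ∀ W : E (d + 1), inner ℝ (Zf W) (X - Y) =
      ∫ θ, Real.arcsin (ip W θ) * ip (X - Y) θ ∂(sg (d + 1)) := by
    intro W
    have cW : Continuous fun θ : Sph (d + 1) => Real.arcsin (ip W θ) • (θ : E (d + 1)) :=
      (Real.continuous_arcsin.comp (cont_ip W)).smul continuous_subtype_val
    rw [real_inner_comm, Zf, ← integral_inner (integV cW)]
    congr 1
    funext θ
    rw [inner_smul_right]
    rfl
  have cA : ∀ W : E (d + 1), Continuous fun θ : Sph (d + 1) =>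
      Real.arcsin (ip W θ) * ip (X - Y) θ := fun W =>
    (Real.continuous_arcsin.comp (cont_ip W)).mul (cont_ip _)
  have hdiff : inner ℝ (Zf X - Zf Y) (X - Y) = ∫ θ, (Real.arcsin (ip X θ) * ip (X - Y) θ -
      Real.arcsin (ip Y θ) * ip (X - Y) θ) ∂(sg (d + 1)) := by
    rw [inner_sub_left, hZ, hZ, integral_sub (integ (cA X)) (integ (cA Y))]
  have hle : ∫ θ, ip (X - Y) θ ^ 2 ∂(sg (d + 1)) ≤ inner ℝ (Zf X - Zf Y) (X - Y) := by
    rw [hdiff]
    apply integral_mono (integ ((cont_ip _).pow 2)) (integ ((cA X).sub (cA Y)))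
    intro θ
    have h1 : ip (X - Y) θ = ip X θ - ip Y θ := by
      unfold ip
      rw [inner_sub_left]
    show ip (X - Y) θ ^ 2 ≤ Real.arcsin (ip X θ) * ip (X - Y) θ - Real.arcsin (ip Y θ) * ip (X - Y) θ
    rw [h1, ← sub_mul]
    exact arcsin_mono ((abs_ip X θ).trans hX) ((abs_ip Y θ).trans hY)
  rw [hsq, div_le_iff₀ (by positivity)] at hle
  linarith

end Pool.Agent.N526.CP.MON
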