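import Pool.Agent.N526.CP.Stm3
import Pool.Agent.N526.CP.CAPV

/-!
# CAPVF: the value of the calibration on a region of the cap (helper530)
-/

set_option autoImplicit false

open MeasureTheory Metric Set Filter Topology InnerProductGeometry Matrix

namespace Pool.Agent.N526.CP.CAPVF

open Pool.Agent.H241R3.FV Pool.Agent.N526.CP
open Pool.Agent.N526.CP.CAPV (ip_abs q_pos det_psi0)

variable {d : ℕ}

/-- the map `Ψ_θ` as a function of `X` -/
noncomputable def Ph {n : ℕ} (θ : Sph n) (X : E n) : E n :=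
  Uf θ X + Real.arcsin (ip X θ) • (θ : E n)

theorem ph_diff (hU : S_UDER) (hd : 1 ≤ d) (θ : Sph (d + 1)) {X : E (d + 1)} (hX : ‖X‖ < 1) :
    DifferentiableAt ℝ (Ph θ) X := by
  have hq := q_pos hX θ
  have hne : ip X θ ≠ -1 ∧ ip X θ ≠ 1 := by
    constructor <;> intro h <;> rw [h] at hq <;> norm_num at hq
  have h1 := ((hU d hd X hX).1 θ).differentiableAt
  have h2 : DifferentiableAt ℝ (fun X : E (d + 1) => ip X θ) X := by
    unfold ip
    exact differentiableAt_id.inner ℝ (differentiableAt_const _)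
  have h3 : DifferentiableAt ℝ (fun X : E (d + 1) => Real.arcsin (ip X θ)) X :=
    DifferentiableAt.comp (g := Real.arcsin) X
      (Real.hasDerivAt_arcsin hne.1 hne.2).differentiableAt h2
  exact h1.add (h3.smul_const _)

theorem ph_det (hU : S_UDER) (hD : S_DETV) (hd : 1 ≤ d) (θ : Sph (d + 1)) {X : E (d + 1)}
    (hX : ‖X‖ < 1) : (fderiv ℝ (Ph θ) X).det = ((√(1 - ip X θ ^ 2))⁻¹) ^ (d + 1) := by
  have h := det_psi0 hU hD hd (s := 1) θ (y := X) (by rwa [one_smul])
  have h1 : Psi0 1 θ = Ph θ := by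
    funext Y
    unfold Psi0 Ph
    rw [one_smul]
  rw [h1, one_smul, one_pow, one_mul] at h
  exact h

theorem det_comp {n : ℕ} (A B : E n →L[ℝ] E n) : (A.comp B).det = A.det * B.det := by
  show LinearMap.det _ = LinearMap.det _ * LinearMap.det _
  rw [ContinuousLinearMap.toLinearMap_comp, LinearMap.det_comp]

theorem det_psiF (hU : S_UDER) (hD : S_DETV) (hd : 1 ≤ d) {F : E (d + 1) → E (d + 1)}
    (θ : Sph (d + 1)) {y : E (d + 1)} (hy : ‖F y‖ < 1) (hF : DifferentiableAt ℝ F y) :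
    (fderiv ℝ (PsiF F θ) y).det =
      (fderiv ℝ F y).det * ((√(1 - ip (F y) θ ^ 2))⁻¹) ^ (d + 1) := by
  have h1 : PsiF F θ = Ph θ ∘ F := rfl
  rw [h1, fderiv_comp y (ph_diff hU hd θ hy) hF, det_comp, ph_det hU hD hd θ hy, mul_comm]

theorem det_hfF (hU : S_UDER) (hd : 1 ≤ d) {F : E (d + 1) → E (d + 1)} {y : E (d + 1)}
    (hy : ‖F y‖ < 1) (hF : DifferentiableAt ℝ F y) :
    (fderiv ℝ (Hf ∘ F) y).det = (fderiv ℝ F y).det * (√(1 - ‖F y‖ ^ 2))⁻¹ := by
  obtain ⟨T, hT, hTdet⟩ := (hU d hd (F y) hy).2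
  rw [fderiv_comp y hT.differentiableAt hF, det_comp, hT.fderiv, hTdet, mul_comm]

theorem t : S_SPH → S_GRAM → S_UDER → S_DETV → S_CAPVF := by
  intro hSPH hG hU hD d hd s hs0 hs1 F L hL hF
  have hprob := (hSPH d hd).1
  have hF1 : ∀ y ∈ ball (0 : E (d + 1)) 1, ‖F y‖ ≤ s := fun y hy => hF y (ball_subset_closedBall hy)
  have hLb : LipschitzOnWith L F (ball (0 : E (d + 1)) 1) := hL.mono ball_subset_closedBall
  have hdiff : ∀ᵐ y ∂(volume.restrict (ball (0 : E (d + 1)) 1)), DifferentiableAt ℝ F y := by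
    have h1 := hLb.ae_differentiableWithinAt (μ := (volume : Measure (E (d + 1))))
      measurableSet_ball
    filter_upwards [h1, ae_restrict_mem measurableSet_ball] with y h2 hy
    exact h2.differentiableAt (isOpen_ball.mem_nhds hy)
  have e1 : ∀ θ : Sph (d + 1), ∫ y in ball (0 : E (d + 1)) 1, (fderiv ℝ (PsiF F θ) y).det =
      ∫ y in ball (0 : E (d + 1)) 1,
        (fderiv ℝ F y).det * ((√(1 - ip (F y) θ ^ 2))⁻¹) ^ (d + 1) := by
    intro θ
    apply integral_congr_ae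
    filter_upwards [hdiff, ae_restrict_mem measurableSet_ball] with y h2 hy
    exact det_psiF hU hD hd θ ((hF1 y hy).trans_lt hs1) h2
  have e2 : ∫ y in ball (0 : E (d + 1)) 1, (fderiv ℝ (Hf ∘ F) y).det =
      ∫ y in ball (0 : E (d + 1)) 1, (fderiv ℝ F y).det * (√(1 - ‖F y‖ ^ 2))⁻¹ := by
    apply integral_congr_ae
    filter_upwards [hdiff, ae_restrict_mem measurableSet_ball] with y h2 hy
    exact det_hfF hU hd ((hF1 y hy).trans_lt hs1) h2
  -- the determinant is bounded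
  obtain ⟨C, hC⟩ : ∃ C : ℝ, ∀ y ∈ ball (0 : E (d + 1)) 1, |(fderiv ℝ F y).det| ≤ C := by
    obtain ⟨C, hC⟩ := (isCompact_closedBall (0 : E (d + 1) →L[ℝ] E (d + 1)) L
      ).exists_bound_of_continuousOn (f := fun A => A.det)
        (ContinuousLinearMap.continuous_det).continuousOn
    refine ⟨C, fun y hy => ?_⟩
    have h1 := norm_fderiv_le_of_lipschitzOn ℝ (isOpen_ball.mem_nhds hy) hLb
    exact hC _ (by rwa [mem_closedBall_zero_iff])
  have hC0 : 0 ≤ C := (abs_nonneg _).trans (hC 0 (mem_ball_self one_pos))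
  -- Fubini
  have hint : Integrable (Function.uncurry fun (θ : Sph (d + 1)) (y : E (d + 1)) =>
      (fderiv ℝ F y).det * ((√(1 - ip (F y) θ ^ 2))⁻¹) ^ (d + 1))
      ((sg (d + 1)).prod (volume.restrict (ball (0 : E (d + 1)) 1))) := by
    have hfin : IsFiniteMeasure (volume.restrict (ball (0 : E (d + 1)) 1)) :=
      ⟨by rw [Measure.restrict_apply_univ]; exact measure_ball_lt_top⟩
    have hprod : (sg (d + 1)).prod (volume.restrict (ball (0 : E (d + 1)) 1)) =
        ((sg (d + 1)).prod volume).restrict (univ ×ˢ ball (0 : E (d + 1)) 1) := by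
      rw [← Measure.prod_restrict, Measure.restrict_univ]
    have hms : MeasurableSet ((univ : Set (Sph (d + 1))) ×ˢ ball (0 : E (d + 1)) 1) :=
      MeasurableSet.univ.prod measurableSet_ball
    have hq0 : ∀ (θ : Sph (d + 1)) (y : E (d + 1)), y ∈ ball (0 : E (d + 1)) 1 →
        1 - s ^ 2 ≤ 1 - ip (F y) θ ^ 2 := by
      intro θ y hy
      have h1 := ip_abs (F y) θ
      have : ip (F y) θ ^ 2 ≤ s ^ 2 := by
        rw [← sq_abs]
        exact pow_le_pow_left₀ (abs_nonneg _) (h1.trans (hF1 y hy)) 2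
      linarith
    have h4 : 0 < 1 - s ^ 2 := by nlinarith
    have hmeas1 : AEStronglyMeasurable (fun z : Sph (d + 1) × E (d + 1) =>
        ((√(1 - ip (F z.2) z.1 ^ 2))⁻¹) ^ (d + 1))
        ((sg (d + 1)).prod (volume.restrict (ball (0 : E (d + 1)) 1))) := by
      rw [hprod]
      refine ContinuousOn.aestronglyMeasurable ?_ hms
      have hc0 : ContinuousOn (fun z : Sph (d + 1) × E (d + 1) => F z.2)
          (univ ×ˢ ball (0 : E (d + 1)) 1) :=
        hLb.continuousOn.comp continuous_snd.continuousOn fun z hz => hz.2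
      have hc1 : ContinuousOn (fun z : Sph (d + 1) × E (d + 1) => ip (F z.2) z.1)
          (univ ×ˢ ball (0 : E (d + 1)) 1) := by
        unfold ip
        exact hc0.inner (continuous_subtype_val.comp continuous_fst).continuousOn
      refine ContinuousOn.pow (ContinuousOn.inv₀ (Real.continuous_sqrt.comp_continuousOn
        (continuousOn_const.sub (hc1.pow 2))) ?_) _
      rintro ⟨θ, y⟩ ⟨_, hy⟩
      exact (Real.sqrt_pos.2 (h4.trans_le (hq0 θ y hy))).ne'
    have hmeas2 : AEStronglyMeasurable (fun z : Sph (d + 1) × E (d + 1) =>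
        (fderiv ℝ F z.2).det) ((sg (d + 1)).prod (volume.restrict (ball (0 : E (d + 1)) 1))) := by
      have h1 : Measurable fun y : E (d + 1) => (fderiv ℝ F y).det :=
        ContinuousLinearMap.continuous_det.measurable.comp (measurable_fderiv ℝ F)
      exact (h1.comp measurable_snd).aestronglyMeasurable
    refine Integrable.of_bound (hmeas2.mul hmeas1) (C * ((√(1 - s ^ 2))⁻¹) ^ (d + 1)) ?_
    rw [hprod]
    refine ae_restrict_of_forall_mem hms ?_
    rintro ⟨θ, y⟩ ⟨_, hy⟩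
    show ‖(fderiv ℝ F y).det * ((√(1 - ip (F y) θ ^ 2))⁻¹) ^ (d + 1)‖ ≤ _
    have h3 := hq0 θ y hy
    have h5 : 0 < √(1 - s ^ 2) := Real.sqrt_pos.2 h4
    rw [norm_mul, Real.norm_eq_abs, Real.norm_of_nonneg (by positivity)]
    have h6 := hC y hy
    gcongr
  have e3 : ∫ θ, (∫ y in ball (0 : E (d + 1)) 1,
        (fderiv ℝ F y).det * ((√(1 - ip (F y) θ ^ 2))⁻¹) ^ (d + 1)) ∂(sg (d + 1)) =
      ∫ y in ball (0 : E (d + 1)) 1, (fderiv ℝ F y).det * (√(1 - ‖F y‖ ^ 2))⁻¹ := by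
    rw [integral_integral_swap hint]
    refine setIntegral_congr_fun measurableSet_ball fun y hy => ?_
    show ∫ θ, (fderiv ℝ F y).det * ((√(1 - ip (F y) θ ^ 2))⁻¹) ^ (d + 1) ∂(sg (d + 1)) = _
    rw [integral_const_mul, (hG d hd (F y) ((hF1 y hy).trans_lt hs1)).1]
  simp only [e1]
  rw [e2, e3]
  ring

end Pool.Agent.N526.CP.CAPVF
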