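import Pool.Agent.N526.CP.Stm

/-!
Project CPN (helper526), part COF (helper499): the norm of the adjugate matrix.
-/

set_option autoImplicit false

open Matrix

namespace Pool.Agent.N526.CP.COF

theorem trace_mul_transpose {n : ℕ} (A : Matrix (Fin n) (Fin n) ℝ) :
    (A * Aᵀ).trace = ∑ i, ∑ j, A i j ^ 2 := by
  unfold Matrix.trace
  refine Finset.sum_congr rfl fun i _ => ?_
  rw [Matrix.diag_apply, Matrix.mul_apply]
  refine Finset.sum_congr rfl fun j _ => ?_
  rw [Matrix.transpose_apply]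
  ring

theorem trace_adj {n : ℕ} (U D V : Matrix (Fin n) (Fin n) ℝ) (h : V * U = 1) :
    (U * D * V).adjugate.trace = D.adjugate.trace := by
  rw [Matrix.adjugate_mul_distrib, Matrix.adjugate_mul_distrib, Matrix.trace_mul_comm,
    mul_assoc, ← Matrix.adjugate_mul_distrib, h, Matrix.adjugate_one, mul_one]

theorem exists_diag {n : ℕ} (K : Matrix (Fin n) (Fin n) ℝ) :
    ∃ (lam : Fin n → ℝ) (U V : Matrix (Fin n) (Fin n) ℝ), (∀ i, 0 ≤ lam i) ∧
      ∑ i, lam i = ∑ i, ∑ j, K i j ^ 2 ∧ V * U = 1 ∧ K * Kᵀ = U * diagonal lam * V := by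
  have hS : (K * Kᵀ).PosSemidef := by
    have h := Matrix.posSemidef_self_mul_conjTranspose K
    rwa [Matrix.conjTranspose_eq_transpose_of_trivial] at h
  refine ⟨hS.isHermitian.eigenvalues, (hS.isHermitian.eigenvectorUnitary :
        Matrix (Fin n) (Fin n) ℝ), star (hS.isHermitian.eigenvectorUnitary :
        Matrix (Fin n) (Fin n) ℝ), fun i => hS.eigenvalues_nonneg i, ?_, ?_, ?_⟩
  · have h := hS.isHermitian.trace_eq_sum_eigenvalues
    rw [trace_mul_transpose] at h
    exact h.symm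
  · exact Unitary.coe_star_mul_self _
  · have h := hS.isHermitian.spectral_theorem
    rw [Unitary.conjStarAlgAut_apply] at h
    exact h

theorem t : Pool.Agent.N526.CP.S_MAC → Pool.Agent.N526.CP.S_COF := by
  intro hmac d K
  obtain ⟨lam, U, V, h0, h1, h2, h3⟩ := exists_diag K
  have h4 : (K * Kᵀ).adjugate.trace = ∑ i, ∑ j, K.adjugate i j ^ 2 := by
    rw [Matrix.adjugate_mul_distrib, ← Matrix.adjugate_transpose, Matrix.trace_mul_comm,
      trace_mul_transpose]
  have h5 : (K * Kᵀ).adjugate.trace = ∑ i, ∏ j ∈ Finset.univ.erase i, lam j := by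
    rw [h3, trace_adj U _ V h2, Matrix.adjugate_diagonal, Matrix.trace_diagonal]
  rw [← h4, h5, ← h1]
  exact hmac d lam h0

end Pool.Agent.N526.CP.COF
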