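import Pool.Agent.N526.CP.Stm

set_option autoImplicit false

open MeasureTheory Metric Set Filter Topology InnerProductGeometry Matrix

namespace Pool.Agent.N526.CP.COM

open Pool.Agent.H241R3.FV
open scoped MatrixOrder

theorem finite_sg (n : ℕ) : IsFiniteMeasure (sg n) := by
  by_cases h : sig n univ = 0
  · have h0 : sig n = 0 := Measure.measure_univ_eq_zero.mp h
    unfold sg
    rw [h0, smul_zero]
    infer_instance
  · refine ⟨?_⟩
    unfold sg
    rw [Measure.smul_apply, smul_eq_mul]
    exact ENNReal.mul_lt_top (ENNReal.inv_lt_top.mpr (pos_iff_ne_zero.mpr h)) (measure_lt_top _ _)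

theorem exists_root {n : ℕ} (G : Matrix (Fin n) (Fin n) ℝ) (hG : G.PosDef) :
    ∃ A : Matrix (Fin n) (Fin n) ℝ, Aᵀ * G * A = 1 ∧ 0 < A.det ∧ A.det * √G.det = 1 := by
  have hnn : (0 : Matrix (Fin n) (Fin n) ℝ) ≤ G := hG.posSemidef.nonneg
  set P := CFC.sqrt G with hP
  have hPs : P.PosSemidef := (CFC.sqrt_nonneg _).posSemidef
  have hPP : P * P = G := CFC.sqrt_mul_sqrt_self _ hnn
  have hPt : Pᵀ = P := by
    have := hPs.isHermitian
    rwa [IsHermitian, conjTranspose_eq_transpose_of_trivial] at this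
  have hGd := hG.det_pos
  have hPd : P.det = √G.det := by
    rw [← hPP, det_mul, Real.sqrt_mul_self hPs.det_nonneg]
  have hpos : 0 < P.det := by
    rw [hPd]
    exact Real.sqrt_pos.mpr hGd
  have hu : IsUnit P.det := isUnit_iff_ne_zero.2 hpos.ne'
  refine ⟨P⁻¹, ?_, ?_, ?_⟩
  · rw [← hPP, transpose_nonsing_inv, hPt]
    rw [← Matrix.mul_assoc, nonsing_inv_mul _ hu, Matrix.one_mul, mul_nonsing_inv _ hu]
  · rw [det_nonsing_inv, Ring.inverse_eq_inv']
    exact inv_pos.mpr hpos
  · rw [det_nonsing_inv, Ring.inverse_eq_inv', ← hPd]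
    exact inv_mul_cancel₀ hpos.ne'

theorem inner_eq {n : ℕ} (u v : E n) : inner ℝ u v = ∑ i, u i * v i := by
  rw [PiLp.inner_apply]
  refine Finset.sum_congr rfl fun i _ => ?_
  simp [mul_comm]

theorem gnorm_root {n : ℕ} (G A : Matrix (Fin n) (Fin n) ℝ) (h : Aᵀ * G * A = 1)
    (x : E n) : gnorm G (act A x) = ‖x‖ := by
  unfold gnorm
  have h1 : (∑ i, ∑ j, (act A x) i * G i j * (act A x) j) =
      dotProduct (A.mulVec (fun k => x k))
        (G.mulVec (A.mulVec (fun k => x k))) := by
    simp only [dotProduct, Matrix.mulVec, act, Finset.mul_sum, mul_assoc]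
  have h2 : dotProduct (A.mulVec (fun k => x k))
        (G.mulVec (A.mulVec (fun k => x k))) =
      dotProduct (fun k => x k)
        ((Aᵀ * G * A).mulVec (fun k => x k)) := by
    rw [Matrix.mul_assoc, ← Matrix.mulVec_mulVec, ← Matrix.mulVec_mulVec,
      Matrix.dotProduct_mulVec (fun k => x k) Aᵀ, Matrix.vecMul_transpose]
  rw [h1, h2, h, Matrix.one_mulVec]
  have h3 : dotProduct (fun k => x k) (fun k => x k) = ‖x‖ ^ 2 := by
    rw [EuclideanSpace.norm_sq_eq]
    simp only [dotProduct]
    refine Finset.sum_congr rfl fun i _ => ?_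
    rw [Real.norm_eq_abs, sq_abs]
    ring
  rw [h3, Real.sqrt_sq (norm_nonneg _)]

theorem norm_le_one {n : ℕ} (G A : Matrix (Fin n) (Fin n) ℝ) (h : Aᵀ * G * A = 1)
    (α : E n) (hα : ∀ v, |inner ℝ α v| ≤ gnorm G v) : ‖act Aᵀ α‖ ≤ 1 := by
  set a := act Aᵀ α with ha
  have h1 : ‖a‖ ^ 2 = inner ℝ α (act A a) := by
    rw [← real_inner_self_eq_norm_sq, inner_eq, inner_eq]
    have h2 : ∀ i, a i = ∑ k, A k i * α k := fun i => by
      rw [ha]; simp [act, transpose_apply]
    have h3 : ∀ k, (act A a) k = ∑ i, A k i * a i := fun k => by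
      simp [act]
    calc ∑ i, a i * a i = ∑ i, ∑ k, A k i * α k * a i := by
          refine Finset.sum_congr rfl fun i _ => ?_
          nth_rewrite 1 [h2 i]
          rw [Finset.sum_mul]
      _ = ∑ k, ∑ i, A k i * α k * a i := Finset.sum_comm
      _ = ∑ k, α k * (act A a) k := by
          refine Finset.sum_congr rfl fun k _ => ?_
          rw [h3, Finset.mul_sum]
          refine Finset.sum_congr rfl fun i _ => ?_
          ring
  have h2 : ‖a‖ ^ 2 ≤ ‖a‖ := by
    rw [h1]
    refine (le_abs_self _).trans ((hα _).trans ?_)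
    rw [gnorm_root G A h]
  by_contra hlt
  push Not at hlt
  nlinarith [norm_nonneg a]

theorem t : S_COM1 → S_COM := by
  intro hcom d hd s hs X hX α hα G hG hb
  have := finite_sg (d + 1)
  obtain ⟨A, hA, hdet, hdet'⟩ := exists_root G hG
  set a : Sph (d + 1) → E (d + 1) := fun θ => act Aᵀ (α θ) with ha
  have hcont : Continuous (fun v : E (d + 1) => act Aᵀ v) := by
    unfold act
    fun_prop
  have hma : Measurable a := hcont.measurable.comp hα
  have hab : ∀ᵐ θ ∂(sg (d + 1)), ‖a θ‖ ≤ 1 := by
    filter_upwards [hb] with θ hθ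
    exact norm_le_one G A hA (α θ) hθ
  have haj : ∀ θ j, a θ j = ∑ k, α θ k * A k j := fun θ j => by
    rw [ha]; simp [act, transpose_apply, mul_comm]
  -- integrability
  have hint : ∀ i k : Fin (d + 1), Integrable (fun θ : Sph (d + 1) => (θ : E (d + 1)) i * α θ k)
      (sg (d + 1)) := by
    intro i k
    refine Integrable.of_bound (C := gnorm G (EuclideanSpace.single k 1)) ?_ ?_
    · have h1 : Measurable fun θ : Sph (d + 1) => (θ : E (d + 1)) i := by
        have : Continuous fun θ : Sph (d + 1) => (θ : E (d + 1)) i := by fun_prop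
        exact this.measurable
      have h2 : Measurable fun θ : Sph (d + 1) => α θ k := by
        have : Continuous fun v : E (d + 1) => v k := by fun_prop
        exact this.measurable.comp hα
      exact (h1.mul h2).aestronglyMeasurable
    · filter_upwards [hb] with θ hθ
      have h1 : |(θ : E (d + 1)) i| ≤ 1 := by
        have h2 := PiLp.norm_apply_le (θ : E (d + 1)) i
        rw [norm_sph] at h2
        simpa using h2
      have h3 : |α θ k| ≤ gnorm G (EuclideanSpace.single k 1) := by
        have h4 := hθ (EuclideanSpace.single k 1)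
        have h5 : inner ℝ (α θ) (EuclideanSpace.single k (1 : ℝ)) = α θ k := by
          rw [inner_eq]
          rw [Finset.sum_eq_single k]
          · simp
          · intro b _ hbk
            simp [hbk]
          · simp
        rwa [h5] at h4
      rw [norm_mul, Real.norm_eq_abs, Real.norm_eq_abs]
      calc |(θ : E (d + 1)) i| * |α θ k| ≤ 1 * |α θ k| := by gcongr
        _ = |α θ k| := one_mul _
        _ ≤ _ := h3
  have hMx : Mx (sg (d + 1)) (fun θ : Sph (d + 1) => (θ : E (d + 1))) a =
      Mx (sg (d + 1)) (fun θ : Sph (d + 1) => (θ : E (d + 1))) α * A := by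
    ext i j
    rw [Matrix.mul_apply]
    unfold Mx
    have h1 : ∀ θ : Sph (d + 1), (θ : E (d + 1)) i * a θ j =
        ∑ k, (θ : E (d + 1)) i * α θ k * A k j := fun θ => by
      rw [haj, Finset.mul_sum]
      refine Finset.sum_congr rfl fun k _ => ?_
      ring
    simp only [h1]
    rw [integral_finsetSum _ (fun k _ => (hint i k).mul_const _)]
    refine Finset.sum_congr rfl fun k _ => ?_
    rw [integral_mul_const]
  have hLm : Lm X a = Lm X α * A := by
    unfold Lm
    rw [hMx, Matrix.mul_assoc]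
  have hM : ∀ θ : Sph (d + 1), (Vm X θ * Lm X a +
      vecMulVec (fun i => (θ : E (d + 1)) i) (fun i => a θ i)).det =
      (Vm X θ * Lm X α + vecMulVec (fun i => (θ : E (d + 1)) i) (fun i => α θ i)).det * A.det := by
    intro θ
    rw [← det_mul, hLm, Matrix.add_mul, Matrix.mul_assoc, vecMulVec_mul]
    congr 3
    ext j
    rw [haj]
    simp [vecMul, dotProduct]
  have h := hcom d hd s hs X hX a hma hab
  simp only [hM] at h
  rw [integral_mul_const, hLm, det_mul] at h
  set I := ∫ θ, (Vm X θ * Lm X α +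
      vecMulVec (fun i => (θ : E (d + 1)) i) (fun i => α θ i)).det ∂(sg (d + 1)) with hI
  have h2 : ((d + 1) * I - d * ((Lm X α).det * (√(1 - ‖X‖ ^ 2))⁻¹)) * A.det ≤ 1 := by
    refine le_trans (le_of_eq ?_) h
    ring
  have h3 : √G.det = (A.det)⁻¹ := by
    field_simp
    rw [mul_comm]
    exact hdet'
  rw [h3]
  exact ((le_div_iff₀ hdet).mpr h2).trans_eq (one_div _)

end Pool.Agent.N526.CP.COM
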