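import Pool.Agent.N526.CP.Stm

/-! PROJECT CPN, part COM1 (helper985): the pointwise comass inequality in the Euclidean metric. -/

set_option autoImplicit false

open MeasureTheory Metric Set Filter Topology InnerProductGeometry Matrix
open scoped ENNReal

namespace Pool.Agent.N526.CP.COM1

open Pool.Agent.H241R3.FV

/-! ### linear algebra -/

theorem cl_apply {n : ℕ} (A : Matrix (Fin n) (Fin n) ℝ) (v : E n) (i : Fin n) :
    cl A v i = ∑ j, A i j * v j := rfl

theorem cl_mul {n : ℕ} (A B : Matrix (Fin n) (Fin n) ℝ) (v : E n) :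
    cl (A * B) v = cl A (cl B v) := by
  unfold cl
  rw [map_mul]
  rfl

theorem cl_one {n : ℕ} (v : E n) : cl (1 : Matrix (Fin n) (Fin n) ℝ) v = v := by
  unfold cl
  rw [map_one]
  rfl

theorem inner_eq {n : ℕ} (u v : E n) : inner ℝ u v = ∑ i, u i * v i := by
  rw [PiLp.inner_apply]
  refine Finset.sum_congr rfl fun i _ => ?_
  simp [mul_comm]

theorem inner_cl {n : ℕ} (A : Matrix (Fin n) (Fin n) ℝ) (u v : E n) :
    inner ℝ (cl A u) v = inner ℝ u (cl A.transpose v) := by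
  rw [inner_eq, inner_eq]
  simp only [cl_apply, Finset.sum_mul, Finset.mul_sum, transpose_apply]
  rw [Finset.sum_comm]
  refine Finset.sum_congr rfl fun i _ => Finset.sum_congr rfl fun j _ => ?_
  ring

theorem cl_L0 {n : ℕ} (X u : E n) :
    cl (L0 X) u = u - (inner ℝ X u / (1 + √(1 - ‖X‖ ^ 2))) • X := by
  ext i
  rw [cl_apply]
  simp only [L0, PiLp.sub_apply, PiLp.smul_apply, smul_eq_mul, inner_eq, sub_mul,
    Finset.sum_sub_distrib, ite_mul, one_mul, zero_mul, Finset.sum_ite_eq, Finset.mem_univ, if_true]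
  congr 1
  rw [Finset.sum_div, Finset.sum_mul]
  refine Finset.sum_congr rfl fun j _ => ?_
  ring

theorem c_pos {n : ℕ} {X : E n} (hX : ‖X‖ < 1) : 0 < √(1 - ‖X‖ ^ 2) := by
  apply Real.sqrt_pos.mpr
  have := norm_nonneg X
  nlinarith

theorem c_sq {n : ℕ} {X : E n} (hX : ‖X‖ < 1) : √(1 - ‖X‖ ^ 2) ^ 2 = 1 - ‖X‖ ^ 2 := by
  apply Real.sq_sqrt
  have := norm_nonneg X
  nlinarith

theorem inner_L0 {n : ℕ} {X : E n} (hX : ‖X‖ < 1) (u : E n) :
    inner ℝ X (cl (L0 X) u) = √(1 - ‖X‖ ^ 2) * inner ℝ X u := by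
  have h1 := c_pos hX
  have h2 := c_sq hX
  rw [cl_L0, inner_sub_right, inner_smul_right, real_inner_self_eq_norm_sq]
  have h3 : (1 + √(1 - ‖X‖ ^ 2)) ≠ 0 := by positivity
  field_simp
  linear_combination -(inner ℝ X u) * h2

theorem inner_L0_L0 {n : ℕ} {X : E n} (hX : ‖X‖ < 1) (hLZ : S_LZ) (u v : E n) :
    inner ℝ (cl (L0 X) u) (cl (L0 X) v) = inner ℝ u v - inner ℝ X u * inner ℝ X v := by
  obtain ⟨-, -, -, hsq, hs, -⟩ := hLZ n X hX
  rw [inner_cl, hs, ← cl_mul, inner_eq]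
  have : ∀ i, cl (L0 X * L0 X) v i = v i - X i * inner ℝ X v := by
    intro i
    rw [cl_apply]
    simp only [hsq, sub_mul, Finset.sum_sub_distrib, ite_mul, one_mul, zero_mul,
      Finset.sum_ite_eq, Finset.mem_univ, if_true, inner_eq, Finset.mul_sum]
    congr 1
    refine Finset.sum_congr rfl fun j _ => ?_
    ring
  simp only [this, mul_sub, Finset.sum_sub_distrib]
  rw [← inner_eq, inner_eq X u, Finset.sum_mul]
  congr 1
  refine Finset.sum_congr rfl fun j _ => ?_
  ring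

/-! ### the weight -/

/-- the weight `q` -/
noncomputable def q {n : ℕ} (X : E n) (θ : Sph n) : ℝ := √(1 - ip X θ ^ 2)

theorem ip_abs_le {n : ℕ} (X : E n) (θ : Sph n) : |ip X θ| ≤ ‖X‖ := by
  unfold ip
  calc _ ≤ ‖X‖ * ‖(θ : E n)‖ := abs_real_inner_le_norm _ _
    _ = ‖X‖ := by rw [norm_sph, mul_one]

theorem cont_ip {n : ℕ} (X : E n) : Continuous (ip X) := by
  unfold ip
  fun_prop

theorem q_pos {n : ℕ} {X : E n} (hX : ‖X‖ < 1) (θ : Sph n) : 0 < q X θ := by
  apply Real.sqrt_pos.mpr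
  have h1 := ip_abs_le X θ
  have h2 := abs_nonneg (ip X θ)
  have h3 := sq_abs (ip X θ)
  have := norm_nonneg X
  nlinarith

theorem cont_q {n : ℕ} (X : E n) : Continuous (q X) := by
  unfold q
  have := cont_ip X
  fun_prop

theorem cont_qi {n : ℕ} {X : E n} (hX : ‖X‖ < 1) : Continuous (fun θ => (q X θ)⁻¹) :=
  (cont_q X).inv₀ fun θ => (q_pos hX θ).ne'

/-- the density -/
noncomputable def w {n : ℕ} (X : E n) (θ : Sph n) : ℝ := √(1 - ‖X‖ ^ 2) * ((q X θ)⁻¹) ^ n

theorem w_pos {n : ℕ} {X : E n} (hX : ‖X‖ < 1) (θ : Sph n) : 0 < w X θ := by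
  have h1 := c_pos hX
  have h2 := q_pos hX θ
  unfold w
  positivity

theorem cont_w {n : ℕ} {X : E n} (hX : ‖X‖ < 1) : Continuous (w X) := by
  unfold w
  have := cont_qi hX
  fun_prop

/-- the measure -/
noncomputable def mu {n : ℕ} (X : E n) : Measure (Sph n) :=
  (sg n).withDensity fun θ => ENNReal.ofReal (w X θ)

theorem integral_mu {n : ℕ} {X : E n} (hX : ‖X‖ < 1) (f : Sph n → ℝ) :
    ∫ θ, f θ ∂(mu X) = ∫ θ, w X θ * f θ ∂(sg n) := by
  unfold mu
  rw [integral_withDensity_eq_integral_toReal_smul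
    (cont_w hX).measurable.ennreal_ofReal (Eventually.of_forall fun _ => ENNReal.ofReal_lt_top)]
  refine integral_congr_ae (Eventually.of_forall fun θ => ?_)
  simp only [smul_eq_mul]
  rw [ENNReal.toReal_ofReal (w_pos hX θ).le]

theorem integrable_cont {n : ℕ} [IsProbabilityMeasure (sg n)] {f : Sph n → ℝ}
    (hf : Continuous f) : Integrable f (sg n) :=
  hf.integrable_of_hasCompactSupport (HasCompactSupport.of_compactSpace _)

theorem prob_mu {d : ℕ} (hd : 1 ≤ d) [IsProbabilityMeasure (sg (d + 1))] (hG : S_GRAM)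
    {X : E (d + 1)} (hX : ‖X‖ < 1) : IsProbabilityMeasure (mu X) := by
  have h1 : ∫ θ, w X θ ∂(sg (d + 1)) = 1 := by
    unfold w
    rw [integral_const_mul]
    have := (hG d hd X hX).1
    unfold q
    rw [this]
    exact mul_inv_cancel₀ (c_pos hX).ne'
  constructor
  unfold mu
  rw [withDensity_apply _ MeasurableSet.univ, Measure.restrict_univ,
    ← ofReal_integral_eq_lintegral_ofReal (integrable_cont (cont_w hX))
      (Eventually.of_forall fun θ => (w_pos hX θ).le), h1, ENNReal.ofReal_one]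

/-! ### the vector fields -/

/-- the field `φ(θ) A θ` -/
noncomputable def vf {n : ℕ} (φ : Sph n → ℝ) (A : Matrix (Fin n) (Fin n) ℝ) (θ : Sph n) : E n :=
  φ θ • cl A (θ : E n)

theorem cont_vf {n : ℕ} {φ : Sph n → ℝ} (hφ : Continuous φ) (A : Matrix (Fin n) (Fin n) ℝ) :
    Continuous (vf φ A) := by
  unfold vf
  exact hφ.smul ((cl A).continuous.comp continuous_subtype_val)

theorem vf_apply {n : ℕ} (φ : Sph n → ℝ) (A : Matrix (Fin n) (Fin n) ℝ) (θ : Sph n) (i : Fin n) :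
    vf φ A θ i = φ θ * ∑ k, A i k * (θ : E n) k := rfl

theorem inner_vf {n : ℕ} (φ : Sph n → ℝ) (A : Matrix (Fin n) (Fin n) ℝ) (θ : Sph n) (u : E n) :
    inner ℝ (vf φ A θ) u = φ θ * ip (cl A.transpose u) θ := by
  unfold vf ip
  rw [inner_smul_left, inner_cl, real_inner_comm]
  simp

theorem cont_coord {n : ℕ} (k : Fin n) : Continuous (fun θ : Sph n => (θ : E n) k) := by
  fun_prop

/-- moments with a bounded field -/
noncomputable def Mo {n : ℕ} (φ : Sph n → ℝ) (a : Sph n → E n) : Matrix (Fin n) (Fin n) ℝ :=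
  fun i j => ∫ θ : Sph n, φ θ * (θ : E n) i * a θ j ∂(sg n)

theorem int_coord {n : ℕ} [IsProbabilityMeasure (sg n)] {φ : Sph n → ℝ} (hφ : Continuous φ)
    {a : Sph n → E n} (ha : Measurable a) (hb : ∀ᵐ θ ∂(sg n), ‖a θ‖ ≤ 1) (i j : Fin n) :
    Integrable (fun θ : Sph n => φ θ * (θ : E n) i * a θ j) (sg n) := by
  refine Integrable.mul_bdd (c := 1) (integrable_cont (hφ.mul (cont_coord i))) ?_ ?_
  · have : Measurable (fun θ => a θ j) := by
      have h1 : Measurable (fun v : E n => v j) := by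
        have : Continuous (fun v : E n => v j) := by fun_prop
        exact this.measurable
      exact h1.comp ha
    exact this.aestronglyMeasurable
  · filter_upwards [hb] with θ h
    exact (PiLp.norm_apply_le (a θ) j).trans h

theorem Mx_mu {n : ℕ} [IsProbabilityMeasure (sg n)] {X : E n} (hX : ‖X‖ < 1) {φ : Sph n → ℝ}
    (hφ : Continuous φ)
    {a : Sph n → E n} (ha : Measurable a) (hb : ∀ᵐ θ ∂(sg n), ‖a θ‖ ≤ 1)
    (A : Matrix (Fin n) (Fin n) ℝ) :
    Mx (mu X) (vf φ A) a = A * Mo (fun θ => w X θ * φ θ) a := by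
  ext i j
  unfold Mx
  rw [integral_mu hX, mul_apply]
  have h1 : (fun θ : Sph n => w X θ * (vf φ A θ i * a θ j)) =
      fun θ : Sph n => ∑ k, A i k * (w X θ * φ θ * (θ : E n) k * a θ j) := by
    funext θ
    rw [vf_apply, Finset.mul_sum, Finset.sum_mul, Finset.mul_sum]
    refine Finset.sum_congr rfl fun k _ => ?_
    ring
  rw [h1, integral_finsetSum]
  · refine Finset.sum_congr rfl fun k _ => ?_
    rw [integral_const_mul]
    rfl
  · intro k _
    exact (int_coord ((cont_w hX).mul hφ) ha hb k j).const_mul _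

/-- the quadratic form of `DZ` -/
theorem int_DZ {n : ℕ} [IsProbabilityMeasure (sg n)] {X : E n} (hX : ‖X‖ < 1) (x y : E n) :
    ∫ θ, (q X θ)⁻¹ * (ip x θ * ip y θ) ∂(sg n) = inner ℝ (cl (DZ X) x) y := by
  have h1 : (fun θ : Sph n => (q X θ)⁻¹ * (ip x θ * ip y θ)) =
      fun θ : Sph n => ∑ i, ∑ j, y i * (x j * ((θ : E n) i * (θ : E n) j * (q X θ)⁻¹)) := by
    funext θ
    unfold ip
    rw [inner_eq, inner_eq, Finset.sum_mul, Finset.mul_sum, Finset.sum_comm]
    refine Finset.sum_congr rfl fun j _ => ?_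
    rw [Finset.mul_sum, Finset.mul_sum]
    refine Finset.sum_congr rfl fun i _ => ?_
    ring
  have hint : ∀ i j, Integrable (fun θ : Sph n => (θ : E n) i * (θ : E n) j * (q X θ)⁻¹) (sg n) :=
    fun i j => integrable_cont (((cont_coord i).mul (cont_coord j)).mul (cont_qi hX))
  rw [h1, integral_finsetSum _ (fun i _ => integrable_finsetSum _ fun j _ =>
    ((hint i j).const_mul _).const_mul _), inner_eq]
  refine Finset.sum_congr rfl fun i _ => ?_
  rw [integral_finsetSum _ (fun j _ => ((hint i j).const_mul _).const_mul _), cl_apply,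
    Finset.sum_mul]
  refine Finset.sum_congr rfl fun j _ => ?_
  rw [integral_const_mul, integral_const_mul]
  unfold DZ q
  ring

theorem alg1 (c A B x y z : ℝ) (hc : c ≠ 0) (h : A * B = 1) :
    c * A * (B / c * x * (z * y)) = z * (x * y) := by
  have h1 : c * A * (B / c * x * (z * y)) = (A * B) * (z * (x * y)) := by field_simp
  rw [h1, h, one_mul]

theorem alg2 (c A B x : ℝ) (hc : c ≠ 0) (h : A * B = 1) :
    c * A * (B / c * x) ^ 2 = c⁻¹ * (x ^ 2 * B) := by
  have h1 : c * A * (B / c * x) ^ 2 = (A * B) * (c⁻¹ * (x ^ 2 * B)) := by field_simp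
  rw [h1, h, one_mul]

theorem alg3 (c A B x y : ℝ) (hc : c ≠ 0) (h : A * B = 1) :
    c * A * (B / c) * x * y = x * y := by
  have h1 : c * A * (B / c) * x * y = (A * B) * (x * y) := by field_simp
  rw [h1, h, one_mul]

theorem qq {n : ℕ} {X : E n} (hX : ‖X‖ < 1) (θ : Sph n) (k : ℕ) :
    (q X θ)⁻¹ ^ k * q X θ ^ k = 1 := by
  rw [← mul_pow, inv_mul_cancel₀ (q_pos hX θ).ne', one_pow]

/-- COM1 -/
theorem t : S_ABS → S_DETV → S_GRAM → S_LZ → S_EIG → S_SPH → S_COM1 := by
  intro hABS hDETV hG hLZ hEIG hSPH d hd s hs X hXs a ha hb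
  haveI := (hSPH d hd).1
  have hX : ‖X‖ < 1 := lt_of_le_of_lt hXs hs.2.1
  have hc := c_pos hX
  have hc2 := c_sq hX
  obtain ⟨hPD, hEig⟩ := hEIG d hd s hs X hXs
  obtain ⟨hL01, hL10, hdet0, hsq, hsym0, hsym1⟩ := hLZ (d + 1) X hX
  haveI := prob_mu hd hG hX
  set c := √(1 - ‖X‖ ^ 2) with hcdef
  have hDu : IsUnit (DZ X).det := hPD.det_pos.ne'.isUnit
  have hDsym : (DZ X).transpose = DZ X := by
    ext i j
    simp only [transpose_apply, DZ]
    refine integral_congr_ae (Eventually.of_forall fun θ => ?_)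
    ring
  have hDD : DZ X * (DZ X)⁻¹ = 1 := Matrix.mul_nonsing_inv _ hDu
  have hDisym : ((DZ X)⁻¹).transpose = (DZ X)⁻¹ := by
    rw [Matrix.transpose_nonsing_inv, hDsym]
  have hTs : (L1 X * (DZ X)⁻¹).transpose = (DZ X)⁻¹ * L1 X := by
    rw [Matrix.transpose_mul, hDisym, hsym1]
  -- the fields
  set ν : Sph (d + 1) → E (d + 1) := vf (fun θ => (q X θ)⁻¹) (L0 X) with hν
  set p : Sph (d + 1) → E (d + 1) := vf (fun θ => q X θ ^ (d + 1) / c) (L1 X * (DZ X)⁻¹) with hp
  have hcq : Continuous (fun θ : Sph (d + 1) => q X θ ^ (d + 1) / c) :=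
    ((cont_q X).pow _).div_const _
  have hνc : Continuous ν := cont_vf (cont_qi hX) _
  have hpc : Continuous p := cont_vf hcq _
  have hbd : ∃ C : ℝ, ∀ ω, ‖ν ω‖ ≤ C ∧ ‖p ω‖ ≤ C := by
    obtain ⟨C1, h1⟩ := (isCompact_univ (X := Sph (d + 1))).exists_bound_of_continuousOn
      hνc.continuousOn
    obtain ⟨C2, h2⟩ := (isCompact_univ (X := Sph (d + 1))).exists_bound_of_continuousOn
      hpc.continuousOn
    exact ⟨max C1 C2, fun ω => ⟨(h1 ω (mem_univ _)).trans (le_max_left _ _),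
      (h2 ω (mem_univ _)).trans (le_max_right _ _)⟩⟩
  have hq : ∀ θ : Sph (d + 1), q X θ ≠ 0 := fun θ => (q_pos hX θ).ne'
  have hae : ∀ᵐ ω ∂(mu X), ‖a ω‖ ≤ 1 := (withDensity_absolutelyContinuous _ _).ae_le hb
  -- (i)
  have hi : ∀ u v : E (d + 1), ∫ ω, inner ℝ (ν ω) u * inner ℝ (ν ω) v ∂(mu X) =
      inner ℝ u v / (d + 1) := by
    intro u v
    rw [integral_mu hX]
    have h1 : (fun θ : Sph (d + 1) => w X θ * (inner ℝ (ν θ) u * inner ℝ (ν θ) v)) =
        fun θ => c * (((√(1 - ip X θ ^ 2))⁻¹) ^ (d + 3) *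
          (ip (cl (L0 X) u) θ * ip (cl (L0 X) v) θ)) := by
      funext θ
      rw [hν, inner_vf, inner_vf, hsym0]
      unfold w q
      rw [← hcdef]
      ring
    rw [h1, integral_const_mul, (hG d hd X hX).2, inner_L0 hX, inner_L0 hX, inner_L0_L0 hX hLZ,
      ← hcdef]
    have h2 : 1 - ‖X‖ ^ 2 = c ^ 2 := hc2.symm
    rw [h2]
    have h3 : (d + 1 : ℝ) ≠ 0 := by positivity
    field_simp
    ring
  -- (ii)
  have hii : ∀ u v : E (d + 1), ∫ ω, inner ℝ (p ω) u * inner ℝ (ν ω) v ∂(mu X) =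
      inner ℝ u v := by
    intro u v
    rw [integral_mu hX]
    have h1 : (fun θ : Sph (d + 1) => w X θ * (inner ℝ (p θ) u * inner ℝ (ν θ) v)) =
        fun θ => (q X θ)⁻¹ * (ip (cl ((DZ X)⁻¹ * L1 X) u) θ * ip (cl (L0 X) v) θ) := by
      funext θ
      rw [hν, hp, inner_vf, inner_vf, hsym0, hTs]
      unfold w
      rw [← hcdef]
      exact alg1 _ _ _ _ _ _ hc.ne' (qq hX θ _)
    rw [h1, int_DZ hX, ← cl_mul, ← Matrix.mul_assoc, hDD, Matrix.one_mul, inner_cl, ← cl_mul,
      hsym1, hL10, cl_one]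
  -- (iii)
  have hiii : ∀ v : E (d + 1), ∫ ω, inner ℝ (p ω) v ^ 2 ∂(mu X) ≤ (d + 1) ^ 2 / d * ‖v‖ ^ 2 := by
    intro v
    rw [integral_mu hX]
    have h1 : (fun θ : Sph (d + 1) => w X θ * (inner ℝ (p θ) v) ^ 2) =
        fun θ => c⁻¹ * (ip (cl ((DZ X)⁻¹ * L1 X) v) θ ^ 2 * √(1 - ip X θ ^ 2) ^ (d + 1)) := by
      funext θ
      rw [hp, inner_vf, hTs]
      unfold w
      rw [← hcdef]
      change c * (q X θ)⁻¹ ^ (d + 1) *
        (q X θ ^ (d + 1) / c * ip (cl ((DZ X)⁻¹ * L1 X) v) θ) ^ 2 =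
        c⁻¹ * (ip (cl ((DZ X)⁻¹ * L1 X) v) θ ^ 2 * q X θ ^ (d + 1))
      exact alg2 _ _ _ _ hc.ne' (qq hX θ _)
    rw [h1, integral_const_mul]
    calc _ ≤ c⁻¹ * ((d + 1) ^ 2 / d * c * ‖v‖ ^ 2) :=
          mul_le_mul_of_nonneg_left (hEig v) (inv_pos.mpr hc).le
      _ = _ := by field_simp
  have hfin := hABS d hd (Sph (d + 1)) (mu X) ν p a hνc.measurable hpc.measurable ha hbd hae
    hi hii hiii
  -- the matrices
  set K := Mx (mu X) p a with hK
  have hKL : K = L1 X * Lm X a := by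
    rw [hK, hp, Mx_mu hX hcq ha hb, Matrix.mul_assoc]
    congr 2
    ext i j
    unfold Mo Mx
    refine integral_congr_ae (Eventually.of_forall fun θ => ?_)
    simp only
    unfold w
    rw [← hcdef]
    exact alg3 _ _ _ _ _ hc.ne' (qq hX θ _)
  have hLK : Lm X a = L0 X * K := by
    rw [hKL, ← Matrix.mul_assoc, hL01, Matrix.one_mul]
  set N0 : Matrix (Fin (d + 1)) (Fin (d + 1)) ℝ :=
    Mo (fun θ => ((q X θ)⁻¹) ^ (d + 2)) a with hN0
  have hB : Mx (mu X) ν a = c • (L0 X * N0) := by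
    rw [hν, Mx_mu hX (cont_qi hX) ha hb, ← Matrix.mul_smul]
    congr 1
    ext i j
    rw [Matrix.smul_apply, hN0]
    unfold Mo
    rw [smul_eq_mul, ← integral_const_mul]
    refine integral_congr_ae (Eventually.of_forall fun θ => ?_)
    simp only
    unfold w
    rw [← hcdef]
    ring
  -- the integral of the determinant
  have hqk : Continuous (fun θ : Sph (d + 1) => ((q X θ)⁻¹) ^ (d + 2)) := (cont_qi hX).pow _
  have hdetint : ∫ θ, (Vm X θ * Lm X a +
      vecMulVec (fun i => (θ : E (d + 1)) i) (fun i => a θ i)).det ∂(sg (d + 1)) =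
      ((Lm X a).adjugate * (L0 X * L0 X * N0)).trace := by
    have h1 : (fun θ : Sph (d + 1) => (Vm X θ * Lm X a +
        vecMulVec (fun i => (θ : E (d + 1)) i) (fun i => a θ i)).det) =
        fun θ : Sph (d + 1) => ∑ i, ∑ j, ∑ k, (Lm X a).adjugate i j * ((L0 X * L0 X) j k *
          (((q X θ)⁻¹) ^ (d + 2) * (θ : E (d + 1)) k * a θ i)) := by
      funext θ
      rw [hDETV (d + 1) X θ hX (Lm X a) (fun i => a θ i)]
      simp only [dotProduct, mulVec, Wv]
      refine Finset.sum_congr rfl fun i _ => ?_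
      rw [Finset.mul_sum]
      refine Finset.sum_congr rfl fun j _ => ?_
      have h2 : ∑ k, (L0 X * L0 X) j k * (θ : E (d + 1)) k = (θ : E (d + 1)) j - ip X θ * X j := by
        simp only [hsq, sub_mul, Finset.sum_sub_distrib, ite_mul, one_mul, zero_mul,
          Finset.sum_ite_eq, Finset.mem_univ, if_true]
        congr 1
        unfold ip
        rw [inner_eq, Finset.sum_mul]
        refine Finset.sum_congr rfl fun k _ => ?_
        ring
      have h3 : ∑ k, (Lm X a).adjugate i j * ((L0 X * L0 X) j k *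
          (((q X θ)⁻¹) ^ (d + 2) * (θ : E (d + 1)) k * a θ i)) =
          (Lm X a).adjugate i j * ((q X θ)⁻¹) ^ (d + 2) * a θ i *
            ∑ k, (L0 X * L0 X) j k * (θ : E (d + 1)) k := by
        rw [Finset.mul_sum]
        refine Finset.sum_congr rfl fun k _ => ?_
        ring
      rw [h3, h2]
      unfold q
      ring
    have hint : ∀ i k, Integrable (fun θ : Sph (d + 1) =>
        ((q X θ)⁻¹) ^ (d + 2) * (θ : E (d + 1)) k * a θ i) (sg (d + 1)) := fun i k =>
      int_coord hqk ha hb k i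
    rw [h1, integral_finsetSum _ fun i _ => integrable_finsetSum _ fun j _ =>
      integrable_finsetSum _ fun k _ => ((hint i k).const_mul _).const_mul _]
    unfold Matrix.trace
    refine Finset.sum_congr rfl fun i _ => ?_
    rw [diag_apply, mul_apply, integral_finsetSum _ fun j _ =>
      integrable_finsetSum _ fun k _ => ((hint i k).const_mul _).const_mul _]
    refine Finset.sum_congr rfl fun j _ => ?_
    rw [mul_apply, Finset.mul_sum, integral_finsetSum _ fun k _ =>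
      ((hint i k).const_mul _).const_mul _]
    refine Finset.sum_congr rfl fun k _ => ?_
    rw [integral_const_mul, integral_const_mul]
    rfl
  have hadj0 : (L0 X).adjugate = c • L1 X := by
    have h1 : L0 X * (L0 X).adjugate = (L0 X).det • (1 : Matrix _ _ ℝ) := Matrix.mul_adjugate _
    calc (L0 X).adjugate = L1 X * (L0 X * (L0 X).adjugate) := by
          rw [← Matrix.mul_assoc, hL10, Matrix.one_mul]
      _ = c • L1 X := by rw [h1, hdet0, Matrix.mul_smul, Matrix.mul_one]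
  have hfirst : (Lm X a).adjugate * (L0 X * L0 X * N0) = K.adjugate * Mx (mu X) ν a := by
    rw [hLK, Matrix.adjugate_mul_distrib, hadj0, hB]
    simp only [Matrix.mul_smul, Matrix.smul_mul]
    congr 1
    rw [Matrix.mul_assoc, Matrix.mul_assoc, ← Matrix.mul_assoc (L1 X), hL10, Matrix.one_mul]
  have hdetL : (Lm X a).det * c⁻¹ = K.det := by
    rw [hLK, Matrix.det_mul, hdet0]
    field_simp
  rw [hdetint, hfirst, hdetL]
  rw [Matrix.mul_smul, Matrix.trace_smul, smul_eq_mul] at hfin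
  exact hfin

end Pool.Agent.N526.CP.COM1
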