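import Pool.Agent.N526.CP.Stm3
import Pool.Agent.N526.CP.EXT

/-!
# EXTF: Lipschitz extension of the boundary functions, for a map `F` (helper225)
-/

set_option autoImplicit false

open MeasureTheory Metric Set Filter Topology InnerProductGeometry

namespace Pool.Agent.N526.CP.EXTF

open Pool.Agent.H241R3.FV
open Pool.Agent.N526.CP
open Pool.Agent.N526.CP.EXT (arcsin_lip iInf_le_add)

/-- triangle inequality on the sphere one dimension higher -/
lemma arcsin_le {n : ℕ} {X Y : E n} (hX : ‖X‖ ≤ 1) (hY : ‖Y‖ ≤ 1) (θ : Sph n) :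
    Real.arcsin (inner ℝ X (θ : E n)) - Real.arcsin (inner ℝ Y (θ : E n)) ≤ hdist X Y := by
  let P : E n → WithLp 2 (E n × ℝ) := fun X => WithLp.toLp 2 (X, √(1 - ‖X‖ ^ 2))
  let Q : WithLp 2 (E n × ℝ) := WithLp.toLp 2 ((θ : E n), (0 : ℝ))
  have hin : ∀ X Y : E n, inner ℝ (P X) (P Y) =
      √(1 - ‖X‖ ^ 2) * √(1 - ‖Y‖ ^ 2) + inner ℝ X Y := by
    intro X Y
    simp only [P, WithLp.prod_inner_apply]
    simp
    ring
  have hinQ : ∀ X : E n, inner ℝ (P X) Q = inner ℝ X (θ : E n) := by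
    intro X
    simp only [P, Q, WithLp.prod_inner_apply]
    simp
  have hP : ∀ X : E n, ‖X‖ ≤ 1 → ‖P X‖ = 1 := by
    intro X hX
    have h1 : ‖P X‖ ^ 2 = 1 := by
      rw [← real_inner_self_eq_norm_sq, hin, real_inner_self_eq_norm_sq,
        Real.mul_self_sqrt (by nlinarith [norm_nonneg X])]
      ring
    have h2 := norm_nonneg (P X)
    nlinarith
  have hQ : ‖Q‖ = 1 := by
    have h1 : ‖Q‖ ^ 2 = 1 := by
      rw [← real_inner_self_eq_norm_sq]
      simp only [Q, WithLp.prod_inner_apply]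
      simp
    have h2 := norm_nonneg Q
    nlinarith
  have a1 : angle (P Y) (P X) = hdist X Y := by
    unfold angle hdist
    rw [hP Y hY, hP X hX, hin, real_inner_comm, mul_comm (√(1 - ‖Y‖ ^ 2))]
    simp
  have a2 : ∀ X : E n, ‖X‖ ≤ 1 → angle (P X) Q =
      Real.pi / 2 - Real.arcsin (inner ℝ X (θ : E n)) := by
    intro X hX
    unfold angle
    rw [hP X hX, hQ, hinQ, ← Real.arccos_eq_pi_div_two_sub_arcsin]
    simp
  have h := angle_le_angle_add_angle (P Y) (P X) Q
  rw [a1, a2 X hX, a2 Y hY] at h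
  linarith

lemma ref (hREF : S_REF) {n : ℕ} {s : ℝ} (hs0 : 0 < s) (hs1 : s < 1) {X : E n} (hX : ‖X‖ ≤ s)
    (θ : Sph n) (e θ' : E n) (he : ‖e‖ = 1) (hpos : 0 ≤ ip e θ)
    (hθ' : θ' = (θ : E n) - (2 * ip e θ) • e) :
    Real.arcsin (inner ℝ X (θ : E n)) - Real.arcsin (inner ℝ X θ') ≤
      2 * Real.arcsin (s * ip e θ) := by
  rcases eq_or_ne X 0 with h0 | h0
  · subst h0
    have h1 : 0 ≤ Real.arcsin (s * ip e θ) := Real.arcsin_nonneg.2 (mul_nonneg hs0.le hpos)
    rw [inner_zero_left, inner_zero_left, Real.arcsin_zero]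
    linarith
  · have hX0 : 0 < ‖X‖ := norm_pos_iff.2 h0
    have hx : ‖X‖⁻¹ • X ∈ sphere (0 : E n) 1 := by
      rw [mem_sphere_zero_iff_norm, norm_smul, norm_inv, norm_norm, inv_mul_cancel₀ hX0.ne']
    have h1 := hREF n ‖X‖ hX0 (hX.trans_lt hs1) ⟨‖X‖⁻¹ • X, hx⟩ θ e θ' he hpos hθ'
    have h2 : ∀ z : E n, ‖X‖ * inner ℝ (‖X‖⁻¹ • X) z = inner ℝ X z := by
      intro z
      rw [real_inner_smul_left, ← mul_assoc, mul_inv_cancel₀ hX0.ne', one_mul]
    simp only [h2] at h1
    refine h1.trans ?_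
    have h3 : Real.arcsin (‖X‖ * ip e θ) ≤ Real.arcsin (s * ip e θ) :=
      Real.monotone_arcsin (mul_le_mul_of_nonneg_right hX hpos)
    linarith

theorem t : S_REF → S_EXTF := by
  intro hREF d hd M _ _ S s hs0 hs1 F hF hbd
  have hne : Nonempty (Sph (d + 1)) :=
    ⟨⟨EuclideanSpace.single 0 1, by simp⟩⟩
  let h : Sph (d + 1) → Sph (d + 1) → ℝ := fun θ x =>
    Real.arcsin (inner ℝ (F (x : E (d + 1))) (θ : E (d + 1)))
  let g : Sph (d + 1) → M → ℝ := fun θ q => ⨅ x, (h θ x + dist q (S.bd x))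
  have hlow : ∀ θ q x, -(Real.pi / 2) ≤ h θ x + dist q (S.bd x) := by
    intro θ q x
    have h2 : -(Real.pi / 2) ≤ h θ x := Real.neg_pi_div_two_le_arcsin _
    have h3 : 0 ≤ dist q (S.bd x) := dist_nonneg
    linarith
  have hin : ∀ θ x : Sph (d + 1), |inner ℝ (F (x : E (d + 1))) (θ : E (d + 1))| ≤ s := by
    intro θ x
    have := abs_real_inner_le_norm (F (x : E (d + 1))) (θ : E (d + 1))
    rw [norm_sph, mul_one] at this
    exact this.trans (hF x)
  refine ⟨g, ?_, ?_, ?_, ?_⟩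
  · intro θ q q'
    have key : ∀ q q', g θ q ≤ g θ q' + dist q q' := by
      intro q q'
      refine iInf_le_add (hlow θ q) fun x => ?_
      have := dist_triangle q q' (S.bd x)
      linarith
    rw [abs_le]
    constructor
    · have := key q' q
      rw [dist_comm q' q] at this
      linarith
    · have := key q q'
      linarith
  · refine ⟨1 / √(1 - s ^ 2) * s, ?_⟩
    have key : ∀ θ θ' q, g θ q ≤ g θ' q +
        1 / √(1 - s ^ 2) * s * ‖(θ : E (d + 1)) - (θ' : E (d + 1))‖ := by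
      intro θ θ' q
      refine iInf_le_add (hlow θ q) fun x => ?_
      have h2 := arcsin_lip hs0 hs1 (hin θ x) (hin θ' x)
      have h3 : |inner ℝ (F (x : E (d + 1))) (θ : E (d + 1)) -
          inner ℝ (F (x : E (d + 1))) (θ' : E (d + 1))| ≤
          s * ‖(θ : E (d + 1)) - (θ' : E (d + 1))‖ := by
        rw [← inner_sub_right]
        exact (abs_real_inner_le_norm _ _).trans
          (mul_le_mul_of_nonneg_right (hF x) (norm_nonneg _))
      have h4 : h θ x - h θ' x ≤ 1 / √(1 - s ^ 2) * (s * ‖(θ : E (d + 1)) - (θ' : E (d + 1))‖) :=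
        (le_abs_self _).trans (h2.trans (mul_le_mul_of_nonneg_left h3 (by positivity)))
      rw [← mul_assoc] at h4
      linarith
    intro θ θ' q
    rw [abs_le]
    constructor
    · have := key θ' θ q
      rw [norm_sub_rev] at this
      linarith
    · have := key θ θ' q
      linarith
  · intro θ x
    apply le_antisymm
    · have h2 : g θ (S.bd x) ≤ h θ x + dist (S.bd x) (S.bd x) :=
        ciInf_le (f := fun y => h θ y + dist (S.bd x) (S.bd y))
          ⟨-(Real.pi / 2), by rintro _ ⟨y, rfl⟩; exact hlow θ (S.bd x) y⟩ x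
      rw [dist_self, add_zero] at h2
      exact h2
    · refine le_ciInf fun y => ?_
      have h2 := arcsin_le ((hF x).trans hs1.le) ((hF y).trans hs1.le) θ
      have h3 := hbd x y
      change h θ x ≤ _
      change h θ x - h θ y ≤ _ at h2
      linarith
  · intro e he θ θ' hθ' hpos q
    refine sub_le_iff_le_add'.2 ?_
    refine iInf_le_add (hlow θ q) fun x => ?_
    have h2 := ref hREF hs0 hs1 (hF x) θ e (θ' : E (d + 1)) he hpos hθ'
    change h θ x - h θ' x ≤ _ at h2
    linarith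

end Pool.Agent.N526.CP.EXTF
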