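import Pool.Agent.N526.CP.GDc

/-!
# CPN/GDN: an explicit radius in all dimensions (helper374)
-/

set_option autoImplicit false

open MeasureTheory Metric Set

namespace Pool.Agent.N526.CP.GDN

open Pool.Agent.H241R3.FV Pool.Agent.N526.CP.GDc

variable {d : ℕ}

/-- the radial inequality -/
lemma rad_ineq {N y : ℝ} (hN : 2 ≤ N) (hy0 : 0 ≤ y) (hy : N * y ^ 2 ≤ 3 / 5) :
    (N - 1) * ((1 / N) * (1 - 3 * N * y / (2 * (N + 2)) +
      15 * N ^ 2 * y ^ 2 / (8 * (N + 2) * (N + 4)))) ≤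
    (1 - 3 * y / 2 + 3 * y ^ 2 / 8) * (1 + 3 * y / (2 * (N + 2))) ^ 2 := by
  have h0 : 0 < N := by linarith
  have h2 : 0 < N + 2 := by linarith
  have h4 : 0 < N + 4 := by linarith
  obtain ⟨C, hC⟩ : ∃ C : ℝ, C = (3 / 2 * N ^ 3 + 27 / 8 * N ^ 2 + 27 / 2 * N + 21) /
    ((N + 2) ^ 2 * (N + 4)) := ⟨_, rfl⟩
  have hC0 : 0 ≤ C := by rw [hC]; positivity
  have key : (1 - 3 * y / 2 + 3 * y ^ 2 / 8) * (1 + 3 * y / (2 * (N + 2))) ^ 2 -
      (N - 1) * ((1 / N) * (1 - 3 * N * y / (2 * (N + 2)) +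
        15 * N ^ 2 * y ^ 2 / (8 * (N + 2) * (N + 4)))) =
      (1 / N) * ((N / 6) * (y - 9 / (2 * (N + 2))) ^ 2 + (C + 1 / 6) * (3 / 5 - N * y ^ 2) +
        (9 / 5) * (N - 1) ^ 2 / ((N + 2) ^ 2 * (N + 4))) +
      (9 / (8 * (N + 2))) * ((N - 1) / (N + 2)) * y ^ 3 + (27 / (32 * (N + 2) ^ 2)) * y ^ 4 := by
    rw [hC]
    field_simp
    ring
  have h5 : 0 ≤ (C + 1 / 6) * (3 / 5 - N * y ^ 2) := mul_nonneg (by linarith) (by linarith)
  have h6 : 0 ≤ (N - 1) / (N + 2) := div_nonneg (by linarith) h2.le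
  have h7 : 0 ≤ (9 / (8 * (N + 2))) * ((N - 1) / (N + 2)) * y ^ 3 := by positivity
  have h8 : 0 ≤ (1 / N) * ((N / 6) * (y - 9 / (2 * (N + 2))) ^ 2 + (C + 1 / 6) * (3 / 5 - N * y ^ 2) +
        (9 / 5) * (N - 1) ^ 2 / ((N + 2) ^ 2 * (N + 4))) := by positivity
  have h9 : 0 ≤ (27 / (32 * (N + 2) ^ 2)) * y ^ 4 := by positivity
  linarith

/-- the tangential inequality -/
lemma tan_ineq {N y : ℝ} (hN : 2 ≤ N) (hy0 : 0 ≤ y) (hy : N * y ^ 2 ≤ 3 / 5) :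
    (N - 1) * ((1 / N) * (1 - N * y / (2 * (N + 2)) +
      3 * N ^ 2 * y ^ 2 / (8 * (N + 2) * (N + 4)))) ≤
    (1 - y / 2 - y ^ 2 / 2) * (1 + y / (N + 2)) := by
  have h0 : 0 < N := by linarith
  have h2 : 0 < N + 2 := by linarith
  have h4 : 0 < N + 4 := by linarith
  have key : (1 - y / 2 - y ^ 2 / 2) * (1 + y / (N + 2)) -
      (N - 1) * ((1 / N) * (1 - N * y / (2 * (N + 2)) +
        3 * N ^ 2 * y ^ 2 / (8 * (N + 2) * (N + 4)))) =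
      (1 / N) * (1 - (N / (N + 2)) * (y / 2) - N * y ^ 2 * (1 / (2 * (N + 2)) + 1 / 2 +
        3 / 8 * (N / (N + 2)) * ((N - 1) / (N + 4))) - 1 / (2 * (N + 2)) * (N * y ^ 2 * y)) := by
    field_simp
    ring
  have hy1 : y ≤ 11 / 20 := by nlinarith
  have a1 : N / (N + 2) ≤ 1 := by rw [div_le_one h2]; linarith
  have a10 : 0 ≤ N / (N + 2) := by positivity
  have a2 : 1 / (2 * (N + 2)) ≤ 1 / 8 := by
    rw [div_le_div_iff₀ (by positivity) (by norm_num)]; linarith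
  have a20 : 0 ≤ 1 / (2 * (N + 2)) := by positivity
  have a3 : (N - 1) / (N + 4) ≤ 1 := by rw [div_le_one h4]; linarith
  have a30 : 0 ≤ (N - 1) / (N + 4) := div_nonneg (by linarith) h4.le
  have a4 : (N / (N + 2)) * ((N - 1) / (N + 4)) ≤ 1 := mul_le_one₀ a1 a30 a3
  have b1 : (N / (N + 2)) * (y / 2) ≤ 11 / 40 := by
    calc (N / (N + 2)) * (y / 2) ≤ 1 * (y / 2) := by gcongr
      _ ≤ 11 / 40 := by linarith
  have b2 : N * y ^ 2 * (1 / (2 * (N + 2)) + 1 / 2 +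
        3 / 8 * (N / (N + 2)) * ((N - 1) / (N + 4))) ≤ 3 / 5 := by
    have c1 : 1 / (2 * (N + 2)) + 1 / 2 + 3 / 8 * (N / (N + 2)) * ((N - 1) / (N + 4)) ≤ 1 := by
      nlinarith
    have c2 : 0 ≤ N * y ^ 2 := by positivity
    nlinarith
  have b3 : 1 / (2 * (N + 2)) * (N * y ^ 2 * y) ≤ 1 / 8 * (3 / 5 * (11 / 20)) := by
    gcongr
  have h8 : 0 ≤ (1 / N) * (1 - (N / (N + 2)) * (y / 2) - N * y ^ 2 * (1 / (2 * (N + 2)) + 1 / 2 +
        3 / 8 * (N / (N + 2)) * ((N - 1) / (N + 4))) - 1 / (2 * (N + 2)) * (N * y ^ 2 * y)) := by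
    apply mul_nonneg (by positivity)
    linarith
  linarith

theorem t (hM : S_MOM) (hS : S_SPH) : S_GDN := by
  intro d hd s hs hs4
  obtain ⟨hp, -, -⟩ := hS d hd
  have hd1 : (1 : ℝ) ≤ d := by exact_mod_cast hd
  have hs1 : s < 1 := by
    by_contra h
    push Not at h
    have : 1 ≤ s ^ 4 := one_le_pow₀ h
    nlinarith
  refine ⟨hs, hs1, fun s' hs' => ?_⟩
  obtain ⟨h0, h1⟩ := hs'
  have hs'1 : s' < 1 := lt_of_le_of_lt h1 hs1
  obtain ⟨y, hy⟩ : ∃ y, y = s' ^ 2 := ⟨_, rfl⟩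
  obtain ⟨N, hN⟩ : ∃ N : ℝ, N = d + 1 := ⟨_, rfl⟩
  have hN2 : 2 ≤ N := by linarith
  have hN0 : 0 < N := by linarith
  have hy0 : 0 ≤ y := by rw [hy]; positivity
  have hyN : N * y ^ 2 ≤ 3 / 5 := by
    have e1 : s' ^ 4 ≤ s ^ 4 := by gcongr
    have e2 : y ^ 2 = s' ^ 4 := by rw [hy]; ring
    rw [e2, hN]
    have : ((d : ℝ) + 1) * s' ^ 4 ≤ (d + 1) * s ^ 4 := by gcongr
    linarith
  have hy1 : y ≤ 11 / 20 := by nlinarith
  have c0 : Continuous fun θ : Sph (d + 1) => (θ : E (d + 1)) 0 := cont0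
  have cp := cont_pow (d := d) s' (d + 1)
  have ci := cont_inv (d := d) h0 hs'1
  -- pointwise bounds
  have hxy : ∀ θ : Sph (d + 1), (s' * (θ : E (d + 1)) 0) ^ 2 = y * (θ : E (d + 1)) 0 ^ 2 := by
    intro θ
    rw [hy]
    ring
  have hub : ∀ θ : Sph (d + 1), (√(1 - (s' * (θ : E (d + 1)) 0) ^ 2)) ^ (d + 1) ≤
      1 - N * y / 2 * (θ : E (d + 1)) 0 ^ 2 + (N * y) ^ 2 / 8 * ((θ : E (d + 1)) 0 ^ 2) ^ 2 := by
    intro θ
    have h3 := sqrt_pow_le (sq_nonneg (s' * (θ : E (d + 1)) 0)) (d + 1)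
    rw [hxy] at h3 ⊢
    push_cast at h3
    rw [← hN] at h3
    refine h3.trans (le_of_eq ?_)
    ring
  have hlb : ∀ θ : Sph (d + 1), 1 + y / 2 * (θ : E (d + 1)) 0 ^ 2 ≤
      (√(1 - (s' * (θ : E (d + 1)) 0) ^ 2))⁻¹ := by
    intro θ
    have h3 := inv_ge (sq_nonneg (s' * (θ : E (d + 1)) 0)) (u_lt h0 hs'1 θ)
    rw [hxy] at h3 ⊢
    refine le_trans (le_of_eq ?_) h3
    ring
  -- the integrals
  have hAr : Ar d s' ≤ (1 / N) * (1 - 3 * N * y / (2 * (N + 2)) +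
      15 * N ^ 2 * y ^ 2 / (8 * (N + 2) * (N + 4))) := by
    have h3 := poly hp hM hd 0 1 (-(N * y / 2)) ((N * y) ^ 2 / 8)
    have h4 : Ar d s' ≤ ∫ θ : Sph (d + 1), (0 + 1 * (θ : E (d + 1)) 0 ^ 2 +
        (-(N * y / 2)) * ((θ : E (d + 1)) 0 ^ 2) ^ 2 +
        ((N * y) ^ 2 / 8) * ((θ : E (d + 1)) 0 ^ 2) ^ 3) ∂(sg (d + 1)) := by
      refine mono hp ((c0.pow 2).mul cp) (by fun_prop) fun θ => ?_
      have := mul_le_mul_of_nonneg_left (hub θ) (sq_nonneg ((θ : E (d + 1)) 0))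
      refine this.trans (le_of_eq ?_)
      ring
    refine h4.trans (le_of_eq ?_)
    rw [h3]
    have e1 : (d : ℝ) + 1 = N := hN.symm
    have e2 : (d : ℝ) + 3 = N + 2 := by rw [hN]; ring
    have e3 : (d : ℝ) + 5 = N + 4 := by rw [hN]; ring
    rw [e1, e2, e3]
    field_simp
    ring
  have hkr : (1 / N) * (1 + 3 * y / (2 * (N + 2))) ≤ kr d s' := by
    have h3 := poly hp hM hd 0 1 (y / 2) 0
    have h4 : ∫ θ : Sph (d + 1), (0 + 1 * (θ : E (d + 1)) 0 ^ 2 +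
        (y / 2) * ((θ : E (d + 1)) 0 ^ 2) ^ 2 +
        0 * ((θ : E (d + 1)) 0 ^ 2) ^ 3) ∂(sg (d + 1)) ≤ kr d s' := by
      refine mono hp (by fun_prop) ((c0.pow 2).mul ci) fun θ => ?_
      have := mul_le_mul_of_nonneg_left (hlb θ) (sq_nonneg ((θ : E (d + 1)) 0))
      refine le_trans (le_of_eq ?_) this
      ring
    refine le_trans (le_of_eq ?_) h4
    rw [h3]
    have e1 : (d : ℝ) + 1 = N := hN.symm
    have e2 : (d : ℝ) + 3 = N + 2 := by rw [hN]; ring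
    rw [e1, e2]
    field_simp
    ring
  have hAt : d * At d s' ≤ (N - 1) * ((1 / N) * (1 - N * y / (2 * (N + 2)) +
      3 * N ^ 2 * y ^ 2 / (8 * (N + 2) * (N + 4)))) := by
    have h3 := poly hp hM hd 1 (-1 - N * y / 2) (N * y / 2 + (N * y) ^ 2 / 8) (-((N * y) ^ 2 / 8))
    have h4 : ∫ θ : Sph (d + 1), (1 - (θ : E (d + 1)) 0 ^ 2) *
        (√(1 - (s' * (θ : E (d + 1)) 0) ^ 2)) ^ (d + 1) ∂(sg (d + 1)) ≤
        ∫ θ : Sph (d + 1), (1 + (-1 - N * y / 2) * (θ : E (d + 1)) 0 ^ 2 +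
        (N * y / 2 + (N * y) ^ 2 / 8) * ((θ : E (d + 1)) 0 ^ 2) ^ 2 +
        (-((N * y) ^ 2 / 8)) * ((θ : E (d + 1)) 0 ^ 2) ^ 3) ∂(sg (d + 1)) := by
      refine mono hp ((continuous_const.sub (c0.pow 2)).mul cp) (by fun_prop) fun θ => ?_
      have := mul_le_mul_of_nonneg_left (hub θ)
        (show 0 ≤ 1 - (θ : E (d + 1)) 0 ^ 2 by linarith [sq_le θ])
      refine this.trans (le_of_eq ?_)
      ring
    have h5 : d * At d s' = ∫ θ : Sph (d + 1), (1 - (θ : E (d + 1)) 0 ^ 2) *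
        (√(1 - (s' * (θ : E (d + 1)) 0) ^ 2)) ^ (d + 1) ∂(sg (d + 1)) := by
      unfold At
      rw [mul_div_cancel₀]
      positivity
    rw [h5]
    refine h4.trans (le_of_eq ?_)
    rw [h3]
    have e1 : (d : ℝ) + 1 = N := hN.symm
    have e2 : (d : ℝ) + 3 = N + 2 := by rw [hN]; ring
    have e3 : (d : ℝ) + 5 = N + 4 := by rw [hN]; ring
    rw [e1, e2, e3]
    field_simp
    ring
  have hkt : (1 / N) * (1 + y / (2 * (N + 2))) ≤ kt d s' := by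
    have h3 := poly hp hM hd 1 (-1 + y / 2) (-(y / 2)) 0
    have h4 : ∫ θ : Sph (d + 1), (1 + (-1 + y / 2) * (θ : E (d + 1)) 0 ^ 2 +
        (-(y / 2)) * ((θ : E (d + 1)) 0 ^ 2) ^ 2 +
        0 * ((θ : E (d + 1)) 0 ^ 2) ^ 3) ∂(sg (d + 1)) ≤
        ∫ θ : Sph (d + 1), (1 - (θ : E (d + 1)) 0 ^ 2) *
          (√(1 - (s' * (θ : E (d + 1)) 0) ^ 2))⁻¹ ∂(sg (d + 1)) := by
      refine mono hp (by fun_prop) ((continuous_const.sub (c0.pow 2)).mul ci) fun θ => ?_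
      have := mul_le_mul_of_nonneg_left (hlb θ)
        (show 0 ≤ 1 - (θ : E (d + 1)) 0 ^ 2 by linarith [sq_le θ])
      refine le_trans (le_of_eq ?_) this
      ring
    unfold kt
    rw [le_div_iff₀ (by positivity)]
    refine le_trans (le_of_eq ?_) h4
    rw [h3]
    have e1 : (d : ℝ) + 1 = N := hN.symm
    have e2 : (d : ℝ) + 3 = N + 2 := by rw [hN]; ring
    have e4 : (d : ℝ) = N - 1 := by rw [hN]; ring
    rw [e1, e2, e4]
    field_simp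
    ring
  -- bounds for the square root
  have hc2 : 1 - y / 2 - y ^ 2 / 2 ≤ √(1 - s' ^ 2) := by
    rw [← hy]
    refine Real.le_sqrt_of_sq_le ?_
    have : 0 ≤ y ^ 2 * (3 / 4 - y / 2 - y ^ 2 / 4) := by
      apply mul_nonneg (sq_nonneg _)
      nlinarith
    nlinarith
  have hc3 : 1 - 3 * y / 2 + 3 * y ^ 2 / 8 ≤ √(1 - s' ^ 2) ^ 3 := by
    rw [← hy]
    refine le_of_pow_le_pow_left₀ (n := 2) (by norm_num) (by positivity) ?_
    have e1 : (√(1 - y) ^ 3) ^ 2 = (1 - y) ^ 3 := by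
      rw [← pow_mul, mul_comm 3 2, pow_mul, Real.sq_sqrt (by linarith)]
    rw [e1]
    have : 0 ≤ y ^ 3 * (1 / 8 - 9 * y / 64) := by
      apply mul_nonneg (by positivity)
      linarith
    nlinarith
  have hP0 : 0 ≤ 1 - 3 * y / 2 + 3 * y ^ 2 / 8 := by nlinarith [sq_nonneg y]
  have hP2 : 0 ≤ 1 - y / 2 - y ^ 2 / 2 := by nlinarith [sq_nonneg y]
  constructor
  · have h5 := rad_ineq hN2 hy0 hyN
    have e4 : (d : ℝ) = N - 1 := by rw [hN]; ring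
    have hb : 0 ≤ (1 / N) * (1 + 3 * y / (2 * (N + 2))) := by positivity
    rw [e4, sub_add_cancel]
    calc (N - 1) * Ar d s' ≤ (N - 1) * ((1 / N) * (1 - 3 * N * y / (2 * (N + 2)) +
          15 * N ^ 2 * y ^ 2 / (8 * (N + 2) * (N + 4)))) :=
          mul_le_mul_of_nonneg_left hAr (by linarith)
      _ ≤ (1 - 3 * y / 2 + 3 * y ^ 2 / 8) * (1 + 3 * y / (2 * (N + 2))) ^ 2 := h5
      _ = N ^ 2 * (1 - 3 * y / 2 + 3 * y ^ 2 / 8) * ((1 / N) * (1 + 3 * y / (2 * (N + 2)))) ^ 2 := by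
          field_simp
      _ ≤ N ^ 2 * √(1 - s' ^ 2) ^ 3 * kr d s' ^ 2 := by gcongr
  · have h5 := tan_ineq hN2 hy0 hyN
    have hb : 0 ≤ (1 / N) * (1 + y / (2 * (N + 2))) := by positivity
    have h6 : 1 + y / (N + 2) ≤ (1 + y / (2 * (N + 2))) ^ 2 := by
      have e5 : (1 + y / (2 * (N + 2))) ^ 2 = 1 + y / (N + 2) + (y / (2 * (N + 2))) ^ 2 := by
        field_simp
        ring
      rw [e5]
      have := sq_nonneg (y / (2 * (N + 2)))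
      linarith
    rw [show ((d : ℝ) + 1) = N from hN.symm]
    calc (d : ℝ) * At d s' ≤ (N - 1) * ((1 / N) * (1 - N * y / (2 * (N + 2)) +
          3 * N ^ 2 * y ^ 2 / (8 * (N + 2) * (N + 4)))) := hAt
      _ ≤ (1 - y / 2 - y ^ 2 / 2) * (1 + y / (N + 2)) := h5
      _ ≤ (1 - y / 2 - y ^ 2 / 2) * (1 + y / (2 * (N + 2))) ^ 2 := by gcongr
      _ = N ^ 2 * (1 - y / 2 - y ^ 2 / 2) * ((1 / N) * (1 + y / (2 * (N + 2)))) ^ 2 := by
          field_simp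
      _ ≤ N ^ 2 * √(1 - s' ^ 2) * kt d s' ^ 2 := by gcongr

end Pool.Agent.N526.CP.GDN
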