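import Pool.Agent.N526.CP.Stm

/-!
# CPN/KEY: the key matrix inequality (helper374)
-/

set_option autoImplicit false

open Matrix

namespace Pool.Agent.N526.CP.KEY

/-- sum of the squares of the entries -/
def sq {n : ℕ} (A : Matrix (Fin n) (Fin n) ℝ) : ℝ := ∑ i, ∑ j, A i j ^ 2

lemma sq_nonneg' {n : ℕ} (A : Matrix (Fin n) (Fin n) ℝ) : 0 ≤ sq A :=
  Finset.sum_nonneg fun _ _ => Finset.sum_nonneg fun _ _ => _root_.sq_nonneg _

lemma cs {n : ℕ} (A M : Matrix (Fin n) (Fin n) ℝ) : (A * M).trace ^ 2 ≤ sq A * sq M := by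
  have h1 : (A * M).trace = ∑ p : Fin n × Fin n, A p.1 p.2 * M p.2 p.1 := by
    rw [Fintype.sum_prod_type]
    simp [Matrix.trace, Matrix.mul_apply]
  have h2 : sq A = ∑ p : Fin n × Fin n, A p.1 p.2 ^ 2 := by
    rw [Fintype.sum_prod_type]
    rfl
  have h3 : sq M = ∑ p : Fin n × Fin n, M p.2 p.1 ^ 2 := by
    rw [Fintype.sum_prod_type, Finset.sum_comm]
    rfl
  rw [h1, h2, h3]
  exact Finset.sum_mul_sq_le_sq_mul_sq _ _ _

lemma amgm (d : ℕ) (m : ℝ) (hm : 0 ≤ m) (hd : 1 ≤ d) : m ^ d * (d + 1 - d * m) ≤ 1 := by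
  rcases eq_or_lt_of_le hm with h | h
  · rw [← h, zero_pow (by omega), zero_mul]
    exact zero_le_one
  · have h1 := one_add_mul_le_pow (show (-2 : ℝ) ≤ 1 / m - 1 by
      have : 0 < 1 / m := by positivity
      linarith) d
    have h2 : 1 + (1 / m - 1) = 1 / m := by ring
    rw [h2] at h1
    have h3 : 1 - m ≤ 1 / m - 1 := by
      rw [le_sub_iff_add_le, le_div_iff₀ h]
      nlinarith [_root_.sq_nonneg (m - 1)]
    have h4 : (d : ℝ) + 1 - d * m ≤ (1 / m) ^ d := by
      have : (d : ℝ) * (1 - m) ≤ d * (1 / m - 1) := by gcongr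
      linarith
    calc m ^ d * (d + 1 - d * m) ≤ m ^ d * (1 / m) ^ d := by gcongr
      _ = 1 := by rw [← mul_pow, mul_one_div_cancel h.ne', one_pow]

theorem t (hC : S_COF) : S_KEY := by
  intro d hd B D hBD
  obtain ⟨K, hK⟩ : ∃ K, K = B + D := ⟨_, rfl⟩
  obtain ⟨E, hE⟩ : ∃ E, E = ((d : ℝ) + 1)⁻¹ • K - D := ⟨_, rfl⟩
  have hn : (0 : ℝ) < (d : ℝ) + 1 := by positivity
  rw [← hK]
  have hF : (K.adjugate * B).trace - d * K.det = (K.adjugate * E).trace := by
    have h1 : B = K - D := by rw [hK, add_sub_cancel_right]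
    have h2 : (K.adjugate * K).trace = (d + 1) * K.det := by
      rw [adjugate_mul, trace_smul, trace_one, Fintype.card_fin, smul_eq_mul, mul_comm]
      push_cast
      ring
    rw [h1, hE, mul_sub, mul_sub, trace_sub, trace_sub, Matrix.mul_smul, trace_smul, h2,
      smul_eq_mul]
    field_simp
    ring
  rw [hF]
  have hcs := cs K.adjugate E
  have hcof : sq K.adjugate ≤ (d + 1) * (sq K / (d + 1)) ^ d := hC d K
  have hid : sq B + d * sq D = (d + 1) * sq E + d * (sq K / (d + 1)) := by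
    have h1 : B = K - D := by rw [hK, add_sub_cancel_right]
    rw [h1, hE]
    unfold sq
    simp only [Matrix.sub_apply, Matrix.smul_apply, smul_eq_mul]
    rw [Finset.sum_div, Finset.mul_sum, Finset.mul_sum, Finset.mul_sum, ← Finset.sum_add_distrib,
      ← Finset.sum_add_distrib]
    refine Finset.sum_congr rfl fun i _ => ?_
    rw [Finset.sum_div, Finset.mul_sum, Finset.mul_sum, Finset.mul_sum, ← Finset.sum_add_distrib,
      ← Finset.sum_add_distrib]
    refine Finset.sum_congr rfl fun j _ => ?_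
    field_simp
    ring
  have hBD' : sq B + d * sq D ≤ d + 1 := hBD
  set m := sq K / (d + 1) with hm
  have hm0 : 0 ≤ m := div_nonneg (sq_nonneg' K) hn.le
  have hE1 : (d + 1) * sq E ≤ d + 1 - d * m := by linarith
  have hE2 : sq E ≤ (d + 1 - d * m) / (d + 1) := by
    rw [le_div_iff₀ hn]
    linarith
  have h1 : (K.adjugate * E).trace ^ 2 ≤ 1 := by
    calc (K.adjugate * E).trace ^ 2 ≤ sq K.adjugate * sq E := hcs
      _ ≤ ((d + 1) * m ^ d) * ((d + 1 - d * m) / (d + 1)) :=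
          mul_le_mul hcof hE2 (sq_nonneg' E) (by positivity)
      _ = m ^ d * (d + 1 - d * m) := by
          field_simp
      _ ≤ 1 := amgm d m hm0 hd
  exact (abs_le.1 ((sq_le_one_iff_abs_le_one _).1 h1)).2

end Pool.Agent.N526.CP.KEY
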