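import Pool.Agent.N526.CP.Stm

/-!
# CPN/MAC: Maclaurin's inequality for `e_{n-1}` (helper374)
-/

set_option autoImplicit false

namespace Pool.Agent.N526.CP.MAC

/-- Weighted form of the inequality of the means used in the induction. -/
lemma bern (d : ℕ) (a b : ℝ) (ha : 0 ≤ a) (hb : 0 ≤ b) (hd : 1 ≤ d) :
    b ^ d + a * (d * b ^ (d - 1)) ≤ (d + 1) * ((a + d * b) / (d + 1)) ^ d := by
  have hn : (0 : ℝ) < (d : ℝ) + 1 := by positivity
  rcases eq_or_lt_of_le hb with h | h
  · rw [← h]
    rcases Nat.lt_or_ge 1 d with h1 | h1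
    · rw [zero_pow (by omega), zero_pow (by omega)]
      have : 0 ≤ ((d : ℝ) + 1) * ((a + d * 0) / (d + 1)) ^ d := by positivity
      linarith
    · have : d = 1 := by omega
      subst this
      norm_num
      linarith
  · have h1 := one_add_mul_le_pow (show (-2 : ℝ) ≤ (a / b - 1) / (d + 1) by
      rw [le_div_iff₀ hn]
      have : 0 ≤ a / b := by positivity
      have : (1 : ℝ) ≤ d := by exact_mod_cast hd
      linarith) d
    have h2 : (a + d * b) / (d + 1) = b * (1 + (a / b - 1) / (d + 1)) := by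
      field_simp
      ring
    rw [h2, mul_pow]
    have h3 : b ^ d = b ^ (d - 1) * b := by rw [← pow_succ, Nat.sub_add_cancel hd]
    calc b ^ d + a * (d * b ^ (d - 1)) = b ^ d * ((d + 1) * (1 + d * ((a / b - 1) / (d + 1)))) := by
          rw [h3]
          field_simp
          ring
      _ ≤ b ^ d * ((d + 1) * (1 + (a / b - 1) / (d + 1)) ^ d) := by gcongr
      _ = _ := by ring

lemma bern2 (n : ℕ) (a b : ℝ) (ha : 0 ≤ a) (hb : 0 ≤ b) :
    a * b ^ n ≤ ((a + n * b) / (n + 1)) ^ (n + 1) := by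
  have hn : (0 : ℝ) < (n : ℝ) + 1 := by positivity
  rcases eq_or_lt_of_le hb with h | h
  · rw [← h]
    rcases Nat.eq_zero_or_pos n with h1 | h1
    · subst h1
      simp
    · rw [zero_pow (by omega)]
      have : 0 ≤ ((a + n * 0) / ((n : ℝ) + 1)) ^ (n + 1) := by positivity
      linarith
  · have h1 := one_add_mul_le_pow (show (-2 : ℝ) ≤ (a / b - 1) / (n + 1) by
      rw [le_div_iff₀ hn]
      have h2 : 0 ≤ a / b := by positivity
      have h3 : (0 : ℝ) ≤ n := Nat.cast_nonneg n
      linarith) (n + 1)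
    have h2 : (a + n * b) / (n + 1) = b * (1 + (a / b - 1) / (n + 1)) := by
      field_simp
      ring
    rw [h2, mul_pow]
    calc a * b ^ n = b ^ (n + 1) * (1 + ((n + 1 : ℕ) : ℝ) * ((a / b - 1) / (n + 1))) := by
          push_cast
          rw [mul_div_cancel₀ _ hn.ne', pow_succ]
          field_simp
          ring
      _ ≤ b ^ (n + 1) * (1 + (a / b - 1) / (n + 1)) ^ (n + 1) := by gcongr

lemma gm (d : ℕ) : ∀ y : Fin (d + 1) → ℝ, (∀ i, 0 ≤ y i) →
    ∏ i, y i ≤ ((∑ i, y i) / (d + 1)) ^ (d + 1) := by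
  induction d with
  | zero =>
    intro y _
    simp
  | succ d ih =>
    intro y hy
    rw [Fin.prod_univ_succ, Fin.sum_univ_succ]
    have h1 := ih (fun i => y i.succ) fun i => hy _
    have hb : 0 ≤ (∑ i : Fin (d + 1), y i.succ) / ((d : ℝ) + 1) :=
      div_nonneg (Finset.sum_nonneg fun i _ => hy _) (by positivity)
    have h2 := bern2 (d + 1) (y 0) _ (hy 0) hb
    have e : ((d + 1 : ℕ) : ℝ) * ((∑ i : Fin (d + 1), y i.succ) / ((d : ℝ) + 1)) =
        ∑ i : Fin (d + 1), y i.succ := by
      push_cast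
      field_simp
    rw [e] at h2
    exact (mul_le_mul_of_nonneg_left h1 (hy 0)).trans h2

lemma prod_er {n : ℕ} (x : Fin n → ℝ) (i : Fin n) :
    ∏ j ∈ Finset.univ.erase i, x j = ∏ j, if j = i then 1 else x j := by
  rw [← Finset.mul_prod_erase Finset.univ _ (Finset.mem_univ i), if_pos rfl, one_mul]
  refine Finset.prod_congr rfl fun j hj => ?_
  rw [if_neg (Finset.ne_of_mem_erase hj)]

theorem t : S_MAC := by
  intro d
  induction d with
  | zero =>
    intro x hx
    simp
  | succ d ih =>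
    intro x hx
    have h0 : ∏ j ∈ Finset.univ.erase (0 : Fin (d + 2)), x j = ∏ j : Fin (d + 1), x j.succ := by
      rw [prod_er, Fin.prod_univ_succ, if_pos rfl, one_mul]
      refine Finset.prod_congr rfl fun j _ => ?_
      rw [if_neg (Fin.succ_ne_zero j)]
    have h1 : ∀ i : Fin (d + 1), ∏ j ∈ Finset.univ.erase i.succ, x j =
        x 0 * ∏ j ∈ Finset.univ.erase i, x j.succ := by
      intro i
      rw [prod_er, prod_er, Fin.prod_univ_succ, if_neg (Fin.succ_ne_zero i).symm]
      congr 1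
      refine Finset.prod_congr rfl fun j _ => ?_
      simp only [Fin.succ_inj]
    rw [Fin.sum_univ_succ, h0]
    simp only [h1]
    rw [← Finset.mul_sum, show ∑ i, x i = x 0 + ∑ i : Fin (d + 1), x i.succ from
      Fin.sum_univ_succ x]
    set b := (∑ i : Fin (d + 1), x i.succ) / ((d : ℝ) + 1) with hb
    have hb0 : 0 ≤ b := div_nonneg (Finset.sum_nonneg fun i _ => hx _) (by positivity)
    have h2 := ih (fun i => x i.succ) fun i => hx _
    have h3 := gm d (fun i => x i.succ) fun i => hx _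
    have h4 := bern (d + 1) (x 0) b (hx 0) hb0 (by omega)
    have e : ((d + 1 : ℕ) : ℝ) * b = ∑ i : Fin (d + 1), x i.succ := by
      rw [hb]
      push_cast
      field_simp
    rw [e] at h4
    refine le_trans (add_le_add h3 (mul_le_mul_of_nonneg_left h2 (hx 0))) ?_
    have h5 : d + 1 - 1 = d := rfl
    rw [h5] at h4
    push_cast at h4 ⊢
    exact h4

end Pool.Agent.N526.CP.MAC
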