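import Pool.Agent.N526.CP.ABS
import Pool.Agent.N526.CP.BAL
import Pool.Agent.N526.CP.CAPS
import Pool.Agent.N526.CP.CAPV
import Pool.Agent.N526.CP.CHA
import Pool.Agent.N526.CP.CHV
import Pool.Agent.N526.CP.COF
import Pool.Agent.N526.CP.COM
import Pool.Agent.N526.CP.ComOne
import Pool.Agent.N526.CP.DER
import Pool.Agent.N526.CP.DETV
import Pool.Agent.N526.CP.EIG
import Pool.Agent.N526.CP.EXT
import Pool.Agent.N526.CP.FAM
import Pool.Agent.N526.CP.FUB
import Pool.Agent.N526.CP.GD1
import Pool.Agent.N526.CP.GD2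
import Pool.Agent.N526.CP.GDN
import Pool.Agent.N526.CP.GRAM
import Pool.Agent.N526.CP.HEM
import Pool.Agent.N526.CP.INV
import Pool.Agent.N526.CP.KEY
import Pool.Agent.N526.CP.LIP
import Pool.Agent.N526.CP.LOC
import Pool.Agent.N526.CP.LZ
import Pool.Agent.N526.CP.MAC
import Pool.Agent.N526.CP.MAIN
import Pool.Agent.N526.CP.MOM
import Pool.Agent.N526.CP.MON
import Pool.Agent.N526.CP.NULag
import Pool.Agent.N526.CP.PTW
import Pool.Agent.N526.CP.RAD
import Pool.Agent.N526.CP.RAP
import Pool.Agent.N526.CP.REF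
import Pool.Agent.N526.CP.SPH
import Pool.Agent.N526.CP.STO
import Pool.Agent.N526.CP.TEL
import Pool.Agent.N526.CP.UDER
import Pool.Agent.N526.CP.VAN
import Pool.Agent.N526.CP.XDIF

/-!
# Round caps are minimal fillings (PROJECT CPN): assembly
-/

set_option autoImplicit false

namespace Pool.Agent.N526.CP

theorem sph : S_SPH := SPH.t
theorem cof : S_COF := COF.t MAC.t
theorem key : S_KEY := KEY.t cof
theorem abs' : S_ABS := ABS.t key
theorem gram : S_GRAM := GRAM.t CHV.t sph LZ.t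
theorem eig : S_EIG := EIG.t sph LZ.t
theorem com1 : S_COM1 := COM1.t abs' DETV.t gram LZ.t eig sph
theorem com : S_COM := COM.t com1
theorem ext' : S_EXT := EXT.t REF.t
theorem fam : S_FAM := FAM.t sph ext'
theorem mon : S_MON := MON.t sph
theorem rad : S_RAD := RAD.t sph mon
theorem inv' : S_INV := INV.t rad mon
theorem der : S_DER := DER.t sph rad mon inv'
theorem cha : S_CHA := CHA.t
theorem loc : S_LOC := LOC.t NUL.t cha
theorem capv' : S_CAPV := CAPV.t sph gram UDER.t DETV.t
theorem lip : S_LIP := LIP.t sph inv' rad UDER.t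
theorem fub : S_FUB := FUB.t RAP.t
theorem bal : S_BAL := BAL.t NUL.t
theorem gd1 : S_GD1 := GD1.t sph MOM.t
theorem gd2 : S_GD2 := GD2.t MOM.t sph
theorem gdn : S_GDN := GDN.t MOM.t sph

end Pool.Agent.N526.CP
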