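import Pool.Agent.N526.CP.Stm3
import Pool.Agent.N526.CP.GD1
import Pool.Agent.N526.CP.MOM

/-!
# CPN2/GDB: the good radii in dimension two, up to `66.9` degrees (helper427)
-/

set_option autoImplicit false

open MeasureTheory Metric Set Filter Topology

namespace Pool.Agent.N526.CP.GDB

open Pool.Agent.H241R3.FV Pool.Agent.N526.CP
open Pool.Agent.N526.CP.GD1 (tang x_le cint quad)

/-- the coefficients of `(1 - u) ^ (-1/2)` -/
noncomputable def Mc : ℕ → ℝ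
  | 0 => 1
  | k + 1 => (2 * k + 1) / (2 * k + 2) * Mc k

lemma Mc_nonneg (k : ℕ) : 0 ≤ Mc k := by
  induction k with
  | zero => exact zero_le_one
  | succ k ih => rw [Mc]; positivity

lemma momk (k : ℕ) : ∫ θ : Sph 2, (θ : E 2) 0 ^ (2 * k) ∂(sg 2) = Mc k := by
  refine (MOM.mom 1 le_rfl k).trans ?_
  have hj := MOM.J_pos 1
  induction k with
  | zero => rw [div_self hj.ne']; rfl
  | succ k ih =>
    have h1 := MOM.J_rec 1 k le_rfl
    rw [Mc, ← ih]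
    have h2 : (0 : ℝ) < 2 * k + 2 := by positivity
    rw [div_mul_div_comm, div_eq_div_iff hj.ne' (by positivity)]
    push_cast at h1
    have h3 : (2 * (k : ℝ) + 2) * MOM.J 1 (k + 1) = (2 * k + 1) * MOM.J 1 k := by linarith
    linear_combination (MOM.J 1 0) * h3

/-- the Taylor polynomial of degree seven -/
noncomputable def T7 (u : ℝ) : ℝ := ∑ k ∈ Finset.range 8, Mc k * u ^ k

lemma T7_eq (u : ℝ) : T7 u = 1 + 1 / 2 * u + 3 / 8 * u ^ 2 + 5 / 16 * u ^ 3 + 35 / 128 * u ^ 4 +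
    63 / 256 * u ^ 5 + 231 / 1024 * u ^ 6 + 429 / 2048 * u ^ 7 := by
  unfold T7
  simp only [Finset.sum_range_succ, Finset.sum_range_zero, Mc]
  push_cast
  ring

lemma T7_le {u : ℝ} (h0 : 0 ≤ u) (h1 : u < 1) : T7 u ≤ (√(1 - u))⁻¹ := by
  have hw : 0 < 1 - u := by linarith
  have hs : 0 < √(1 - u) := Real.sqrt_pos.2 hw
  rw [inv_eq_one_div, le_div_iff₀ hs]
  have hT0 : 0 ≤ T7 u := by rw [T7_eq]; positivity
  refine le_of_sq_le_sq ?_ zero_le_one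
  rw [mul_pow, Real.sq_sqrt hw.le, T7_eq]
  have h2 : 1 ^ 2 - (1 + 1 / 2 * u + 3 / 8 * u ^ 2 + 5 / 16 * u ^ 3 + 35 / 128 * u ^ 4 +
      63 / 256 * u ^ 5 + 231 / 1024 * u ^ 6 + 429 / 2048 * u ^ 7) ^ 2 * (1 - u) =
      u ^ 8 * (6435 / 16384 + 715 / 4096 * u + 3861 / 32768 * u ^ 2 + 2925 / 32768 * u ^ 3 +
        75075 / 1048576 * u ^ 4 + 31185 / 524288 * u ^ 5 + 212355 / 4194304 * u ^ 6 +
        184041 / 4194304 * u ^ 7) := by ring
  have h3 : 0 ≤ u ^ 8 * (6435 / 16384 + 715 / 4096 * u + 3861 / 32768 * u ^ 2 +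
        2925 / 32768 * u ^ 3 + 75075 / 1048576 * u ^ 4 + 31185 / 524288 * u ^ 5 +
        212355 / 4194304 * u ^ 6 + 184041 / 4194304 * u ^ 7) := by positivity
  linarith

lemma P_lower {y : ℝ} (h0 : 0 ≤ y) (h1 : y ≤ 17 / 20) :
    887 / 1000 - 3 / 2 * (17 / 20 - y) ≤ ∑ k ∈ Finset.range 8, Mc k * Mc (k + 1) * y ^ k := by
  have e : ∑ k ∈ Finset.range 8, Mc k * Mc (k + 1) * y ^ k =
      (15243484726121227 / 17179869184000000 - 959092667713533 / 858993459200000 *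
        (17 / 20 - y)) + (y - 17 / 20) ^ 2 * (16697275461953 / 21474836480000 +
        1167416392039 / 2147483648000 * y + 1960341039 / 5368709120 * y ^ 2 +
        1208014929 / 5368709120 * y ^ 3 + 15728427 / 134217728 * y ^ 4 +
        2760615 / 67108864 * y ^ 5) := by
    simp only [Finset.sum_range_succ, Finset.sum_range_zero, Mc]
    push_cast
    ring
  rw [e]
  have h2 : 0 ≤ (y - 17 / 20) ^ 2 * (16697275461953 / 21474836480000 +
        1167416392039 / 2147483648000 * y + 1960341039 / 5368709120 * y ^ 2 +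
        1208014929 / 5368709120 * y ^ 3 + 15728427 / 134217728 * y ^ 4 +
        2760615 / 67108864 * y ^ 5) := by positivity
  linarith

section
variable (hp : IsProbabilityMeasure (sg 2))
include hp

lemma kr_lower {r : ℝ} (hr : r ^ 2 < 1) :
    ∑ k ∈ Finset.range 8, Mc k * Mc (k + 1) * (r ^ 2) ^ k ≤ kr 1 r := by
  have hu : ∀ θ : Sph 2, 0 ≤ (r * (θ : E 2) 0) ^ 2 ∧ (r * (θ : E 2) 0) ^ 2 < 1 := by
    intro θ
    have h1 := x_le θ
    refine ⟨sq_nonneg _, ?_⟩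
    rw [mul_pow]
    nlinarith [sq_nonneg ((θ : E 2) 0), sq_nonneg r]
  have hcs : Continuous fun θ : Sph 2 => (√(1 - (r * (θ : E 2) 0) ^ 2))⁻¹ := by
    refine Continuous.inv₀ (by fun_prop) fun θ => ?_
    exact (Real.sqrt_pos.2 (by linarith [(hu θ).2])).ne'
  unfold kr
  have e1 : ∀ θ : Sph 2, ∑ k ∈ Finset.range 8, Mc k * (r ^ 2) ^ k * (θ : E 2) 0 ^ (2 * (k + 1)) ≤
      (θ : E 2) 0 ^ 2 * (√(1 - (r * (θ : E 2) 0) ^ 2))⁻¹ := by
    intro θ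
    have e2 := mul_le_mul_of_nonneg_left (T7_le (hu θ).1 (hu θ).2) (sq_nonneg ((θ : E 2) 0))
    refine le_trans (le_of_eq ?_) e2
    rw [T7, Finset.mul_sum]
    refine Finset.sum_congr rfl fun k _ => ?_
    rw [pow_mul ((θ : E 2) 0) 2 (k + 1), mul_pow r, mul_pow (r ^ 2), pow_succ (((θ : E 2) 0) ^ 2) k]
    ring
  refine le_trans (le_of_eq ?_) (integral_mono (cint hp (by fun_prop))
    (cint hp ((by fun_prop : Continuous fun θ : Sph 2 => (θ : E 2) 0 ^ 2).mul hcs)) e1)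
  rw [integral_finsetSum]
  · refine Finset.sum_congr rfl fun k _ => ?_
    rw [integral_const_mul, momk]
    ring
  · intro k _
    exact cint hp (by fun_prop)

end

lemma final {t : ℝ} (h0 : 0 ≤ t) (h1 : t ≤ 1 / 25) :
    (29 / 80 + 3 / 4 * t) ^ 2 ≤ 64 * (3 / 20 + t) ^ 3 * (887 / 1000 - 3 / 2 * t) ^ 4 := by
  have e1 : 27 / 8000 + 27 / 400 * t ≤ (3 / 20 + t) ^ 3 := by
    have : (3 / 20 + t) ^ 3 = 27 / 8000 + 27 / 400 * t + 9 / 20 * t ^ 2 + t ^ 3 := by ring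
    rw [this]
    have h2 : 0 ≤ t ^ 2 := by positivity
    have h3 : 0 ≤ t ^ 3 := by positivity
    linarith
  have e2 : (887 / 1000) ^ 4 - 4 * (887 / 1000) ^ 3 * (3 / 2 * t) ≤
      (887 / 1000 - 3 / 2 * t) ^ 4 := by
    have h2 : (887 / 1000 - 3 / 2 * t) ^ 4 - ((887 / 1000) ^ 4 -
        4 * (887 / 1000) ^ 3 * (3 / 2 * t)) = (3 / 2 * t) ^ 2 *
        (((887 / 1000 - 3 / 2 * t) + 887 / 1000) ^ 2 + 2 * (887 / 1000) ^ 2) := by ring
    have h3 : 0 ≤ (3 / 2 * t) ^ 2 *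
        (((887 / 1000 - 3 / 2 * t) + 887 / 1000) ^ 2 + 2 * (887 / 1000) ^ 2) := by positivity
    linarith
  have e3 : 0 ≤ (887 / 1000) ^ 4 - 4 * (887 / 1000) ^ 3 * (3 / 2 * t) := by
    norm_num
    linarith
  have e4 : (27 / 8000 + 27 / 400 * t) * ((887 / 1000) ^ 4 - 4 * (887 / 1000) ^ 3 * (3 / 2 * t)) ≤
      (3 / 20 + t) ^ 3 * (887 / 1000 - 3 / 2 * t) ^ 4 :=
    mul_le_mul e1 e2 e3 (by positivity)
  have e5 : (29 / 80 + 3 / 4 * t) ^ 2 ≤ 64 * ((27 / 8000 + 27 / 400 * t) *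
      ((887 / 1000) ^ 4 - 4 * (887 / 1000) ^ 3 * (3 / 2 * t))) := by
    nlinarith [mul_nonneg h0 (sub_nonneg.2 h1)]
  calc (29 / 80 + 3 / 4 * t) ^ 2 ≤ _ := e5
    _ ≤ 64 * ((3 / 20 + t) ^ 3 * (887 / 1000 - 3 / 2 * t) ^ 4) :=
        mul_le_mul_of_nonneg_left e4 (by norm_num)
    _ = _ := by ring

theorem t : S_MOM → S_SPH → S_GDB := by
  intro hmom hsph s hs hs9
  have hp : IsProbabilityMeasure (sg 2) := (hsph 1 le_rfl).1
  obtain ⟨m2, m4, -⟩ := hmom 1 le_rfl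
  have h2 : ∫ θ : Sph 2, (θ : E 2) 0 ^ 2 ∂(sg 2) = 1 / 2 := by
    refine m2.trans ?_
    norm_num
  have h4 : ∫ θ : Sph 2, (θ : E 2) 0 ^ 4 ∂(sg 2) = 3 / 8 := by
    refine m4.trans ?_
    norm_num
  refine ⟨hs, by linarith, ?_⟩
  intro r hr
  have hr0 : 0 ≤ r := hr.1
  have hr9 : r ≤ 23 / 25 := hr.2.trans hs9
  rcases le_or_gt r (9 / 10) with hr1 | hr1
  · exact (GD1.t hsph hmom (9 / 10) (by norm_num) le_rfl).2.2 r ⟨hr0, hr1⟩
  obtain ⟨y, hy⟩ : ∃ y : ℝ, y = r ^ 2 := ⟨_, rfl⟩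
  have hyl : 81 / 100 ≤ y := by rw [hy]; nlinarith
  have hy0 : 0 ≤ y := by linarith
  have hy1 : y ≤ 529 / 625 := by rw [hy]; nlinarith
  have hu : ∀ θ : Sph 2, 0 < 1 - (r * (θ : E 2) 0) ^ 2 := by
    intro θ
    have h1 := x_le θ
    have h3 : (r * (θ : E 2) 0) ^ 2 = y * ((θ : E 2) 0) ^ 2 := by rw [hy]; ring
    rw [h3]
    nlinarith [sq_nonneg ((θ : E 2) 0)]
  have hcs : Continuous fun θ : Sph 2 => (√(1 - (r * (θ : E 2) 0) ^ 2))⁻¹ := by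
    refine Continuous.inv₀ (by fun_prop) fun θ => ?_
    exact (Real.sqrt_pos.2 (hu θ)).ne'
  -- the two squares
  have hAr : Ar 1 r = (1 - 3 * y / 4) / 2 := by
    unfold Ar
    have e1 : ∀ θ : Sph 2, (θ : E 2) 0 ^ 2 * (√(1 - (r * (θ : E 2) 0) ^ 2)) ^ (1 + 1) =
        0 + 1 * (θ : E 2) 0 ^ 2 + (-y) * (θ : E 2) 0 ^ 4 := by
      intro θ
      rw [Real.sq_sqrt (hu θ).le, hy]
      ring
    refine (integral_congr_ae (Eventually.of_forall e1)).trans ?_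
    refine (quad hp h2 h4 0 1 (-y)).trans ?_
    ring
  have hAt : At 1 r = (1 - y / 4) / 2 := by
    unfold At
    have e1 : ∀ θ : Sph 2, (1 - (θ : E 2) 0 ^ 2) * (√(1 - (r * (θ : E 2) 0) ^ 2)) ^ (1 + 1) =
        1 + (-1 - y) * (θ : E 2) 0 ^ 2 + y * (θ : E 2) 0 ^ 4 := by
      intro θ
      rw [Real.sq_sqrt (hu θ).le, hy]
      ring
    rw [show ((1 : ℕ) : ℝ) = 1 by norm_num, div_one]
    refine (integral_congr_ae (Eventually.of_forall e1)).trans ?_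
    refine (quad hp h2 h4 1 (-1 - y) y).trans ?_
    ring
  -- the weights
  obtain ⟨m, hm⟩ : ∃ m : ℝ, m = 1 - 3 * y / 4 := ⟨_, rfl⟩
  have hm0 : 0 < m := by rw [hm]; linarith
  obtain ⟨m', hm'⟩ : ∃ m' : ℝ, m' = 1 - y / 4 := ⟨_, rfl⟩
  have hm0' : 0 < m' := by rw [hm']; linarith
  obtain ⟨q, hq⟩ : ∃ q : ℝ, q = 887 / 1000 - 3 / 2 * (17 / 20 - y) := ⟨_, rfl⟩
  have hq0 : 0 < q := by rw [hq]; linarith
  have hkr : q ≤ kr 1 r := by
    rw [hq]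
    refine (P_lower hy0 (by linarith)).trans ?_
    rw [hy]
    exact kr_lower hp (by rw [← hy]; linarith)
  have hkt : (√m')⁻¹ / 2 ≤ kt 1 r := by
    unfold kt
    rw [show ((1 : ℕ) : ℝ) = 1 by norm_num, div_one]
    have e1 : ∀ θ : Sph 2, (√m')⁻¹ * (3 / 2 - 1 / (2 * m')) +
        ((√m')⁻¹ * (y / (2 * m') - (3 / 2 - 1 / (2 * m')))) * (θ : E 2) 0 ^ 2 +
        (-((√m')⁻¹ * (y / (2 * m')))) * (θ : E 2) 0 ^ 4 ≤
        (1 - (θ : E 2) 0 ^ 2) * (√(1 - (r * (θ : E 2) 0) ^ 2))⁻¹ := by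
      intro θ
      have h5 : 0 ≤ 1 - (θ : E 2) 0 ^ 2 := by linarith [x_le θ]
      have e2 := mul_le_mul_of_nonneg_left (tang (hu θ) hm0') h5
      refine le_trans (le_of_eq ?_) e2
      rw [hy]
      field_simp
      ring
    refine le_trans (le_of_eq ?_) (integral_mono (cint hp (by fun_prop))
      (cint hp ((by fun_prop : Continuous fun θ : Sph 2 => 1 - (θ : E 2) 0 ^ 2).mul hcs)) e1)
    refine Eq.trans ?_ (quad hp h2 h4 _ _ _).symm
    field_simp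
    rw [hm']
    ring
  -- the conditions
  obtain ⟨c, hc⟩ : ∃ c : ℝ, c = √(1 - r ^ 2) := ⟨_, rfl⟩
  have hc0 : 0 ≤ c := by rw [hc]; exact Real.sqrt_nonneg _
  have hc2 : c ^ 2 = 1 - y := by
    rw [hc, hy, Real.sq_sqrt]
    nlinarith
  have hsq' : (√m')⁻¹ ^ 2 = m'⁻¹ := by rw [inv_pow, Real.sq_sqrt hm0'.le]
  rw [← hc, hAr, hAt, ← hm, ← hm']
  have hkr2 : q ^ 2 ≤ kr 1 r ^ 2 := pow_le_pow_left₀ hq0.le hkr 2
  have hkt2 : m'⁻¹ / 4 ≤ kt 1 r ^ 2 := by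
    calc m'⁻¹ / 4 = ((√m')⁻¹ / 2) ^ 2 := by rw [div_pow, hsq']; norm_num
      _ ≤ _ := pow_le_pow_left₀ (by positivity) hkt 2
  constructor
  · have k1 : m ≤ 8 * c ^ 3 * q ^ 2 := by
      rw [← sq_le_sq₀ hm0.le (by positivity)]
      have k2 : (8 * c ^ 3 * q ^ 2) ^ 2 = 64 * (1 - y) ^ 3 * q ^ 4 := by rw [← hc2]; ring
      have k3 := final (t := 17 / 20 - y) (by linarith) (by linarith)
      rw [k2, hm, hq]
      refine le_trans (le_of_eq ?_) (k3.trans (le_of_eq ?_))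
      · ring
      · ring
    calc ((1 : ℕ) : ℝ) * (m / 2) = m / 2 := by norm_num
      _ ≤ 4 * c ^ 3 * q ^ 2 := by linarith
      _ = ((1 : ℕ) + 1 : ℝ) ^ 2 * c ^ 3 * q ^ 2 := by norm_num
      _ ≤ _ := mul_le_mul_of_nonneg_left hkr2 (by positivity)
  · have k1 : m' ^ 2 ≤ 2 * c := by
      rw [← sq_le_sq₀ (by positivity) (by positivity)]
      have k2 : (2 * c) ^ 2 = 4 * (1 - y) := by rw [← hc2]; ring
      rw [k2, hm']
      have k4 : 0 ≤ 1 - y / 4 := by linarith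
      have k5 : (1 - y / 4) ^ 2 ≤ 16 / 25 := by nlinarith
      calc ((1 - y / 4) ^ 2) ^ 2 = (1 - y / 4) ^ 2 * (1 - y / 4) ^ 2 := by ring
        _ ≤ 16 / 25 * (16 / 25) := mul_le_mul k5 k5 (sq_nonneg _) (by norm_num)
        _ ≤ 4 * (1 - y) := by norm_num; linarith
    have k3 : m' / 2 ≤ c * m'⁻¹ := by
      rw [← div_eq_mul_inv, le_div_iff₀ hm0']
      have k4 : m' / 2 * m' = m' ^ 2 / 2 := by ring
      linarith
    calc ((1 : ℕ) : ℝ) * (m' / 2) = m' / 2 := by norm_num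
      _ ≤ c * m'⁻¹ := k3
      _ = ((1 : ℕ) + 1 : ℝ) ^ 2 * c * (m'⁻¹ / 4) := by norm_num; ring
      _ ≤ _ := mul_le_mul_of_nonneg_left hkt2 (by positivity)

end Pool.Agent.N526.CP.GDB
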