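import Pool.Agent.N526.CP.Stm3
import Pool.Agent.N526.CP.GD2

/-!
# CPN2/GDC: an explicit radius in dimension four (helper713)
-/

set_option autoImplicit false

open MeasureTheory Metric Set

namespace Pool.Agent.N526.CP.GDC3

open Pool.Agent.H241R3.FV Pool.Agent.N526.CP.GDc Pool.Agent.N526.CP.GD2

lemma poly1 {y : ℝ} (h0 : 0 ≤ y) (h1 : y ≤ 11 / 20) :
    (3 * (1 / 4 - y / 4 + 5 * y ^ 2 / 64) * (1 - y / 2)) ^ 2 ≤ (1 - y) ^ 3 := by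
  have hz : 0 ≤ 11 / 20 - y := by linarith
  have key : (1 - y) ^ 3 - (3 * (1 / 4 - y / 4 + 5 * y ^ 2 / 64) * (1 - y / 2)) ^ 2 =
    (28000000/1771561) * y ^ 0 * (11 / 20 - y) ^ 6 +
    (121800000/1771561) * y ^ 1 * (11 / 20 - y) ^ 5 +
    (204881250/1771561) * y ^ 2 * (11 / 20 - y) ^ 4 +
    (167348125/1771561) * y ^ 3 * (11 / 20 - y) ^ 3 +
    (17161728975/453519616) * y ^ 4 * (11 / 20 - y) ^ 2 +
    (11281065975/1814078464) * y ^ 5 * (11 / 20 - y) ^ 1 +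
    (3624279975/29025255424) * y ^ 6 * (11 / 20 - y) ^ 0 := by ring
  have : 0 ≤ (1 - y) ^ 3 - (3 * (1 / 4 - y / 4 + 5 * y ^ 2 / 64) * (1 - y / 2)) ^ 2 := by
    rw [key]
    positivity
  linarith

lemma poly2 {y : ℝ} (h0 : 0 ≤ y) (h1 : y ≤ 11 / 20) :
    ((3 / 4 - y / 4 + 3 * y ^ 2 / 64) * (1 - y / 6)) ^ 2 ≤ 1 - y := by
  have hz : 0 ≤ 11 / 20 - y := by linarith
  have key : (1 - y) - ((3 / 4 - y / 4 + 3 * y ^ 2 / 64) * (1 - y / 6)) ^ 2 =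
    (28000000/1771561) * y ^ 0 * (11 / 20 - y) ^ 6 +
    (152600000/1771561) * y ^ 1 * (11 / 20 - y) ^ 5 +
    (337706250/1771561) * y ^ 2 * (11 / 20 - y) ^ 4 +
    (385656875/1771561) * y ^ 3 * (11 / 20 - y) ^ 3 +
    (545248277375/4081676544) * y ^ 4 * (11 / 20 - y) ^ 2 +
    (665069207005/16326706176) * y ^ 5 * (11 / 20 - y) ^ 1 +
    (1188826576031/261227298816) * y ^ 6 * (11 / 20 - y) ^ 0 := by ring
  have : 0 ≤ (1 - y) - ((3 / 4 - y / 4 + 3 * y ^ 2 / 64) * (1 - y / 6)) ^ 2 := by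
    rw [key]
    positivity
  linarith

lemma pow4 {u : ℝ} (hu : 0 ≤ u) : (√u) ^ (3 + 1) = u ^ 2 := by
  rw [show 3 + 1 = 2 * 2 by norm_num, pow_mul, Real.sq_sqrt hu]

theorem t (hM : S_MOM) (hS : S_SPH) : S_GDC := by
  intro s hs hs45
  obtain ⟨hp, -, -⟩ := hS 3 (by norm_num)
  have hs1 : s < 1 := by linarith
  refine ⟨hs, hs1, fun s' hs' => ?_⟩
  obtain ⟨h0, h1⟩ := hs'
  have hs'1 : s' < 1 := lt_of_le_of_lt h1 hs1
  obtain ⟨y, hy⟩ : ∃ y, y = s' ^ 2 := ⟨_, rfl⟩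
  have hy0 : 0 ≤ y := by rw [hy]; positivity
  have hy1 : y ≤ 11 / 20 := by rw [hy]; nlinarith
  have c0 : Continuous fun θ : Sph (3 + 1) => (θ : E (3 + 1)) 0 := cont0
  have ci := cont_inv (d := 3) h0 hs'1
  have hxy : ∀ θ : Sph (3 + 1), (s' * (θ : E (3 + 1)) 0) ^ 2 = y * (θ : E (3 + 1)) 0 ^ 2 := by
    intro θ
    rw [hy]
    ring
  have hu : ∀ θ : Sph (3 + 1), 0 < 1 - y * (θ : E (3 + 1)) 0 ^ 2 := by
    intro θ
    have := u_lt h0 hs'1 θ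
    rw [hxy] at this
    linarith
  have h44 : ∀ θ : Sph (3 + 1), (√(1 - (s' * (θ : E (3 + 1)) 0) ^ 2)) ^ (3 + 1) =
      (1 - y * (θ : E (3 + 1)) 0 ^ 2) ^ 2 := by
    intro θ
    rw [hxy]
    exact pow4 (hu θ).le
  have hlb : ∀ m : ℝ, 0 < m → ∀ θ : Sph (3 + 1),
      (√m)⁻¹ * (3 / 2 - (1 - y * (θ : E (3 + 1)) 0 ^ 2) / (2 * m)) ≤
      (√(1 - (s' * (θ : E (3 + 1)) 0) ^ 2))⁻¹ := by
    intro m hm θ
    rw [hxy]
    exact lowi (hu θ) hm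
  -- the integrals
  have hAr : Ar 3 s' = 1 / 4 - y / 4 + 5 * y ^ 2 / 64 := by
    unfold Ar
    have e1 : ∀ θ : Sph (3 + 1), (θ : E (3 + 1)) 0 ^ 2 *
        (√(1 - (s' * (θ : E (3 + 1)) 0) ^ 2)) ^ (3 + 1) =
        (0 + 1 * (θ : E (3 + 1)) 0 ^ 2 + (-(2 * y)) * ((θ : E (3 + 1)) 0 ^ 2) ^ 2 +
        y ^ 2 * ((θ : E (3 + 1)) 0 ^ 2) ^ 3) := by
      intro θ
      rw [h44]
      ring
    refine (integral_congr_ae (Filter.Eventually.of_forall e1)).trans ?_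
    rw [poly hp hM (by norm_num)]
    push_cast
    ring
  have hAt : 3 * At 3 s' = 3 / 4 - y / 4 + 3 * y ^ 2 / 64 := by
    have e1 : ∀ θ : Sph (3 + 1), (1 - (θ : E (3 + 1)) 0 ^ 2) *
        (√(1 - (s' * (θ : E (3 + 1)) 0) ^ 2)) ^ (3 + 1) =
        (1 + (-1 - 2 * y) * (θ : E (3 + 1)) 0 ^ 2 + (2 * y + y ^ 2) * ((θ : E (3 + 1)) 0 ^ 2) ^ 2 +
        (-(y ^ 2)) * ((θ : E (3 + 1)) 0 ^ 2) ^ 3) := by
      intro θ
      rw [h44]
      ring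
    have e2 : 3 * At 3 s' = ∫ θ : Sph (3 + 1), (1 - (θ : E (3 + 1)) 0 ^ 2) *
        (√(1 - (s' * (θ : E (3 + 1)) 0) ^ 2)) ^ (3 + 1) ∂(sg (3 + 1)) := by
      unfold At
      push_cast
      ring
    rw [e2]
    refine (integral_congr_ae (Filter.Eventually.of_forall e1)).trans ?_
    rw [poly hp hM (by norm_num)]
    push_cast
    ring
  have hm : 0 < 1 - y / 2 := by linarith
  have hm' : 0 < 1 - y / 6 := by linarith
  have hkr : (√(1 - y / 2))⁻¹ / 4 ≤ kr 3 s' := by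
    have h3 := poly hp hM (by norm_num) 0
      ((√(1 - y / 2))⁻¹ * (3 / 2 - 1 / (2 * (1 - y / 2))))
      ((√(1 - y / 2))⁻¹ * (y / (2 * (1 - y / 2)))) 0
    have h4 : ∫ θ : Sph (3 + 1), (0 + ((√(1 - y / 2))⁻¹ * (3 / 2 - 1 / (2 * (1 - y / 2)))) *
        (θ : E (3 + 1)) 0 ^ 2 + ((√(1 - y / 2))⁻¹ * (y / (2 * (1 - y / 2)))) *
        ((θ : E (3 + 1)) 0 ^ 2) ^ 2 +
        0 * ((θ : E (3 + 1)) 0 ^ 2) ^ 3) ∂(sg (3 + 1)) ≤ kr 3 s' := by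
      refine mono hp (by fun_prop) ((c0.pow 2).mul ci) fun θ => ?_
      have := mul_le_mul_of_nonneg_left (hlb _ hm θ) (sq_nonneg ((θ : E (3 + 1)) 0))
      refine le_trans (le_of_eq ?_) this
      ring
    refine le_trans (le_of_eq ?_) h4
    rw [h3]
    push_cast
    have hs0 : √(1 - y / 2) ≠ 0 := (Real.sqrt_pos.2 hm).ne'
    have hm0 : 2 - y ≠ 0 := by linarith
    have hm1 := hm.ne'
    field_simp
    ring
  have hkt : (√(1 - y / 6))⁻¹ / 4 ≤ kt 3 s' := by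
    have h3 := poly hp hM (by norm_num)
      ((√(1 - y / 6))⁻¹ * (3 / 2 - 1 / (2 * (1 - y / 6))))
      ((√(1 - y / 6))⁻¹ * (-(3 / 2 - 1 / (2 * (1 - y / 6))) + y / (2 * (1 - y / 6))))
      (-((√(1 - y / 6))⁻¹ * (y / (2 * (1 - y / 6))))) 0
    have h4 : ∫ θ : Sph (3 + 1), (((√(1 - y / 6))⁻¹ * (3 / 2 - 1 / (2 * (1 - y / 6)))) +
        ((√(1 - y / 6))⁻¹ * (-(3 / 2 - 1 / (2 * (1 - y / 6))) + y / (2 * (1 - y / 6)))) *
        (θ : E (3 + 1)) 0 ^ 2 + (-((√(1 - y / 6))⁻¹ * (y / (2 * (1 - y / 6))))) *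
        ((θ : E (3 + 1)) 0 ^ 2) ^ 2 +
        0 * ((θ : E (3 + 1)) 0 ^ 2) ^ 3) ∂(sg (3 + 1)) ≤
        ∫ θ : Sph (3 + 1), (1 - (θ : E (3 + 1)) 0 ^ 2) *
          (√(1 - (s' * (θ : E (3 + 1)) 0) ^ 2))⁻¹ ∂(sg (3 + 1)) := by
      refine mono hp (by fun_prop) ((continuous_const.sub (c0.pow 2)).mul ci) fun θ => ?_
      have := mul_le_mul_of_nonneg_left (hlb _ hm' θ)
        (show 0 ≤ 1 - (θ : E (3 + 1)) 0 ^ 2 by linarith [sq_le θ])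
      refine le_trans (le_of_eq ?_) this
      ring
    unfold kt
    rw [le_div_iff₀ (by norm_num)]
    refine le_trans (le_of_eq ?_) h4
    rw [h3]
    push_cast
    have hs0 : √(1 - y / 6) ≠ 0 := (Real.sqrt_pos.2 hm').ne'
    have hm0 : 6 - y ≠ 0 := by linarith
    have hm1 := hm'.ne'
    field_simp
    ring
  -- conclusion
  obtain ⟨c, hc⟩ : ∃ c, c = √(1 - s' ^ 2) := ⟨_, rfl⟩
  rw [← hc]
  have hc0 : 0 < c := by rw [hc, ← hy]; exact Real.sqrt_pos.2 (by linarith)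
  have hc2 : c ^ 2 = 1 - y := by rw [hc, ← hy, Real.sq_sqrt (by linarith)]
  constructor
  · have hkr2 : 1 / (16 * (1 - y / 2)) ≤ kr 3 s' ^ 2 := by
      have e1 : 1 / (16 * (1 - y / 2)) = ((√(1 - y / 2))⁻¹ / 4) ^ 2 := by
        rw [div_pow, inv_pow, Real.sq_sqrt hm.le]
        field_simp
        norm_num
      rw [e1]
      gcongr
    have hp1 := poly1 hy0 hy1
    have e2 : (1 - y) ^ 3 = (c ^ 3) ^ 2 := by rw [← hc2]; ring
    rw [e2, sq_le_sq₀ (by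
      have : 0 ≤ 1 / 4 - y / 4 + 5 * y ^ 2 / 64 := by nlinarith [sq_nonneg y]
      positivity) (by positivity)] at hp1
    rw [hAr]
    push_cast
    calc 3 * (1 / 4 - y / 4 + 5 * y ^ 2 / 64) ≤ c ^ 3 / (1 - y / 2) := by
          rw [le_div_iff₀ hm]
          exact hp1
      _ = (3 + 1) ^ 2 * c ^ 3 * (1 / (16 * (1 - y / 2))) := by
          field_simp
          norm_num
      _ ≤ (3 + 1) ^ 2 * c ^ 3 * kr 3 s' ^ 2 := by gcongr
  · have hkt2 : 1 / (16 * (1 - y / 6)) ≤ kt 3 s' ^ 2 := by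
      have e1 : 1 / (16 * (1 - y / 6)) = ((√(1 - y / 6))⁻¹ / 4) ^ 2 := by
        rw [div_pow, inv_pow, Real.sq_sqrt hm'.le]
        field_simp
        norm_num
      rw [e1]
      gcongr
    have hp1 := poly2 hy0 hy1
    rw [← hc2, sq_le_sq₀ (by
      have : 0 ≤ 3 / 4 - y / 4 + 3 * y ^ 2 / 64 := by nlinarith [sq_nonneg y]
      positivity) hc0.le] at hp1
    push_cast
    rw [hAt]
    calc (3 / 4 - y / 4 + 3 * y ^ 2 / 64) ≤ c / (1 - y / 6) := by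
          rw [le_div_iff₀ hm']
          exact hp1
      _ = (3 + 1) ^ 2 * c * (1 / (16 * (1 - y / 6))) := by
          field_simp
          norm_num
      _ ≤ (3 + 1) ^ 2 * c * kt 3 s' ^ 2 := by gcongr

end Pool.Agent.N526.CP.GDC3
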