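import Pool.Agent.N526.CP.Stm3

set_option autoImplicit false

namespace Pool.Agent.N526.CP.INJF

open MeasureTheory Metric Set
open Pool.Agent.N526.CP Pool.Agent.H241R3.FV

theorem t : S_INJF := by
  intro d hd F hinj hF
  have h := integral_image_eq_integral_abs_det_fderiv_smul (μ := (volume : Measure (E (d + 1))))
    (s := ball (0 : E (d + 1)) 1) (f := F) (f' := fun y => fderiv ℝ F y)
    measurableSet_ball (fun y hy => ((hF y hy).1.hasFDerivAt).hasFDerivWithinAt) hinj
    (fun X => (√(1 - ‖X‖ ^ 2))⁻¹)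
  rw [h]
  refine setIntegral_congr_fun measurableSet_ball ?_
  intro y hy
  show (fderiv ℝ F y).det * (√(1 - ‖F y‖ ^ 2))⁻¹ =
    |(fderiv ℝ F y).det| • (√(1 - ‖F y‖ ^ 2))⁻¹
  rw [abs_of_nonneg (hF y hy).2.1, smul_eq_mul]

end Pool.Agent.N526.CP.INJF
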