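import Pool.Agent.N526.CP.Stm3

/-!
# The volume of the image of an injective Lipschitz map
-/

set_option autoImplicit false

namespace Pool.Agent.N526.CP.INJF2

open MeasureTheory Metric Set Measure
open Pool.Agent.N526.CP Pool.Agent.H241R3.FV

/-- the image of a null set under a map which is Lipschitz on it is a null set -/
theorem null_image {n : ℕ} {F : E n → E n} {L : NNReal} {N : Set (E n)}
    (hF : LipschitzOnWith L F N) (hN : volume N = 0) : volume (F '' N) = 0 := by
  have hfin : Module.finrank ℝ (E n) = n := by simp [E]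
  have hH : IsAddHaarMeasure (μH[(n : ℝ)] : Measure (E n)) := by
    have h := isAddHaarMeasure_hausdorffMeasure (E := E n)
    rwa [hfin] at h
  have h1 : (μH[(n : ℝ)] : Measure (E n)) ≪ volume := absolutelyContinuous_isAddHaarMeasure _ _
  have h2 : (volume : Measure (E n)) ≪ (μH[(n : ℝ)] : Measure (E n)) :=
    absolutelyContinuous_isAddHaarMeasure _ _
  have h := hF.hausdorffMeasure_image_le (d := (n : ℝ)) (by positivity)
  rw [h1 hN, mul_zero] at h
  exact h2 (le_antisymm h bot_le)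

theorem t (d : ℕ) (F : E (d + 1) → E (d + 1)) (L : NNReal)
    (hL : LipschitzOnWith L F (closedBall 0 1)) (hinj : InjOn F (ball 0 1))
    (hdet : ∀ᵐ y ∂(volume.restrict (ball (0 : E (d + 1)) 1)), 0 ≤ (fderiv ℝ F y).det) :
    ∫ y in ball (0 : E (d + 1)) 1, (fderiv ℝ F y).det * (√(1 - ‖F y‖ ^ 2))⁻¹ =
      ∫ X in F '' ball (0 : E (d + 1)) 1, (√(1 - ‖X‖ ^ 2))⁻¹ := by
  have hLb : LipschitzOnWith L F (ball 0 1) := hL.mono ball_subset_closedBall
  have hae : ∀ᵐ y ∂(volume : Measure (E (d + 1))), y ∈ ball (0 : E (d + 1)) 1 →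
      DifferentiableAt ℝ F y := by
    have h := hLb.ae_differentiableWithinAt_of_mem (μ := (volume : Measure (E (d + 1))))
    filter_upwards [h] with y hy hyb
    exact (hy hyb).differentiableAt (isOpen_ball.mem_nhds hyb)
  set T : Set (E (d + 1)) := {y | DifferentiableAt ℝ F y} with hT
  have hTm : MeasurableSet T := measurableSet_of_differentiableAt ℝ F
  have hnull : volume (ball (0 : E (d + 1)) 1 \ T) = 0 := by
    rw [ae_iff] at hae
    refine measure_mono_null ?_ hae
    intro y hy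
    simp only [mem_setOf_eq]
    intro hc
    exact hy.2 (hc hy.1)
  have hsplit : F '' ball (0 : E (d + 1)) 1 = F '' (ball 0 1 ∩ T) ∪ F '' (ball 0 1 \ T) := by
    rw [← image_union, inter_union_diff]
  have hnull2 : volume (F '' (ball (0 : E (d + 1)) 1 \ T)) = 0 :=
    null_image (hLb.mono diff_subset) hnull
  have e1 : ∫ X in F '' ball (0 : E (d + 1)) 1, (√(1 - ‖X‖ ^ 2))⁻¹ =
      ∫ X in F '' (ball (0 : E (d + 1)) 1 ∩ T), (√(1 - ‖X‖ ^ 2))⁻¹ := by
    apply setIntegral_congr_set
    rw [hsplit]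
    exact union_ae_eq_left_of_ae_eq_empty (ae_eq_empty.2 hnull2)
  have e2 : ∫ y in ball (0 : E (d + 1)) 1, (fderiv ℝ F y).det * (√(1 - ‖F y‖ ^ 2))⁻¹ =
      ∫ y in ball (0 : E (d + 1)) 1 ∩ T, (fderiv ℝ F y).det * (√(1 - ‖F y‖ ^ 2))⁻¹ := by
    apply setIntegral_congr_set
    have : ball (0 : E (d + 1)) 1 = (ball 0 1 ∩ T) ∪ (ball 0 1 \ T) := (inter_union_diff _ _).symm
    conv_lhs => rw [this]
    exact union_ae_eq_left_of_ae_eq_empty (ae_eq_empty.2 hnull)
  rw [e1, e2]
  have h := integral_image_eq_integral_abs_det_fderiv_smul (μ := (volume : Measure (E (d + 1))))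
    (s := ball (0 : E (d + 1)) 1 ∩ T) (f := F) (f' := fun y => fderiv ℝ F y)
    (measurableSet_ball.inter hTm) (fun y hy => (hy.2.hasFDerivAt).hasFDerivWithinAt)
    (hinj.mono inter_subset_left) (fun X => (√(1 - ‖X‖ ^ 2))⁻¹)
  rw [h]
  refine setIntegral_congr_ae (measurableSet_ball.inter hTm) ?_
  rw [ae_restrict_iff' measurableSet_ball] at hdet
  filter_upwards [hdet] with y hy hyb
  rw [abs_of_nonneg (hy hyb.1), smul_eq_mul]

end Pool.Agent.N526.CP.INJF2
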