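import Pool.Agent.N526.CP.Stm3

/-!
# PROJECT CPN (helper526), part MAINF (helper897, after helper73's MAIN): assembly of the region
theorem
-/

set_option autoImplicit false

open MeasureTheory Metric Set Filter Topology InnerProductGeometry Matrix

namespace Pool.Agent.N526.CP.MAINF

open Pool.Agent.H241R3.FV Pool.Agent.N526.CP

theorem ofReal_sum_le {ι : Type} (s : Finset ι) (f : ι → ℝ) :
    ENNReal.ofReal (∑ i ∈ s, f i) ≤ ∑ i ∈ s, ENNReal.ofReal (f i) := by
  classical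
  induction s using Finset.induction_on with
  | empty => simp
  | insert a s ha ih =>
    rw [Finset.sum_insert ha, Finset.sum_insert ha]
    exact ENNReal.ofReal_add_le.trans (add_le_add le_rfl ih)

theorem ofReal_integral_le {α : Type} [MeasurableSpace α] {μ : Measure α} {f : α → ℝ}
    (hf : Integrable f μ) : ENNReal.ofReal (∫ x, f x ∂μ) ≤ ∫⁻ x, ENNReal.ofReal (f x) ∂μ := by
  have h := integral_eq_lintegral_pos_part_sub_lintegral_neg_part hf
  have h1 : ∫ x, f x ∂μ ≤ (∫⁻ x, ENNReal.ofReal (f x) ∂μ).toReal := by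
    rw [h]
    linarith [ENNReal.toReal_nonneg (a := ∫⁻ x, ENNReal.ofReal (-f x) ∂μ)]
  exact (ENNReal.ofReal_le_ofReal h1).trans ENNReal.ofReal_toReal_le

theorem t : S_SPH → S_FAMF → S_PTWF → S_LIPF → S_FUB → S_CAPVF → S_STO → S_MAINF := by
  intro hSPH hFAM hPTW hLIP hFUB hCAPV hSTO d hd s hGood M _ _ S F L hFL hFs hbd
  by_cases hvol : S.vol = ⊤
  · rw [hvol]
    exact le_top
  have hvol' : S.vol < ⊤ := lt_top_iff_ne_top.2 hvol
  have hs0 : 0 < s := hGood.1
  have hs1 : s < 1 := hGood.2.1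
  have hFx : ∀ x : Sph (d + 1), ‖F x‖ ≤ s := fun x =>
    hFs x (sphere_subset_closedBall x.2)
  obtain ⟨g, hg⟩ := hFAM d hd M S s hs0 hs1 F hFx hbd
  obtain ⟨K, hK1, hK2, hK3, hK4, hK5, hK6, hK7⟩ := hLIP d hd M S s F g hs0 hs1 hg L hFL hFs
  obtain ⟨hprob, -, -⟩ := hSPH d hd
  have := hprob
  -- Stokes
  have hst1 : ∀ θ, jint S (Psi g θ) =
      ∫ y in ball (0 : E (d + 1)) 1, (fderiv ℝ (PsiF F θ) y).det := fun θ =>
    hSTO (d + 1) (by omega) M S hvol' K (Psi g θ) (PsiF F θ) (hK1 θ) (hK3 θ) (fun x => hK5 θ x)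
  have hst2 : jint S (Hf ∘ Xf g) =
      ∫ y in ball (0 : E (d + 1)) 1, (fderiv ℝ (Hf ∘ F) y).det :=
    hSTO (d + 1) (by omega) M S hvol' K (Hf ∘ Xf g) (Hf ∘ F) hK2 hK4
      (fun x => hK6 x)
  -- Fubini
  obtain ⟨-, hF2, hF3⟩ := hFUB d hd M S hvol' K (Psi g) hK1 hK7 hprob
  obtain ⟨-, hG2, -⟩ := hFUB d hd M S hvol' K (fun _ => Hf ∘ Xf g) (fun _ => hK2)
    (hK2.continuous.comp continuous_snd) hprob
  have hG4 : ∀ i, IntegrableOn (fun p => (fderiv ℝ (Hf ∘ Xf g ∘ (S.chart i).map) p).det)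
      (S.chart i).D := by
    intro i
    have h := hG2 i
    simp only [integral_const, probReal_univ, one_smul] at h
    exact h
  have hcap := hCAPV d hd s hs0 hs1 F L hFL hFs
  have h1 : ∫ y in ball (0 : E (d + 1)) 1, (fderiv ℝ F y).det * (√(1 - ‖F y‖ ^ 2))⁻¹ = ∑ i, ∫ p in (S.chart i).D,
      ((d + 1) * ∫ θ, (fderiv ℝ (Psi g θ ∘ (S.chart i).map) p).det ∂(sg (d + 1)) -
        d * (fderiv ℝ (Hf ∘ Xf g ∘ (S.chart i).map) p).det) := by
    rw [← hcap, ← hst2]
    simp only [← hst1]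
    rw [hF3]
    unfold jint
    rw [Finset.mul_sum, Finset.mul_sum, ← Finset.sum_sub_distrib]
    refine Finset.sum_congr rfl fun i _ => ?_
    rw [integral_sub ((hF2 i).const_mul _) ((hG4 i).const_mul _), integral_const_mul,
      integral_const_mul]
    rfl
  rw [h1]
  refine (ofReal_sum_le _ _).trans ?_
  unfold OFill.vol
  refine Finset.sum_le_sum fun i _ => ?_
  refine (ofReal_integral_le (((hF2 i).const_mul _).sub ((hG4 i).const_mul _))).trans ?_
  refine lintegral_mono_ae ?_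
  have h2 := ae_restrict_of_ae (s := (S.chart i).D) (hPTW d hd M S s F g hGood hg i)
  filter_upwards [h2, ae_restrict_mem (S.chart i).meas_D] with p hp hpD
  exact ENNReal.ofReal_le_ofReal (hp ((S.chart i).D_sub hpD))

end Pool.Agent.N526.CP.MAINF
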