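import Pool.Agent.N526.CP.Stm3
import Pool.Agent.N979.CP.Stm

/-!
# Regions of round caps are minimal fillings: the pointwise inequality, anisotropic version
-/

set_option autoImplicit false

open MeasureTheory Metric Set Filter Topology InnerProductGeometry Matrix

namespace Pool.Agent.N526.CP

open Pool.Agent.H241R3.FV Pool.Agent.N979.CP

/-- PTWF2 -/
def S_PTWF2 : Prop := ∀ (d : ℕ), 1 ≤ d →
  ∀ (M : Type) [MetricSpace M] [CompactSpace M] (S : OFill (d + 1) M) (s : ℝ)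
  (F : E (d + 1) → E (d + 1)) (g : Sph (d + 1) → M → ℝ), Good2 d s → FamF S s F g → ∀ i,
  ∀ᵐ p ∂(volume : Measure (E (d + 1))), p ∈ (S.chart i).U →
    (d + 1) * ∫ θ, (fderiv ℝ (Psi g θ ∘ (S.chart i).map) p).det ∂(sg (d + 1)) -
      d * (fderiv ℝ (Hf ∘ Xf g ∘ (S.chart i).map) p).det ≤ √((S.chart i).G p).det

/-- MAINF2 -/
def S_MAINF2 : Prop := ∀ (d : ℕ), 1 ≤ d → ∀ (s : ℝ), Good2 d s → RegThm d s

namespace PTWF2

theorem cl_apply {n : ℕ} (A : Matrix (Fin n) (Fin n) ℝ) (v : E n) (i : Fin n) :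
    (cl A v) i = ∑ j, A i j * v j := by
  unfold cl
  rw [Matrix.ofLp_toEuclideanCLM]
  rfl

theorem mat_cl {n : ℕ} (A : Matrix (Fin n) (Fin n) ℝ) : mat (cl A) = A := by
  funext i j
  unfold mat
  rw [cl_apply]
  simp [Finset.sum_ite_eq]

theorem det_cl {n : ℕ} (A : Matrix (Fin n) (Fin n) ℝ) : (cl A).det = A.det := by
  rw [det_mat, mat_cl]

theorem cl_mul {n : ℕ} (A B : Matrix (Fin n) (Fin n) ℝ) : (cl A).comp (cl B) = cl (A * B) := by
  unfold cl
  rw [map_mul]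
  rfl

theorem cl_add {n : ℕ} (A B : Matrix (Fin n) (Fin n) ℝ) : cl A + cl B = cl (A + B) := by
  unfold cl
  rw [map_add]

theorem cl_smulRight {n : ℕ} (a b : E n) :
    (innerSL ℝ b).smulRight a = cl (vecMulVec (fun i => a i) (fun i => b i)) := by
  ext v i
  rw [cl_apply]
  simp only [ContinuousLinearMap.smulRight_apply, innerSL_apply_apply, PiLp.smul_apply, smul_eq_mul,
    vecMulVec_apply, PiLp.inner_apply, RCLike.inner_apply, conj_trivial]
  rw [Finset.sum_mul]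
  apply Finset.sum_congr rfl
  intro j _
  ring

theorem det_comp {n : ℕ} (A B : E n →L[ℝ] E n) : (A.comp B).det = A.det * B.det := by
  unfold ContinuousLinearMap.det
  rw [← LinearMap.det_comp]
  rfl

theorem t : S_COMb → S_INV → S_UDER → S_XDIFF → S_PTWF2 := by
  intro hCOM hINV hUDER hXDIF d hd M _ _ S s F g hs hF i
  filter_upwards [hXDIF d hd M S s F g hs.1 hs.2.1 hF i] with p hp hpU
  obtain ⟨α, hαm, hα1, hα2, hX⟩ := hp hpU
  obtain ⟨X, hXdef⟩ : ∃ X, X = Xf g ((S.chart i).map p) := ⟨_, rfl⟩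
  rw [← hXdef] at hX
  have hXs : ‖X‖ ≤ s := by
    rw [hXdef]
    exact ((hINV d hd).2.1 s hs.1 hs.2.1 _ (hF.range ((S.chart i).map p))).1
  have hX1 : ‖X‖ < 1 := lt_of_le_of_lt hXs hs.2.1
  have com := hCOM d hd s hs X hXs α hαm ((S.chart i).G p) ((S.chart i).pos_G p hpU) hα2
  have hint : ∫ θ, (fderiv ℝ (Psi g θ ∘ (S.chart i).map) p).det ∂(sg (d + 1)) =
      ∫ θ, (Vm X θ * Lm X α +
        vecMulVec (fun i => (θ : E (d + 1)) i) (fun i => α θ i)).det ∂(sg (d + 1)) := by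
    apply integral_congr_ae
    filter_upwards [hα1] with θ hθ
    have hU := (hUDER d hd X hX1).1 θ
    rw [hXdef] at hU
    have h1 : HasFDerivAt (Uf θ ∘ (Xf g ∘ (S.chart i).map)) ((cl (Vm (Xf g ((S.chart i).map p)) θ)).comp
        (cl (Lm X α))) p := HasFDerivAt.comp p hU hX
    have h2 : HasFDerivAt (fun y => (g θ ∘ (S.chart i).map) y • (θ : E (d + 1)))
        ((innerSL ℝ (α θ)).smulRight (θ : E (d + 1))) p := hθ.smul_const _
    have h3 : HasFDerivAt (Psi g θ ∘ (S.chart i).map) ((cl (Vm (Xf g ((S.chart i).map p)) θ)).comp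
        (cl (Lm X α)) + (innerSL ℝ (α θ)).smulRight (θ : E (d + 1))) p := h1.add h2
    rw [h3.fderiv, ← hXdef, cl_mul, cl_smulRight, cl_add, det_cl]
  obtain ⟨T, hT, hTdet⟩ := (hUDER d hd X hX1).2
  have h4 : HasFDerivAt (Hf ∘ Xf g ∘ (S.chart i).map) (T.comp (cl (Lm X α))) p := by
    rw [hXdef] at hT
    exact HasFDerivAt.comp p hT hX
  rw [hint, h4.fderiv, det_comp, det_cl, hTdet, mul_comm (√(1 - ‖X‖ ^ 2))⁻¹]
  exact com

end PTWF2

end Pool.Agent.N526.CP
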