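import Pool.Agent.N526.CP.Stm3

/-!
# RCAP: the region theorem contains the cap theorem (by helper814)
-/

set_option autoImplicit false

open MeasureTheory Metric Set Filter Topology InnerProductGeometry Matrix

namespace Pool.Agent.N526.CP.RCAP

open Pool.Agent.H241R3.FV Pool.Agent.N526.CP

theorem t : S_CAPS → S_RCAP := by
  intro hC d hd ρ h0 h1 hR M _ _ S hS
  have hpi := Real.pi_pos
  have hs0 : 0 < Real.sin ρ := Real.sin_pos_of_pos_of_lt_pi h0 (by linarith)
  have hc0 : 0 < Real.cos ρ := Real.cos_pos_of_mem_Ioo ⟨by linarith, by linarith⟩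
  obtain ⟨s, hs⟩ : ∃ s, s = Real.sin ρ := ⟨_, rfl⟩
  rw [← hs] at hs0 hR
  have hsc : 1 - s ^ 2 = Real.cos ρ ^ 2 := by
    rw [hs]
    have := Real.sin_sq_add_cos_sq ρ
    linarith
  have hL : LipschitzOnWith ‖s‖₊ (fun y : E (d + 1) => s • y) (closedBall 0 1) :=
    (lipschitzWith_smul s).lipschitzOnWith
  have hN : ∀ y ∈ closedBall (0 : E (d + 1)) 1, ‖s • y‖ ≤ s := by
    intro y hy
    rw [mem_closedBall_zero_iff] at hy
    rw [norm_smul, Real.norm_of_nonneg hs0.le]
    nlinarith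
  have hD : ∀ x y : Sph (d + 1), hdist (s • (x : E (d + 1))) (s • (y : E (d + 1))) ≤
      dist (S.bd x) (S.bd y) := by
    intro x y
    refine le_trans (le_of_eq ?_) (hS x y)
    unfold hdist capDist
    have hn : ∀ z : Sph (d + 1), √(1 - ‖s • (z : E (d + 1))‖ ^ 2) = Real.cos ρ := by
      intro z
      rw [norm_smul, norm_sph, mul_one, Real.norm_of_nonneg hs0.le, hsc, Real.sqrt_sq hc0.le]
    rw [hn, hn, inner_smul_left, inner_smul_right, ← hs]
    congr 1
    simp only [conj_trivial]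
    ring
  have key := hR M S (fun y => s • y) ‖s‖₊ hL hN hD
  rw [← hC d hd ρ h0 h1, ← hs]
  refine le_trans (le_of_eq ?_) key
  congr 1
  have hdet : ∀ y : E (d + 1), (fderiv ℝ (fun y : E (d + 1) => s • y) y).det = s ^ (d + 1) := by
    intro y
    have h2 : fderiv ℝ (fun y : E (d + 1) => s • y) y = s • ContinuousLinearMap.id ℝ (E (d + 1)) :=
      (s • ContinuousLinearMap.id ℝ (E (d + 1))).hasFDerivAt.fderiv
    rw [h2]
    have h3 : (s • ContinuousLinearMap.id ℝ (E (d + 1))).det =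
        LinearMap.det (s • (LinearMap.id : E (d + 1) →ₗ[ℝ] E (d + 1))) := rfl
    rw [h3, LinearMap.det_smul, LinearMap.det_id, mul_one, finrank_euclideanSpace_fin]
  simp only [hdet]
  rw [integral_const_mul]
  have h := Measure.setIntegral_comp_smul_of_pos volume
    (fun y : E (d + 1) => (√(1 - ‖y‖ ^ 2))⁻¹) (ball (0 : E (d + 1)) 1) hs0
  rw [smul_unitBall_of_pos hs0, finrank_euclideanSpace_fin, smul_eq_mul] at h
  rw [h]
  unfold capv
  rw [← mul_assoc, mul_inv_cancel₀ (pow_ne_zero _ hs0.ne'), one_mul]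

end Pool.Agent.N526.CP.RCAP
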