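import Pool.Agent.N526.CP.Stm3
import Pool.Agent.H241R3.FV.TLoc

/-!
# PROJECT CPN, part XDIF: differentiability of `X` on the filling (helper723)
-/

set_option autoImplicit false

open MeasureTheory Metric Set Filter Topology InnerProductGeometry Matrix

namespace Pool.Agent.N526.CP.XDIFF

open Pool.Agent.H241R3.FV Pool.Agent.N526.CP

theorem gnorm_smul {n : ℕ} (G : Matrix (Fin n) (Fin n) ℝ) (h : ℝ) (v : E n) :
    gnorm G (h • v) = |h| * gnorm G v := by
  unfold gnorm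
  rw [← Real.sqrt_sq_eq_abs, ← Real.sqrt_mul (sq_nonneg h)]
  congr 1
  rw [Finset.mul_sum]
  refine Finset.sum_congr rfl fun i _ => ?_
  rw [Finset.mul_sum]
  refine Finset.sum_congr rfl fun j _ => ?_
  simp only [PiLp.smul_apply, smul_eq_mul]
  ring

theorem fderiv_bound {n : ℕ} {f : E n → ℝ} {L : E n →L[ℝ] ℝ} {p : E n}
    {G : Matrix (Fin n) (Fin n) ℝ} (hf : HasFDerivAt f L p)
    (hloc : ∀ ε : ℝ, 0 < ε → ∃ r : ℝ, 0 < r ∧ ∀ y ∈ ball p r,
      |f y - f p| ≤ gnorm G (y - p) + ε * ‖y - p‖) (v : E n) : |L v| ≤ gnorm G v := by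
  refine le_of_forall_pos_le_add fun δ hδ => ?_
  have hv : 0 < ‖v‖ + 1 := by positivity
  obtain ⟨r, hr, h⟩ := hloc (δ / (‖v‖ + 1)) (by positivity)
  have h1 := (hf.hasLineDerivAt v).tendsto_slope_zero.abs
  refine le_of_tendsto h1 ?_
  have h2 : ∀ᶠ t : ℝ in 𝓝[≠] 0, p + t • v ∈ ball p r := by
    have h3 : Tendsto (fun t : ℝ => p + t • v) (𝓝 0) (𝓝 (p + (0 : ℝ) • v)) :=
      Continuous.tendsto (by fun_prop) 0
    rw [zero_smul, add_zero] at h3
    exact (h3.mono_left nhdsWithin_le_nhds).eventually (ball_mem_nhds p hr)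
  filter_upwards [h2, self_mem_nhdsWithin] with t ht ht0
  have ht0' : t ≠ 0 := ht0
  have h4 := h _ ht
  rw [add_sub_cancel_left, gnorm_smul, norm_smul, Real.norm_eq_abs] at h4
  rw [smul_eq_mul, abs_mul, abs_inv]
  have hta : 0 < |t| := abs_pos.2 ht0'
  rw [inv_mul_le_iff₀ hta]
  refine h4.trans ?_
  have h5 : δ / (‖v‖ + 1) * ‖v‖ ≤ δ := by
    rw [div_mul_eq_mul_div, div_le_iff₀ hv]
    nlinarith [norm_nonneg v]
  have h6 : |t| * (δ / (‖v‖ + 1) * ‖v‖) ≤ |t| * δ := mul_le_mul_of_nonneg_left h5 hta.le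
  nlinarith

theorem cl_single {n : ℕ} (A : Matrix (Fin n) (Fin n) ℝ) (i j : Fin n) :
    (cl A (EuclideanSpace.single j 1)) i = A i j := by
  change (A *ᵥ (WithLp.ofLp (EuclideanSpace.single j (1 : ℝ)))) i = A i j
  rw [PiLp.ofLp_single, Matrix.mulVec_single_one]
  rfl

theorem cl_comp {n : ℕ} (A B : Matrix (Fin n) (Fin n) ℝ) :
    (cl A).comp (cl B) = cl (A * B) := by
  unfold cl
  rw [map_mul]
  rfl

theorem t : S_SPH → S_INV → S_DER → S_RAP → S_XDIFF := by
  intro hSPH hINV hDER hRAP d hd M _ _ S s F g hs0 hs1 hg i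
  obtain ⟨hprob, -, -⟩ := hSPH d hd
  set C := S.chart i with hC
  have hloc : ∀ p ∈ C.U, ∀ ε : ℝ, 0 < ε → ∃ r : ℝ, 0 < r ∧ ∀ θ, ∀ y ∈ ball p r, ∀ z ∈ ball p r,
      |g θ (C.map y) - g θ (C.map z)| ≤ gnorm (C.G p) (y - z) + ε * ‖y - z‖ := by
    intro p hp ε hε
    obtain ⟨r, hr, -, h⟩ := Pool.Agent.H241R3.FV.TLoc.taskLoc (d + 1) M C p hp ε hε
    exact ⟨r, hr, fun θ y hy z hz => (hg.lip θ _ _).trans (h y hy z hz)⟩
  have hlip : ∀ p ∈ C.U, ∃ r : ℝ, 0 < r ∧ ∃ K : ℝ, ∀ θ, ∀ y ∈ ball p r, ∀ z ∈ ball p r,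
      ‖g θ (C.map y) - g θ (C.map z)‖ ≤ K * ‖y - z‖ := by
    intro p hp
    obtain ⟨r, hr, h⟩ := hloc p hp 1 one_pos
    refine ⟨r, hr, √(∑ i, ∑ j, |C.G p i j|) + 1, fun θ y hy z hz => ?_⟩
    rw [Real.norm_eq_abs]
    refine (h θ y hy z hz).trans ?_
    rw [add_mul]
    exact add_le_add_left (Pool.Agent.H241R3.FV.gnorm_le _ _) _
  have hcont : ∀ q, Continuous fun θ => g θ q := by
    obtain ⟨K, hK⟩ := hg.lipθ
    intro q
    refine LipschitzWith.continuous (K := Real.toNNReal K)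
      (LipschitzWith.of_dist_le_mul fun θ θ' => ?_)
    rw [Real.dist_eq, Subtype.dist_eq, dist_eq_norm]
    refine (hK θ θ' q).trans ?_
    gcongr
    exact Real.le_coe_toNNReal K
  have hcont2 : ∀ q, Continuous fun θ : Sph (d + 1) => g θ q • (θ : E (d + 1)) := fun q =>
    (hcont q).smul continuous_subtype_val
  obtain ⟨hae, hsm⟩ := hRAP (d + 1) ℝ C.U C.isOpen_U (fun θ p => g θ (C.map p)) hlip
    (fun p _ => hcont _) inferInstance
  filter_upwards [hae] with p hp hpU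
  have hdiff := hp hpU
  obtain ⟨α, hαd⟩ : ∃ α : Sph (d + 1) → E (d + 1), α = fun θ =>
      (InnerProductSpace.toDual ℝ (E (d + 1))).symm (fderiv ℝ (fun y => g θ (C.map y)) p) :=
    ⟨_, rfl⟩
  have hαinner : ∀ θ v, inner ℝ (α θ) v = fderiv ℝ (fun y => g θ (C.map y)) p v := by
    intro θ v
    rw [hαd]
    exact InnerProductSpace.toDual_symm_apply
  have hsm1 : StronglyMeasurable
      (fun θ : Sph (d + 1) => fderiv ℝ (fun y => g θ (C.map y)) p) := by
    have h1 := hsm.comp_measurable (measurable_prodMk_left (x := p) (β := Sph (d + 1)))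
    have e : (fun θ : Sph (d + 1) => fderiv ℝ (fun y => g θ (C.map y)) p) =
        (fun z : E (d + 1) × Sph (d + 1) =>
          open Classical in if z.1 ∈ C.U then fderiv ℝ (fun y => g z.2 (C.map y)) z.1 else 0) ∘
          Prod.mk p := by
      funext θ
      simp only [Function.comp_apply, if_pos hpU]
    rw [e]
    exact h1
  have hαm : StronglyMeasurable α := by
    rw [hαd]
    exact (InnerProductSpace.toDual ℝ (E (d + 1))).symm.continuous.comp_stronglyMeasurable hsm1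
  have hHas : ∀ᵐ θ ∂(sg (d + 1)), HasFDerivAt (g θ ∘ C.map) (innerSL ℝ (α θ)) p := by
    filter_upwards [hdiff] with θ hθ
    have h1 : HasFDerivAt (g θ ∘ C.map) (fderiv ℝ (fun y => g θ (C.map y)) p) p := hθ.hasFDerivAt
    have e : innerSL ℝ (α θ) = fderiv ℝ (fun y => g θ (C.map y)) p := by
      ext v
      exact hαinner θ v
    rw [e]
    exact h1
  have hbd : ∀ᵐ θ ∂(sg (d + 1)), ∀ v, |inner ℝ (α θ) v| ≤ gnorm (C.G p) v := by
    filter_upwards [hHas] with θ hθ v
    refine fderiv_bound hθ (fun ε hε => ?_) v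
    obtain ⟨r, hr, h⟩ := hloc p hpU ε hε
    exact ⟨r, hr, fun y hy => h θ y hy p (mem_ball_self hr)⟩
  refine ⟨α, hαm.measurable, hHas, hbd, ?_⟩
  -- the derivative of the integral
  obtain ⟨r, hr, K, hK⟩ := hlip p hpU
  have hI := hasFDerivAt_integral_of_dominated_loc_of_lip' (𝕜 := ℝ) (μ := sg (d + 1))
    (s := ball p r) (x₀ := p) (F := fun y (θ : Sph (d + 1)) => g θ (C.map y) • (θ : E (d + 1)))
    (F' := fun θ : Sph (d + 1) => (innerSL ℝ (α θ)).smulRight (θ : E (d + 1)))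
    (bound := fun _ => K) (ball_mem_nhds p hr) ?_ ?_ ?_ ?_ ?_ ?_
  · obtain ⟨hInt, hD⟩ := hI
    have hM : (∫ θ : Sph (d + 1), (innerSL ℝ (α θ)).smulRight (θ : E (d + 1)) ∂(sg (d + 1))) =
        cl (Mx (sg (d + 1)) (fun θ : Sph (d + 1) => (θ : E (d + 1))) α) := by
      apply ContinuousLinearMap.coe_injective
      refine (EuclideanSpace.basisFun (Fin (d + 1)) ℝ).toBasis.ext fun j => ?_
      rw [OrthonormalBasis.coe_toBasis, EuclideanSpace.basisFun_apply]
      ext k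
      have h1 : (∫ θ : Sph (d + 1), (innerSL ℝ (α θ)).smulRight (θ : E (d + 1)) ∂(sg (d + 1)))
          (EuclideanSpace.single j 1) = ∫ θ : Sph (d + 1), ((innerSL ℝ (α θ)).smulRight
            (θ : E (d + 1))) (EuclideanSpace.single j 1) ∂(sg (d + 1)) :=
        ContinuousLinearMap.integral_apply hInt _
      have h2 := (EuclideanSpace.proj k : E (d + 1) →L[ℝ] ℝ).integral_comp_comm
        (hInt.apply_continuousLinearMap (EuclideanSpace.single j 1))
      have h3 : ∀ θ : Sph (d + 1), (EuclideanSpace.proj k : E (d + 1) →L[ℝ] ℝ)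
          (((innerSL ℝ (α θ)).smulRight (θ : E (d + 1))) (EuclideanSpace.single j 1)) =
            (θ : E (d + 1)) k * α θ j := by
        intro θ
        have e1 : inner ℝ (α θ) (EuclideanSpace.single j (1 : ℝ)) = α θ j := by
          rw [EuclideanSpace.inner_single_right]
          simp
        change (inner ℝ (α θ) (EuclideanSpace.single j (1 : ℝ)) • (θ : E (d + 1))) k = _
        rw [e1, PiLp.smul_apply, smul_eq_mul, mul_comm]
      simp only [h3] at h2
      change ((∫ θ : Sph (d + 1), (innerSL ℝ (α θ)).smulRight (θ : E (d + 1)) ∂(sg (d + 1)))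
          (EuclideanSpace.single j 1)) k = (cl _ (EuclideanSpace.single j 1)) k
      rw [h1, cl_single]
      exact h2.symm
    rw [hM] at hD
    obtain ⟨Y, hY⟩ : ∃ Y : E (d + 1), Y = ∫ θ : Sph (d + 1), g θ (C.map p) • (θ : E (d + 1))
      ∂(sg (d + 1)) := ⟨_, rfl⟩
    have hYr : ‖Y‖ ≤ zf d s := by
      rw [hY]
      exact hg.range (C.map p)
    obtain ⟨h1, h2⟩ := (hINV d hd).2.1 s hs0 hs1 Y hYr
    have h3 := (hDER d hd (Ri Y) (h1.trans_lt hs1)).2.2
    rw [h2] at h3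
    have hXY : Xf g (C.map p) = Ri Y := by
      rw [hY]
      rfl
    rw [hXY]
    unfold Lm
    rw [← cl_comp]
    have h4 : HasFDerivAt (Ri : E (d + 1) → E (d + 1)) (cl (DZ (Ri Y))⁻¹)
        ((fun y => ∫ θ : Sph (d + 1), g θ (C.map y) • (θ : E (d + 1)) ∂(sg (d + 1))) p) := by
      rw [hY] at h3 ⊢
      exact h3
    exact h4.comp p hD
  · intro x _
    exact (hcont2 _).aestronglyMeasurable
  · exact (hcont2 _).integrable_of_hasCompactSupport (HasCompactSupport.of_compactSpace _)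
  · have h1 : StronglyMeasurable (fun θ : Sph (d + 1) => innerSL ℝ (α θ)) :=
      (innerSL ℝ).continuous.comp_stronglyMeasurable hαm
    have h2 : StronglyMeasurable (fun θ : Sph (d + 1) => (θ : E (d + 1))) :=
      continuous_subtype_val.stronglyMeasurable
    exact ((ContinuousLinearMap.smulRightL ℝ (E (d + 1))
      (E (d + 1))).continuous₂.comp_stronglyMeasurable (h1.prodMk h2)).aestronglyMeasurable
  · refine Eventually.of_forall fun θ x hx => ?_
    rw [← sub_smul, norm_smul, norm_sph, mul_one]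
    exact hK θ x hx p (mem_ball_self hr)
  · exact integrable_const K
  · filter_upwards [hHas] with θ hθ
    exact hθ.smul_const (θ : E (d + 1))

end Pool.Agent.N526.CP.XDIFF
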