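import Pool.Agent.N526.CP.MAINF2
import Pool.Agent.N526.CP.XDIFF
import Pool.Agent.N526.CP.EXTF
import Pool.Agent.N526.CP.FAMF
import Pool.Agent.N526.CP.LIPF
import Pool.Agent.N526.CP.RCAP
import Pool.Agent.N526.CP.CAPVF
import Pool.Agent.N526.CP.INJF2
import Pool.Agent.N979.CP.Top

/-!
# Regions of round caps are minimal fillings: assembly
-/

set_option autoImplicit false

open MeasureTheory Metric Set Filter Topology InnerProductGeometry Matrix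

namespace Pool.Agent.N526.CP.Reg

open Pool.Agent.H241R3.FV Pool.Agent.N526.CP Pool.Agent.N979.CP

/-- The admissible sines `s` of the radius in dimension `d + 1`. -/
def Adm (d : ℕ) (s : ℝ) : Prop :=
  (d = 1 ∧ s ≤ 947 / 1000) ∨ (d = 2 ∧ s ≤ 22 / 25) ∨ (d = 3 ∧ s ≤ 33 / 40) ∨
    (d + 4) * s ^ 4 ≤ 2 ∨ (s < 1 ∧ (d : ℝ) ≤ √(1 - s ^ 4) ^ 3 + d * √(1 - s ^ 4)) ∨ Good2 d s

theorem mainf : S_MAINF2 :=
  MAINF2.t Fin.sph (FAMF.t Fin.sph (EXTF.t REF.t))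
    (PTWF2.t Fin.comb Fin.inv UDER.t (XDIFF.t Fin.sph Fin.inv Fin.der RAP.t))
    (LIPF.t Fin.sph Fin.inv Fin.rad UDER.t) Fin.fub (CAPVF.t Fin.sph Fin.gram UDER.t Fin.detv)
    Fin.sto

theorem reg {d : ℕ} (hd : 1 ≤ d) {s : ℝ} (h0 : 0 < s) (h : Adm d s) : RegThm d s :=
  mainf d hd s (Fin.good2_all hd h0 h)

theorem cap {d : ℕ} (hd : 1 ≤ d) {ρ : ℝ} (h0 : 0 < ρ) (h1 : ρ < Real.pi / 2)
    (h : Adm d (Real.sin ρ)) : CapThm d ρ :=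
  RCAP.t Fin.caps d hd ρ h0 h1 (reg hd (Real.sin_pos_of_pos_of_lt_pi h0
    (by linarith [Real.pi_pos])) h)

end Pool.Agent.N526.CP.Reg
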