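import Pool.Agent.H241R3.FV.Base

/-!
# Round caps are minimal fillings of their boundary spheres, in all dimensions (PROJECT CPN)

Definitions and statements of the parts.  `n = d + 1` is the dimension of the filling.
-/

set_option autoImplicit false

open MeasureTheory Metric Set Filter Topology InnerProductGeometry Matrix

namespace Pool.Agent.N526.CP

open Pool.Agent.H241R3.FV

/-! ### Fillings -/

/-- A compact oriented Riemannian manifold of dimension `n` whose boundary is a sphere: a metric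
space `M` with finitely many Riemannian charts (of the interior), injective and open, with
orientation preserving and isometric transition maps, such that the parts `D` of the domains of the
charts form a partition of the complement of the boundary; `bd` is the parametrisation of the
boundary by the unit sphere; a collar of the boundary is parametrised by the annulus
`r < |x| ≤ 1`, bi-Lipschitz, with `col = bd` on the unit sphere, and the restriction to the open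
annulus is one of the charts. -/
structure OFill (n : ℕ) (M : Type) [MetricSpace M] where
  /-- index set of the charts -/
  ι : Type
  fin : Fintype ι
  /-- the charts -/
  chart : ι → RChart n M
  inj : ∀ i, InjOn (chart i).map (chart i).U
  open_map : ∀ i, ∀ V ⊆ (chart i).U, IsOpen V → IsOpen ((chart i).map '' V)
  /-- the boundary sphere -/
  bd : Sph n → M
  off_bd : ∀ i, ∀ p ∈ (chart i).U, ∀ x, (chart i).map p ≠ bd x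
  cover : ∀ q : M, (∃ x, bd x = q) ∨ ∃ i, ∃ p ∈ (chart i).D, (chart i).map p = q
  disj : ∀ i j, ∀ p ∈ (chart i).D, ∀ p' ∈ (chart j).D, (chart i).map p = (chart j).map p' → i = j
  trans : ∀ i j, ∀ p ∈ (chart i).U, ∀ p' ∈ (chart j).U, (chart i).map p = (chart j).map p' →
    ∃ (τ : E n → E n) (T : E n →L[ℝ] E n), τ p = p' ∧
      (∀ᶠ y in 𝓝 p, τ y ∈ (chart j).U ∧ (chart j).map (τ y) = (chart i).map y) ∧
      HasFDerivAt τ T p ∧ 0 < T.det ∧ ∀ v, gnorm ((chart i).G p) v = gnorm ((chart j).G p') (T v)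
  /-- inner radius of the collar -/
  r : ℝ
  r_pos : 0 < r
  r_lt : r < 1
  /-- the collar -/
  col : E n → M
  col_bd : ∀ x : Sph n, col x = bd x
  col_chart : ∃ i, (chart i).U = {x | r < ‖x‖ ∧ ‖x‖ < 1} ∧
    ∀ x ∈ (chart i).U, (chart i).map x = col x
  col_open : IsOpen (col '' {x | r < ‖x‖ ∧ ‖x‖ ≤ 1})
  col_lip : ∃ K : ℝ, ∀ x y : E n, r < ‖x‖ → ‖x‖ ≤ 1 → r < ‖y‖ → ‖y‖ ≤ 1 →
    dist (col x) (col y) ≤ K * ‖x - y‖ ∧ ‖x - y‖ ≤ K * dist (col x) (col y)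

instance OFill.instFin {n : ℕ} {M : Type} [MetricSpace M] (S : OFill n M) : Fintype S.ι := S.fin

/-- The volume: the sum over the charts of the integrals of `√(det G)` over the parts `D`. -/
noncomputable def OFill.vol {n : ℕ} {M : Type} [MetricSpace M] (S : OFill n M) : ENNReal :=
  ∑ i, ∫⁻ p in (S.chart i).D, ENNReal.ofReal √((S.chart i).G p).det

/-- The distance in the unit sphere of two points of the boundary of a cap of radius `ρ`, which have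
the directions `x` and `y` seen from the centre of the cap. -/
noncomputable def capDist {n : ℕ} (ρ : ℝ) (x y : Sph n) : ℝ :=
  Real.arccos (Real.cos ρ ^ 2 + Real.sin ρ ^ 2 * inner ℝ (x : E n) (y : E n))

/-- The integral of the Jacobian determinant. -/
noncomputable def jint {n : ℕ} {M : Type} [MetricSpace M] (S : OFill n M) (v : M → E n) : ℝ :=
  ∑ i, ∫ p in (S.chart i).D, (fderiv ℝ (v ∘ (S.chart i).map) p).det

/-! ### The sphere -/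

/-- normalised surface measure of the unit sphere -/
noncomputable def sg (n : ℕ) : Measure (Sph n) := (sig n univ)⁻¹ • sig n

/-- the inner product of `X` and a point of the sphere -/
noncomputable def ip {n : ℕ} (X : E n) (θ : Sph n) : ℝ := inner ℝ X (θ : E n)

/-- the map `Z` -/
noncomputable def Zf {n : ℕ} (X : E n) : E n := ∫ θ : Sph n, Real.arcsin (ip X θ) • (θ : E n) ∂(sg n)

/-- the radial function of `Z` -/
noncomputable def zf (d : ℕ) (s : ℝ) : ℝ :=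
  ∫ θ : Sph (d + 1), Real.arcsin (s * (θ : E (d + 1)) 0) * (θ : E (d + 1)) 0 ∂(sg (d + 1))

/-- the derivative of `Z` -/
noncomputable def DZ {n : ℕ} (X : E n) : Matrix (Fin n) (Fin n) ℝ :=
  fun i j => ∫ θ : Sph n, (θ : E n) i * (θ : E n) j * (√(1 - ip X θ ^ 2))⁻¹ ∂(sg n)

/-- the inverse of `Z` -/
noncomputable def Ri {n : ℕ} (Y : E n) : E n :=
  open Classical in if h : ∃ X : E n, ‖X‖ < 1 ∧ Zf X = Y then h.choose else 0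

/-- the radial weight -/
noncomputable def kr (d : ℕ) (s : ℝ) : ℝ :=
  ∫ θ : Sph (d + 1), (θ : E (d + 1)) 0 ^ 2 * (√(1 - (s * (θ : E (d + 1)) 0) ^ 2))⁻¹ ∂(sg (d + 1))

/-- the tangential weight -/
noncomputable def kt (d : ℕ) (s : ℝ) : ℝ :=
  (∫ θ : Sph (d + 1), (1 - (θ : E (d + 1)) 0 ^ 2) * (√(1 - (s * (θ : E (d + 1)) 0) ^ 2))⁻¹
    ∂(sg (d + 1))) / d

/-- the radial square -/
noncomputable def Ar (d : ℕ) (s : ℝ) : ℝ :=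
  ∫ θ : Sph (d + 1), (θ : E (d + 1)) 0 ^ 2 * (√(1 - (s * (θ : E (d + 1)) 0) ^ 2)) ^ (d + 1)
    ∂(sg (d + 1))

/-- the tangential square -/
noncomputable def At (d : ℕ) (s : ℝ) : ℝ :=
  (∫ θ : Sph (d + 1), (1 - (θ : E (d + 1)) 0 ^ 2) * (√(1 - (s * (θ : E (d + 1)) 0) ^ 2)) ^ (d + 1)
    ∂(sg (d + 1))) / d

/-- The condition on the sine `s` of the radius of the cap. -/
def Good (d : ℕ) (s : ℝ) : Prop :=
  0 < s ∧ s < 1 ∧ ∀ s' ∈ Icc 0 s,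
    d * Ar d s' ≤ (d + 1) ^ 2 * √(1 - s' ^ 2) ^ 3 * kr d s' ^ 2 ∧
    d * At d s' ≤ (d + 1) ^ 2 * √(1 - s' ^ 2) * kt d s' ^ 2

/-- the map `U` -/
noncomputable def Uf {n : ℕ} (θ : Sph n) (X : E n) : E n :=
  (√(1 - ip X θ ^ 2))⁻¹ • (X - ip X θ • (θ : E n))

/-- the matrix of the derivative of `U` -/
noncomputable def Vm {n : ℕ} (X : E n) (θ : Sph n) : Matrix (Fin n) (Fin n) ℝ :=
  fun i j => (√(1 - ip X θ ^ 2))⁻¹ * ((if i = j then 1 else 0) - (θ : E n) i * (θ : E n) j) +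
    (X i - ip X θ * (θ : E n) i) * (ip X θ * (θ : E n) j) * ((√(1 - ip X θ ^ 2))⁻¹) ^ 3

/-- the vector `W` -/
noncomputable def Wv {n : ℕ} (X : E n) (θ : Sph n) : Fin n → ℝ :=
  fun i => ((√(1 - ip X θ ^ 2))⁻¹) ^ (n + 1) * ((θ : E n) i - ip X θ * X i)

/-- the matrix of the integral of `p ⊗ a` -/
noncomputable def Mx {n : ℕ} {Ω : Type} [MeasurableSpace Ω] (μ : Measure Ω) (p a : Ω → E n) :
    Matrix (Fin n) (Fin n) ℝ := fun i j => ∫ ω, p ω i * a ω j ∂μ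

/-- the matrix of the derivative of `X`, if the derivatives of the functions `g θ` are `α θ` -/
noncomputable def Lm {n : ℕ} (X : E n) (α : Sph n → E n) : Matrix (Fin n) (Fin n) ℝ :=
  (DZ X)⁻¹ * Mx (sg n) (fun θ : Sph n => (θ : E n)) α

/-- the map with Jacobian determinant `1/√(1-|X|²)` -/
noncomputable def Hf {d : ℕ} (X : E (d + 1)) : E (d + 1) :=
  X + (Real.arcsin (X 0 / √(1 - ‖X‖ ^ 2 + X 0 ^ 2)) - X 0) • EuclideanSpace.single 0 1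

/-- the linear map of a matrix -/
noncomputable def cl {n : ℕ} (A : Matrix (Fin n) (Fin n) ℝ) : E n →L[ℝ] E n :=
  Matrix.toEuclideanCLM (𝕜 := ℝ) (n := Fin n) A

/-! ### The family of functions on the filling -/

/-- `g θ` are `1`-Lipschitz functions on `M` with the boundary values `arcsin (s ⟨x, θ⟩)`. -/
structure Fam {d : ℕ} {M : Type} [MetricSpace M] (S : OFill (d + 1) M) (s : ℝ)
    (g : Sph (d + 1) → M → ℝ) : Prop where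
  lip : ∀ θ q q', |g θ q - g θ q'| ≤ dist q q'
  lipθ : ∃ C : ℝ, ∀ θ θ' q, |g θ q - g θ' q| ≤ C * ‖(θ : E (d + 1)) - (θ' : E (d + 1))‖
  bdv : ∀ θ x, g θ (S.bd x) = Real.arcsin (s * inner ℝ (x : E (d + 1)) (θ : E (d + 1)))
  range : ∀ q, ‖∫ θ : Sph (d + 1), g θ q • (θ : E (d + 1)) ∂(sg (d + 1))‖ ≤ zf d s

/-- the map `X` on the filling -/
noncomputable def Xf {d : ℕ} {M : Type} (g : Sph (d + 1) → M → ℝ) (q : M) : E (d + 1) :=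
  Ri (∫ θ : Sph (d + 1), g θ q • (θ : E (d + 1)) ∂(sg (d + 1)))

/-- the map `Ψ_θ` on the filling -/
noncomputable def Psi {d : ℕ} {M : Type} (g : Sph (d + 1) → M → ℝ) (θ : Sph (d + 1)) (q : M) :
    E (d + 1) := Uf θ (Xf g q) + g θ q • (θ : E (d + 1))

/-- the map `Ψ_θ` on the cap, in the coordinate `y = X / s` -/
noncomputable def Psi0 {d : ℕ} (s : ℝ) (θ : Sph (d + 1)) (y : E (d + 1)) : E (d + 1) :=
  Uf θ (s • y) + Real.arcsin (ip (s • y) θ) • (θ : E (d + 1))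

/-- the volume of the cap with sine of the radius equal to `s` -/
noncomputable def capv (d : ℕ) (s : ℝ) : ℝ :=
  ∫ y in ball (0 : E (d + 1)) s, (√(1 - ‖y‖ ^ 2))⁻¹

/-! ### Parts: linear algebra -/

/-- MAC -/
def S_MAC : Prop := ∀ (d : ℕ) (x : Fin (d + 1) → ℝ), (∀ i, 0 ≤ x i) →
  ∑ i, ∏ j ∈ Finset.univ.erase i, x j ≤ (d + 1) * ((∑ i, x i) / (d + 1)) ^ d

/-- COF -/
def S_COF : Prop := ∀ (d : ℕ) (K : Matrix (Fin (d + 1)) (Fin (d + 1)) ℝ),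
  ∑ i, ∑ j, K.adjugate i j ^ 2 ≤ (d + 1) * ((∑ i, ∑ j, K i j ^ 2) / (d + 1)) ^ d

/-- KEY -/
def S_KEY : Prop := ∀ (d : ℕ), 1 ≤ d → ∀ (B D : Matrix (Fin (d + 1)) (Fin (d + 1)) ℝ),
  ∑ i, ∑ j, B i j ^ 2 + d * ∑ i, ∑ j, D i j ^ 2 ≤ d + 1 →
    ((B + D).adjugate * B).trace - d * (B + D).det ≤ 1

/-- ABS -/
def S_ABS : Prop := ∀ (d : ℕ), 1 ≤ d → ∀ (Ω : Type) [MeasurableSpace Ω] (μ : Measure Ω)
  [IsProbabilityMeasure μ] (ν p a : Ω → E (d + 1)),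
  Measurable ν → Measurable p → Measurable a → (∃ C : ℝ, ∀ ω, ‖ν ω‖ ≤ C ∧ ‖p ω‖ ≤ C) →
  (∀ᵐ ω ∂μ, ‖a ω‖ ≤ 1) →
  (∀ u v : E (d + 1), ∫ ω, inner ℝ (ν ω) u * inner ℝ (ν ω) v ∂μ = inner ℝ u v / (d + 1)) →
  (∀ u v : E (d + 1), ∫ ω, inner ℝ (p ω) u * inner ℝ (ν ω) v ∂μ = inner ℝ u v) →
  (∀ v : E (d + 1), ∫ ω, inner ℝ (p ω) v ^ 2 ∂μ ≤ (d + 1) ^ 2 / d * ‖v‖ ^ 2) →
  ((Mx μ p a).adjugate * ((d + 1 : ℝ) • Mx μ ν a)).trace - d * (Mx μ p a).det ≤ 1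

/-- DETV -/
def S_DETV : Prop := ∀ (n : ℕ) (X : E n) (θ : Sph n), ‖X‖ < 1 →
  ∀ (L : Matrix (Fin n) (Fin n) ℝ) (a : Fin n → ℝ),
  (Vm X θ * L + vecMulVec (fun i => (θ : E n) i) a).det = a ⬝ᵥ (L.adjugate *ᵥ Wv X θ)

/-! ### Parts: integrals over the sphere -/

/-- SPH -/
def S_SPH : Prop := ∀ d : ℕ, 1 ≤ d → IsProbabilityMeasure (sg (d + 1)) ∧
  (∀ R : E (d + 1) ≃ₗᵢ[ℝ] E (d + 1), MeasurePreserving (rot R) (sg (d + 1)) (sg (d + 1))) ∧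
  (∀ f : ℝ → ℝ, ∀ e u v : E (d + 1), ‖e‖ = 1 → ContinuousOn f (Icc (-1) 1) →
    ∫ θ, f (ip e θ) * (ip u θ * ip v θ) ∂(sg (d + 1)) =
      (∫ θ : Sph (d + 1), f ((θ : E (d + 1)) 0) * (1 - (θ : E (d + 1)) 0 ^ 2) ∂(sg (d + 1))) / d *
        (inner ℝ u v - inner ℝ e u * inner ℝ e v) +
      (∫ θ : Sph (d + 1), f ((θ : E (d + 1)) 0) * (θ : E (d + 1)) 0 ^ 2 ∂(sg (d + 1))) *
        (inner ℝ e u * inner ℝ e v))

/-- CHV -/
def S_CHV : Prop := ∀ (n : ℕ), 1 ≤ n → ∀ (A : E n ≃L[ℝ] E n) (f : E n → ℝ), Continuous f →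
  |(A : E n →L[ℝ] E n).det| * ∫ θ : Sph n, f (‖A θ‖⁻¹ • A θ) * (‖A θ‖⁻¹) ^ n ∂(sg n) =
    ∫ θ : Sph n, f θ ∂(sg n)

/-- GRAM -/
def S_GRAM : Prop := ∀ (d : ℕ), 1 ≤ d → ∀ (X : E (d + 1)), ‖X‖ < 1 →
  (∫ θ, ((√(1 - ip X θ ^ 2))⁻¹) ^ (d + 1) ∂(sg (d + 1)) = (√(1 - ‖X‖ ^ 2))⁻¹) ∧
  ∀ u v : E (d + 1), ∫ θ, ((√(1 - ip X θ ^ 2))⁻¹) ^ (d + 3) * (ip u θ * ip v θ) ∂(sg (d + 1)) =
    (√(1 - ‖X‖ ^ 2))⁻¹ / (d + 1) * (inner ℝ u v + inner ℝ X u * inner ℝ X v / (1 - ‖X‖ ^ 2))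

/-- the square root of `1 - X Xᵀ` -/
noncomputable def L0 {n : ℕ} (X : E n) : Matrix (Fin n) (Fin n) ℝ :=
  fun i j => (if i = j then 1 else 0) - X i * X j / (1 + √(1 - ‖X‖ ^ 2))

/-- its inverse -/
noncomputable def L1 {n : ℕ} (X : E n) : Matrix (Fin n) (Fin n) ℝ :=
  fun i j => (if i = j then 1 else 0) + X i * X j / (√(1 - ‖X‖ ^ 2) * (1 + √(1 - ‖X‖ ^ 2)))

/-- LZ -/
def S_LZ : Prop := ∀ (n : ℕ) (X : E n), ‖X‖ < 1 →
  L0 X * L1 X = 1 ∧ L1 X * L0 X = 1 ∧ (L0 X).det = √(1 - ‖X‖ ^ 2) ∧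
  (∀ i j, (L0 X * L0 X) i j = (if i = j then 1 else 0) - X i * X j) ∧
  (L0 X).transpose = L0 X ∧ (L1 X).transpose = L1 X

/-- EIG -/
def S_EIG : Prop := ∀ (d : ℕ), 1 ≤ d → ∀ (s : ℝ), Good d s → ∀ (X : E (d + 1)), ‖X‖ ≤ s →
  (DZ X).PosDef ∧
  ∀ v : E (d + 1), ∫ θ, ip (cl ((DZ X)⁻¹ * L1 X) v) θ ^ 2 * √(1 - ip X θ ^ 2) ^ (d + 1)
    ∂(sg (d + 1)) ≤ (d + 1) ^ 2 / d * √(1 - ‖X‖ ^ 2) * ‖v‖ ^ 2

/-- COM1 -/
def S_COM1 : Prop := ∀ (d : ℕ), 1 ≤ d → ∀ (s : ℝ), Good d s → ∀ (X : E (d + 1)), ‖X‖ ≤ s →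
  ∀ (a : Sph (d + 1) → E (d + 1)), Measurable a → (∀ᵐ θ ∂(sg (d + 1)), ‖a θ‖ ≤ 1) →
  (d + 1) * ∫ θ, (Vm X θ * Lm X a +
      vecMulVec (fun i => (θ : E (d + 1)) i) (fun i => a θ i)).det ∂(sg (d + 1)) -
    d * ((Lm X a).det * (√(1 - ‖X‖ ^ 2))⁻¹) ≤ 1

/-- COM -/
def S_COM : Prop := ∀ (d : ℕ), 1 ≤ d → ∀ (s : ℝ), Good d s → ∀ (X : E (d + 1)), ‖X‖ ≤ s →
  ∀ (α : Sph (d + 1) → E (d + 1)), Measurable α →
  ∀ (G : Matrix (Fin (d + 1)) (Fin (d + 1)) ℝ), G.PosDef →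
  (∀ᵐ θ ∂(sg (d + 1)), ∀ v, |inner ℝ (α θ) v| ≤ gnorm G v) →
  (d + 1) * ∫ θ, (Vm X θ * Lm X α +
      vecMulVec (fun i => (θ : E (d + 1)) i) (fun i => α θ i)).det ∂(sg (d + 1)) -
    d * ((Lm X α).det * (√(1 - ‖X‖ ^ 2))⁻¹) ≤ √G.det

/-! ### Parts: the functions -/

/-- REF -/
def S_REF : Prop := ∀ (n : ℕ) (s : ℝ), 0 < s → s < 1 → ∀ (x θ : Sph n) (e θ' : E n), ‖e‖ = 1 →
  0 ≤ ip e θ → θ' = (θ : E n) - (2 * ip e θ) • e →
  Real.arcsin (s * inner ℝ (x : E n) (θ : E n)) - Real.arcsin (s * inner ℝ (x : E n) θ') ≤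
    2 * Real.arcsin (s * ip e θ)

/-- EXT -/
def S_EXT : Prop := ∀ (d : ℕ), 1 ≤ d → ∀ (M : Type) [MetricSpace M] [CompactSpace M]
  (S : OFill (d + 1) M) (ρ : ℝ), 0 < ρ → ρ < Real.pi / 2 →
  (∀ x y, capDist ρ x y ≤ dist (S.bd x) (S.bd y)) →
  ∃ g : Sph (d + 1) → M → ℝ, (∀ θ q q', |g θ q - g θ q'| ≤ dist q q') ∧
    (∃ C : ℝ, ∀ θ θ' q, |g θ q - g θ' q| ≤ C * ‖(θ : E (d + 1)) - (θ' : E (d + 1))‖) ∧
    (∀ θ x, g θ (S.bd x) = Real.arcsin (Real.sin ρ * inner ℝ (x : E (d + 1)) (θ : E (d + 1)))) ∧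
    ∀ (e : E (d + 1)), ‖e‖ = 1 → ∀ (θ θ' : Sph (d + 1)),
      (θ' : E (d + 1)) = (θ : E (d + 1)) - (2 * inner ℝ e (θ : E (d + 1))) • e →
      0 ≤ ip e θ → ∀ q, g θ q - g θ' q ≤ 2 * Real.arcsin (Real.sin ρ * ip e θ)

/-- FAM -/
def S_FAM : Prop := ∀ (d : ℕ), 1 ≤ d → ∀ (M : Type) [MetricSpace M]
  [CompactSpace M] (S : OFill (d + 1) M) (ρ : ℝ), 0 < ρ → ρ < Real.pi / 2 →
  (∀ x y, capDist ρ x y ≤ dist (S.bd x) (S.bd y)) →
  ∃ g : Sph (d + 1) → M → ℝ, Fam S (Real.sin ρ) g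

/-- MON -/
def S_MON : Prop := ∀ (d : ℕ), 1 ≤ d → ∀ X Y : E (d + 1), ‖X‖ ≤ 1 → ‖Y‖ ≤ 1 →
  ‖X - Y‖ ^ 2 ≤ (d + 1) * inner ℝ (Zf X - Zf Y) (X - Y)

/-- RAD -/
def S_RAD : Prop := ∀ (d : ℕ), 1 ≤ d →
  (∀ (t : ℝ) (e : E (d + 1)), ‖e‖ = 1 → Zf (t • e) = zf d t • e) ∧
  StrictMonoOn (zf d) (Icc 0 1) ∧ ContinuousOn (zf d) (Icc 0 1) ∧ zf d 0 = 0

/-- INV -/
def S_INV : Prop := ∀ (d : ℕ), 1 ≤ d →
  (∀ X : E (d + 1), ‖X‖ < 1 → Ri (Zf X) = X) ∧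
  (∀ s : ℝ, 0 < s → s < 1 → ∀ Y : E (d + 1), ‖Y‖ ≤ zf d s → ‖Ri Y‖ ≤ s ∧ Zf (Ri Y) = Y) ∧
  (∀ s : ℝ, 0 < s → s < 1 → ∀ Y Y' : E (d + 1), ‖Y‖ ≤ zf d s → ‖Y'‖ ≤ zf d s →
    ‖Ri Y - Ri Y'‖ ≤ (d + 1) * ‖Y - Y'‖)

/-- DER -/
def S_DER : Prop := ∀ (d : ℕ), 1 ≤ d → ∀ X : E (d + 1), ‖X‖ < 1 →
  (DZ X).PosDef ∧ HasFDerivAt Zf (cl (DZ X)) X ∧
  HasFDerivAt (Ri : E (d + 1) → E (d + 1)) (cl (DZ X)⁻¹) (Zf X)

/-- UDER -/
def S_UDER : Prop := ∀ (d : ℕ), 1 ≤ d → ∀ X : E (d + 1), ‖X‖ < 1 →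
  (∀ θ, HasFDerivAt (Uf θ) (cl (Vm X θ)) X) ∧
  ∃ T : E (d + 1) →L[ℝ] E (d + 1), HasFDerivAt Hf T X ∧ T.det = (√(1 - ‖X‖ ^ 2))⁻¹

/-- RAP: Rademacher's theorem with a parameter -/
def S_RAP : Prop := ∀ (n : ℕ) (W : Type) [NormedAddCommGroup W] [NormedSpace ℝ W]
  [FiniteDimensional ℝ W] (U : Set (E n)), IsOpen U → ∀ (F : Sph n → E n → W),
  (∀ p ∈ U, ∃ r : ℝ, 0 < r ∧ ∃ K : ℝ, ∀ θ, ∀ y ∈ ball p r, ∀ z ∈ ball p r,
    ‖F θ y - F θ z‖ ≤ K * ‖y - z‖) →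
  (∀ p ∈ U, Continuous fun θ => F θ p) → SFinite (sg n) →
  (∀ᵐ p ∂(volume : Measure (E n)), p ∈ U → ∀ᵐ θ ∂(sg n), DifferentiableAt ℝ (F θ) p) ∧
  StronglyMeasurable (fun z : E n × Sph n =>
    open Classical in if z.1 ∈ U then fderiv ℝ (F z.2) z.1 else 0)

/-- XDIF -/
def S_XDIF : Prop := ∀ (d : ℕ), 1 ≤ d → ∀ (M : Type) [MetricSpace M]
  [CompactSpace M] (S : OFill (d + 1) M) (s : ℝ) (g : Sph (d + 1) → M → ℝ), 0 < s → s < 1 →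
  Fam S s g → ∀ i, ∀ᵐ p ∂(volume : Measure (E (d + 1))), p ∈ (S.chart i).U →
    ∃ α : Sph (d + 1) → E (d + 1), Measurable α ∧
      (∀ᵐ θ ∂(sg (d + 1)), HasFDerivAt (g θ ∘ (S.chart i).map) (innerSL ℝ (α θ)) p) ∧
      (∀ᵐ θ ∂(sg (d + 1)), ∀ v, |inner ℝ (α θ) v| ≤ gnorm ((S.chart i).G p) v) ∧
      HasFDerivAt (Xf g ∘ (S.chart i).map) (cl (Lm (Xf g ((S.chart i).map p)) α)) p

/-- PTW -/
def S_PTW : Prop := ∀ (d : ℕ), 1 ≤ d →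
  ∀ (M : Type) [MetricSpace M] [CompactSpace M] (S : OFill (d + 1) M) (s : ℝ)
  (g : Sph (d + 1) → M → ℝ), Good d s → Fam S s g → ∀ i,
  ∀ᵐ p ∂(volume : Measure (E (d + 1))), p ∈ (S.chart i).U →
    (d + 1) * ∫ θ, (fderiv ℝ (Psi g θ ∘ (S.chart i).map) p).det ∂(sg (d + 1)) -
      d * (fderiv ℝ (Hf ∘ Xf g ∘ (S.chart i).map) p).det ≤ √((S.chart i).G p).det

/-- LIP -/
def S_LIP : Prop := ∀ (d : ℕ), 1 ≤ d → ∀ (M : Type) [MetricSpace M] [CompactSpace M]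
  (S : OFill (d + 1) M) (s : ℝ) (g : Sph (d + 1) → M → ℝ), 0 < s → s < 1 → Fam S s g →
  ∃ K : NNReal, (∀ θ, LipschitzWith K (Psi g θ)) ∧ LipschitzWith K (Hf ∘ Xf g) ∧
    (∀ θ : Sph (d + 1), LipschitzOnWith K (Psi0 s θ) (closedBall 0 1)) ∧
    LipschitzOnWith K (fun y : E (d + 1) => Hf (s • y)) (closedBall 0 1) ∧
    (∀ (θ x : Sph (d + 1)), Psi g θ (S.bd x) = Psi0 s θ (x : E (d + 1))) ∧
    (∀ x : Sph (d + 1), Hf (Xf g (S.bd x)) = Hf (s • (x : E (d + 1)))) ∧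
    Continuous (fun z : Sph (d + 1) × M => Psi g z.1 z.2)

/-- FUB -/
def S_FUB : Prop := ∀ (d : ℕ), 1 ≤ d → ∀ (M : Type) [MetricSpace M] [CompactSpace M]
  (S : OFill (d + 1) M), S.vol < ⊤ → ∀ (K : NNReal) (Φ : Sph (d + 1) → M → E (d + 1)),
  (∀ θ, LipschitzWith K (Φ θ)) → Continuous (fun z : Sph (d + 1) × M => Φ z.1 z.2) →
  IsProbabilityMeasure (sg (d + 1)) →
  (∀ i, ∀ᵐ p ∂(volume.restrict (S.chart i).D),
    Integrable (fun θ => (fderiv ℝ (Φ θ ∘ (S.chart i).map) p).det) (sg (d + 1))) ∧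
  (∀ i, IntegrableOn (fun p => ∫ θ, (fderiv ℝ (Φ θ ∘ (S.chart i).map) p).det ∂(sg (d + 1)))
    (S.chart i).D) ∧
  ∫ θ, jint S (Φ θ) ∂(sg (d + 1)) =
    ∑ i, ∫ p in (S.chart i).D, ∫ θ, (fderiv ℝ (Φ θ ∘ (S.chart i).map) p).det ∂(sg (d + 1))

/-- CAPV -/
def S_CAPV : Prop := ∀ (d : ℕ), 1 ≤ d → ∀ (s : ℝ), 0 < s → s < 1 →
  (d + 1) * ∫ θ, (∫ y in ball (0 : E (d + 1)) 1, (fderiv ℝ (Psi0 s θ) y).det) ∂(sg (d + 1)) -
    d * ∫ y in ball (0 : E (d + 1)) 1, (fderiv ℝ (fun y : E (d + 1) => Hf (s • y)) y).det =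
    capv d s

/-- CAPS -/
def S_CAPS : Prop := ∀ (d : ℕ), 1 ≤ d → ∀ (ρ : ℝ), 0 < ρ → ρ < Real.pi / 2 →
  capv d (Real.sin ρ) = (sig (d + 1)).real univ * ∫ t in (0 : ℝ)..ρ, Real.sin t ^ d

/-! ### Parts: Stokes -/

/-- NUL -/
def S_NUL : Prop := ∀ (n : ℕ) (f : E n → E n) (φ : E n → ℝ) (K : NNReal), LipschitzWith K f →
  LipschitzWith K φ → HasCompactSupport φ → ∀ k : Fin n,
  ∫ x, ((mat (fderiv ℝ f x)).updateRow k
    (fun j => fderiv ℝ φ x (EuclideanSpace.single j 1))).det = 0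

/-- CHA -/
def S_CHA : Prop := ∀ (n : ℕ), 1 ≤ n → ∀ (M : Type) [MetricSpace M] [CompactSpace M]
  (S : OFill n M), S.vol < ⊤ → ∀ (K : NNReal) (v : M → E n), LipschitzWith K v →
  (∀ i, IntegrableOn (fun p => (fderiv ℝ (v ∘ (S.chart i).map) p).det) (S.chart i).D) ∧
  (∀ j, IntegrableOn (fun p => (fderiv ℝ (v ∘ (S.chart j).map) p).det) (S.chart j).U) ∧
  ∀ j, ∑ i, ∫ p in {p | p ∈ (S.chart i).D ∧ (S.chart i).map p ∈ (S.chart j).map '' (S.chart j).U},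
      (fderiv ℝ (v ∘ (S.chart i).map) p).det =
    ∫ p in (S.chart j).U, (fderiv ℝ (v ∘ (S.chart j).map) p).det

/-- LOC -/
def S_LOC : Prop := ∀ (n : ℕ), 1 ≤ n → ∀ (M : Type) [MetricSpace M]
  [CompactSpace M] (S : OFill n M), S.vol < ⊤ → ∀ (K : NNReal) (v : M → E n),
  LipschitzWith K v → ∀ (k : Fin n) (j : S.ι) (C : Set M), IsCompact C →
  C ⊆ (S.chart j).map '' (S.chart j).U → (∀ q ∉ C, v q k = 0) → jint S v = 0

/-- VAN -/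
def S_VAN : Prop := ∀ (n : ℕ), 1 ≤ n → ∀ (M : Type) [MetricSpace M]
  [CompactSpace M] (S : OFill n M), S.vol < ⊤ → ∀ (K : NNReal) (v : M → E n),
  LipschitzWith K v → ∀ (k : Fin n), (∀ x, v (S.bd x) k = 0) → jint S v = 0

/-- BAL: the ball -/
def S_BAL : Prop := ∀ (n : ℕ), 1 ≤ n → ∀ (K : NNReal) (v w : E n → E n),
  LipschitzOnWith K v (closedBall 0 1) → LipschitzOnWith K w (closedBall 0 1) →
  (∀ x ∈ sphere (0 : E n) 1, v x = w x) →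
  ∫ y in ball (0 : E n) 1, (fderiv ℝ v y).det = ∫ y in ball (0 : E n) 1, (fderiv ℝ w y).det

/-- TEL -/
def S_TEL : Prop := ∀ (n : ℕ), 1 ≤ n → ∀ (M : Type) [MetricSpace M]
  [CompactSpace M] (S : OFill n M), S.vol < ⊤ → ∀ (K : NNReal) (v w : M → E n),
  LipschitzWith K v → LipschitzWith K w → (∀ x, v (S.bd x) = w (S.bd x)) → jint S v = jint S w

/-- STO -/
def S_STO : Prop := ∀ (n : ℕ), 1 ≤ n → ∀ (M : Type) [MetricSpace M]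
  [CompactSpace M] (S : OFill n M), S.vol < ⊤ → ∀ (K : NNReal) (v : M → E n) (w : E n → E n),
  LipschitzWith K v → LipschitzOnWith K w (closedBall 0 1) →
  (∀ x : Sph n, v (S.bd x) = w (x : E n)) →
  jint S v = ∫ y in ball (0 : E n) 1, (fderiv ℝ w y).det

/-! ### Main -/

/-- the cap theorem for a given radius -/
def CapThm (d : ℕ) (ρ : ℝ) : Prop := ∀ (M : Type) [MetricSpace M] [CompactSpace M]
  (S : OFill (d + 1) M), (∀ x y, capDist ρ x y ≤ dist (S.bd x) (S.bd y)) →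
  ENNReal.ofReal ((sig (d + 1)).real univ * ∫ t in (0 : ℝ)..ρ, Real.sin t ^ d) ≤ S.vol

/-- MAIN -/
def S_MAIN : Prop := ∀ (d : ℕ), 1 ≤ d → ∀ (ρ : ℝ),
  0 < ρ → ρ < Real.pi / 2 → Good d (Real.sin ρ) → CapThm d ρ

/-- `M'` is a filling of the parallel sphere of the hemisphere at the distance `ρ` from the pole such
that the union of `M'` and of the round collar is nonshortcutting: the curves which join two points
`x`, `y` of the boundary sphere and consist of a geodesic of the collar, a curve of `M'` and a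
geodesic of the collar have length at least the spherical distance of `x` and `y`. -/
def RoundCollar {d : ℕ} {M : Type} [MetricSpace M] (S : OFill (d + 1) M) (ρ : ℝ) : Prop :=
  ∀ x x' y' y : Sph (d + 1), 0 ≤ inner ℝ (x : E (d + 1)) (x' : E (d + 1)) →
    0 ≤ inner ℝ (y : E (d + 1)) (y' : E (d + 1)) →
    angle (x : E (d + 1)) (y : E (d + 1)) ≤
      Real.arccos (Real.sin ρ * inner ℝ (x : E (d + 1)) (x' : E (d + 1))) +
      dist (S.bd x') (S.bd y') +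
      Real.arccos (Real.sin ρ * inner ℝ (y : E (d + 1)) (y' : E (d + 1)))

/-- HEM -/
def S_HEM : Prop := ∀ (d : ℕ), 1 ≤ d → ∀ (ρ : ℝ), 0 < ρ → ρ < Real.pi / 2 → CapThm d ρ →
  ∀ (M : Type) [MetricSpace M] [CompactSpace M] (S : OFill (d + 1) M), RoundCollar S ρ →
  (volume : Measure (E (d + 2))).toSphere univ / 2 ≤
    S.vol + ENNReal.ofReal ((sig (d + 1)).real univ * ∫ t in ρ..(Real.pi / 2), Real.sin t ^ d)

/-- GD: an explicit radius in all dimensions -/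
def S_GD : Prop := ∀ (d : ℕ), 1 ≤ d → ∀ s : ℝ, 0 < s → 4 * (d + 1) * s ^ 4 ≤ 1 → Good d s

/-- GD1: dimension two -/
def S_GD1 : Prop := ∀ s : ℝ, 0 < s → s ≤ 9 / 10 → Good 1 s

/-- GD2: dimension three -/
def S_GD2 : Prop := ∀ s : ℝ, 0 < s → s ≤ 4 / 5 → Good 2 s

end Pool.Agent.N526.CP
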