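import Pool.Agent.N526.CP.Stm2

/-!
# Regions of round caps are minimal fillings (PROJECT CPN, second part): statements
-/

set_option autoImplicit false

open MeasureTheory Metric Set Filter Topology InnerProductGeometry Matrix

namespace Pool.Agent.N526.CP

open Pool.Agent.H241R3.FV

/-- The distance in the unit sphere of the two points of the open hemisphere of dimension `n` with the
orthogonal projections `X`, `Y` to the equatorial space `E n`. -/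
noncomputable def hdist {n : ℕ} (X Y : E n) : ℝ :=
  Real.arccos (√(1 - ‖X‖ ^ 2) * √(1 - ‖Y‖ ^ 2) + inner ℝ X Y)

/-- `g θ` are `1`-Lipschitz functions on `M` with the boundary values `arcsin ⟨F x, θ⟩`. -/
structure FamF {d : ℕ} {M : Type} [MetricSpace M] (S : OFill (d + 1) M) (s : ℝ)
    (F : E (d + 1) → E (d + 1)) (g : Sph (d + 1) → M → ℝ) : Prop where
  lip : ∀ θ q q', |g θ q - g θ q'| ≤ dist q q'
  lipθ : ∃ C : ℝ, ∀ θ θ' q, |g θ q - g θ' q| ≤ C * ‖(θ : E (d + 1)) - (θ' : E (d + 1))‖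
  bdv : ∀ θ (x : Sph (d + 1)), g θ (S.bd x) = Real.arcsin (inner ℝ (F x) (θ : E (d + 1)))
  range : ∀ q, ‖∫ θ : Sph (d + 1), g θ q • (θ : E (d + 1)) ∂(sg (d + 1))‖ ≤ zf d s

/-- the map `Ψ_θ` on the ball -/
noncomputable def PsiF {d : ℕ} (F : E (d + 1) → E (d + 1)) (θ : Sph (d + 1)) (y : E (d + 1)) :
    E (d + 1) := Uf θ (F y) + Real.arcsin (ip (F y) θ) • (θ : E (d + 1))

/-- EXTF -/
def S_EXTF : Prop := ∀ (d : ℕ), 1 ≤ d → ∀ (M : Type) [MetricSpace M] [CompactSpace M]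
  (S : OFill (d + 1) M) (s : ℝ), 0 < s → s < 1 → ∀ (F : E (d + 1) → E (d + 1)),
  (∀ x : Sph (d + 1), ‖F x‖ ≤ s) →
  (∀ x y : Sph (d + 1), hdist (F x) (F y) ≤ dist (S.bd x) (S.bd y)) →
  ∃ g : Sph (d + 1) → M → ℝ, (∀ θ q q', |g θ q - g θ q'| ≤ dist q q') ∧
    (∃ C : ℝ, ∀ θ θ' q, |g θ q - g θ' q| ≤ C * ‖(θ : E (d + 1)) - (θ' : E (d + 1))‖) ∧
    (∀ θ (x : Sph (d + 1)), g θ (S.bd x) = Real.arcsin (inner ℝ (F x) (θ : E (d + 1)))) ∧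
    ∀ (e : E (d + 1)), ‖e‖ = 1 → ∀ (θ θ' : Sph (d + 1)),
      (θ' : E (d + 1)) = (θ : E (d + 1)) - (2 * inner ℝ e (θ : E (d + 1))) • e →
      0 ≤ ip e θ → ∀ q, g θ q - g θ' q ≤ 2 * Real.arcsin (s * ip e θ)

/-- FAMF -/
def S_FAMF : Prop := ∀ (d : ℕ), 1 ≤ d → ∀ (M : Type) [MetricSpace M] [CompactSpace M]
  (S : OFill (d + 1) M) (s : ℝ), 0 < s → s < 1 → ∀ (F : E (d + 1) → E (d + 1)),
  (∀ x : Sph (d + 1), ‖F x‖ ≤ s) →
  (∀ x y : Sph (d + 1), hdist (F x) (F y) ≤ dist (S.bd x) (S.bd y)) →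
  ∃ g : Sph (d + 1) → M → ℝ, FamF S s F g

/-- XDIFF -/
def S_XDIFF : Prop := ∀ (d : ℕ), 1 ≤ d → ∀ (M : Type) [MetricSpace M]
  [CompactSpace M] (S : OFill (d + 1) M) (s : ℝ) (F : E (d + 1) → E (d + 1))
  (g : Sph (d + 1) → M → ℝ), 0 < s → s < 1 →
  FamF S s F g → ∀ i, ∀ᵐ p ∂(volume : Measure (E (d + 1))), p ∈ (S.chart i).U →
    ∃ α : Sph (d + 1) → E (d + 1), Measurable α ∧
      (∀ᵐ θ ∂(sg (d + 1)), HasFDerivAt (g θ ∘ (S.chart i).map) (innerSL ℝ (α θ)) p) ∧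
      (∀ᵐ θ ∂(sg (d + 1)), ∀ v, |inner ℝ (α θ) v| ≤ gnorm ((S.chart i).G p) v) ∧
      HasFDerivAt (Xf g ∘ (S.chart i).map) (cl (Lm (Xf g ((S.chart i).map p)) α)) p

/-- PTWF -/
def S_PTWF : Prop := ∀ (d : ℕ), 1 ≤ d →
  ∀ (M : Type) [MetricSpace M] [CompactSpace M] (S : OFill (d + 1) M) (s : ℝ)
  (F : E (d + 1) → E (d + 1)) (g : Sph (d + 1) → M → ℝ), Good d s → FamF S s F g → ∀ i,
  ∀ᵐ p ∂(volume : Measure (E (d + 1))), p ∈ (S.chart i).U →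
    (d + 1) * ∫ θ, (fderiv ℝ (Psi g θ ∘ (S.chart i).map) p).det ∂(sg (d + 1)) -
      d * (fderiv ℝ (Hf ∘ Xf g ∘ (S.chart i).map) p).det ≤ √((S.chart i).G p).det

/-- LIPF -/
def S_LIPF : Prop := ∀ (d : ℕ), 1 ≤ d → ∀ (M : Type) [MetricSpace M] [CompactSpace M]
  (S : OFill (d + 1) M) (s : ℝ) (F : E (d + 1) → E (d + 1)) (g : Sph (d + 1) → M → ℝ),
  0 < s → s < 1 → FamF S s F g → ∀ (L : NNReal), LipschitzOnWith L F (closedBall 0 1) →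
  (∀ y ∈ closedBall (0 : E (d + 1)) 1, ‖F y‖ ≤ s) →
  ∃ K : NNReal, (∀ θ, LipschitzWith K (Psi g θ)) ∧ LipschitzWith K (Hf ∘ Xf g) ∧
    (∀ θ : Sph (d + 1), LipschitzOnWith K (PsiF F θ) (closedBall 0 1)) ∧
    LipschitzOnWith K (Hf ∘ F) (closedBall 0 1) ∧
    (∀ (θ x : Sph (d + 1)), Psi g θ (S.bd x) = PsiF F θ (x : E (d + 1))) ∧
    (∀ x : Sph (d + 1), Hf (Xf g (S.bd x)) = Hf (F (x : E (d + 1)))) ∧
    Continuous (fun z : Sph (d + 1) × M => Psi g z.1 z.2)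

/-- CAPVF -/
def S_CAPVF : Prop := ∀ (d : ℕ), 1 ≤ d → ∀ (s : ℝ), 0 < s → s < 1 →
  ∀ (F : E (d + 1) → E (d + 1)) (L : NNReal), LipschitzOnWith L F (closedBall 0 1) →
  (∀ y ∈ closedBall (0 : E (d + 1)) 1, ‖F y‖ ≤ s) →
  (d + 1) * ∫ θ, (∫ y in ball (0 : E (d + 1)) 1, (fderiv ℝ (PsiF F θ) y).det) ∂(sg (d + 1)) -
    d * ∫ y in ball (0 : E (d + 1)) 1, (fderiv ℝ (Hf ∘ F) y).det =
    ∫ y in ball (0 : E (d + 1)) 1, (fderiv ℝ F y).det * (√(1 - ‖F y‖ ^ 2))⁻¹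

/-- The region theorem: let `F` be a Lipschitz map of the closed unit ball of `E (d + 1)` to the ball
of radius `s` (the cap, in the coordinates given by the orthogonal projection), such that the
distances in `M` of the boundary points are at least the distances in the sphere of their images.
Then the volume of `M` is at least the (oriented) volume of the image. -/
def RegThm (d : ℕ) (s : ℝ) : Prop := ∀ (M : Type) [MetricSpace M] [CompactSpace M]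
  (S : OFill (d + 1) M) (F : E (d + 1) → E (d + 1)) (L : NNReal),
  LipschitzOnWith L F (closedBall 0 1) → (∀ y ∈ closedBall (0 : E (d + 1)) 1, ‖F y‖ ≤ s) →
  (∀ x y : Sph (d + 1), hdist (F x) (F y) ≤ dist (S.bd x) (S.bd y)) →
  ENNReal.ofReal (∫ y in ball (0 : E (d + 1)) 1, (fderiv ℝ F y).det * (√(1 - ‖F y‖ ^ 2))⁻¹) ≤
    S.vol

/-- MAINF -/
def S_MAINF : Prop := ∀ (d : ℕ), 1 ≤ d → ∀ (s : ℝ), Good d s → RegThm d s

/-- RCAP: the region theorem contains the cap theorem -/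
def S_RCAP : Prop := ∀ (d : ℕ), 1 ≤ d → ∀ (ρ : ℝ), 0 < ρ → ρ < Real.pi / 2 →
  RegThm d (Real.sin ρ) → CapThm d ρ

/-- INJF: for an injective map the integral is the volume of the image in the round metric -/
def S_INJF : Prop := ∀ (d : ℕ), 1 ≤ d → ∀ (F : E (d + 1) → E (d + 1)),
  InjOn F (ball 0 1) → (∀ y ∈ ball (0 : E (d + 1)) 1, DifferentiableAt ℝ F y ∧
    0 ≤ (fderiv ℝ F y).det ∧ ‖F y‖ < 1) →
  ∫ y in ball (0 : E (d + 1)) 1, (fderiv ℝ F y).det * (√(1 - ‖F y‖ ^ 2))⁻¹ =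
    ∫ X in F '' ball (0 : E (d + 1)) 1, (√(1 - ‖X‖ ^ 2))⁻¹

/-- GDB: dimension two, radius 66.9 degrees -/
def S_GDB : Prop := ∀ s : ℝ, 0 < s → s ≤ 23 / 25 → Good 1 s

/-- GDC: dimension four, radius 47.7 degrees -/
def S_GDC : Prop := ∀ s : ℝ, 0 < s → s ≤ 37 / 50 → Good 3 s

end Pool.Agent.N526.CP
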