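import Pool.Agent.N526.CP.Fin

/-!
# Round caps are minimal fillings (PROJECT CPN): the main theorem
-/

set_option autoImplicit false

open MeasureTheory Metric Set Filter Topology InnerProductGeometry

namespace Pool.Agent.N526.CP

open Pool.Agent.H241R3.FV

theorem van : S_VAN := VAN.t cha loc
theorem tel : S_TEL := TEL.t cha van
theorem sto : S_STO := STO.t cha tel bal
theorem xdif : S_XDIF := XDIF.t sph inv' der RAP.t
theorem ptw : S_PTW := PTW.t com sph inv' der UDER.t xdif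
theorem main : S_MAIN := MAIN.t sph fam ptw lip fub capv' CAPS.t sto

/-- Explicit conditions on the radius. -/
def Radius (d : ℕ) (ρ : ℝ) : Prop :=
  5 * (d + 1) * Real.sin ρ ^ 4 ≤ 3 ∨ (d = 1 ∧ Real.sin ρ ≤ 9 / 10) ∨
    (d = 2 ∧ Real.sin ρ ≤ 4 / 5) ∨ Good d (Real.sin ρ)

theorem Radius.good {d : ℕ} (hd : 1 ≤ d) {ρ : ℝ} (h0 : 0 < ρ) (h1 : ρ < Real.pi / 2)
    (h : Radius d ρ) : Good d (Real.sin ρ) := by
  have hs : 0 < Real.sin ρ := Real.sin_pos_of_pos_of_lt_pi h0 (by linarith [Real.pi_pos])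
  rcases h with h | ⟨rfl, h⟩ | ⟨rfl, h⟩ | h
  · exact gdn d hd _ hs h
  · exact gd1 _ hs h
  · exact gd2 _ hs h
  · exact h

theorem cap_thm {d : ℕ} (hd : 1 ≤ d) {ρ : ℝ} (h0 : 0 < ρ) (h1 : ρ < Real.pi / 2)
    (h : Radius d ρ) : CapThm d ρ := main d hd ρ h0 h1 (h.good hd h0 h1)

end Pool.Agent.N526.CP
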